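import Mathlib

/-!
# H4S, algebra part: definitions

Elementary language for Lie algebras of endomorphisms.
-/

set_option autoImplicit false

namespace H4S

open Module

section Defs

variable {k V : Type*} [Field k] [AddCommGroup V] [Module k V]

/-- A subspace of `End V` closed under commutators. -/
def IsLie (L : Submodule k (Module.End k V)) : Prop :=
  ∀ a ∈ L, ∀ b ∈ L, a * b - b * a ∈ L

/-- Semisimplicity of `V` over a set `L` of endomorphisms: every subspace stable under `L` has a
complement stable under `L`. -/
def SS (L : Set (Module.End k V)) : Prop :=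
  ∀ U : Submodule k V, (∀ a ∈ L, ∀ u ∈ U, a u ∈ U) →
    ∃ U' : Submodule k V, (∀ a ∈ L, ∀ u ∈ U', a u ∈ U') ∧ IsCompl U U'

/-- The iterated commutator `(ad x)^N y`. -/
def adIter (x : Module.End k V) (N : ℕ) (y : Module.End k V) : Module.End k V :=
  (fun z => x * z - z * x)^[N] y

/-- `x` is generic in `L`: every `y` in `L` killed by a power of `ad x` has a single eigenvalue
`τ c` on each generalized eigenspace of `x` (eigenvalue `c`), and every linear relation with
integer coefficients between the eigenvalues `c` of `x` holds for the numbers `τ c`. -/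
def GenProp (L : Submodule k (Module.End k V)) (x : Module.End k V) : Prop :=
  ∀ y ∈ L, (∃ N : ℕ, adIter x N y = 0) → ∃ τ : k → k,
    (∀ c : k, ∀ v ∈ x.maxGenEigenspace c,
      ∃ N : ℕ, ((y - algebraMap k (Module.End k V) (τ c)) ^ N) v = 0) ∧
    (∀ m : k →₀ ℤ, (∀ c ∈ m.support, x.HasEigenvalue c) →
      (m.sum fun c j => (j : k) * c) = 0 → (m.sum fun c j => (j : k) * τ c) = 0)

end Defs

section DefsF

variable {F V : Type*} [Field F] [AddCommGroup V] [Module F V]

/-- Base change of an endomorphism to a field `K` containing `F`. -/
def bc (K : Type*) [Field K] [Algebra F K] (x : Module.End F V) :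
    Module.End K (TensorProduct F K V) := LinearMap.baseChange K x

/-- The same property over a subfield `F` of `K`: `y` in `L` (over `F`), eigenvalues in `K`. -/
def GenPropF (K : Type*) [Field K] [Algebra F K] (L : Submodule F (Module.End F V))
    (x : Module.End F V) : Prop :=
  ∀ y ∈ L, (∃ N : ℕ, adIter x N y = 0) → ∃ τ : K → K,
    (∀ c : K, ∀ v ∈ Module.End.maxGenEigenspace (bc K x) c,
      ∃ N : ℕ, ((bc K y - algebraMap K (Module.End K (TensorProduct F K V)) (τ c)) ^ N) v = 0) ∧
    (∀ m : K →₀ ℤ, (∀ c ∈ m.support, Module.End.HasEigenvalue (bc K x) c) →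
      (m.sum fun c j => (j : K) * c) = 0 → (m.sum fun c j => (j : K) * τ c) = 0)

/-- The `K`-span of the base changes of the elements of `L`. -/
def spanK (K : Type*) [Field K] [Algebra F K] (L : Submodule F (Module.End F V)) :
    Submodule K (Module.End K (TensorProduct F K V)) :=
  Submodule.span K ((fun y : Module.End F V => bc K y) '' (L : Set (Module.End F V)))

end DefsF

end H4S
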