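import Mathlib

/-!
# H4S: generic elements, abstract form
-/

set_option autoImplicit false

namespace H4S

open Module LieModule LieAlgebra

attribute [local instance 100] LieRing.ofAssociativeRing

/-- Abstract genericity. `g` a Lie algebra acting on `V`, `Z` a space of endomorphisms, `x'` in `g`,
`x` an endomorphism (`x = x' + z0` in the applications). For every `y` in `g` killed by a power of
`ad x'` and every `z` in `Z` the endomorphism `y + z` has a single eigenvalue `τ c` on the
generalized eigenspace of `x` for `c`, and integer relations between the eigenvalues of `x` hold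
for the numbers `τ c`. -/
def GenA {K g V : Type*} [Field K] [LieRing g] [LieAlgebra K g] [AddCommGroup V] [Module K V]
    [LieRingModule g V] [LieModule K g V] (Z : Submodule K (Module.End K V)) (x' : g)
    (x : Module.End K V) : Prop :=
  ∀ y : g, (∃ N : ℕ, ((ad K g x') ^ N) y = 0) → ∀ z ∈ Z, ∃ τ : K → K,
    (∀ c : K, ∀ v ∈ x.maxGenEigenspace c,
      ∃ N : ℕ, ((toEnd K g V y + z - algebraMap K (Module.End K V) (τ c)) ^ N) v = 0) ∧
    (∀ m : K →₀ ℤ, (∀ c ∈ m.support, x.HasEigenvalue c) →
      (m.sum fun c j => (j : K) * c) = 0 → (m.sum fun c j => (j : K) * τ c) = 0)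

end H4S
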