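import Mathlib
import Pool.Agent.Lib.H4S.E0

/-!
# H4S, chunk EA: the Engel subalgebra of a generic element is a Cartan subalgebra
-/

set_option autoImplicit false

namespace H4S

open Module LieModule LieAlgebra

attribute [local instance 100] LieRing.ofAssociativeRing

theorem EA_aux {K V : Type*} [Field K] [AddCommGroup V] [Module K V] (n b : Module.End K V)
    (W : Submodule K V) (hb : ∀ v ∈ W, b v ∈ W) (hn : ∀ v ∈ W, n v ∈ W) (d : ℕ)
    (hd : ∀ v ∈ W, (n ^ d) v = 0) (v : V) (hv : v ∈ W) :
    (((ad K (Module.End K V) n) ^ (2 * d)) b) v = 0 := by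
  have h1 : ad K (Module.End K V) n =
      LinearMap.mulLeft K n + LinearMap.mulRight K (-n) := by
    rw [LieAlgebra.ad_eq_lmul_left_sub_lmul_right, Pi.sub_apply]
    ext a w
    simp [sub_eq_add_neg]
  have hc : Commute (LinearMap.mulLeft K n) (LinearMap.mulRight K (-n)) :=
    LinearMap.commute_mulLeft_right n (-n)
  have hnj : ∀ j : ℕ, ∀ w ∈ W, ((-n) ^ j) w ∈ W := by
    intro j
    induction j with
    | zero => intro w hw; exact hw
    | succ j ih =>
      intro w hw
      rw [pow_succ, Module.End.mul_apply]
      refine ih _ ?_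
      rw [LinearMap.neg_apply]
      exact W.neg_mem (hn w hw)
  have hbig : ∀ j : ℕ, d ≤ j → ∀ w ∈ W, (n ^ j) w = 0 := by
    intro j hj w hw
    obtain ⟨r, rfl⟩ := Nat.exists_eq_add_of_le hj
    rw [add_comm, pow_add, Module.End.mul_apply, hd w hw, map_zero]
  have hbig' : ∀ j : ℕ, d ≤ j → ∀ w ∈ W, ((-n) ^ j) w = 0 := by
    intro j hj w hw
    rw [neg_pow, Module.End.mul_apply, hbig j hj w hw, map_zero]
  rw [h1, hc.add_pow, LinearMap.sum_apply, LinearMap.sum_apply]
  refine Finset.sum_eq_zero fun m hm => ?_
  rw [LinearMap.pow_mulLeft, LinearMap.pow_mulRight, Module.End.mul_apply, Module.End.mul_apply]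
  have h2 : ((((2 * d).choose m : ℕ) : Module.End K (Module.End K V)) b) =
      ((2 * d).choose m) • b := by
    rw [Module.End.natCast_apply]
  rw [h2, map_nsmul, map_nsmul, LinearMap.smul_apply, LinearMap.mulRight_apply,
    LinearMap.mulLeft_apply, Module.End.mul_apply, Module.End.mul_apply]
  by_cases hmd : d ≤ m
  · rw [hbig m hmd _ (hb _ (hnj _ v hv)), smul_zero]
  · rw [hbig' (2 * d - m) (by omega) v hv, map_zero, map_zero, smul_zero]

/-- **EA** (M). `g` acts faithfully on `V`, `z0` in `Z` commutes with `g`,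
`x = x' + z0` generic. Then the Engel subalgebra `H` of `x'` is a Cartan subalgebra of `g`.

Proof. `H` consists of all `y` killed by a power of `ad x'`. Its normalizer is `H`
(`LieSubalgebra.normalizer_engel`). It remains to show that `H` is nilpotent; by Engel
(`LieAlgebra.isNilpotent_iff_forall`) it is enough that `ad y` is nilpotent on `H` for every `y` in
`H`. Let `y, u` in `H`. Write `V_c` for the generalized eigenspace of `x` for `c`; `V` is the direct
sum of the `V_c` (`K` algebraically closed). As `(ad x)^N y = (ad x')^N y = 0` (as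
endomorphisms; `z0` commutes with `g`), `y` maps `V_c` to itself: on `V_c`, with `X = x - c`,
`X^m y v = sum_i binom(m,i) (ad X)^i (y) X^(m-i) v`, and every term vanishes for large `m`. The same
for `u`. By genericity (with `z = 0`) `n = y - tau_c` is nilpotent on `V_c`, and
`(ad y)^k u = (ad n)^k u = sum_i +- binom(k,i) n^(k-i) u n^i = 0` on `V_c` for
`k >= 2 dim V`. So the endomorphism `(ad y)^k u` of `V` is zero, and `(ad y)^k u = 0` in `g` by
faithfulness, `k = 2 dim V` for all `u`. -/
theorem engel_cartan {K g V : Type*} [Field K] [IsAlgClosed K] [CharZero K] [LieRing g]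
    [LieAlgebra K g] [FiniteDimensional K g] [AddCommGroup V] [Module K V]
    [FiniteDimensional K V] [LieRingModule g V] [LieModule K g V] [IsFaithful K g V]
    (Z : Submodule K (Module.End K V)) (x' : g) (z0 : Module.End K V)
    (hz0 : ∀ y : g, Commute z0 (toEnd K g V y))
    (hgen : GenA Z x' (toEnd K g V x' + z0)) :
    (LieSubalgebra.engel K x').IsCartanSubalgebra := by
  classical
  set X : Module.End K V := toEnd K g V x' + z0 with hX
  have hadX : ∀ y : g, ad K (Module.End K V) X (toEnd K g V y) = toEnd K g V ⁅x', y⁆ := by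
    intro y
    rw [LieHom.map_lie, ad_apply, hX, add_lie]
    have h1 : ⁅z0, toEnd K g V y⁆ = 0 := by
      rw [LieRing.of_associative_ring_bracket]
      exact sub_eq_zero.2 (hz0 y)
    rw [h1, add_zero]
  have hadXj : ∀ (j : ℕ) (y : g), ((ad K (Module.End K V) X) ^ j) (toEnd K g V y) =
      toEnd K g V (((ad K g x') ^ j) y) := by
    intro j
    induction j with
    | zero => intro y; rfl
    | succ j ih =>
      intro y
      rw [pow_succ, pow_succ, Module.End.mul_apply, Module.End.mul_apply, hadX, ih, ad_apply]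
  have hpres : ∀ y ∈ LieSubalgebra.engel K x', ∀ c : K, ∀ v ∈ X.maxGenEigenspace c,
      toEnd K g V y v ∈ X.maxGenEigenspace c := by
    intro y hy c v hv
    obtain ⟨N, hN⟩ := (LieSubalgebra.mem_engel_iff K x' y).1 hy
    have h1 : toEnd K g V y ∈
        (toEnd K (Module.End K V) (Module.End K V) X).maxGenEigenspace (0 : K) := by
      rw [Module.End.mem_maxGenEigenspace]
      refine ⟨N, ?_⟩
      rw [zero_smul, sub_zero]
      have h2 := hadXj N y
      rw [hN, map_zero] at h2
      exact h2
    have h2 : v ∈ (toEnd K (Module.End K V) V X).maxGenEigenspace c := hv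
    have h3 := lie_mem_maxGenEigenspace_toEnd h1 h2
    rw [zero_add] at h3
    exact h3
  have hadpow : ∀ (y u : g) (j : ℕ), toEnd K g V (((ad K g y) ^ j) u) =
      ((ad K (Module.End K V) (toEnd K g V y)) ^ j) (toEnd K g V u) := by
    intro y u j
    induction j with
    | zero => rfl
    | succ j ih =>
      rw [pow_succ', pow_succ', Module.End.mul_apply, Module.End.mul_apply, ad_apply, ad_apply,
        LieHom.map_lie, ih]
  refine ⟨?_, LieSubalgebra.normalizer_engel K x'⟩
  rw [LieAlgebra.isNilpotent_iff_forall (R := K)]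
  rintro ⟨y, hy⟩
  refine ⟨2 * finrank K V, ?_⟩
  ext ⟨u, hu⟩
  have hcoe : ∀ j : ℕ, ((((ad K (LieSubalgebra.engel K x') ⟨y, hy⟩) ^ j) ⟨u, hu⟩ :
      LieSubalgebra.engel K x') : g) = ((ad K g y) ^ j) u := by
    intro j
    induction j with
    | zero => rfl
    | succ j ih =>
      rw [pow_succ', pow_succ', Module.End.mul_apply, Module.End.mul_apply, ad_apply, ad_apply,
        ← ih]
      rfl
  rw [hcoe]
  change ((ad K g y) ^ (2 * finrank K V)) u = 0
  apply (toEnd_eq_zero_iff K g V).1
  rw [hadpow]
  obtain ⟨τ, hτ, -⟩ := hgen y ((LieSubalgebra.mem_engel_iff K x' y).1 hy) 0 Z.zero_mem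
  have htop : (⊤ : Submodule K V) ≤ LinearMap.ker
      (((ad K (Module.End K V) (toEnd K g V y)) ^ (2 * finrank K V)) (toEnd K g V u)) := by
    rw [← Module.End.iSup_maxGenEigenspace_eq_top X]
    refine iSup_le fun c => ?_
    intro v hv
    rw [LinearMap.mem_ker]
    set n : Module.End K V := toEnd K g V y - algebraMap K (Module.End K V) (τ c) with hn
    have hadn : ad K (Module.End K V) (toEnd K g V y) = ad K (Module.End K V) n := by
      rw [hn, map_sub]
      have h1 : ad K (Module.End K V) (algebraMap K (Module.End K V) (τ c)) = 0 := by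
        ext b w
        rw [ad_apply, LieRing.of_associative_ring_bracket, Algebra.commutes, sub_self]
        rfl
      rw [h1, sub_zero]
    rw [hadn]
    refine EA_aux n (toEnd K g V u) (X.maxGenEigenspace c) (hpres u hu c) ?_ (finrank K V) ?_ v hv
    · intro w hw
      rw [hn, LinearMap.sub_apply, Module.algebraMap_end_apply]
      exact Submodule.sub_mem _ (hpres y hy c w hw) (Submodule.smul_mem _ _ hw)
    · intro w hw
      obtain ⟨N, hN⟩ := hτ c w hw
      rw [add_zero] at hN
      exact Module.End.ker_pow_le_ker_pow_finrank n N hN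
  ext v
  exact htop (Submodule.mem_top (x := v))

end H4S
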