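import Mathlib
import Pool.Agent.Lib.H4S.E0

/-!
# H4S, chunk EB: Cartan subalgebras act semisimply
-/

set_option autoImplicit false

namespace H4S

open Module LieModule LieAlgebra

attribute [local instance 100] LieRing.ofAssociativeRing

theorem EB_comm {K A : Type*} [Field K] [Ring A] [Algebra K A] {f n y : A}
    (hn : n ∈ Algebra.adjoin K {f}) (h : Commute y f) : Commute y n := by
  refine Algebra.adjoin_induction (p := fun x _ => Commute y x) ?_ ?_ ?_ ?_ hn
  · intro x hx
    rw [Set.mem_singleton_iff.1 hx]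
    exact h
  · intro r
    exact (Algebra.commutes r y).symm
  · intro a b _ _ ha hb
    exact ha.add_right hb
  · intro a b _ _ ha hb
    exact ha.mul_right hb

theorem EB_stable {K V : Type*} [Field K] [AddCommGroup V] [Module K V] {f n : Module.End K V}
    (hn : n ∈ Algebra.adjoin K {f}) (W : Submodule K V) (h : ∀ w ∈ W, f w ∈ W) :
    ∀ w ∈ W, n w ∈ W := by
  refine Algebra.adjoin_induction (p := fun x _ => ∀ w ∈ W, x w ∈ W) ?_ ?_ ?_ ?_ hn
  · intro x hx
    rw [Set.mem_singleton_iff.1 hx]
    exact h
  · intro r w hw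
    rw [Module.algebraMap_end_apply]
    exact W.smul_mem r hw
  · intro a b _ _ ha hb w hw
    exact W.add_mem (ha w hw) (hb w hw)
  · intro a b _ _ ha hb w hw
    exact ha _ (hb w hw)

theorem EB_eig {K V : Type*} [Field K] [AddCommGroup V] [Module K V] {f n : Module.End K V}
    (hn : n ∈ Algebra.adjoin K {f}) (hnil : _root_.IsNilpotent n) (v : V) (c : K)
    (hv : f v = c • v) : n v = 0 := by
  have h1 : ∃ c' : K, n v = c' • v := by
    refine Algebra.adjoin_induction (p := fun x _ => ∃ c' : K, x v = c' • v) ?_ ?_ ?_ ?_ hn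
    · intro x hx
      rw [Set.mem_singleton_iff.1 hx]
      exact ⟨c, hv⟩
    · intro r
      exact ⟨r, by rw [Module.algebraMap_end_apply]⟩
    · rintro a b _ _ ⟨ca, ha⟩ ⟨cb, hb⟩
      exact ⟨ca + cb, by rw [LinearMap.add_apply, ha, hb, add_smul]⟩
    · rintro a b _ _ ⟨ca, ha⟩ ⟨cb, hb⟩
      exact ⟨cb * ca, by rw [Module.End.mul_apply, hb, map_smul, ha, smul_smul]⟩
  obtain ⟨c', hc'⟩ := h1
  have h2 : ∀ j : ℕ, (n ^ j) v = c' ^ j • v := by
    intro j
    induction j with
    | zero => simp
    | succ j ih => rw [pow_succ', Module.End.mul_apply, ih, map_smul, hc', smul_smul, pow_succ]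
  obtain ⟨k, hk⟩ := hnil
  have h3 := h2 k
  rw [hk, LinearMap.zero_apply] at h3
  rcases smul_eq_zero.1 h3.symm with h4 | h4
  · rw [hc', eq_zero_of_pow_eq_zero h4, zero_smul]
  · rw [h4, map_zero]

/-- **EB** (M, only Mathlib). Let `g` have trivial radical, `H` a Cartan subalgebra, `V` a faithful
module, `Z` a set of endomorphisms of `V` commuting with `g`, such that every
subspace stable under `g` and `Z` has a complement stable under `g` and `Z`. Then every `h` in `H`
acts semisimply on `V`.

Proof. `g` is Killing. Let `h = s + n` be the Jordan decomposition in `End V`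
(`Module.End.exists_isNilpotent_isSemisimple`), `s, n` in `K[h]`. `ad h` is semisimple on `g`
(`LieAlgebra.IsKilling.isSemisimple_ad_of_mem_isCartanSubalgebra`). `ad s` and `ad n` (on `End V`)
are polynomials in `ad h` (`ad_mem_adjoin_of_isSemisimple`, `ad_mem_adjoin_of_isNilpotent` in
Mathlib.Algebra.Lie.AdjointAction.JordanChevalley), so they preserve the image of `g`
in `End V`, where `ad n` is nilpotent and a polynomial in the semisimple
endomorphism `ad h`, hence semisimple, hence zero. So `n` commutes with `g`; it commutes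
with `Z` since it is a polynomial in `h` and `h` commutes with `Z`. The kernel of `n` is stable under
`g` and `Z`; let `U'` be a stable complement. `U'` is stable under `h`, hence under `n`, and `n` is
injective and nilpotent on `U'`, so `U' = 0` and `n = 0`. -/
theorem cartan_semisimple {K g V : Type*} [Field K] [IsAlgClosed K] [CharZero K] [LieRing g]
    [LieAlgebra K g] [FiniteDimensional K g] [HasTrivialRadical K g] [AddCommGroup V] [Module K V]
    [FiniteDimensional K V] [LieRingModule g V] [LieModule K g V] [IsFaithful K g V]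
    (Z : Set (Module.End K V)) (hZ : ∀ z ∈ Z, ∀ y : g, Commute z (toEnd K g V y))
    (hss : ∀ U : Submodule K V, (∀ y : g, ∀ u ∈ U, ⁅y, u⁆ ∈ U) → (∀ z ∈ Z, ∀ u ∈ U, z u ∈ U) →
      ∃ U' : Submodule K V, (∀ y : g, ∀ u ∈ U', ⁅y, u⁆ ∈ U') ∧ (∀ z ∈ Z, ∀ u ∈ U', z u ∈ U') ∧
        IsCompl U U')
    (H : LieSubalgebra K g) [H.IsCartanSubalgebra] (h : g) (hh : h ∈ H) :
    (toEnd K g V h).IsSemisimple := by
  classical
  obtain ⟨n, hn, s, hs, hnil, hss', hns⟩ := (toEnd K g V h).exists_isNilpotent_isSemisimple
  have hcs : Commute n s := (EB_comm hs (EB_comm hn (Commute.refl _)).symm)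
  have hN : ad K (Module.End K V) n ∈ Algebra.adjoin K {ad K (Module.End K V) (toEnd K g V h)} := by
    rw [hns]
    exact ad_mem_adjoin_of_isNilpotent hcs hnil hss'
  have hNnil : _root_.IsNilpotent (ad K (Module.End K V) n) :=
    LieAlgebra.ad_nilpotent_of_nilpotent (R := K) hnil
  have hadss : (ad K g h).IsSemisimple :=
    LieAlgebra.IsKilling.isSemisimple_ad_of_mem_isCartanSubalgebra hh
  have hkill : ∀ y : g, ad K (Module.End K V) n (toEnd K g V y) = 0 := by
    have htop : (⊤ : Submodule K g) ≤ LinearMap.ker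
        ((ad K (Module.End K V) n).comp (toEnd K g V : g →ₗ[K] Module.End K V)) := by
      rw [← hadss.iSup_eigenspace_eq_top]
      refine iSup_le fun c => ?_
      intro y hy
      rw [Module.End.mem_eigenspace_iff, ad_apply] at hy
      rw [LinearMap.mem_ker, LinearMap.comp_apply]
      refine EB_eig hN hNnil _ c ?_
      change ⁅toEnd K g V h, toEnd K g V y⁆ = c • toEnd K g V y
      rw [← LieHom.map_lie, hy, map_smul]
    intro y
    exact htop (Submodule.mem_top (x := y))
  have hcn : ∀ y : g, Commute (toEnd K g V y) n := by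
    intro y
    have h1 : n * toEnd K g V y - toEnd K g V y * n = 0 := hkill y
    exact (sub_eq_zero.1 h1).symm
  have hcz : ∀ z ∈ Z, Commute z n := fun z hz => EB_comm hn (hZ z hz h)
  obtain ⟨U', hU'1, hU'2, hU'⟩ := hss (LinearMap.ker n)
    (by
      intro y m hm
      have hm' : n m = 0 := hm
      have h1 : n ⁅y, m⁆ = ⁅y, n m⁆ := congrArg (fun t : Module.End K V => t m) (hcn y).symm
      change n ⁅y, m⁆ = 0
      rw [h1, hm', lie_zero])
    (by
      intro z hz m hm
      have hm' : n m = 0 := hm
      have h1 : n (z m) = z (n m) := congrArg (fun t : Module.End K V => t m) (hcz z hz).symm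
      change n (z m) = 0
      rw [h1, hm', map_zero])
  have hUz : ∀ m ∈ U', n m ∈ U' := EB_stable hn U' (fun w hw => hU'1 h w hw)
  have hU'0 : ∀ m ∈ U', m = 0 := by
    obtain ⟨k, hk⟩ := hnil
    have h1 : ∀ j : ℕ, ∀ m ∈ U', (n ^ j) m = 0 → m = 0 := by
      intro j
      induction j with
      | zero => intro m _ h; exact h
      | succ j ih =>
        intro m hm h
        have h2 : n m = 0 := by
          refine ih (n m) (hUz m hm) ?_
          rw [pow_succ, Module.End.mul_apply] at h
          exact h
        have h4 : m ∈ LinearMap.ker n ⊓ U' := ⟨h2, hm⟩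
        rw [hU'.inf_eq_bot] at h4
        exact h4
    intro m hm
    exact h1 k m hm (by rw [hk, LinearMap.zero_apply])
  have hn0 : n = 0 := by
    ext v
    have hv : v ∈ LinearMap.ker n ⊔ U' := by
      rw [hU'.sup_eq_top]
      exact Submodule.mem_top
    obtain ⟨a, ha, b, hb, rfl⟩ := Submodule.mem_sup.1 hv
    rw [hU'0 b hb, add_zero]
    exact ha
  rw [hns, hn0, zero_add]
  exact hss'

end H4S
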