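import Mathlib
import Pool.Agent.Lib.H4S.E0

/-!
# H4S, chunk EC: elements with a single eigenvalue on each eigenspace of `x`
-/

set_option autoImplicit false

namespace H4S

open Module

/-- **EC** (S, only Mathlib). Let `y` be a semisimple endomorphism which has a single eigenvalue `τ c`
on the generalized eigenspace `V_c` of `x` for every `c` (in the sense of `GenA`). Then `y` is
the scalar `τ c` on `V_c`, and every subspace `W` stable under `x` is stable under `y`. -/
theorem scalar_of_generic {K V : Type*} [Field K] [IsAlgClosed K] [AddCommGroup V] [Module K V]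
    [FiniteDimensional K V] (x y : Module.End K V) (hy : y.IsSemisimple) (τ : K → K)
    (h : ∀ c : K, ∀ v ∈ x.maxGenEigenspace c,
      ∃ N : ℕ, ((y - algebraMap K (Module.End K V) (τ c)) ^ N) v = 0) :
    (∀ c : K, ∀ v ∈ x.maxGenEigenspace c, y v = τ c • v) ∧
    (∀ W : Submodule K V, (∀ w ∈ W, x w ∈ W) → ∀ w ∈ W, y w ∈ W) := by
  have h1 : ∀ c : K, ∀ v ∈ x.maxGenEigenspace c, y v = τ c • v := by
    intro c v hv
    obtain ⟨N, hN⟩ := h c v hv
    have h2 : v ∈ y.maxGenEigenspace (τ c) := by
      rw [Module.End.mem_maxGenEigenspace]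
      refine ⟨N, ?_⟩
      rw [← Algebra.algebraMap_eq_smul_one]
      exact hN
    rw [hy.isFinitelySemisimple.maxGenEigenspace_eq_eigenspace] at h2
    exact Module.End.mem_eigenspace_iff.1 h2
  refine ⟨h1, ?_⟩
  intro W hW w hw
  have h3 : W = ⨆ μ, W ⊓ x.maxGenEigenspace μ :=
    Submodule.eq_iSup_inf_genEigenspace ⊤ hW (Module.End.iSup_maxGenEigenspace_eq_top x)
  have h4 : W ≤ W.comap y := by
    conv_lhs => rw [h3]
    refine iSup_le fun μ => ?_
    intro u hu
    rw [Submodule.mem_inf] at hu
    rw [Submodule.mem_comap, h1 μ u hu.2]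
    exact W.smul_mem _ hu.1
  exact h4 hw

end H4S
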