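import Mathlib
import Pool.Agent.Lib.H4S.E0

/-!
# H4S, chunk ED: the trace relation passes from `x` to `y`
-/

set_option autoImplicit false

namespace H4S

open Module

/-- Trace of an endomorphism with a single eigenvalue on each generalized eigenspace of `x`. -/
theorem ED_trace {K U : Type*} [Field K] [IsAlgClosed K] [AddCommGroup U]
    [Module K U] [FiniteDimensional K U] (x y : Module.End K U) (τ : K → K)
    (hst : ∀ c : K, ∀ v ∈ x.maxGenEigenspace c, y v ∈ x.maxGenEigenspace c)
    (h : ∀ c : K, ∀ v ∈ x.maxGenEigenspace c, ∃ N : ℕ, ((y - τ c • (1 : Module.End K U)) ^ N) v = 0)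
    (s : Finset K) (hs : ∀ c, c ∉ s → x.maxGenEigenspace c = ⊥) :
    LinearMap.trace K U y = ∑ c ∈ s, τ c * (finrank K (x.maxGenEigenspace c) : K) := by
  classical
  have hds : DirectSum.IsInternal (fun c : K => x.maxGenEigenspace c) :=
    DirectSum.isInternal_submodule_of_iSupIndep_of_iSup_eq_top x.independent_maxGenEigenspace
      (Module.End.iSup_maxGenEigenspace_eq_top x)
  have hfin : {c : K | x.maxGenEigenspace c ≠ ⊥}.Finite :=
    s.finite_toSet.subset fun c hc => by
      by_contra hcs
      exact hc (hs c hcs)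
  rw [LinearMap.trace_eq_sum_trace_restrict' hds hfin (f := y) hst]
  have hsub : hfin.toFinset ⊆ s := by
    intro c hc
    by_contra hcs
    exact (hfin.mem_toFinset.1 hc) (hs c hcs)
  rw [← Finset.sum_subset hsub (by
    intro c _ hc
    have h1 : x.maxGenEigenspace c = ⊥ := by
      by_contra hne
      exact hc (hfin.mem_toFinset.2 hne)
    rw [h1]
    simp)]
  refine Finset.sum_congr rfl fun c _ => ?_
  have hnil : IsNilpotent (y.restrict (hst c) - τ c • (1 : Module.End K (x.maxGenEigenspace c))) := by
    rw [Module.End.isNilpotent_iff_of_finite]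
    intro m
    obtain ⟨N, hN⟩ := h c m m.2
    refine ⟨N, Subtype.ext ?_⟩
    rw [ZeroMemClass.coe_zero, ← hN]
    have key : ∀ N : ℕ, ∀ m : x.maxGenEigenspace c,
        ((((y.restrict (hst c) - τ c • (1 : Module.End K (x.maxGenEigenspace c))) ^ N) m :
          x.maxGenEigenspace c) : U) = ((y - τ c • (1 : Module.End K U)) ^ N) (m : U) := by
      intro N
      induction N with
      | zero => intro m; simp
      | succ N ih =>
        intro m
        rw [pow_succ, Module.End.mul_apply, ih, pow_succ, Module.End.mul_apply]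
        congr 1
    exact key N m
  have htr := LinearMap.isNilpotent_trace_of_isNilpotent hnil
  have h0 := htr.eq_zero
  rw [map_sub, map_smul, sub_eq_zero] at h0
  have h1 : LinearMap.trace K (x.maxGenEigenspace c) 1 =
      (finrank K (x.maxGenEigenspace c) : K) := LinearMap.trace_one K _
  rw [h0, h1, smul_eq_mul]

/-- **ED** (M, only Mathlib). Suppose `y` is the scalar `τ c` on the generalized eigenspace `V_c` of
`x` for every `c`, and integer relations between the eigenvalues `c` of `x` hold for the `τ c`. Let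
`W` be stable under `x` (and `y`), `n = dim V`, `r = dim W`, and `n tr(x|W) = r tr(x|V)`.
Then `n tr(y|W) = r tr(y|V)`.

Proof. `V` is the direct sum of the `V_c`, `W` is the direct sum of the `W_c = W ∩ V_c`
(generalized eigenspaces of `x` on `W`). `x - c` is nilpotent on `V_c`, so
`tr(x|V) = sum_c c dim V_c`, `tr(x|W) = sum_c c dim W_c`, `tr(y|V) = sum_c τ c dim V_c`,
`tr(y|W) = sum_c τ c dim W_c`. Put `m c = n dim W_c - r dim V_c` (an integer, zero if `c` is not an
eigenvalue of `x`). Then `sum_c m(c) c = n tr(x|W) - r tr(x|V) = 0`, so `sum_c m(c) τ c = 0`, which is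
`n tr(y|W) = r tr(y|V)`. -/
theorem trace_relation {K V : Type*} [Field K] [IsAlgClosed K] [CharZero K] [AddCommGroup V]
    [Module K V] [FiniteDimensional K V] (x y : Module.End K V) (τ : K → K)
    (h : ∀ c : K, ∀ v ∈ x.maxGenEigenspace c, y v = τ c • v)
    (hrel : ∀ m : K →₀ ℤ, (∀ c ∈ m.support, x.HasEigenvalue c) →
      (m.sum fun c j => (j : K) * c) = 0 → (m.sum fun c j => (j : K) * τ c) = 0)
    (W : Submodule K V) (hx : ∀ w ∈ W, x w ∈ W) (hy : ∀ w ∈ W, y w ∈ W)
    (htr : (finrank K V : K) * LinearMap.trace K W (x.restrict hx) =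
      (finrank K W : K) * LinearMap.trace K V x) :
    (finrank K V : K) * LinearMap.trace K W (y.restrict hy) =
      (finrank K W : K) * LinearMap.trace K V y := by
  classical
  set x' : Module.End K W := x.restrict hx with hx'
  set y' : Module.End K W := y.restrict hy with hy'
  have hfin : (Set.ofPred fun c => x.HasEigenvalue c).Finite := Module.End.finite_hasEigenvalue x
  set s : Finset K := hfin.toFinset with hs
  have hsm : ∀ c, c ∈ s ↔ x.HasEigenvalue c := fun c => by rw [hs, hfin.mem_toFinset]; rfl
  have hbot : ∀ {U : Type _} [AddCommGroup U] [Module K U] (z : Module.End K U) (c : K),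
      ¬ z.HasEigenvalue c → z.maxGenEigenspace c = ⊥ := by
    intro U _ _ z c hc
    by_contra hne
    exact hc (Module.End.HasUnifEigenvalue.lt (m := 1) (by norm_num)
      (show z.HasUnifEigenvalue c ⊤ from hne))
  have hV : ∀ c, c ∉ s → x.maxGenEigenspace c = ⊥ := fun c hc => hbot x c (by rwa [← hsm])
  -- elements of the generalized eigenspaces of `x'`
  have hpow : ∀ (c : K) (N : ℕ) (w : W), ((((x' - c • (1 : Module.End K W)) ^ N) w : W) : V) =
      ((x - c • (1 : Module.End K V)) ^ N) (w : V) := by
    intro c N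
    induction N with
    | zero => intro w; simp
    | succ N ih =>
      intro w
      rw [pow_succ, Module.End.mul_apply, ih, pow_succ, Module.End.mul_apply]
      congr 1
  have hmem : ∀ (c : K) (w : W), w ∈ x'.maxGenEigenspace c → (w : V) ∈ x.maxGenEigenspace c := by
    intro c w hw
    obtain ⟨N, hN⟩ := (Module.End.mem_maxGenEigenspace x' c w).1 hw
    refine (Module.End.mem_maxGenEigenspace x c _).2 ⟨N, ?_⟩
    rw [← hpow, hN]
    rfl
  have hW : ∀ c, c ∉ s → x'.maxGenEigenspace c = ⊥ := by
    intro c hc
    rw [Submodule.eq_bot_iff]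
    intro w hw
    have h1 := hmem c w hw
    rw [hV c hc, Submodule.mem_bot] at h1
    exact Subtype.ext h1
  -- traces
  have hstx : ∀ {U : Type _} [AddCommGroup U] [Module K U] (z : Module.End K U) (c : K),
      ∀ v ∈ z.maxGenEigenspace c, z v ∈ z.maxGenEigenspace c := fun z c =>
    Module.End.mapsTo_maxGenEigenspace_of_comm (Commute.refl z) c
  have t1 := ED_trace x x (fun c => c) (fun c => hstx x c)
    (fun c v hv => (Module.End.mem_maxGenEigenspace x c v).1 hv) s hV
  have t2 := ED_trace x' x' (fun c => c) (fun c => hstx x' c)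
    (fun c v hv => (Module.End.mem_maxGenEigenspace x' c v).1 hv) s hW
  have t3 := ED_trace x y τ (fun c v hv => by
      rw [h c v hv]
      exact Submodule.smul_mem _ _ hv)
    (fun c v hv => ⟨1, by
      rw [pow_one, LinearMap.sub_apply, LinearMap.smul_apply, Module.End.one_apply, h c v hv,
        sub_self]⟩) s hV
  have hy2 : ∀ c : K, ∀ w ∈ x'.maxGenEigenspace c, y' w = τ c • w := fun c w hw =>
    Subtype.ext (h c w (hmem c w hw))
  have t4 := ED_trace x' y' τ (fun c v hv => by
      rw [hy2 c v hv]
      exact Submodule.smul_mem _ _ hv)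
    (fun c v hv => ⟨1, by
      rw [pow_one, LinearMap.sub_apply, LinearMap.smul_apply, Module.End.one_apply, hy2 c v hv,
        sub_self]⟩) s hW
  let f : K → ℤ := fun c => (finrank K V : ℤ) * (finrank K (x'.maxGenEigenspace c) : ℤ) -
    (finrank K W : ℤ) * (finrank K (x.maxGenEigenspace c) : ℤ)
  have hf : ∀ c, f c ≠ 0 → c ∈ s := by
    intro c hc
    by_contra hcs
    apply hc
    show (finrank K V : ℤ) * (finrank K (x'.maxGenEigenspace c) : ℤ) -
      (finrank K W : ℤ) * (finrank K (x.maxGenEigenspace c) : ℤ) = 0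
    rw [hV c hcs, hW c hcs]
    simp
  let m : K →₀ ℤ := Finsupp.onFinset s f hf
  have hsum : ∀ g : K → K, (m.sum fun c j => (j : K) * g c) =
      (finrank K V : K) * (∑ c ∈ s, g c * (finrank K (x'.maxGenEigenspace c) : K)) -
      (finrank K W : K) * (∑ c ∈ s, g c * (finrank K (x.maxGenEigenspace c) : K)) := by
    intro g
    rw [Finsupp.onFinset_sum hf (fun c => by simp), Finset.mul_sum, Finset.mul_sum,
      ← Finset.sum_sub_distrib]
    refine Finset.sum_congr rfl fun c _ => ?_
    simp only [f]
    push_cast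
    ring
  have hres := hrel m (fun c hc => (hsm c).1 (hf c (by
    have h1 := Finsupp.mem_support_iff.1 hc
    exact h1))) (by
    rw [hsum (fun c => c), ← t1, ← t2, htr, sub_self])
  rw [hsum τ, ← t3, ← t4, sub_eq_zero] at hres
  exact hres

end H4S
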