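import Mathlib

/-!
# H4S, chunk CM: complements for commuting families of semisimple endomorphisms
-/

set_option autoImplicit false

namespace H4S

open Module

theorem CM_disjoint {K V ι : Type*} [Field K] [AddCommGroup V] [Module K V] (P A B : ι → Submodule K V)
    (hP : iSupIndep P) (hA : ∀ i, A i ≤ P i) (hB : ∀ i, B i ≤ P i)
    (hd : ∀ i, Disjoint (A i) (B i)) : Disjoint (⨆ i, A i) (⨆ i, B i) := by
  classical
  rw [Submodule.disjoint_def]
  intro x hxA hxB
  obtain ⟨f, hf, hfx⟩ := (Submodule.mem_iSup_iff_exists_finsupp A x).1 hxA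
  obtain ⟨g, hg, hgx⟩ := (Submodule.mem_iSup_iff_exists_finsupp B x).1 hxB
  have h := (iSupIndep_iff_finsetSum_eq_imp_eq P).1 hP (f.support ∪ g.support) f g
    (fun i _ => ⟨hA i (hf i), hB i (hg i)⟩) (by
      rw [← Finsupp.sum_of_support_subset f Finset.subset_union_left (fun _ v => v)
        (fun _ _ => rfl), ← Finsupp.sum_of_support_subset g Finset.subset_union_right
        (fun _ v => v) (fun _ _ => rfl), hfx, hgx])
  rw [← hfx, Finsupp.sum]
  refine Finset.sum_eq_zero fun i hi => ?_
  have h1 := h i (Finset.mem_union_left _ hi)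
  exact Submodule.disjoint_def.1 (hd i) _ (hf i) (h1 ▸ hg i)

/-- **CM** (M, only Mathlib). Let `C` be a set of pairwise commuting semisimple (= diagonalizable)
endomorphisms of a finite-dimensional space over an algebraically closed field. Every subspace
stable under `C` has a complement stable under `C`.

Proof. Induction on `dim V` (all `V` in the universe, or subspaces). If every `z` in `C` acts as a
scalar any complement works. Otherwise some `z` in `C` has at least two eigenvalues; `V` is the
direct sum of the eigenspaces `V_c` of `z` (`Module.End.IsSemisimple`, algebraically closed: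
`iSup_eigenspace_eq_top`), each is stable under `C`, of smaller dimension, the restrictions of the
elements of `C` to `V_c` are commuting and semisimple, and `W` is the direct sum of its
intersections `W_c` with the `V_c` (`W` is stable under `z`). By induction `W_c` has a
`C`-stable complement in `V_c`; take the sum of these complements. (Alternative: the
subalgebra generated by `C` is commutative and reduced, hence a semisimple ring.) -/
theorem compl_of_commuting {K V : Type*} [Field K] [IsAlgClosed K] [AddCommGroup V] [Module K V]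
    [FiniteDimensional K V] (C : Set (Module.End K V)) (hc : ∀ z ∈ C, ∀ z' ∈ C, Commute z z')
    (hs : ∀ z ∈ C, z.IsSemisimple) (W : Submodule K V) (hW : ∀ z ∈ C, ∀ w ∈ W, z w ∈ W) :
    ∃ W' : Submodule K V, (∀ z ∈ C, ∀ w ∈ W', z w ∈ W') ∧ IsCompl W W' := by
  classical
  let f : C → Module.End K V := fun z => z.1
  let P : (C → K) → Submodule K V := fun χ => ⨅ z, (f z).maxGenEigenspace (χ z)
  have hmaps : ∀ (i j : C) (φ : K), Set.MapsTo (f i) ((f j).maxGenEigenspace φ)
      ((f j).maxGenEigenspace φ) := fun i j φ =>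
    Module.End.mapsTo_maxGenEigenspace_of_comm (hc j.1 j.2 i.1 i.2) φ
  have hind : iSupIndep P := Module.End.independent_iInf_maxGenEigenspace_of_forall_mapsTo f hmaps
  have htop : ⨆ χ, P χ = ⊤ :=
    Module.End.iSup_iInf_maxGenEigenspace_eq_top_of_forall_mapsTo f hmaps
      (fun i => Module.End.iSup_maxGenEigenspace_eq_top (f i))
  have hscal : ∀ (z : C) (χ : C → K), ∀ v ∈ P χ, f z v = χ z • v := by
    intro z χ v hv
    have h1 : v ∈ (f z).maxGenEigenspace (χ z) := (Submodule.mem_iInf _).1 hv z
    rw [(hs z.1 z.2).isFinitelySemisimple.maxGenEigenspace_eq_eigenspace] at h1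
    exact Module.End.mem_eigenspace_iff.1 h1
  -- `W` is the sum of its intersections with the joint eigenspaces
  have hWm : ∀ i : C, Set.MapsTo (f i) W W := fun i w hw => hW i.1 i.2 w hw
  let g : C → Module.End K W := fun i => (f i).restrict (hWm i)
  have hgtop : ⨆ χ : C → K, ⨅ z, (g z).maxGenEigenspace (χ z) = ⊤ :=
    Module.End.iSup_iInf_maxGenEigenspace_eq_top_of_forall_mapsTo g
      (fun i j φ => Module.End.mapsTo_maxGenEigenspace_of_comm (by
        show g j * g i = g i * g j
        refine LinearMap.ext fun w => Subtype.ext ?_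
        exact LinearMap.congr_fun (hc j.1 j.2 i.1 i.2).eq (w : V)) φ)
      (fun i => Module.End.iSup_maxGenEigenspace_eq_top (g i))
  have hWsum : W ≤ ⨆ χ, W ⊓ P χ := by
    have h1 : ∀ χ, W ⊓ P χ = (⨅ z, (g z).maxGenEigenspace (χ z)).map W.subtype := fun χ =>
      Submodule.inf_iInf_maxGenEigenspace_of_forall_mapsTo f W hWm
    simp_rw [h1, ← Submodule.map_iSup]
    rw [hgtop, Submodule.map_top, Submodule.range_subtype]
  -- complements
  have hex : ∀ χ, ∃ B : Submodule K V, B ≤ P χ ∧ Disjoint (W ⊓ P χ) B ∧ (W ⊓ P χ) ⊔ B = P χ := by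
    intro χ
    obtain ⟨D, hD⟩ := exists_isCompl (W ⊓ P χ)
    refine ⟨D ⊓ P χ, inf_le_right, hD.disjoint.mono_right inf_le_left, ?_⟩
    rw [← sup_inf_assoc_of_le D (inf_le_right : W ⊓ P χ ≤ P χ), hD.codisjoint.eq_top, top_inf_eq]
  choose B hB1 hB2 hB3 using hex
  refine ⟨⨆ χ, B χ, ?_, ?_, ?_⟩
  · intro z hz w hw
    have h1 : (⨆ χ, B χ) ≤ Submodule.comap z (⨆ χ, B χ) := by
      refine iSup_le fun χ v hv => ?_
      rw [Submodule.mem_comap]
      have h2 := hscal ⟨z, hz⟩ χ v (hB1 χ hv)
      have h3 : z v = χ ⟨z, hz⟩ • v := h2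
      rw [h3]
      exact Submodule.smul_mem _ _ ((le_iSup B χ) hv)
    exact h1 hw
  · exact (CM_disjoint P (fun χ => W ⊓ P χ) B hind (fun χ => inf_le_right) hB1 hB2).mono_left hWsum
  · rw [codisjoint_iff, eq_top_iff, ← htop]
    refine iSup_le fun χ => ?_
    rw [← hB3 χ]
    exact sup_le (inf_le_left.trans le_sup_left) ((le_iSup B χ).trans le_sup_right)

end H4S
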