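import Mathlib

/-!
# H4S, chunk WA: the Casimir operator of a trace form
-/

set_option autoImplicit false

namespace H4S

open Module LieModule

attribute [local instance 100] LieRing.ofAssociativeRing

/-- **WA** (M, only Mathlib). Casimir operator. Let `S` be a finite-dimensional Lie algebra over a
field and `M` a finite-dimensional module whose trace form on `S` is nondegenerate. Then there is an
endomorphism `C` of `M` which commutes with `S`, maps `M` into `S M`, kills the invariants, and has
trace `dim S`.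

Proof. Let `b` be a basis of `S` and `b'` the dual basis for the trace form `B`
(`LinearMap.BilinForm.dualBasis`), `B (b'_i) (b_j) = delta_ij`. Put
`C = sum_i phi (b_i) phi (b'_i)`, `phi = toEnd`. For `y` in `S` write `[y, b_i] = sum_j a_ij b_j`,
`[y, b'_i] = sum_j c_ij b'_j`; then `a_ij = B ([y,b_i]) (b'_j) = - B (b_i) ([y, b'_j]) = - c_ji`, and
`[phi y, C] = sum_i phi [y,b_i] phi (b'_i) + phi (b_i) phi [y, b'_i]
 = sum_ij a_ij phi (b_j) phi (b'_i) + c_ij phi (b_i) phi (b'_j) = 0`. The trace is
`sum_i B (b_i) (b'_i) = dim S`. The other two properties are clear. -/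
theorem casimir {K S M : Type*} [Field K] [LieRing S] [LieAlgebra K S] [FiniteDimensional K S]
    [AddCommGroup M] [Module K M] [FiniteDimensional K M] [LieRingModule S M] [LieModule K S M]
    (hnd : (traceForm K S M).Nondegenerate) :
    ∃ C : Module.End K M, (∀ y : S, Commute C (toEnd K S M y)) ∧
      (∀ m : M, C m ∈ Submodule.span K {v : M | ∃ (y : S) (m' : M), ⁅y, m'⁆ = v}) ∧
      (∀ m : M, (∀ y : S, ⁅y, m⁆ = 0) → C m = 0) ∧
      LinearMap.trace K M C = (finrank K S : K) := by
  classical
  set B : LinearMap.BilinForm K S := traceForm K S M with hB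
  have hsymm : ∀ x y, B x y = B y x := fun x y => traceForm_comm K S M x y
  let b := Module.finBasis K S
  let b' := LinearMap.BilinForm.dualBasis B hnd b
  have hdual : ∀ i j, B (b' i) (b j) = if j = i then 1 else 0 :=
    fun i j => LinearMap.BilinForm.apply_dualBasis_left hnd b i j
  have hrepr' : ∀ x, x = ∑ j, B x (b j) • b' j := by
    intro x
    conv_lhs => rw [← b'.sum_repr x]
    refine Finset.sum_congr rfl fun j _ => ?_
    rw [LinearMap.BilinForm.dualBasis_repr_apply hnd b x j]
  have hrepr : ∀ x, x = ∑ j, B (b' j) x • b j := by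
    intro x
    conv_lhs => rw [← b.sum_repr x]
    refine Finset.sum_congr rfl fun j _ => ?_
    congr 1
    conv_rhs => rw [← b.sum_repr x, map_sum]
    rw [Finset.sum_eq_single j]
    · rw [map_smul, hdual, if_pos rfl, smul_eq_mul, mul_one]
    · intro k _ hkj
      rw [map_smul, hdual, if_neg hkj, smul_eq_mul, mul_zero]
    · intro h
      exact absurd (Finset.mem_univ j) h
  let φ := toEnd K S M
  let C : Module.End K M := ∑ i, φ (b i) * φ (b' i)
  refine ⟨C, ?_, ?_, ?_, ?_⟩
  · intro y
    have h1 : φ y * C - C * φ y = 0 := by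
      have h2 : φ y * C - C * φ y =
          ∑ i, (φ ⁅y, b i⁆ * φ (b' i) + φ (b i) * φ ⁅y, b' i⁆) := by
        change φ y * (∑ i, φ (b i) * φ (b' i)) - (∑ i, φ (b i) * φ (b' i)) * φ y = _
        rw [Finset.mul_sum, Finset.sum_mul, ← Finset.sum_sub_distrib]
        refine Finset.sum_congr rfl fun i _ => ?_
        rw [LieHom.map_lie, LieHom.map_lie, Ring.lie_def, Ring.lie_def]
        noncomm_ring
      have h3 : ∀ i, φ ⁅y, b i⁆ * φ (b' i) = ∑ j, B (b' j) ⁅y, b i⁆ • (φ (b j) * φ (b' i)) := by
        intro i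
        conv_lhs => rw [hrepr ⁅y, b i⁆]
        rw [map_sum, Finset.sum_mul]
        refine Finset.sum_congr rfl fun j _ => ?_
        rw [map_smul, smul_mul_assoc]
      have h4 : ∀ i, φ (b i) * φ ⁅y, b' i⁆ = ∑ j, B ⁅y, b' i⁆ (b j) • (φ (b i) * φ (b' j)) := by
        intro i
        conv_lhs => rw [hrepr' ⁅y, b' i⁆]
        rw [map_sum, Finset.mul_sum]
        refine Finset.sum_congr rfl fun j _ => ?_
        rw [map_smul, mul_smul_comm]
      rw [h2, Finset.sum_add_distrib, Finset.sum_congr rfl fun i _ => h3 i,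
        Finset.sum_congr rfl fun i _ => h4 i]
      rw [Finset.sum_comm (f := fun i j => B ⁅y, b' i⁆ (b j) • (φ (b i) * φ (b' j))),
        ← Finset.sum_add_distrib]
      refine Finset.sum_eq_zero fun i _ => ?_
      rw [← Finset.sum_add_distrib]
      refine Finset.sum_eq_zero fun j _ => ?_
      rw [← add_smul]
      have h5 : B (b' j) ⁅y, b i⁆ + B ⁅y, b' j⁆ (b i) = 0 := by
        have h6 := traceForm_apply_lie_apply K S M (b' j) y (b i)
        rw [← lie_skew (b' j) y] at h6
        rw [← hB] at h6
        rw [← h6, map_neg, LinearMap.neg_apply]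
        ring
      rw [h5, zero_smul]
    exact (sub_eq_zero.1 h1).symm
  · intro m
    change (∑ i, φ (b i) * φ (b' i)) m ∈ _
    rw [LinearMap.sum_apply]
    exact Submodule.sum_mem _ fun i _ => Submodule.subset_span ⟨b i, ⁅b' i, m⁆, rfl⟩
  · intro m hm
    change (∑ i, φ (b i) * φ (b' i)) m = 0
    rw [LinearMap.sum_apply]
    refine Finset.sum_eq_zero fun i _ => ?_
    change ⁅b i, ⁅b' i, m⁆⁆ = 0
    rw [hm, lie_zero]
  · change LinearMap.trace K M (∑ i, φ (b i) * φ (b' i)) = _
    rw [map_sum]
    have h1 : ∀ i, LinearMap.trace K M (φ (b i) * φ (b' i)) = 1 := by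
      intro i
      have h2 : LinearMap.trace K M (φ (b i) * φ (b' i)) = B (b i) (b' i) := rfl
      rw [h2, hsymm, hdual, if_pos rfl]
    rw [Finset.sum_congr rfl fun i _ => h1 i]
    simp

end H4S
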