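import Mathlib
import Pool.Agent.Lib.H4S.WA

/-!
# H4S, chunk WB: Weyl's theorem, direct sum form
-/

set_option autoImplicit false

namespace H4S

open Module LieModule

attribute [local instance 100] LieRing.ofAssociativeRing

section wbaux

variable {K g : Type*} [Field K] [CharZero K] [LieRing g] [LieAlgebra K g]
    [FiniteDimensional K g] [LieAlgebra.HasTrivialRadical K g]

omit [CharZero K] [FiniteDimensional K g] [LieAlgebra.HasTrivialRadical K g] in
theorem wb_span_lie (I : LieIdeal K g) (y : g) (hy : y ∈ ⁅I, I⁆) :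
    y ∈ Submodule.span K {v : g | ∃ a ∈ I, ∃ b ∈ I, ⁅a, b⁆ = v} := by
  have h := hy
  rw [← LieSubmodule.mem_toSubmodule, LieSubmodule.lieIdeal_oper_eq_linear_span'] at h
  exact h

/-- Ideals of a Lie algebra with trivial radical are perfect. -/
theorem wb_perfect (I : LieIdeal K g) : ⁅I, I⁆ = I := by
  have hk : LieAlgebra.IsKilling K g := inferInstance
  set D : LieIdeal K g := ⁅I, I⁆ with hD
  have hDI : D ≤ I := LieSubmodule.lie_le_left I I
  have hc := LieIdeal.isCompl_killingCompl (K := K) D
  set C := D.killingCompl with hC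
  have habel : IsLieAbelian (I ⊓ C : LieIdeal K g) := by
    rw [LieSubmodule.lie_abelian_iff_lie_self_eq_bot, eq_bot_iff, ← hc.inf_eq_bot]
    refine le_inf ?_ ?_
    · exact LieSubmodule.mono_lie inf_le_left inf_le_left
    · exact (LieSubmodule.lie_le_right (I ⊓ C) (I ⊓ C)).trans inf_le_right
  have h0 : (I ⊓ C : LieIdeal K g) = ⊥ := LieAlgebra.IsKilling.ideal_eq_bot_of_isLieAbelian _
  apply le_antisymm hDI
  intro y hy
  have h1 : y ∈ D ⊔ C := by rw [hc.sup_eq_top]; trivial
  obtain ⟨a, ha, b, hb, hab⟩ := (LieSubmodule.mem_sup _ _ _).1 h1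
  have h2 : b ∈ I ⊓ C := by
    refine ⟨?_, hb⟩
    have h3 : b = y - a := by rw [← hab]; abel
    rw [h3]
    exact I.sub_mem hy (hDI ha)
  rw [h0, LieSubmodule.mem_bot] at h2
  rw [← hab, h2, add_zero]
  exact ha

/-- An ideal on which the trace form of `M` vanishes acts trivially. -/
theorem wb_trivial {M : Type*} [AddCommGroup M] [Module K M] [FiniteDimensional K M]
    [LieRingModule g M] [LieModule K g M] (I : LieIdeal K g)
    (h : ∀ y ∈ I, ∀ z ∈ I, traceForm K g M y z = 0) : ∀ y ∈ I, ∀ m : M, ⁅y, m⁆ = 0 := by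
  have hperf := wb_perfect I
  have htf : traceForm K I M = 0 := by
    ext ⟨x, hx⟩ ⟨y, hy⟩
    exact h x hx y hy
  have hnil := LieModule.isNilpotent_derivedSeries_of_traceForm_eq_zero htf
  rw [isNilpotent_iff_forall' (R := K)] at hnil
  have hnilI : LieModule.IsNilpotent I M := by
    rw [isNilpotent_iff_forall' (R := K)]
    rintro ⟨x, hx⟩
    have hx2 : (⟨x, hx⟩ : I) ∈ LieAlgebra.derivedSeries K I 1 := by
      rw [LieIdeal.derivedSeries_eq_derivedSeriesOfIdeal_comap]
      rw [LieIdeal.mem_comap]
      rw [LieAlgebra.derivedSeriesOfIdeal_succ, LieAlgebra.derivedSeriesOfIdeal_zero, hperf]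
      exact hx
    exact hnil ⟨⟨x, hx⟩, hx2⟩
  obtain ⟨k, hk⟩ := (LieModule.isNilpotent_iff K I M).1 hnilI
  have key : ∀ m : ℕ, ∀ (y : g) (hy : y ∈ I), ∀ v : M,
      ⁅(⟨y, hy⟩ : I), v⁆ ∈ lowerCentralSeries K I M m := by
    intro m
    induction m with
    | zero => intro y hy v; simp
    | succ m ih =>
      intro y hy v
      have hy' : y ∈ ⁅I, I⁆ := by rw [hperf]; exact hy
      have hsp := wb_span_lie I y hy'
      have h1 : ⁅y, v⁆ ∈ lowerCentralSeries K I M (m + 1) := by
        clear hy' hy
        induction hsp using Submodule.span_induction with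
        | mem x hx =>
          obtain ⟨a, ha, b, hb, rfl⟩ := hx
          rw [lie_lie]
          refine sub_mem ?_ ?_
          · rw [lowerCentralSeries_succ]
            exact LieSubmodule.lie_mem_lie (LieSubmodule.mem_top (⟨a, ha⟩ : I)) (ih b hb v)
          · rw [lowerCentralSeries_succ]
            exact LieSubmodule.lie_mem_lie (LieSubmodule.mem_top (⟨b, hb⟩ : I)) (ih a ha v)
        | zero => rw [zero_lie]; exact LieSubmodule.zero_mem _
        | add x z _ _ hx hz => rw [add_lie]; exact add_mem hx hz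
        | smul c x _ hx => rw [smul_lie]; exact SMulMemClass.smul_mem c hx
      exact h1
  intro y hy m
  have h1 := key k y hy m
  rw [hk, LieSubmodule.mem_bot] at h1
  exact h1

/-- The operator of WB: commutes with `g`, image in `g M`, kills the invariants, and if it is
nilpotent then `g` acts trivially. -/
theorem wb_operator {M : Type*} [AddCommGroup M] [Module K M] [FiniteDimensional K M]
    [LieRingModule g M] [LieModule K g M] :
    ∃ C : Module.End K M, (∀ y : g, Commute C (toEnd K g M y)) ∧
      (∀ m : M, C m ∈ Submodule.span K {v : M | ∃ (y : g) (m' : M), ⁅y, m'⁆ = v}) ∧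
      (∀ m : M, (∀ y : g, ⁅y, m⁆ = 0) → C m = 0) ∧
      (_root_.IsNilpotent C → ∀ (y : g) (m : M), ⁅y, m⁆ = 0) := by
  have hk : LieAlgebra.IsKilling K g := inferInstance
  let I : LieIdeal K g :=
    { carrier := {y | ∀ z, traceForm K g M y z = 0}
      add_mem' := by
        intro a b ha hb z
        rw [map_add, LinearMap.add_apply, ha z, hb z, add_zero]
      zero_mem' := by
        intro z
        rw [map_zero, LinearMap.zero_apply]
      smul_mem' := by
        intro c a ha z
        rw [map_smul, LinearMap.smul_apply, ha z, smul_zero]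
      lie_mem := by
        intro x m hm z
        rw [← lie_skew, map_neg, LinearMap.neg_apply, traceForm_apply_lie_apply]
        rw [hm ⁅x, z⁆, neg_zero] }
  have hImem : ∀ y, y ∈ I ↔ ∀ z, traceForm K g M y z = 0 := fun y => Iff.rfl
  have htriv := wb_trivial (M := M) I (fun y hy z _ => hy z)
  have hc := LieIdeal.isCompl_killingCompl (K := K) I
  set J := I.killingCompl with hJ
  have hdec : ∀ y : g, ∃ a ∈ I, ∃ b ∈ J, a + b = y := by
    intro y
    have h1 : y ∈ I ⊔ J := by rw [hc.sup_eq_top]; trivial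
    obtain ⟨a, ha, b, hb, hab⟩ := (LieSubmodule.mem_sup _ _ _).1 h1
    exact ⟨a, ha, b, hb, hab⟩
  have hnd1 : ∀ y : J, (∀ z : J, traceForm K J M y z = 0) → y = 0 := by
    rintro ⟨y, hy⟩ h
    have h1 : y ∈ I := by
      rw [hImem]
      intro z
      obtain ⟨a, ha, b, hb, rfl⟩ := hdec z
      rw [map_add, traceForm_comm K g M y a, ha y, zero_add]
      exact h ⟨b, hb⟩
    have h2 : y ∈ I ⊓ J := ⟨h1, hy⟩
    rw [hc.inf_eq_bot, LieSubmodule.mem_bot] at h2
    exact Subtype.ext h2
  have hnd : (traceForm K J M).Nondegenerate := by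
    refine (LieModule.traceForm_isSymm K J M).isRefl.nondegenerate_iff_separatingLeft.mpr ?_
    intro y hy
    exact hnd1 y hy
  obtain ⟨C, h1, h2, h3, h4⟩ := casimir hnd
  refine ⟨C, ?_, ?_, ?_, ?_⟩
  · intro y
    obtain ⟨a, ha, b, hb, rfl⟩ := hdec y
    have e1 : toEnd K g M (a + b) = toEnd K J M ⟨b, hb⟩ := by
      ext m
      rw [map_add, LinearMap.add_apply]
      change ⁅a, m⁆ + ⁅b, m⁆ = ⁅b, m⁆
      rw [htriv a ha, zero_add]
    rw [e1]
    exact h1 ⟨b, hb⟩
  · intro m
    refine Submodule.span_mono ?_ (h2 m)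
    rintro v ⟨y, m', rfl⟩
    exact ⟨y, m', rfl⟩
  · intro m hm
    exact h3 m (fun y => hm y)
  · intro hnil y m
    have h5 : LinearMap.trace K M C = 0 := (LinearMap.isNilpotent_trace_of_isNilpotent hnil).eq_zero
    rw [h4] at h5
    have h6 : finrank K J = 0 := by exact_mod_cast h5
    have h7 : Subsingleton J := Module.finrank_zero_iff.1 h6
    obtain ⟨a, ha, b, hb, rfl⟩ := hdec y
    have h8 : (⟨b, hb⟩ : J) = 0 := Subsingleton.elim _ _
    have h9 : b = 0 := congrArg Subtype.val h8
    rw [h9, add_zero]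
    exact htriv a ha m

theorem wb_main (n : ℕ) : ∀ {M : Type*} [AddCommGroup M] [Module K M] [FiniteDimensional K M]
    [LieRingModule g M] [LieModule K g M], finrank K M = n →
    (∀ m : M, ∃ m0 m1 : M, m = m0 + m1 ∧ (∀ y : g, ⁅y, m0⁆ = 0) ∧
      m1 ∈ Submodule.span K {v : M | ∃ (y : g) (m' : M), ⁅y, m'⁆ = v}) ∧
    (∀ m : M, (∀ y : g, ⁅y, m⁆ = 0) →
      m ∈ Submodule.span K {v : M | ∃ (y : g) (m' : M), ⁅y, m'⁆ = v} → m = 0) := by
  classical
  induction n using Nat.strong_induction_on with
  | _ n ih =>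
    intro M _ _ _ _ _ hn
    obtain ⟨C, hC1, hC2, hC3, hC4⟩ := wb_operator (K := K) (g := g) (M := M)
    by_cases hnil : _root_.IsNilpotent C
    · have htr := hC4 hnil
      refine ⟨fun m => ⟨m, 0, (add_zero m).symm, fun y => htr y m, Submodule.zero_mem _⟩, ?_⟩
      intro m _ hm
      have h1 : {v : M | ∃ (y : g) (m' : M), ⁅y, m'⁆ = v} ⊆ {0} := by
        rintro _ ⟨y, m', rfl⟩
        exact htr y m'
      have h2 := Submodule.span_mono (R := K) h1 hm
      rw [Submodule.span_zero_singleton] at h2
      exact (Submodule.mem_bot K).1 h2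
    · obtain ⟨k0, hk0⟩ := Filter.eventually_atTop.1 (C.eventually_isCompl_ker_pow_range_pow)
      set k := max k0 1 with hk
      have hk1 : 1 ≤ k := le_max_right _ _
      have hc := hk0 k (le_max_left _ _)
      have hCk : ∀ (y : g) (m : M), (C ^ k) ⁅y, m⁆ = ⁅y, (C ^ k) m⁆ := by
        intro y m
        have h1 := ((hC1 y).pow_left k).eq
        exact LinearMap.congr_fun h1 m
      let M0 : LieSubmodule K g M :=
        { toSubmodule := LinearMap.ker (C ^ k)
          lie_mem := by
            intro x m hm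
            change (C ^ k) ⁅x, m⁆ = 0
            have hm' : (C ^ k) m = 0 := hm
            rw [hCk, hm', lie_zero] }
      have hM0 : ∀ m : M, m ∈ M0 ↔ (C ^ k) m = 0 := fun m => Iff.rfl
      set R := LinearMap.range (C ^ k) with hR
      have hRlie : ∀ (y : g), ∀ m ∈ R, ⁅y, m⁆ ∈ R := by
        rintro y _ ⟨m, rfl⟩
        exact ⟨⁅y, m⁆, hCk y m⟩
      have hRsp : ∀ m ∈ R, m ∈ Submodule.span K {v : M | ∃ (y : g) (m' : M), ⁅y, m'⁆ = v} := by
        rintro _ ⟨m, rfl⟩
        have h1 : (C ^ k) m = C ((C ^ (k - 1)) m) := by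
          rw [← Module.End.mul_apply, ← pow_succ', Nat.sub_add_cancel hk1]
        rw [h1]
        exact hC2 _
      have hlt : finrank K M0 < n := by
        rw [← hn]
        apply Submodule.finrank_lt
        intro h
        apply hnil
        exact ⟨k, LinearMap.ker_eq_top.1 h⟩
      obtain ⟨ih1, ih2⟩ := ih _ hlt (M := M0) rfl
      have hsub : ∀ x : M0, x ∈ Submodule.span K {v : M0 | ∃ (y : g) (m' : M0), ⁅y, m'⁆ = v} →
          (x : M) ∈ Submodule.span K {v : M | ∃ (y : g) (m' : M), ⁅y, m'⁆ = v} := by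
        intro x hx
        have h1 := Submodule.mem_map_of_mem (f := M0.toSubmodule.subtype) hx
        rw [Submodule.map_span] at h1
        refine Submodule.span_mono ?_ h1
        rintro _ ⟨_, ⟨y, m', rfl⟩, rfl⟩
        exact ⟨y, m', rfl⟩
      refine ⟨?_, ?_⟩
      · intro m
        have h1 : m ∈ LinearMap.ker (C ^ k) ⊔ R := by rw [hR, hc.sup_eq_top]; trivial
        obtain ⟨u, hu, v, hv, huv⟩ := Submodule.mem_sup.1 h1
        obtain ⟨u0, u1, h2, h3, h4⟩ := ih1 ⟨u, hu⟩
        refine ⟨u0, u1 + v, ?_, ?_, ?_⟩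
        · have h5 : u = (u0 : M) + u1 := congrArg Subtype.val h2
          rw [← huv, h5, add_assoc]
        · intro y
          exact congrArg Subtype.val (h3 y)
        · exact Submodule.add_mem _ (hsub u1 h4) (hRsp v hv)
      · intro m hm hmsp
        let π : M →ₗ[K] LinearMap.ker (C ^ k) := (LinearMap.ker (C ^ k)).projectionOnto R hc
        have hπ0 : ∀ u (hu : u ∈ LinearMap.ker (C ^ k)), π u = ⟨u, hu⟩ :=
          fun u hu => Submodule.projectionOnto_apply_left hc ⟨u, hu⟩
        have hπ1 : ∀ v ∈ R, π v = 0 := fun v hv => Submodule.projectionOnto_apply_right hc ⟨v, hv⟩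
        have hπlie : ∀ (y : g) (x : M), π ⁅y, x⁆ = (⟨⁅y, (π x : M)⁆, M0.lie_mem (π x).2⟩ :
            LinearMap.ker (C ^ k)) := by
          intro y x
          have h1 : x ∈ LinearMap.ker (C ^ k) ⊔ R := by rw [hR, hc.sup_eq_top]; trivial
          obtain ⟨u, hu, v, hv, rfl⟩ := Submodule.mem_sup.1 h1
          rw [lie_add, map_add, hπ1 _ (hRlie y v hv), add_zero]
          have h2 : π (u + v) = ⟨u, hu⟩ := by rw [map_add, hπ0 u hu, hπ1 v hv, add_zero]
          rw [hπ0 _ (M0.lie_mem hu)]
          apply Subtype.ext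
          change ⁅y, u⁆ = ⁅y, ((π (u + v) : LinearMap.ker (C ^ k)) : M)⁆
          rw [h2]
        have hmk : m ∈ LinearMap.ker (C ^ k) := by
          rw [LinearMap.mem_ker]
          have h1 : (C ^ k) m = (C ^ (k - 1)) (C m) := by
            rw [← Module.End.mul_apply, ← pow_succ, Nat.sub_add_cancel hk1]
          rw [h1, hC3 m hm, map_zero]
        have h1 : (⟨m, hmk⟩ : M0) ∈
            Submodule.span K {v : M0 | ∃ (y : g) (m' : M0), ⁅y, m'⁆ = v} := by
          have h2 := Submodule.mem_map_of_mem (f := π) hmsp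
          rw [hπ0 m hmk, Submodule.map_span] at h2
          refine Submodule.span_mono ?_ h2
          rintro _ ⟨_, ⟨y, m', rfl⟩, rfl⟩
          rw [hπlie]
          exact ⟨y, π m', rfl⟩
        have h2 := ih2 ⟨m, hmk⟩ (fun y => Subtype.ext (hm y)) h1
        exact congrArg Subtype.val h2

end wbaux

/-- **WB** (M, uses `casimir`). Let `g` be a finite-dimensional Lie algebra with trivial radical over
a field of characteristic zero and `M` a finite-dimensional module. Then `M` is the direct sum of
the space of invariants and of `gM` (the span of all `[y, m]`).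

Proof. `g` is Killing (`LieAlgebra.HasTrivialRadical.instIsKilling`). Let `I` be the ideal
of all `y` with `B y z = 0` for all `z` (`B` the trace form of `M`). The trace form of `M` on the Lie
algebra `I` is zero, so `[I, I]` acts nilpotently on `M`
(`LieModule.isNilpotent_derivedSeries_of_traceForm_eq_zero`). `I` is perfect: `[I,I]` is an ideal,
`g = I + J` with `J = killingCompl I` (`LieIdeal.isCompl_killingCompl`), `I / [I,I]` is abelian, so
(apply the same to the ideal `[I,I]`) the complement `I'` of `[I,I]` in `g` intersects `I` in an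
abelian ideal, which is zero (`LieAlgebra.IsKilling.ideal_eq_bot_of_isLieAbelian`). So `I` acts
nilpotently on `M` and the image of `I` in `End M` is a nilpotent Lie algebra (Engel) equal
to its derived algebra, hence zero: `I` acts trivially on `M`. The trace form of `M` on the ideal `J`
is nondegenerate: `y` in `J` with `B y J = 0` has `B y g = 0` (as `I` acts trivially), so `y` is in
`I` and in `J`, `y = 0`. Let `C` be the Casimir operator of `J` (`casimir`); it commutes with
`J` and with `I`, so with `g`; `C M` is contained in `g M` and `C` kills the invariants.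
Induction on `dim M`. If `J = 0` then `g` acts trivially and everything is clear. Otherwise the trace
`dim J` of `C` is not zero, so `C` is not nilpotent. Fitting: `M = M_0 + M_1` (direct), `M_0` the
kernel and `M_1` the range of a high power of `C`, both submodules (`C` commutes with `g`), `M_1`
nonzero, `C` bijective on `M_1`. `M_1 = C M_1` is contained in `g M_1`; invariants are in `M_0`. By
induction `M_0 = M_0^g + g M_0` (direct). Hence `M^g = M_0^g`, `g M = g M_0 + M_1`, and
`M = M^g + g M` directly. (It may be convenient to do the induction over submodules, or over all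
modules in the universe of `M`.) -/
theorem weyl {K g M : Type*} [Field K] [CharZero K] [LieRing g] [LieAlgebra K g]
    [FiniteDimensional K g] [LieAlgebra.HasTrivialRadical K g]
    [AddCommGroup M] [Module K M] [FiniteDimensional K M] [LieRingModule g M] [LieModule K g M] :
    (∀ m : M, ∃ m0 m1 : M, m = m0 + m1 ∧ (∀ y : g, ⁅y, m0⁆ = 0) ∧
      m1 ∈ Submodule.span K {v : M | ∃ (y : g) (m' : M), ⁅y, m'⁆ = v}) ∧
    (∀ m : M, (∀ y : g, ⁅y, m⁆ = 0) →
      m ∈ Submodule.span K {v : M | ∃ (y : g) (m' : M), ⁅y, m'⁆ = v} → m = 0) :=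
  wb_main _ rfl

end H4S
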