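import Mathlib
import Pool.Agent.Lib.H4S.WB
import Pool.Agent.Lib.H4S.CM

/-!
# H4S, chunk PR: equivariant projectors
-/

set_option autoImplicit false

namespace H4S

open Module LieModule

attribute [local instance 100] LieRing.ofAssociativeRing

/-- **PR** (M, uses `weyl`, `compl_of_commuting`). Let `g` be a Lie algebra with trivial radical acting
on `V`, and `C` a set of pairwise commuting semisimple endomorphisms of `V` which commute with `g`.
Every subspace `W` stable under `g` and `C` is the image of a projector commuting with `g` and `C`.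

Proof. Let `M` be the space of all endomorphisms `phi` of `V` with `phi V` in `W` which commute with
all elements of `C`, and `N` the space of all endomorphisms of `W` which commute with the restrictions
of the elements of `C` to `W`. `g` acts on both by commutators (`y . phi = y phi - phi y`; `M` is
a Lie submodule of `End V`, `N` a Lie submodule of `End W`), and restriction to `W` is a
morphism `r : M -> N`. `r` is surjective: by `compl_of_commuting` `W` has a `C`-stable
complement `W'`; extend an element of `N` by zero on `W'`. By `weyl` for `M`, and `r`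
surjective, choose `phi` in `M` with `r phi = id`, `phi = phi_0 + phi_1` with `phi_0` invariant and
`phi_1` in `g M`. Then `id - r phi_0 = r phi_1` is in `g N` and is invariant under `g`, so it is zero
by the second part of `weyl` for `N`. `e = phi_0` is the projector. -/
theorem projector {K g V : Type*} [Field K] [IsAlgClosed K] [CharZero K] [LieRing g]
    [LieAlgebra K g] [FiniteDimensional K g] [LieAlgebra.HasTrivialRadical K g]
    [AddCommGroup V] [Module K V] [FiniteDimensional K V] [LieRingModule g V] [LieModule K g V]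
    (C : Set (Module.End K V)) (h1 : ∀ z ∈ C, ∀ y : g, Commute z (toEnd K g V y))
    (h2 : ∀ z ∈ C, ∀ z' ∈ C, Commute z z') (h3 : ∀ z ∈ C, z.IsSemisimple)
    (W : Submodule K V) (hW1 : ∀ y : g, ∀ w ∈ W, ⁅y, w⁆ ∈ W) (hW2 : ∀ z ∈ C, ∀ w ∈ W, z w ∈ W) :
    ∃ e : Module.End K V, (∀ v, e v ∈ W) ∧ (∀ w ∈ W, e w = w) ∧
      (∀ y : g, Commute (toEnd K g V y) e) ∧ ∀ z ∈ C, Commute z e := by
  classical
  obtain ⟨W', hW'1, hW'2⟩ := compl_of_commuting C h2 h3 W hW2
  -- a projector commuting with `C`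
  obtain ⟨e0, he01, he02, he03⟩ : ∃ e0 : V →ₗ[K] V, (∀ v, e0 v ∈ W) ∧ (∀ w ∈ W, e0 w = w) ∧
      ∀ z ∈ C, ∀ v, e0 (z v) = z (e0 v) := by
    refine ⟨W.projection W' hW'2, fun v => Submodule.projection_apply_mem hW'2 v,
      fun w hw => Submodule.projection_apply_of_mem_left hW'2 hw, ?_⟩
    intro z hz v
    have hv : v ∈ W ⊔ W' := by
      rw [hW'2.sup_eq_top]
      exact Submodule.mem_top
    obtain ⟨a, ha, b, hb, rfl⟩ := Submodule.mem_sup.1 hv
    have e1 : ∀ w ∈ W, W.projection W' hW'2 w = w :=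
      fun w hw => Submodule.projection_apply_of_mem_left hW'2 hw
    have e2 : ∀ w ∈ W', W.projection W' hW'2 w = 0 :=
      fun w hw => (Submodule.projection_apply_eq_zero_iff hW'2).2 hw
    rw [map_add, map_add, map_add, e1 _ (hW2 z hz a ha), e2 _ (hW'1 z hz b hb), e1 a ha, e2 b hb,
      add_zero, add_zero]
  let Wl : LieSubmodule K g V := { W with lie_mem := fun {y m} hm => hW1 y m hm }
  have hcz : ∀ z ∈ C, ∀ (y : g) (v : V), z ⁅y, v⁆ = ⁅y, z v⁆ := by
    intro z hz y v
    have := congrArg (fun t : Module.End K V => t v) (h1 z hz y)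
    exact this
  let M : LieSubmodule K g (V →ₗ[K] V) :=
    { carrier := {φ | (∀ v, φ v ∈ W) ∧ ∀ z ∈ C, ∀ v, φ (z v) = z (φ v)}
      add_mem' := by
        rintro a b ⟨ha1, ha2⟩ ⟨hb1, hb2⟩
        refine ⟨fun v => W.add_mem (ha1 v) (hb1 v), fun z hz v => ?_⟩
        rw [LinearMap.add_apply, LinearMap.add_apply, map_add, ha2 z hz, hb2 z hz]
      zero_mem' := by
        refine ⟨fun v => W.zero_mem, fun z hz v => ?_⟩
        rw [LinearMap.zero_apply, LinearMap.zero_apply, map_zero]
      smul_mem' := by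
        rintro c a ⟨ha1, ha2⟩
        refine ⟨fun v => W.smul_mem c (ha1 v), fun z hz v => ?_⟩
        rw [LinearMap.smul_apply, LinearMap.smul_apply, map_smul, ha2 z hz]
      lie_mem := by
        rintro y a ⟨ha1, ha2⟩
        refine ⟨fun v => ?_, fun z hz v => ?_⟩
        · rw [LieHom.lie_apply]
          exact W.sub_mem (hW1 y _ (ha1 v)) (ha1 _)
        · rw [LieHom.lie_apply, LieHom.lie_apply, map_sub, ha2 z hz v, ← hcz z hz y v,
            ← hcz z hz y (a v), ha2 z hz ⁅y, v⁆] }
  let r : M →ₗ[K] (Wl →ₗ[K] Wl) :=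
    { toFun := fun φ =>
        { toFun := fun w => ⟨φ.1 w, φ.2.1 w⟩
          map_add' := fun a b => Subtype.ext (map_add φ.1 _ _)
          map_smul' := fun c a => Subtype.ext (map_smul φ.1 c _) }
      map_add' := fun a b => rfl
      map_smul' := fun c a => rfl }
  have hr : ∀ (y : g) (φ : M), r ⁅y, φ⁆ = ⁅y, r φ⁆ := by
    intro y φ
    ext w
    rfl
  obtain ⟨φ0, φ1, hφ, hφ0, hφ1⟩ :=
    (weyl (K := K) (g := g) (M := M)).1 ⟨e0, he01, he03⟩
  have hrφ1 : r φ1 ∈ Submodule.span K
      {v : Wl →ₗ[K] Wl | ∃ (y : g) (m' : Wl →ₗ[K] Wl), ⁅y, m'⁆ = v} := by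
    refine Submodule.span_induction (p := fun x _ => r x ∈ Submodule.span K
      {v : Wl →ₗ[K] Wl | ∃ (y : g) (m' : Wl →ₗ[K] Wl), ⁅y, m'⁆ = v}) ?_ ?_ ?_ ?_ hφ1
    · rintro _ ⟨y, m', rfl⟩
      rw [hr]
      exact Submodule.subset_span ⟨y, r m', rfl⟩
    · rw [map_zero]
      exact Submodule.zero_mem _
    · intro a b _ _ ha hb
      rw [map_add]
      exact Submodule.add_mem _ ha hb
    · intro c a _ ha
      rw [map_smul]
      exact Submodule.smul_mem _ c ha
  have hre : r ⟨e0, he01, he03⟩ = LinearMap.id := by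
    ext w
    exact he02 w w.2
  have hre' : r φ1 = LinearMap.id - r φ0 := by
    rw [← hre, hφ, map_add, add_sub_cancel_left]
  have hinv : ∀ y : g, ⁅y, r φ1⁆ = 0 := by
    intro y
    rw [hre', lie_sub, ← hr, hφ0, map_zero, sub_zero]
    ext w
    simp
  have h0 : r φ1 = 0 := (weyl (K := K) (g := g) (M := (Wl →ₗ[K] Wl))).2 _ hinv hrφ1
  refine ⟨φ0.1, φ0.2.1, fun w hw => ?_, fun y => ?_, fun z hz => ?_⟩
  · have h4 : r φ0 = LinearMap.id := by
      rw [h0] at hre'
      exact (sub_eq_zero.1 hre'.symm).symm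
    have h5 := congrArg (fun t : Wl →ₗ[K] Wl => ((t ⟨w, hw⟩ : Wl) : V)) h4
    exact h5
  · have h4 : ⁅y, (φ0 : V →ₗ[K] V)⁆ = 0 := congrArg Subtype.val (hφ0 y)
    ext v
    have h5 := congrArg (fun t : V →ₗ[K] V => t v) h4
    rw [Module.End.mul_apply, Module.End.mul_apply]
    have h6 : ⁅y, (φ0 : V →ₗ[K] V) v⁆ - (φ0 : V →ₗ[K] V) ⁅y, v⁆ = 0 := h5
    exact sub_eq_zero.1 h6
  · ext v
    exact (φ0.2.2 z hz v).symm

end H4S
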