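import Mathlib

/-!
# H4S, chunk RD: reductive Lie algebras
-/

set_option autoImplicit false

namespace H4S

open Module LieModule LieAlgebra

attribute [local instance 100] LieRing.ofAssociativeRing

theorem RD_ad_nil {K P V : Type*} [Field K] [LieRing P]
    [LieAlgebra K P] [AddCommGroup V] [Module K V]
    [LieRingModule P V] [LieModule K P V] [IsFaithful K P V]
    (x : P) (h : _root_.IsNilpotent (toEnd K P V x)) : _root_.IsNilpotent (ad K P x) := by
  obtain ⟨k, hk⟩ := LieAlgebra.ad_nilpotent_of_nilpotent (R := K) h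
  refine ⟨k, ?_⟩
  ext y
  apply IsFaithful.injective_toEnd (R := K) (L := P) (M := V)
  have h1 : ∀ j : ℕ, toEnd K P V (((ad K P x) ^ j) y) =
      ((ad K (Module.End K V) (toEnd K P V x)) ^ j) (toEnd K P V y) := by
    intro j
    induction j with
    | zero => rfl
    | succ j ih =>
      rw [pow_succ', pow_succ', Module.End.mul_apply, Module.End.mul_apply, ad_apply, ad_apply,
        LieHom.map_lie, ih]
  rw [h1, hk]
  rw [LinearMap.zero_apply, LinearMap.zero_apply, map_zero]

theorem RD_one {K P V : Type*} [Field K] [IsAlgClosed K] [CharZero K] [LieRing P]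
    [LieAlgebra K P] [FiniteDimensional K P] [AddCommGroup V] [Module K V]
    [FiniteDimensional K V] [LieRingModule P V] [LieModule K P V] [IsFaithful K P V]
    (z : P) (hzs : z ∈ derivedSeries K P 1) (hzc : z ∈ center K P)
    (hz : (toEnd K P V z).IsSemisimple) : z = 0 := by
  have hlcs : z ∈ lowerCentralSeries K P P 1 := hzs
  have hzero : toEnd K P V z = 0 := by
    have htop : (⊤ : Submodule K V) ≤ LinearMap.ker (toEnd K P V z) := by
      rw [← Module.End.iSup_maxGenEigenspace_eq_top (toEnd K P V z)]
      refine iSup_le fun c => ?_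
      rw [hz.isFinitelySemisimple.maxGenEigenspace_eq_eigenspace]
      by_cases hbot : (toEnd K P V z).eigenspace c = ⊥
      · rw [hbot]
        exact bot_le
      · let E : LieSubmodule K P V :=
          { (toEnd K P V z).eigenspace c with
            lie_mem := by
              intro y m hm
              have hm' : m ∈ (toEnd K P V z).eigenspace c := hm
              rw [Module.End.mem_eigenspace_iff] at hm'
              have h1 : ⁅y, z⁆ = 0 := hzc y
              have h2 : toEnd K P V z ⁅y, m⁆ = c • ⁅y, m⁆ := by
                have h3 : ⁅z, ⁅y, m⁆⁆ = ⁅y, ⁅z, m⁆⁆ := by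
                  rw [leibniz_lie z y m, ← lie_skew, h1, neg_zero, zero_lie, zero_add]
                have h4 : ⁅z, m⁆ = c • m := hm'
                change ⁅z, ⁅y, m⁆⁆ = c • ⁅y, m⁆
                rw [h3, h4, lie_smul]
              exact Module.End.mem_eigenspace_iff.2 h2 }
        have h1 : LinearMap.trace K E (toEnd K P E z) = 0 :=
          trace_toEnd_eq_zero_of_mem_lcs K P E le_rfl hlcs
        have h2 : toEnd K P E z = c • LinearMap.id := by
          ext m
          exact Module.End.mem_eigenspace_iff.1 m.2
        rw [h2, map_smul, LinearMap.trace_id, smul_eq_mul] at h1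
        have h3 : (finrank K E : K) ≠ 0 := by
          intro h
          have h4 : finrank K E = 0 := by exact_mod_cast h
          have h5 : (toEnd K P V z).eigenspace c = ⊥ := Submodule.finrank_eq_zero.1 h4
          exact hbot h5
        have h6 : c = 0 := by
          rcases mul_eq_zero.1 h1 with h | h
          · exact h
          · exact absurd h h3
        rw [h6, Module.End.eigenspace_zero]
    ext v
    exact htop Submodule.mem_top
  exact (toEnd_eq_zero_iff K P V).1 hzero

/-- **RD** (M, only Mathlib). Let `P` be a finite-dimensional Lie algebra over an algebraically closed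
field of characteristic zero whose radical is its center `Z`, and `V` a faithful finite-dimensional
module on which the elements of `Z` act semisimply. Then the derived algebra `S = [P,P]` has trivial
radical and `P = S + Z`.

Proof. Let `B` be the trace form of `V` on `P`.
(1) `Z` and `S` intersect in zero: let `z` be in both. `V` is the direct sum of the eigenspaces
`V_c` of `z` (semisimple, algebraically closed), each of them stable under `P` since `z` is
central. On `V_c` `z` is a sum of commutators of endomorphisms of `V_c`, so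
`c dim V_c = trace = 0` and `c = 0`. So `z` acts as zero, `z = 0`.
(2) `I = {y in S : B y s = 0 for all s in S}` is zero: it is an ideal of `P` (`B` is invariant, `S`
is an ideal), the trace form of `V` on the Lie algebra `I` is zero, so `[I,I]` acts nilpotently on `V`
(`LieModule.isNilpotent_derivedSeries_of_traceForm_eq_zero`), `[I,I]` is nilpotent since `V` is
faithful (Engel), so `I` is solvable, so `I` is contained in the radical `Z`; apply (1).
(3) `P = S + Z`: let `y` be in `P`. By (2) the form `B` on `S` is nondegenerate, so there is `s` in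
`S` with `B y t = B s t` for all `t` in `S`. Let `z = y - s`. For `u` in `P`, `[z,u]` is in `S` and for
`t` in `S` `B [z,u] t = B z [u,t] = 0` as `[u,t]` is in `S`; so `[z,u] = 0` by (2), `z` is central.
(4) `S` has trivial radical (`hasTrivialRadical_iff_no_abelian_ideals`): an abelian
ideal `A` of `S` is an ideal of `P = S + Z`, solvable, so contained in `Z`, and zero by (1). -/
theorem reductive {K P V : Type*} [Field K] [IsAlgClosed K] [CharZero K] [LieRing P]
    [LieAlgebra K P] [FiniteDimensional K P] [HasCentralRadical K P] [AddCommGroup V] [Module K V]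
    [FiniteDimensional K V] [LieRingModule P V] [LieModule K P V] [IsFaithful K P V]
    (hz : ∀ z ∈ center K P, (toEnd K P V z).IsSemisimple) :
    HasTrivialRadical K (derivedSeries K P 1) ∧
      ∀ y : P, ∃ s ∈ derivedSeries K P 1, ∃ z ∈ center K P, y = s + z := by
  set S : LieIdeal K P := derivedSeries K P 1 with hS
  have hone : ∀ z : P, z ∈ S → z ∈ center K P → z = 0 := fun z h1 h2 => RD_one z h1 h2 (hz z h2)
  have hbrS : ∀ a c : P, ⁅a, c⁆ ∈ S := by
    intro a c
    rw [hS, derivedSeries_def, derivedSeriesOfIdeal_succ, derivedSeriesOfIdeal_zero]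
    exact LieSubmodule.lie_mem_lie (LieSubmodule.mem_top a) (LieSubmodule.mem_top c)
  have hsolv : ∀ I : LieIdeal K P, IsSolvable I → I ≤ center K P := by
    intro I hI
    rw [← HasCentralRadical.radical_eq_center (R := K) (L := P)]
    exact (LieIdeal.solvable_iff_le_radical K P I).1 hI
  -- (2)
  let I : LieIdeal K P :=
    { carrier := {y | y ∈ S ∧ ∀ t ∈ S, traceForm K P V y t = 0}
      add_mem' := by
        rintro a b ⟨ha1, ha2⟩ ⟨hb1, hb2⟩
        refine ⟨S.add_mem ha1 hb1, fun t ht => ?_⟩
        rw [map_add, LinearMap.add_apply, ha2 t ht, hb2 t ht, add_zero]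
      zero_mem' := by
        refine ⟨S.zero_mem, fun t _ => ?_⟩
        rw [map_zero, LinearMap.zero_apply]
      smul_mem' := by
        rintro c a ⟨ha1, ha2⟩
        refine ⟨S.smul_mem c ha1, fun t ht => ?_⟩
        rw [map_smul, LinearMap.smul_apply, ha2 t ht, smul_zero]
      lie_mem := by
        rintro u a ⟨ha1, ha2⟩
        refine ⟨lie_mem_right K P S _ _ ha1, fun t ht => ?_⟩
        rw [← lie_skew, map_neg, LinearMap.neg_apply, traceForm_apply_lie_apply,
          ha2 _ (lie_mem_right K P S _ _ ht), neg_zero] }
  have hIsolv : IsSolvable I := by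
    set DI : LieIdeal K P := ⁅I, I⁆ with hDI
    have tf_eq_zero : LieModule.traceForm K I V = 0 := by
      ext ⟨x, hx⟩ ⟨y, hy⟩
      exact hx.2 y hy.1
    have module_nilp : LieModule.IsNilpotent (derivedSeries K I 1) V :=
      LieModule.isNilpotent_derivedSeries_of_traceForm_eq_zero tf_eq_zero
    have ring_nilp : LieRing.IsNilpotent DI := by
      rw [LieAlgebra.isNilpotent_iff_forall (R := K)]
      rintro ⟨x, hx⟩
      apply LieSubalgebra.isNilpotent_ad_of_isNilpotent_ad (DI : LieSubalgebra K P) (x := ⟨x, hx⟩)
      apply RD_ad_nil (K := K) (P := P) (V := V)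
      refine (LieModule.isNilpotent_iff_forall' (R := K)).mp module_nilp
        ⟨⟨x, LieSubmodule.lie_le_left I I hx⟩, ?_⟩
      rwa [LieIdeal.derivedSeries_eq_derivedSeriesOfIdeal_comap, LieIdeal.mem_comap]
    obtain ⟨k, hk⟩ := IsSolvable.solvable K DI
    rw [LieIdeal.derivedSeries_eq_bot_iff] at hk
    refine IsSolvable.mk (k := k + 1) ((LieIdeal.derivedSeries_eq_bot_iff I (k + 1)).mpr ?_)
    rwa [derivedSeriesOfIdeal_add, derivedSeriesOfIdeal_succ, derivedSeriesOfIdeal_zero]
  have htwo : ∀ y : P, y ∈ S → (∀ t ∈ S, traceForm K P V y t = 0) → y = 0 := by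
    intro y h1 h2
    exact hone y h1 (hsolv I hIsolv ⟨h1, h2⟩)
  -- (3)
  have hthree : ∀ y : P, ∃ s ∈ S, ∃ z ∈ center K P, y = s + z := by
    intro y
    obtain ⟨s, hs⟩ : ∃ s : S, ∀ t ∈ S, traceForm K P V y t = traceForm K P V s t := by
      let BS : LinearMap.BilinForm K S := (traceForm K P V).restrict S.toSubmodule
      have hBS : BS.Nondegenerate := by
        refine ⟨fun a ha => ?_, fun a ha => ?_⟩
        · exact Subtype.ext (htwo a a.2 fun t ht => ha ⟨t, ht⟩)
        · refine Subtype.ext (htwo a a.2 fun t ht => ?_)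
          rw [traceForm_comm]
          exact ha ⟨t, ht⟩
      obtain ⟨s, hs⟩ := (LinearMap.BilinForm.toDual BS hBS).surjective
        ((traceForm K P V y).comp S.toSubmodule.subtype)
      refine ⟨s, fun t ht => ?_⟩
      have h1 := congrArg (fun f : Dual K S => f ⟨t, ht⟩) hs
      rw [LinearMap.BilinForm.toDual_def] at h1
      exact h1.symm
    refine ⟨s, s.2, y - s, ?_, by abel⟩
    intro u
    rw [← lie_skew, neg_eq_zero]
    refine htwo _ (hbrS _ _) fun t ht => ?_
    rw [traceForm_apply_lie_apply, map_sub, LinearMap.sub_apply, sub_eq_zero]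
    exact hs _ (lie_mem_right K P S _ _ ht)
  refine ⟨?_, hthree⟩
  -- (4)
  rw [hasTrivialRadical_iff_no_abelian_ideals]
  intro A hA
  let A' : LieIdeal K P :=
    { A.toSubmodule.map S.toSubmodule.subtype with
      lie_mem := by
        rintro u _ ⟨a, ha, rfl⟩
        obtain ⟨s, hs, z, hzc, rfl⟩ := hthree u
        refine ⟨⁅(⟨s, hs⟩ : S), a⁆, lie_mem_right K S A _ _ ha, ?_⟩
        have h1 : ⁅z, (a : P)⁆ = 0 := by
          rw [← lie_skew, hzc (a : P), neg_zero]
        change ⁅s, (a : P)⁆ = ⁅s + z, (a : P)⁆
        rw [add_lie, h1, add_zero] }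
  have hA' : IsLieAbelian A' := by
    refine ⟨?_⟩
    rintro ⟨_, ⟨a, ha, rfl⟩⟩ ⟨_, ⟨c, hc, rfl⟩⟩
    have h1 : ⁅(⟨a, ha⟩ : A), (⟨c, hc⟩ : A)⁆ = 0 := trivial_lie_zero A A _ _
    have h2 : ⁅(a : P), (c : P)⁆ = 0 := congrArg (fun t : A => ((t : S) : P)) h1
    exact Subtype.ext h2
  have hA's : IsSolvable A' := inferInstance
  have hle := hsolv A' hA's
  rw [eq_bot_iff]
  intro a ha
  rw [LieSubmodule.mem_bot]
  exact Subtype.ext (hone a a.2 (hle ⟨a, ha, rfl⟩))

end H4S
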