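import Mathlib

/-!
# H4S, chunk RP: symmetric subalgebras containing a Cartan subalgebra are reductive
-/

set_option autoImplicit false

namespace H4S

open Module LieModule LieAlgebra

attribute [local instance 100] LieRing.ofAssociativeRing

/-- A subspace stable under `H` all of whose intersections with the root spaces for nonzero roots
satisfy a linear condition, and whose intersection with `H` does, satisfies it. -/
theorem RP_le {K g : Type*} [Field K] [IsAlgClosed K] [CharZero K] [LieRing g]
    [LieAlgebra K g] [FiniteDimensional K g] [HasTrivialRadical K g]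
    (H : LieSubalgebra K g) [H.IsCartanSubalgebra] (T : Submodule K g)
    (hT : ∀ h ∈ H, ∀ t ∈ T, ⁅h, t⁆ ∈ T) (N : Submodule K g)
    (h0 : ∀ t ∈ T, t ∈ H → t ∈ N)
    (h1 : ∀ α : Weight K H g, α.IsNonZero → ∀ t ∈ T, t ∈ rootSpace H α → t ∈ N) : T ≤ N := by
  let T' : LieSubmodule K H g := { T with lie_mem := fun {y m} hm => hT y y.2 m hm }
  have h2 : T' = ⨆ χ : Weight K H g, T' ⊓ genWeightSpace g χ :=
    eq_iSup_inf_genWeightSpace K H g T'
  have h3 : (T' : Submodule K g) ≤ N := by
    rw [h2, LieSubmodule.iSup_toSubmodule]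
    refine iSup_le fun χ => ?_
    intro t ht
    have ht' : t ∈ T' ⊓ genWeightSpace g χ := ht
    rw [LieSubmodule.mem_inf] at ht'
    by_cases hχ : χ.IsNonZero
    · exact h1 χ hχ t ht'.1 ht'.2
    · have hz : χ.IsZero := not_not.mp hχ
      refine h0 t ht'.1 ?_
      have h4 : t ∈ rootSpace H (0 : H → K) := by
        have h5 := ht'.2
        rw [hz.eq] at h5
        exact h5
      rw [rootSpace_zero_eq] at h4
      exact h4
  exact h3

/-- **RP** (M/L, only Mathlib). `g` with trivial radical, `H` a Cartan subalgebra acting semisimply on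
the faithful module `V`, `P` a subalgebra of `g` containing `H` which contains with each root space
the opposite one. Then the radical of `P` is its center, and the center acts semisimply on `V`.

Proof. `g` is Killing, `H` is abelian, `g` is the direct sum of `H` and of the root
spaces, which are one-dimensional and on which `ad h` (`h` in `H`) acts by `α h`.
Let `R` be a solvable ideal of `P` (the radical), viewed as a subspace of `g`. It is stable
under `ad h`, `h` in `H`, so it is the sum of its intersections with `H` and with the root spaces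
(`ad h` acts on the `H`-module `R` diagonalizably; weight space decomposition of `R`, or choose `h`
on which the finitely many differences of the weights do not vanish).
(1) `R` contains no nonzero element `e` of a root space: the root space of `α` is spanned by `e`, so it
is in `P`, hence that of `-α` is in `P`; by `exists_isSl2Triple_of_weight_isNonZero` (scaling `e`)
there is `f` in it with `⁅e,f⁆ = h` the coroot, `⁅h,f⁆ = -2f`. As `R` is an ideal of `P`: `h` is in
`R`, then `f` is in `R`, so `R` contains `e, f, h`; the derived series of `R` contains them as well at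
every step (`h = ⁅e,f⁆`, `2e = ⁅h,e⁆`, `-2f = ⁅h,f⁆`): contradiction to solvability.
(2) So `R` is contained in `H`. `R` is central in `P`: `P` is the sum of `H` and of root spaces
(as for `R`); for `r` in `R` and `h` in `H`, `⁅r,h⁆ = 0`; for `e` in a root space contained in `P`,
`⁅r,e⁆ = α(r) e` is in `R`, so it is zero by (1).
So the radical of `P` is contained in the center (`hasCentralRadical_of_radical_le`), and the center,
being contained in the radical, is contained in `H` and acts semisimply. -/
theorem reductive_of_symm {K g V : Type*} [Field K] [IsAlgClosed K] [CharZero K] [LieRing g]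
    [LieAlgebra K g] [FiniteDimensional K g] [HasTrivialRadical K g] [AddCommGroup V] [Module K V]
    [FiniteDimensional K V] [LieRingModule g V] [LieModule K g V]
    (H : LieSubalgebra K g) [H.IsCartanSubalgebra] (hHs : ∀ h ∈ H, (toEnd K g V h).IsSemisimple)
    (P : LieSubalgebra K g) (hHP : H ≤ P)
    (hsym : ∀ α : Weight K H g, α.IsNonZero → (∀ e ∈ rootSpace H α, e ∈ P) →
      ∀ f ∈ rootSpace H (-α), f ∈ P) :
    HasCentralRadical K P ∧ ∀ z ∈ center K P, (toEnd K g V (z : g)).IsSemisimple := by
  classical
  set R : LieIdeal K P := radical K P with hR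
  have hRs : IsSolvable R := inferInstance
  -- (1) `R` contains no nonzero root vector
  have key : ∀ α : Weight K H g, α.IsNonZero → ∀ t : P, t ∈ R → (t : g) ∈ rootSpace H α →
      t = 0 := by
    intro α hα t ht htα
    by_contra hne
    have hne' : (t : g) ≠ 0 := fun h => hne (Subtype.ext h)
    have hspan : ∀ e ∈ rootSpace H α, ∃ c : K, e = c • (t : g) := by
      intro e he
      have h1 : finrank K (rootSpace H α) = 1 := IsKilling.finrank_rootSpace_eq_one α hα
      have h2 : (⟨(t : g), htα⟩ : rootSpace H α) ≠ 0 := fun h => hne' (congrArg Subtype.val h)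
      obtain ⟨c, hc⟩ := (finrank_eq_one_iff_of_nonzero' _ h2).1 h1 ⟨e, he⟩
      exact ⟨c, (congrArg Subtype.val hc).symm⟩
    have hP1 : ∀ e ∈ rootSpace H α, e ∈ P := by
      intro e he
      obtain ⟨c, rfl⟩ := hspan e he
      exact P.smul_mem c t.2
    obtain ⟨h, e, f, hsl, heα, hfα⟩ := IsKilling.exists_isSl2Triple_of_weight_isNonZero hα
    have heP : e ∈ P := hP1 e heα
    have hfP : f ∈ P := hsym α hα hP1 f hfα
    have hhP : h ∈ P := by
      rw [← hsl.lie_e_f]
      exact P.lie_mem heP hfP
    let e' : P := ⟨e, heP⟩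
    let f' : P := ⟨f, hfP⟩
    let h' : P := ⟨h, hhP⟩
    have r1 : ⁅e', f'⁆ = h' := Subtype.ext hsl.lie_e_f
    have r2 : ⁅h', e'⁆ = 2 • e' := Subtype.ext hsl.lie_h_e_nsmul
    have r3 : ⁅h', f'⁆ = -(2 • f') := Subtype.ext hsl.lie_h_f_nsmul
    have heR : e' ∈ R := by
      obtain ⟨c, hc⟩ := hspan e heα
      have h1 : e' = c • t := Subtype.ext hc
      rw [h1]
      exact R.smul_mem c ht
    have hhR : h' ∈ R := by
      rw [← r1, ← lie_skew]
      exact R.neg_mem (lie_mem_right K P R _ _ heR)
    have hfR : f' ∈ R := by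
      have h1 : ⁅h', f'⁆ ∈ R := by
        rw [← lie_skew]
        exact R.neg_mem (lie_mem_right K P R _ _ hhR)
      rw [r3] at h1
      have h2 : (-(1 / 2 : K)) • (-(2 • f')) = f' := by
        rw [smul_neg, neg_smul, neg_neg, two_nsmul, ← two_smul K, smul_smul]
        norm_num
      rw [← h2]
      exact R.smul_mem _ h1
    -- the derived series of `R` contains `e', f', h'`
    have hder : ∀ k : ℕ, (⟨e', heR⟩ : R) ∈ derivedSeries K R k ∧
        (⟨f', hfR⟩ : R) ∈ derivedSeries K R k ∧ (⟨h', hhR⟩ : R) ∈ derivedSeries K R k := by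
      intro k
      induction k with
      | zero =>
        refine ⟨?_, ?_, ?_⟩ <;> simp [derivedSeries_def]
      | succ k ih =>
        obtain ⟨i1, i2, i3⟩ := ih
        have s1 : (⟨h', hhR⟩ : R) ∈ derivedSeries K R (k + 1) := by
          have h1 : (⁅(⟨e', heR⟩ : R), (⟨f', hfR⟩ : R)⁆ : R) = ⟨h', hhR⟩ := Subtype.ext r1
          rw [← h1, derivedSeries_def, derivedSeriesOfIdeal_succ]
          exact LieSubmodule.lie_mem_lie i1 i2
        have s2 : (⟨e', heR⟩ : R) ∈ derivedSeries K R (k + 1) := by
          have h1 : (1 / 2 : K) • (⁅(⟨h', hhR⟩ : R), (⟨e', heR⟩ : R)⁆ : R) = ⟨e', heR⟩ := by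
            apply Subtype.ext
            change (1 / 2 : K) • ⁅h', e'⁆ = e'
            rw [r2, two_nsmul, ← two_smul K, smul_smul]
            norm_num
          rw [← h1]
          refine (derivedSeries K R (k + 1)).smul_mem _ ?_
          rw [derivedSeries_def, derivedSeriesOfIdeal_succ]
          exact LieSubmodule.lie_mem_lie i3 i1
        have s3 : (⟨f', hfR⟩ : R) ∈ derivedSeries K R (k + 1) := by
          have h1 : (-(1 / 2 : K)) • (⁅(⟨h', hhR⟩ : R), (⟨f', hfR⟩ : R)⁆ : R) = ⟨f', hfR⟩ := by
            apply Subtype.ext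
            change (-(1 / 2 : K)) • ⁅h', f'⁆ = f'
            rw [r3, smul_neg, neg_smul, neg_neg, two_nsmul, ← two_smul K, smul_smul]
            norm_num
          rw [← h1]
          refine (derivedSeries K R (k + 1)).smul_mem _ ?_
          rw [derivedSeries_def, derivedSeriesOfIdeal_succ]
          exact LieSubmodule.lie_mem_lie i3 i2
        exact ⟨s2, s3, s1⟩
    obtain ⟨k, hk⟩ := (isSolvable_iff K (L := R)).1 hRs
    have h1 := (hder k).1
    rw [hk, LieSubmodule.mem_bot] at h1
    have h2 : e = 0 := congrArg (fun u : R => ((u : P) : g)) h1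
    exact hsl.e_ne_zero h2
  -- (2) `R` is contained in `H`
  have hRstab : ∀ h ∈ H, ∀ t ∈ (R.toSubmodule.map P.toSubmodule.subtype),
      ⁅h, t⁆ ∈ (R.toSubmodule.map P.toSubmodule.subtype) := by
    rintro h hh _ ⟨t, ht, rfl⟩
    exact ⟨⁅(⟨h, hHP hh⟩ : P), t⁆, lie_mem_right K P R _ _ ht, rfl⟩
  have hRH : ∀ t : P, t ∈ R → (t : g) ∈ H := by
    intro t ht
    have h1 := RP_le H (R.toSubmodule.map P.toSubmodule.subtype) hRstab H.toSubmodule
      (fun _ _ h => h) (by
        rintro α hα _ ⟨u, hu, rfl⟩ huα
        have h2 := key α hα u hu huα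
        rw [h2, map_zero]
        exact H.zero_mem)
    exact h1 ⟨t, ht, rfl⟩
  -- (3) `R` is central
  have hPstab : ∀ h ∈ H, ∀ t ∈ P.toSubmodule, ⁅h, t⁆ ∈ P.toSubmodule :=
    fun h hh t ht => P.lie_mem (hHP hh) ht
  have hcent : ∀ r : P, r ∈ R → ∀ y : P, ⁅(r : g), (y : g)⁆ = 0 := by
    intro r hr y
    have h1 := RP_le H P.toSubmodule hPstab (LinearMap.ker (ad K g (r : g)))
      (by
        intro t _ htH
        rw [LinearMap.mem_ker, ad_apply]
        have h2 : ⁅(⟨(r : g), hRH r hr⟩ : H), (⟨t, htH⟩ : H)⁆ = 0 := trivial_lie_zero H H _ _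
        exact congrArg (fun u : H => (u : g)) h2)
      (by
        intro α hα t htP htα
        rw [LinearMap.mem_ker, ad_apply]
        have h2 : ⁅(r : g), t⁆ = α ⟨(r : g), hRH r hr⟩ • t :=
          IsKilling.lie_eq_smul_of_mem_rootSpace htα ⟨(r : g), hRH r hr⟩
        have h3 : ⁅r, (⟨t, htP⟩ : P)⁆ ∈ R := by
          rw [← lie_skew]
          exact R.neg_mem (lie_mem_right K P R _ _ hr)
        have h4 : ((⁅r, (⟨t, htP⟩ : P)⁆ : P) : g) ∈ rootSpace H α := by
          change ⁅(r : g), t⁆ ∈ rootSpace H α
          rw [h2]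
          exact (rootSpace H α).smul_mem _ htα
        exact congrArg (fun u : P => (u : g)) (key α hα _ h3 h4))
    have h5 := h1 y.2
    rw [LinearMap.mem_ker, ad_apply] at h5
    exact h5
  refine ⟨hasCentralRadical_of_radical_le K P fun r hr y => ?_, fun z hz => ?_⟩
  · rw [← lie_skew]
    have h1 : ⁅r, y⁆ = 0 := Subtype.ext (hcent r hr y)
    rw [h1, neg_zero]
  · exact hHs z (hRH z (center_le_radical K P hz))

end H4S
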