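import Mathlib

/-!
# H4S, chunk SL2A: the sl2 lemma, injectivity of `e^k` on weight `-k`
-/

set_option autoImplicit false

namespace H4S

open Module

attribute [local instance 100] LieRing.ofAssociativeRing

theorem SL2A_nat {K V : Type*} [Field K] [CharZero K] [AddCommGroup V] [Module K V]
    [FiniteDimensional K V] (h e f : Module.End K V) (h1 : e * f - f * e = h)
    (h2 : h * e - e * h = (2 : K) • e) (h3 : h * f - f * h = -((2 : K) • f))
    (v : V) (hv0 : v ≠ 0) (μ : K) (hv : h v = μ • v) (he : e v = 0) : ∃ n : ℕ, μ = n := by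
  by_cases hh : h = 0
  · refine ⟨0, ?_⟩
    rw [hh, LinearMap.zero_apply] at hv
    rcases smul_eq_zero.1 hv.symm with h4 | h4
    · rw [h4, Nat.cast_zero]
    · exact absurd h4 hv0
  · have t : IsSl2Triple h e f :=
      { h_ne_zero := hh
        lie_e_f := h1
        lie_h_e_nsmul := by
          rw [LieRing.of_associative_ring_bracket, h2, two_smul, two_nsmul]
        lie_h_f_nsmul := by
          rw [LieRing.of_associative_ring_bracket, h3, two_smul, two_nsmul] }
    have P : IsSl2Triple.HasPrimitiveVectorWith t v μ :=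
      { ne_zero := hv0
        lie_h := hv
        lie_e := he }
    exact P.exists_nat

theorem SL2A_chain {K V : Type*} [Field K] [CharZero K] [AddCommGroup V] [Module K V]
    [FiniteDimensional K V] (h : Module.End K V) (w : ℕ → V) (a d : K) (hd : d ≠ 0)
    (hw : ∀ j : ℕ, h (w j) = (a + d * j) • w j) : ∃ j, w j = 0 := by
  by_contra hcon
  push Not at hcon
  have h1 : ∀ j : ℕ, h.HasEigenvalue (a + d * j) := fun j =>
    Module.End.hasEigenvalue_of_hasEigenvector (x := w j)
      ⟨Module.End.mem_eigenspace_iff.2 (hw j), hcon j⟩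
  have h2 : Function.Injective (fun j : ℕ => a + d * (j : K)) := by
    intro i j hij
    have h4 : d * (i : K) = d * (j : K) := add_left_cancel hij
    exact_mod_cast mul_left_cancel₀ hd h4
  exact Set.infinite_of_injective_forall_mem h2 h1 h.finite_hasEigenvalue

/-- The relations on vectors, and the Casimir operator. -/
theorem SL2A_casimir {K V : Type*} [Field K] [AddCommGroup V] [Module K V]
    (h e f : Module.End K V) (h1 : e * f - f * e = h)
    (h2 : h * e - e * h = (2 : K) • e) (h3 : h * f - f * h = -((2 : K) • f)) :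
    (∀ v, e (f v) = f (e v) + h v) ∧ (∀ v, h (e v) = e (h v) + (2 : K) • e v) ∧
    (∀ v, h (f v) = f (h v) - (2 : K) • f v) ∧
    ∃ Om : Module.End K V, (∀ v, Om v = (4 : K) • f (e v) + h (h v) + (2 : K) • h v) ∧
      (∀ v, Om (e v) = e (Om v)) ∧ (∀ v, Om (f v) = f (Om v)) ∧ (∀ v, Om (h v) = h (Om v)) := by
  have r1 : ∀ v, e (f v) = f (e v) + h v := by
    intro v
    have := congrArg (fun t : Module.End K V => t v) h1
    simp only [LinearMap.sub_apply, Module.End.mul_apply] at this
    rw [← this]
    abel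
  have r2 : ∀ v, h (e v) = e (h v) + (2 : K) • e v := by
    intro v
    have := congrArg (fun t : Module.End K V => t v) h2
    simp only [LinearMap.sub_apply, Module.End.mul_apply, LinearMap.smul_apply] at this
    rw [← this]
    abel
  have r3 : ∀ v, h (f v) = f (h v) - (2 : K) • f v := by
    intro v
    have := congrArg (fun t : Module.End K V => t v) h3
    simp only [LinearMap.sub_apply, Module.End.mul_apply, LinearMap.smul_apply,
      LinearMap.neg_apply] at this
    rw [sub_eq_add_neg, ← this]
    abel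
  refine ⟨r1, r2, r3, (4 : K) • (f * e) + h * h + (2 : K) • h, fun v => rfl, ?_, ?_, ?_⟩
  · intro v
    simp only [LinearMap.add_apply, LinearMap.smul_apply, Module.End.mul_apply, map_add, map_smul,
      r1, r2]
    module
  · intro v
    simp only [LinearMap.add_apply, LinearMap.smul_apply, Module.End.mul_apply, map_add, map_smul,
      r1, r3, map_sub]
    module
  · intro v
    simp only [LinearMap.add_apply, LinearMap.smul_apply, Module.End.mul_apply, map_add, map_smul,
      r2, r3]
    module

/-- **SL2A** (M, only Mathlib). Let `h, e, f` be endomorphisms of a finite-dimensional space over an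
algebraically closed field of characteristic zero with `[e,f] = h`, `[h,e] = 2e`, `[h,f] = -2f`.
If `h u = - k u` and `e^k u = 0` (`k` a natural number) then `u = 0`.

Proof. Put `Om = 4 f e + h^2 + 2 h`. A computation shows that `Om` commutes with `e`, `f`, `h`.
If `h v = c v` and `e v = 0` then `Om v = (c^2 + 2 c) v`; if `h v = c v` and `f v = 0` then
`f e v = e f v - h v = - c v`, so `Om v = (c^2 - 2 c) v`.
`V` is the sum of the generalized eigenspaces of `Om` (`K` algebraically closed); they are stable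
under `e, f, h`, so the component `u'` of `u` in each of them satisfies `h u' = - k u'` and
`e^k u' = 0`, and it is enough to show that every such `u'` is zero. Let `u` be in the generalized
eigenspace of `om` and suppose `u <> 0`. Let `i >= 1` be minimal with `e^i u = 0`; so
`i <= k`, and `v = e^(i-1) u` is nonzero, `h v = mu v` with `mu = - k + 2 (i-1) <= k - 2`, `e v = 0`.
By Mathlib (`IsSl2Triple.HasPrimitiveVectorWith.exists_nat`; or directly: the vectors `f^j v` have
the pairwise different `h`-eigenvalues `mu - 2j`, so `f^(j+1) v = 0`, `f^j v <> 0` for some `j`, and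
`e f^(j+1) v = (j+1)(mu - j) f^j v` gives `mu = j`) `mu` is a natural number. Since `v` is in the
generalized eigenspace of `Om` for `om` and `Om v = (mu^2 + 2 mu) v`, `v <> 0`, we get
`om = mu^2 + 2 mu`. The vectors `f^j u` have the pairwise different `h`-eigenvalues `- k - 2 j`, so
there is a minimal `j >= 1` with `f^j u = 0`; `v' = f^(j-1) u` is nonzero, `h v' = - M v'` with
`M = k + 2 (j-1) >= k`, `f v' = 0`, so `Om v' = (M^2 + 2 M) v'` and `om = M^2 + 2 M`. Hence
`mu^2 + 2 mu = M^2 + 2 M` with natural numbers `mu <= k - 2 < k <= M`, a contradiction. -/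
theorem sl2_inj {K V : Type*} [Field K] [CharZero K] [IsAlgClosed K] [AddCommGroup V] [Module K V]
    [FiniteDimensional K V] (h e f : Module.End K V) (h1 : e * f - f * e = h)
    (h2 : h * e - e * h = (2 : K) • e) (h3 : h * f - f * h = -((2 : K) • f))
    (k : ℕ) (u : V) (hu : h u = (-(k : K)) • u) (he : (e ^ k) u = 0) : u = 0 := by
  obtain ⟨r1, r2, r3, Om, hOm, hOe, hOf, hOh⟩ := SL2A_casimir h e f h1 h2 h3
  by_contra hu0
  have hOej : ∀ (j : ℕ) (v : V), Om ((e ^ j) v) = (e ^ j) (Om v) := by
    intro j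
    induction j with
    | zero => intro v; rfl
    | succ j ih =>
      intro v
      rw [pow_succ', Module.End.mul_apply, Module.End.mul_apply, hOe, ih]
  have hOfj : ∀ (j : ℕ) (v : V), Om ((f ^ j) v) = (f ^ j) (Om v) := by
    intro j
    induction j with
    | zero => intro v; rfl
    | succ j ih =>
      intro v
      rw [pow_succ', Module.End.mul_apply, Module.End.mul_apply, hOf, ih]
  let U : Submodule K V :=
    { carrier := {u | h u = (-(k : K)) • u ∧ (e ^ k) u = 0}
      add_mem' := by
        rintro a b ⟨ha1, ha2⟩ ⟨hb1, hb2⟩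
        exact ⟨by rw [map_add, ha1, hb1, smul_add], by rw [map_add, ha2, hb2, add_zero]⟩
      zero_mem' := ⟨by rw [map_zero, smul_zero], by rw [map_zero]⟩
      smul_mem' := by
        rintro c a ⟨ha1, ha2⟩
        exact ⟨by rw [map_smul, ha1, smul_comm], by rw [map_smul, ha2, smul_zero]⟩ }
  have hUOm : ∀ w ∈ U, Om w ∈ U := by
    rintro w ⟨hw1, hw2⟩
    exact ⟨by rw [← hOh, hw1, map_smul], by rw [← hOej, hw2, map_zero]⟩
  have hnt : Nontrivial U := nontrivial_of_ne (⟨u, hu, he⟩ : U) 0 fun h4 =>
    hu0 (congrArg Subtype.val h4)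
  obtain ⟨om, hom⟩ := Module.End.exists_eigenvalue (Om.restrict hUOm)
  obtain ⟨⟨w, hw⟩, hwe⟩ := hom.exists_hasEigenvector
  have hw0 : w ≠ 0 := fun h4 => hwe.2 (Subtype.ext h4)
  have hwom : Om w = om • w := congrArg Subtype.val hwe.apply_eq_smul
  obtain ⟨hw1, hw2⟩ := hw
  -- weights
  have hej : ∀ j : ℕ, h ((e ^ j) w) = (-(k : K) + 2 * j) • (e ^ j) w := by
    intro j
    induction j with
    | zero => rw [pow_zero, Nat.cast_zero, mul_zero, add_zero]; exact hw1
    | succ j ih =>
      rw [pow_succ', Module.End.mul_apply, r2, ih, map_smul, Nat.cast_succ]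
      module
  have hfj : ∀ j : ℕ, h ((f ^ j) w) = (-(k : K) + (-2) * j) • (f ^ j) w := by
    intro j
    induction j with
    | zero => rw [pow_zero, Nat.cast_zero, mul_zero, add_zero]; exact hw1
    | succ j ih =>
      rw [pow_succ', Module.End.mul_apply, r3, ih, map_smul, Nat.cast_succ]
      module
  -- the last nonzero `e ^ i w`
  classical
  have hex : ∃ i : ℕ, (e ^ i) w = 0 := ⟨k, hw2⟩
  obtain ⟨i, hi1, hi2⟩ : ∃ i : ℕ, (e ^ i) w ≠ 0 ∧ (e ^ (i + 1)) w = 0 := by
    have h4 := Nat.find_spec hex
    have h5 : Nat.find hex ≠ 0 := by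
      intro h6
      rw [h6] at h4
      exact hw0 h4
    obtain ⟨i, hi⟩ := Nat.exists_eq_succ_of_ne_zero h5
    refine ⟨i, Nat.find_min hex (by omega), ?_⟩
    rw [hi] at h4
    exact h4
  have hik : i + 1 ≤ k := by
    by_contra hlt
    have h4 : k ≤ i := by omega
    obtain ⟨r, rfl⟩ := Nat.exists_eq_add_of_le h4
    apply hi1
    rw [add_comm, pow_add, Module.End.mul_apply, hw2, map_zero]
  have hev : e ((e ^ i) w) = 0 := by
    rw [pow_succ', Module.End.mul_apply] at hi2
    exact hi2
  obtain ⟨n, hn⟩ := SL2A_nat h e f h1 h2 h3 ((e ^ i) w) hi1 _ (hej i) hev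
  have hn' : (n : ℤ) = -(k : ℤ) + 2 * i := by
    have h4 : ((n : ℤ) : K) = ((-(k : ℤ) + 2 * i : ℤ) : K) := by
      push_cast
      exact hn.symm
    exact_mod_cast h4
  have hom1 : om = (n : K) * n + 2 * n := by
    have h4 : Om ((e ^ i) w) = om • (e ^ i) w := by rw [hOej, hwom, map_smul]
    have h5 : Om ((e ^ i) w) = ((n : K) * n + 2 * n) • (e ^ i) w := by
      rw [hOm, hev, map_zero, smul_zero, zero_add, hej i, hn, map_smul, hej i, hn]
      module
    rw [h4] at h5
    exact smul_left_injective K hi1 h5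
  -- the last nonzero `f ^ j w`
  have hexf : ∃ j : ℕ, (f ^ j) w = 0 :=
    SL2A_chain h (fun j => (f ^ j) w) (-(k : K)) (-2) (by norm_num) hfj
  obtain ⟨j, hj1, hj2⟩ : ∃ j : ℕ, (f ^ j) w ≠ 0 ∧ (f ^ (j + 1)) w = 0 := by
    have h4 := Nat.find_spec hexf
    have h5 : Nat.find hexf ≠ 0 := by
      intro h6
      rw [h6] at h4
      exact hw0 h4
    obtain ⟨j, hj⟩ := Nat.exists_eq_succ_of_ne_zero h5
    refine ⟨j, Nat.find_min hexf (by omega), ?_⟩
    rw [hj] at h4
    exact h4
  have hfv : f ((f ^ j) w) = 0 := by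
    rw [pow_succ', Module.End.mul_apply] at hj2
    exact hj2
  have hom2 : om = ((k + 2 * j : ℕ) : K) * ((k + 2 * j : ℕ) : K) + 2 * ((k + 2 * j : ℕ) : K) := by
    have h4 : Om ((f ^ j) w) = om • (f ^ j) w := by rw [hOfj, hwom, map_smul]
    have h6 : f (e ((f ^ j) w)) = -(h ((f ^ j) w)) := by
      have h7 := r1 ((f ^ j) w)
      rw [hfv, map_zero] at h7
      exact (neg_eq_of_add_eq_zero_left h7.symm).symm
    have h5 : Om ((f ^ j) w) = (((k + 2 * j : ℕ) : K) * ((k + 2 * j : ℕ) : K) +
        2 * ((k + 2 * j : ℕ) : K)) • (f ^ j) w := by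
      rw [hOm, h6, hfj j, map_smul, hfj j]
      push_cast
      module
    rw [h4] at h5
    exact smul_left_injective K hj1 h5
  have hfin : n * n + 2 * n = (k + 2 * j) * (k + 2 * j) + 2 * (k + 2 * j) := by
    have h4 : ((n * n + 2 * n : ℕ) : K) = (((k + 2 * j) * (k + 2 * j) + 2 * (k + 2 * j) : ℕ) : K) := by
      push_cast
      rw [← hom1, hom2]
      push_cast
      ring
    exact_mod_cast h4
  have hlt : n < k + 2 * j := by omega
  nlinarith

end H4S
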