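import Mathlib
import Pool.Agent.Lib.H4S.SL2A
import Pool.Agent.Lib.H4S.ED

/-!
# H4S, chunk SL2B: a subspace stable under `e`, `h` on which `h` has trace zero is stable under `f`
-/

set_option autoImplicit false

namespace H4S

open Module

/-- weights are integers -/
theorem SL2B_int {K V : Type*} [Field K] [CharZero K] [AddCommGroup V] [Module K V]
    [FiniteDimensional K V] (h e f : Module.End K V) (h1 : e * f - f * e = h)
    (h2 : h * e - e * h = (2 : K) • e) (h3 : h * f - f * h = -((2 : K) • f))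
    (v : V) (hv0 : v ≠ 0) (c : K) (hv : h v = c • v) : ∃ k : ℤ, c = k := by
  classical
  obtain ⟨r1, r2, r3, -⟩ := SL2A_casimir h e f h1 h2 h3
  have hej : ∀ j : ℕ, h ((e ^ j) v) = (c + 2 * j) • (e ^ j) v := by
    intro j
    induction j with
    | zero => rw [pow_zero, Nat.cast_zero, mul_zero, add_zero]; exact hv
    | succ j ih =>
      rw [pow_succ', Module.End.mul_apply, r2, ih, map_smul, Nat.cast_succ]
      module
  have hex : ∃ i : ℕ, (e ^ i) v = 0 :=
    SL2A_chain h (fun j => (e ^ j) v) c 2 (by norm_num) hej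
  obtain ⟨i, hi1, hi2⟩ : ∃ i : ℕ, (e ^ i) v ≠ 0 ∧ (e ^ (i + 1)) v = 0 := by
    have h4 := Nat.find_spec hex
    have h5 : Nat.find hex ≠ 0 := by
      intro h6
      rw [h6] at h4
      exact hv0 h4
    obtain ⟨i, hi⟩ := Nat.exists_eq_succ_of_ne_zero h5
    refine ⟨i, Nat.find_min hex (by omega), ?_⟩
    rw [hi] at h4
    exact h4
  have hev : e ((e ^ i) v) = 0 := by
    rw [pow_succ', Module.End.mul_apply] at hi2
    exact hi2
  obtain ⟨n, hn⟩ := SL2A_nat h e f h1 h2 h3 ((e ^ i) v) hi1 _ (hej i) hev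
  refine ⟨(n : ℤ) - 2 * i, ?_⟩
  push_cast
  rw [← hn]
  ring

/-- dimensions of eigenspaces of a restriction -/
theorem SL2B_dim {K V : Type*} [Field K] [AddCommGroup V] [Module K V]
    [FiniteDimensional K V] (h : Module.End K V) (W : Submodule K V) (hh : ∀ w ∈ W, h w ∈ W)
    (c : K) : finrank K (Module.End.eigenspace (h.restrict hh) c) =
      finrank K (W ⊓ h.eigenspace c : Submodule K V) := by
  have h1 : (Module.End.eigenspace (h.restrict hh) c).map W.subtype = W ⊓ h.eigenspace c := by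
    ext v
    constructor
    · rintro ⟨w, hw, rfl⟩
      refine ⟨w.2, ?_⟩
      exact Module.End.mem_eigenspace_iff.2 (congrArg Subtype.val
        (Module.End.mem_eigenspace_iff.1 hw))
    · rintro ⟨hv, hv2⟩
      refine ⟨⟨v, hv⟩, ?_, rfl⟩
      exact Module.End.mem_eigenspace_iff.2 (Subtype.ext (Module.End.mem_eigenspace_iff.1 hv2))
  rw [← h1]
  exact (Submodule.finrank_map_subtype_eq W _).symm

/-- the sign argument -/
theorem SL2B_sum (m : ℤ → ℕ) (N : ℕ) (hN : ∀ k : ℤ, k ∉ Finset.Icc (-(N : ℤ)) N → m k = 0)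
    (hle : ∀ k : ℕ, m (-(k : ℤ)) ≤ m k)
    (hsum : ∑ k ∈ Finset.Icc (-(N : ℤ)) N, k * (m k : ℤ) = 0) (k : ℕ) : m (-(k : ℤ)) = m k := by
  have h1 : ∑ k ∈ Finset.Icc (-(N : ℤ)) N, (-k) * (m (-k) : ℤ) = 0 := by
    rw [← hsum]
    refine Finset.sum_nbij' (fun k => -k) (fun k => -k) ?_ ?_ ?_ ?_ ?_
    · intro a ha
      rw [Finset.mem_Icc] at ha ⊢
      omega
    · intro a ha
      rw [Finset.mem_Icc] at ha ⊢
      omega
    · intro a _
      ring
    · intro a _
      ring
    · intro a _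
      rfl
  have h2 : ∑ k ∈ Finset.Icc (-(N : ℤ)) N, k * ((m k : ℤ) - m (-k)) = 0 := by
    have h3 : ∑ k ∈ Finset.Icc (-(N : ℤ)) N, k * ((m k : ℤ) - m (-k)) =
        ∑ k ∈ Finset.Icc (-(N : ℤ)) N, k * (m k : ℤ) +
          ∑ k ∈ Finset.Icc (-(N : ℤ)) N, (-k) * (m (-k) : ℤ) := by
      rw [← Finset.sum_add_distrib]
      refine Finset.sum_congr rfl fun k _ => ?_
      ring
    rw [h3, hsum, h1, add_zero]
  have h4 : ∀ k ∈ Finset.Icc (-(N : ℤ)) N, 0 ≤ k * ((m k : ℤ) - m (-k)) := by
    intro k _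
    rcases le_or_gt 0 k with hk | hk
    · obtain ⟨j, rfl⟩ := Int.eq_ofNat_of_zero_le hk
      have := hle j
      exact mul_nonneg hk (by omega)
    · obtain ⟨j, hj⟩ := Int.eq_ofNat_of_zero_le (show 0 ≤ -k by omega)
      have := hle j
      have hk' : k = -(j : ℤ) := by omega
      rw [hk']
      rw [neg_neg]
      have h5 : (m (-(j : ℤ)) : ℤ) ≤ m (j : ℤ) := by exact_mod_cast this
      nlinarith
  have h5 := (Finset.sum_eq_zero_iff_of_nonneg h4).1 h2
  by_cases hk : (k : ℤ) ∈ Finset.Icc (-(N : ℤ)) N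
  · rcases Nat.eq_zero_or_pos k with h0 | h0
    · rw [h0]
      rfl
    · have h6 := h5 k hk
      rcases mul_eq_zero.1 h6 with h7 | h7
      · omega
      · omega
  · have hk' : (-(k : ℤ)) ∉ Finset.Icc (-(N : ℤ)) N := by
      rw [Finset.mem_Icc] at hk ⊢
      omega
    rw [hN _ hk, hN _ hk']

/-- **SL2B** (M/L, uses only `sl2_inj`). Let `h, e, f` be as in `sl2_inj`, `h` semisimple
(= diagonalizable). If `W` is stable under `e` and `h` and the trace of `h` on `W` is zero, then `W`
is stable under `f`.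

Proof. Let `V_c` be the eigenspace of `h` for `c` and `W_c` its intersection with `W`; `V` is the
direct sum of the `V_c`, `W` is the direct sum of the `W_c`. If `V_c <> 0` then `c` is an integer:
for `v <> 0` in `V_c` take the last nonzero `e^i v` (the eigenvalues `c + 2i` are different), it is a
primitive vector, so `c + 2 i` is a natural number (`IsSl2Triple.HasPrimitiveVectorWith.exists_nat`).
`e` maps `V_c` to `V_(c+2)`, `f` maps `V_c` to `V_(c-2)`.
(1) For `k >= 0` natural, `e^k : W_(-k) -> W_k` is injective (`sl2_inj`), so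
`dim W_(-k) <= dim W_k`. The trace of `h` on `W` is
`sum over k > 0 of k (dim W_k - dim W_(-k)) = 0`, hence all these differences vanish and
`e^k : W_(-k) -> W_k` is BIJECTIVE for all `k >= 0`.
(2) Put `Om = 4 f e + h^2 + 2 h`; it commutes with `e, f, h`; write `c(k) = k^2 + 2 k`. On `V_k` we
have `f e = (Om - c(k)) / 4` and `e f = f e + h = (Om - c(k-2)) / 4`.
(3) `W_k` and `W_(-k)` are stable under `Om` for every `k >= 0`, by descending induction on `k`
(for large `k` they are zero). Suppose it holds for all larger values. Let `w` in `W_k`. Then `e w` is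
in `W_(k+2)`, so `e w = e^(k+2) u` with `u` in `W_(-k-2)` by (1), and
`f e w = (f e) (e^(k+1) u) = (Om - c(k))/4 (e^(k+1) u) = e^(k+1) (Om - c(k)) u / 4`, which is in `W`
since `Om u` is in `W_(-k-2)` by induction. So `Om w = 4 f e w + c(k) w` is in `W`. For `u` in
`W_(-k)`: `e^k (Om u) = Om (e^k u)` is in `W_k = e^k W_(-k)`, so `e^k (Om u - u') = 0` for some `u'`
in `W_(-k)`, and `Om u = u'` by `sl2_inj`.
(4) `f w` is in `W` for every `w` in `W_k`. If `k >= 1`: `w = e^k u` with `u` in `W_(-k)` and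
`f w = (f e) e^(k-1) u = e^(k-1) (Om - c(k-2)) u / 4` is in `W` by (3). If `k = -j <= 0`:
`e^(j+2) (f w) = e^(j+1) (e f) w = e^(j+1) (Om - c(-j-2)) w / 4` is in `W`, of weight `j + 2`, so it
equals `e^(j+2) u'` with `u'` in `W_(-j-2)` by (1); `f w` and `u'` have weight `-j-2`, so `f w = u'`
by `sl2_inj`. -/
theorem sl2_stable {K V : Type*} [Field K] [CharZero K] [IsAlgClosed K] [AddCommGroup V]
    [Module K V] [FiniteDimensional K V] (h e f : Module.End K V) (h1 : e * f - f * e = h)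
    (h2 : h * e - e * h = (2 : K) • e) (h3 : h * f - f * h = -((2 : K) • f))
    (hs : h.IsSemisimple) (W : Submodule K V) (he : ∀ w ∈ W, e w ∈ W) (hh : ∀ w ∈ W, h w ∈ W)
    (htr : LinearMap.trace K W (h.restrict hh) = 0) : ∀ w ∈ W, f w ∈ W := by
  classical
  obtain ⟨r1, r2, r3, Om, hOm, hOe, hOf, hOh⟩ := SL2A_casimir h e f h1 h2 h3
  have hint := SL2B_int h e f h1 h2 h3
  set hW : Module.End K W := h.restrict hh with hhW
  have hWs : hW.IsSemisimple := hs.restrict (p := W) (fun w hw => hh w hw)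
  have hmg : ∀ c : K, hW.maxGenEigenspace c = hW.eigenspace c :=
    fun c => hWs.isFinitelySemisimple.maxGenEigenspace_eq_eigenspace c
  -- weights
  have hej : ∀ (c : K) (w : V), h w = c • w → ∀ j : ℕ,
      h ((e ^ j) w) = (c + 2 * j) • (e ^ j) w := by
    intro c w hw j
    induction j with
    | zero => rw [pow_zero, Nat.cast_zero, mul_zero, add_zero]; exact hw
    | succ j ih =>
      rw [pow_succ', Module.End.mul_apply, r2, ih, map_smul, Nat.cast_succ]
      module
  have heW : ∀ (j : ℕ), ∀ w ∈ W, (e ^ j) w ∈ W := by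
    intro j
    induction j with
    | zero => intro w hw; exact hw
    | succ j ih =>
      intro w hw
      rw [pow_succ', Module.End.mul_apply]
      exact he _ (ih w hw)
  -- the bound
  obtain ⟨N, hN⟩ : ∃ N : ℕ, ∀ k : ℤ, h.HasEigenvalue (k : K) → k.natAbs ≤ N := by
    have hfin : {k : ℤ | h.HasEigenvalue (k : K)}.Finite :=
      h.finite_hasEigenvalue.preimage (Int.cast_injective.injOn)
    refine ⟨hfin.toFinset.sup Int.natAbs, fun k hk => ?_⟩
    exact Finset.le_sup (f := Int.natAbs) (hfin.mem_toFinset.2 hk)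
  let m : ℤ → ℕ := fun k => finrank K (W ⊓ h.eigenspace (k : K) : Submodule K V)
  have hm0 : ∀ k : ℤ, k ∉ Finset.Icc (-(N : ℤ)) N → m k = 0 := by
    intro k hk
    have h4 : h.eigenspace (k : K) = ⊥ := by
      by_contra hne
      have h5 := hN k hne
      rw [Finset.mem_Icc] at hk
      omega
    change finrank K (W ⊓ h.eigenspace (k : K) : Submodule K V) = 0
    rw [h4, inf_bot_eq, finrank_bot]
  -- injectivity and dimensions
  have hinj : ∀ (k : ℕ) (u : V), h u = (-(k : K)) • u → (e ^ k) u = 0 → u = 0 :=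
    fun k u => sl2_inj h e f h1 h2 h3 k u
  let E : ∀ k : ℕ, (W ⊓ h.eigenspace ((-(k : ℤ) : ℤ) : K) : Submodule K V) →ₗ[K]
      (W ⊓ h.eigenspace ((k : ℤ) : K) : Submodule K V) := fun k =>
    (e ^ k).restrict (p := (W ⊓ h.eigenspace ((-(k : ℤ) : ℤ) : K) : Submodule K V))
      (q := (W ⊓ h.eigenspace ((k : ℤ) : K) : Submodule K V)) (by
        rintro w ⟨hw1, hw2⟩
        refine ⟨heW k w hw1, ?_⟩
        rw [SetLike.mem_coe, Module.End.mem_eigenspace_iff] at hw2 ⊢
        rw [hej _ w hw2 k]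
        push_cast
        module)
  have hEinj : ∀ k : ℕ, Function.Injective (E k) := by
    intro k
    rw [← LinearMap.ker_eq_bot, LinearMap.ker_eq_bot']
    rintro ⟨w, hw1, hw2⟩ hw
    have h4 : (e ^ k) w = 0 := congrArg Subtype.val hw
    rw [SetLike.mem_coe, Module.End.mem_eigenspace_iff] at hw2
    refine Subtype.ext (hinj k w ?_ h4)
    rw [hw2]
    push_cast
    rfl
  have hle : ∀ k : ℕ, m (-(k : ℤ)) ≤ m k := fun k =>
    LinearMap.finrank_le_finrank_of_injective (hEinj k)
  have hsum : ∑ k ∈ Finset.Icc (-(N : ℤ)) N, k * (m k : ℤ) = 0 := by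
    have hst : ∀ c : K, ∀ v ∈ hW.maxGenEigenspace c, hW v ∈ hW.maxGenEigenspace c := by
      intro c v hv
      rw [hmg, Module.End.mem_eigenspace_iff] at hv
      rw [hv]
      refine Submodule.smul_mem _ _ ?_
      rw [hmg, Module.End.mem_eigenspace_iff]
      exact hv
    have hnil : ∀ c : K, ∀ v ∈ hW.maxGenEigenspace c,
        ∃ N : ℕ, ((hW - c • (1 : Module.End K W)) ^ N) v = 0 := by
      intro c v hv
      exact (Module.End.mem_maxGenEigenspace hW c v).1 hv
    have hs' : ∀ c : K, c ∉ (Finset.Icc (-(N : ℤ)) N).image (fun k : ℤ => (k : K)) →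
        hW.maxGenEigenspace c = ⊥ := by
      intro c hc
      rw [hmg]
      by_contra hne
      obtain ⟨w, hw, hw0⟩ := (Submodule.ne_bot_iff _).1 hne
      rw [Module.End.mem_eigenspace_iff] at hw
      have h4 : h (w : V) = c • (w : V) := congrArg Subtype.val hw
      have h5 : (w : V) ≠ 0 := fun h6 => hw0 (Subtype.ext h6)
      obtain ⟨k, hk⟩ := hint (w : V) h5 c h4
      apply hc
      rw [Finset.mem_image]
      refine ⟨k, ?_, hk.symm⟩
      have h6 := hN k (Module.End.hasEigenvalue_of_hasEigenvector (x := (w : V))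
        ⟨Module.End.mem_eigenspace_iff.2 (by rw [← hk]; exact h4), h5⟩)
      rw [Finset.mem_Icc]
      omega
    have h4 := ED_trace hW hW (fun c => c) hst hnil
      ((Finset.Icc (-(N : ℤ)) N).image (fun k : ℤ => (k : K))) hs'
    rw [htr, Finset.sum_image (fun a _ b _ hab => Int.cast_injective hab)] at h4
    have h5 : ((∑ k ∈ Finset.Icc (-(N : ℤ)) N, k * (m k : ℤ) : ℤ) : K) = 0 := by
      rw [h4]
      push_cast
      refine Finset.sum_congr rfl fun k _ => ?_
      rw [hmg, SL2B_dim h W hh (k : K)]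
    exact_mod_cast h5
  have hmm := SL2B_sum m N hm0 hle hsum
  have hsurj : ∀ (k : ℕ) (w : V), w ∈ W → h w = (k : K) • w →
      ∃ u ∈ W, h u = (-(k : K)) • u ∧ (e ^ k) u = w := by
    intro k w hw hkw
    have h4 : Function.Surjective (E k) :=
      (LinearMap.injective_iff_surjective_of_finrank_eq_finrank (hmm k)).1 (hEinj k)
    obtain ⟨⟨u, hu1, hu2⟩, hu⟩ := h4 ⟨w, hw, by
      rw [SetLike.mem_coe, Module.End.mem_eigenspace_iff, hkw]
      push_cast
      rfl⟩
    rw [SetLike.mem_coe, Module.End.mem_eigenspace_iff] at hu2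
    refine ⟨u, hu1, ?_, congrArg Subtype.val hu⟩
    rw [hu2]
    push_cast
    rfl
  -- `4 f e x = Om x - (c^2 + 2 c) x`
  have hfe : ∀ (c : K) (x : V), h x = c • x → (4 : K) • f (e x) = Om x - (c * c + 2 * c) • x := by
    intro c x hx
    rw [hOm, hx, map_smul, hx]
    module
  have hOej : ∀ (j : ℕ) (v : V), Om ((e ^ j) v) = (e ^ j) (Om v) := by
    intro j
    induction j with
    | zero => intro v; rfl
    | succ j ih =>
      intro v
      rw [pow_succ', Module.End.mul_apply, Module.End.mul_apply, hOe, ih]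
  have h4W : ∀ x : V, (4 : K) • x ∈ W → x ∈ W := by
    intro x hx
    have h4 : x = (4 : K)⁻¹ • ((4 : K) • x) := by
      rw [smul_smul, inv_mul_cancel₀ (by norm_num), one_smul]
    rw [h4]
    exact W.smul_mem _ hx
  -- the induction step
  have hQ1 : ∀ k : ℕ, (∀ u ∈ W, h u = (-((k + 2 : ℕ) : K)) • u → Om u ∈ W) →
      ∀ w ∈ W, h w = (k : K) • w → Om w ∈ W := by
    intro k hk w hw hkw
    have h5 : h (e w) = ((k + 2 : ℕ) : K) • e w := by
      rw [r2, hkw, map_smul]
      push_cast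
      module
    obtain ⟨u, hu1, hu2, hu3⟩ := hsurj (k + 2) (e w) (he w hw) h5
    have hx : h ((e ^ (k + 1)) u) = (k : K) • (e ^ (k + 1)) u := by
      rw [hej _ u hu2 (k + 1)]
      push_cast
      module
    have h6 : e w = e ((e ^ (k + 1)) u) := by
      rw [← hu3]
      change (e ^ (k + 1 + 1)) u = e ((e ^ (k + 1)) u)
      rw [pow_succ', Module.End.mul_apply]
    have h7 : (4 : K) • f (e w) ∈ W := by
      rw [h6, hfe (k : K) _ hx, hOej]
      exact W.sub_mem (heW _ _ (hk u hu1 hu2)) (W.smul_mem _ (heW _ _ hu1))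
    rw [hOm, hkw, map_smul, hkw]
    exact W.add_mem (W.add_mem h7 (W.smul_mem _ (W.smul_mem _ hw)))
      (W.smul_mem _ (W.smul_mem _ hw))
  have hQ2step : ∀ k : ℕ, (∀ w ∈ W, h w = (k : K) • w → Om w ∈ W) →
      ∀ u ∈ W, h u = (-(k : K)) • u → Om u ∈ W := by
    intro k hk u hu hku
    have h5 : h ((e ^ k) u) = (k : K) • (e ^ k) u := by
      rw [hej _ u hku k]
      module
    have h6 : Om ((e ^ k) u) ∈ W := hk _ (heW k u hu) h5
    have h7 : h (Om ((e ^ k) u)) = (k : K) • Om ((e ^ k) u) := by rw [← hOh, h5, map_smul]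
    obtain ⟨u', hu'1, hu'2, hu'3⟩ := hsurj k _ h6 h7
    have h8 : Om u - u' = 0 := by
      refine hinj k _ ?_ ?_
      · rw [map_sub, ← hOh, hku, map_smul, hu'2, smul_sub]
      · rw [map_sub, hu'3, hOej, sub_self]
    rw [sub_eq_zero.1 h8]
    exact hu'1
  have hQ2 : ∀ n k : ℕ, N + 1 ≤ k + 2 * n → ∀ u ∈ W, h u = (-(k : K)) • u → Om u ∈ W := by
    intro n
    induction n with
    | zero =>
      intro k hk u hu hku
      have h5 : u = 0 := by
        by_contra hne
        have h6 := hN (-(k : ℤ)) (Module.End.hasEigenvalue_of_hasEigenvector (x := u)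
          ⟨Module.End.mem_eigenspace_iff.2 (by rw [hku]; push_cast; rfl), hne⟩)
        omega
      rw [h5, map_zero]
      exact W.zero_mem
    | succ n ih =>
      intro k hk
      exact hQ2step k (hQ1 k (ih (k + 2) (by omega)))
  have hOm2 : ∀ k : ℕ, ∀ u ∈ W, h u = (-(k : K)) • u → Om u ∈ W := fun k =>
    hQ2 (N + 1) k (by omega)
  -- (4)
  have hneg : ∀ (j : ℕ) (w : V), w ∈ W → h w = (-(j : K)) • w → f w ∈ W := by
    intro j w hw hjw
    have h5 : (4 : K) • e (f w) ∈ W := by
      rw [r1, smul_add, hfe _ w hjw]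
      refine W.add_mem (W.sub_mem (hOm2 j w hw hjw) (W.smul_mem _ hw)) (W.smul_mem _ ?_)
      rw [hjw]
      exact W.smul_mem _ hw
    have h6 : (e ^ (j + 2)) (f w) ∈ W := by
      change (e ^ (j + 1 + 1)) (f w) ∈ W
      rw [pow_succ, Module.End.mul_apply]
      exact heW _ _ (h4W _ h5)
    have h7 : h (f w) = (-((j + 2 : ℕ) : K)) • f w := by
      rw [r3, hjw, map_smul]
      push_cast
      module
    have h8 : h ((e ^ (j + 2)) (f w)) = ((j + 2 : ℕ) : K) • (e ^ (j + 2)) (f w) := by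
      rw [hej _ _ h7 (j + 2)]
      module
    obtain ⟨u, hu1, hu2, hu3⟩ := hsurj (j + 2) _ h6 h8
    have h9 : f w - u = 0 := by
      refine hinj (j + 2) _ ?_ ?_
      · rw [map_sub, h7, hu2, smul_sub]
      · rw [map_sub, hu3, sub_self]
    rw [sub_eq_zero.1 h9]
    exact hu1
  have hpos : ∀ (k : ℕ) (w : V), w ∈ W → h w = ((k + 1 : ℕ) : K) • w → f w ∈ W := by
    intro k w hw hkw
    obtain ⟨u, hu1, hu2, hu3⟩ := hsurj (k + 1) w hw hkw
    have h5 : w = e ((e ^ k) u) := by
      rw [← hu3, pow_succ', Module.End.mul_apply]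
    apply h4W
    rw [h5, hfe _ _ (hej _ u hu2 k), hOej]
    exact W.sub_mem (heW _ _ (hOm2 (k + 1) u hu1 hu2)) (W.smul_mem _ (heW _ _ hu1))
  have htop : (⊤ : Submodule K W) ≤ (W.comap f).comap W.subtype := by
    rw [← hWs.iSup_eigenspace_eq_top]
    refine iSup_le fun c => ?_
    intro w hw
    rw [Module.End.mem_eigenspace_iff] at hw
    have h5 : h (w : V) = c • (w : V) := congrArg Subtype.val hw
    change f (w : V) ∈ W
    by_cases hw0 : (w : V) = 0
    · rw [hw0, map_zero]
      exact W.zero_mem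
    · obtain ⟨k, hk⟩ := hint (w : V) hw0 c h5
      rcases le_or_gt k 0 with hk0 | hk0
      · obtain ⟨j, hj⟩ := Int.eq_ofNat_of_zero_le (show 0 ≤ -k by omega)
        refine hneg j w w.2 ?_
        rw [h5, hk, show k = -(j : ℤ) by omega]
        push_cast
        rfl
      · obtain ⟨j, hj⟩ := Int.eq_ofNat_of_zero_le (show 0 ≤ k - 1 by omega)
        refine hpos j w w.2 ?_
        rw [h5, hk, show k = (j : ℤ) + 1 by omega]
        push_cast
        rfl
  intro w hw
  exact htop (Submodule.mem_top (x := (⟨w, hw⟩ : W)))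

end H4S
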