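import Mathlib
import Pool.Agent.Lib.H4S.SL2B

/-!
# H4S, chunk SY: the stabilizer of `W` contains with each root space the opposite one
-/

set_option autoImplicit false

namespace H4S

open Module LieModule LieAlgebra

attribute [local instance 100] LieRing.ofAssociativeRing

/-- **SY** (M, uses `sl2_stable`). `g` with trivial radical (so Killing), `H` a Cartan subalgebra
acting semisimply on the `g`-module `V`, `W` a subspace stable under `H` on which every `h` in `H` has
trace zero. If the root space of `α` stabilizes `W`, so does the root space of `-α`.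

Proof. `LieAlgebra.IsKilling.exists_isSl2Triple_of_weight_isNonZero` gives an sl2 triple `h, e, f`
with `e` in the root space of `α`, `f` in that of `-α`; `h` is the coroot, in `H`
(`IsSl2Triple.h_eq_coroot`). The endomorphisms of `V` given by `h, e, f` satisfy the relations of
`sl2_stable` (`⁅e,f⁆ = h`, `⁅h,e⁆ = 2e`, `⁅h,f⁆ = -2f`, and `toEnd` is a Lie morphism), so `f`
stabilizes `W`. The root space of `-α` is one-dimensional (`finrank_rootSpace_eq_one`), so it is
spanned by `f`. -/
theorem opposite_root {K g V : Type*} [Field K] [IsAlgClosed K] [CharZero K] [LieRing g]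
    [LieAlgebra K g] [FiniteDimensional K g] [HasTrivialRadical K g] [AddCommGroup V] [Module K V]
    [FiniteDimensional K V] [LieRingModule g V] [LieModule K g V]
    (H : LieSubalgebra K g) [H.IsCartanSubalgebra] (hHs : ∀ h ∈ H, (toEnd K g V h).IsSemisimple)
    (W : Submodule K V) (hHW : ∀ h ∈ H, ∀ w ∈ W, toEnd K g V h w ∈ W)
    (htr : ∀ (h : g) (hh : h ∈ H), LinearMap.trace K W ((toEnd K g V h).restrict (hHW h hh)) = 0)
    (α : Weight K H g) (hα : α.IsNonZero)
    (hαW : ∀ e ∈ rootSpace H α, ∀ w ∈ W, toEnd K g V e w ∈ W) :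
    ∀ f ∈ rootSpace H (-α), ∀ w ∈ W, toEnd K g V f w ∈ W := by
  obtain ⟨h, e, f, hsl, heα, hfα⟩ := IsKilling.exists_isSl2Triple_of_weight_isNonZero hα
  have hh : h ∈ H := by
    rw [hsl.h_eq_coroot hα heα hfα]
    exact SetLike.coe_mem _
  have hbr : ∀ a b : g, toEnd K g V a * toEnd K g V b - toEnd K g V b * toEnd K g V a =
      toEnd K g V ⁅a, b⁆ := fun a b => by
    rw [LieHom.map_lie, LieRing.of_associative_ring_bracket]
  have r1 : toEnd K g V e * toEnd K g V f - toEnd K g V f * toEnd K g V e = toEnd K g V h := by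
    rw [hbr, hsl.lie_e_f]
  have r2 : toEnd K g V h * toEnd K g V e - toEnd K g V e * toEnd K g V h =
      (2 : K) • toEnd K g V e := by
    rw [hbr, hsl.lie_h_e_nsmul, map_nsmul, two_nsmul, two_smul]
  have r3 : toEnd K g V h * toEnd K g V f - toEnd K g V f * toEnd K g V h =
      -((2 : K) • toEnd K g V f) := by
    rw [hbr, hsl.lie_h_f_nsmul, map_neg, map_nsmul, two_nsmul, two_smul]
  have hfW : ∀ w ∈ W, toEnd K g V f w ∈ W :=
    sl2_stable (toEnd K g V h) (toEnd K g V e) (toEnd K g V f) r1 r2 r3 (hHs h hh) W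
      (hαW e heα) (hHW h hh) (htr h hh)
  intro f' hf' w hw
  have h1 : finrank K (rootSpace H (-α : H → K)) = 1 := by
    have := IsKilling.finrank_rootSpace_eq_one (-α) hα.neg
    exact this
  have h2 : (⟨f, hfα⟩ : rootSpace H (-α : H → K)) ≠ 0 :=
    fun h => hsl.symm.e_ne_zero (congrArg Subtype.val h)
  obtain ⟨c, hc⟩ := (finrank_eq_one_iff_of_nonzero' _ h2).1 h1 ⟨f', hf'⟩
  have h3 : f' = c • f := (congrArg Subtype.val hc).symm
  rw [h3, map_smul, LinearMap.smul_apply]
  exact W.smul_mem c (hfW w hw)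

end H4S
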