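import Mathlib
import Pool.Agent.Lib.H4S.EA
import Pool.Agent.Lib.H4S.EB
import Pool.Agent.Lib.H4S.EC
import Pool.Agent.Lib.H4S.ED
import Pool.Agent.Lib.H4S.SY
import Pool.Agent.Lib.H4S.RP
import Pool.Agent.Lib.H4S.RD
import Pool.Agent.Lib.H4S.PR

/-!
# H4S, chunk AS: assembly for a semisimple Lie algebra and a commuting torus
-/

set_option autoImplicit false

namespace H4S

open Module LieModule LieAlgebra

attribute [local instance 100] LieRing.ofAssociativeRing

theorem AS_trace_zero {K g V : Type*} [Field K] [IsAlgClosed K] [CharZero K] [LieRing g]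
    [LieAlgebra K g] [FiniteDimensional K g] [HasTrivialRadical K g] [AddCommGroup V] [Module K V]
    [FiniteDimensional K V] [LieRingModule g V] [LieModule K g V] (y : g) :
    LinearMap.trace K V (toEnd K g V y) = 0 := by
  have hB : (killingForm K g).Nondegenerate := LieAlgebra.IsKilling.killingForm_nondegenerate K g
  let φ : Dual K g := (LinearMap.trace K V).comp (toEnd K g V : g →ₗ[K] Module.End K V)
  obtain ⟨x0, hx0⟩ : ∃ x0, killingForm K g x0 = φ := by
    obtain ⟨x0, hx0⟩ := (LinearMap.BilinForm.toDual (killingForm K g) hB).surjective φ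
    refine ⟨x0, ?_⟩
    ext z
    rw [← hx0, LinearMap.BilinForm.toDual_def]
  have h1 : ∀ a c : g, φ ⁅a, c⁆ = 0 := by
    intro a c
    change LinearMap.trace K V (toEnd K g V ⁅a, c⁆) = 0
    rw [LieHom.map_lie, LieRing.of_associative_ring_bracket, map_sub, LinearMap.trace_mul_comm,
      sub_self]
  have h2 : ∀ a : g, ⁅x0, a⁆ = 0 := by
    intro a
    refine hB.1 _ fun z => ?_
    rw [← h1 a z, ← hx0]
    exact traceForm_apply_lie_apply K g g x0 a z
  have h3 : x0 ∈ center K g := by
    intro a
    rw [← lie_skew, h2, neg_zero]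
  rw [center_eq_bot, LieSubmodule.mem_bot] at h3
  have h4 : φ y = 0 := by
    rw [← hx0, h3, map_zero, LinearMap.zero_apply]
  exact h4

/-- **AS** (M, assembly). `g` has trivial radical and acts faithfully on `V`, `Z` is a space of
pairwise commuting semisimple endomorphisms of `V` commuting with `g`, and `V` is
semisimple over `g` and `Z`. `x = x' + z0` is generic, `W` is stable under `x`, with the trace
relation. Then there is a projector onto `W` which commutes with `Z` and with all `y` in `g` which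
stabilize `W`.

Proof. `H = LieSubalgebra.engel K x'` is a Cartan subalgebra (`engel_cartan`), it acts semisimply on
`V` (`cartan_semisimple`). For `h` in `H`, `z` in `Z` the endomorphism `h + z` is semisimple (a sum of
commuting semisimple endomorphisms over an algebraically closed field), so by genericity
and `scalar_of_generic` it acts on the generalized eigenspaces of `x` by scalars and stabilizes `W`;
so `H` (take `z = 0`) and `Z` (take `h = 0`) stabilize `W`. The trace of every `y` in `g` on `V` is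
zero: `g = ⁅g,g⁆` (trivial radical). By `trace_relation` for `y = h` the trace of `h` in `H` on `W` is
zero (if `dim V = 0` everything is trivial). By `opposite_root` the subalgebra
`P = {y in g : y W ⊆ W}` satisfies the hypothesis of `reductive_of_symm`; so `P` has central radical
and its center acts semisimply on `V`. `reductive` for `P` (faithful on `V`): the derived
algebra `S` of `P` has trivial radical, `P = S + center P`. Apply `projector` to the Lie algebra `S`
(acting on `V`) and `C = Z ∪ {center P}`: its elements commute with each other, with `S`, are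
semisimple, stabilize `W`. The projector commutes with `S`, `center P` and `Z`, so with `P` and `Z`. -/
theorem projector_generic {K g V : Type*} [Field K] [IsAlgClosed K] [CharZero K] [LieRing g]
    [LieAlgebra K g] [FiniteDimensional K g] [HasTrivialRadical K g] [AddCommGroup V] [Module K V]
    [FiniteDimensional K V] [LieRingModule g V] [LieModule K g V] [IsFaithful K g V]
    (Z : Submodule K (Module.End K V)) (hZ1 : ∀ z ∈ Z, ∀ y : g, Commute z (toEnd K g V y))
    (hZ2 : ∀ z ∈ Z, ∀ z' ∈ Z, Commute z z') (hZ3 : ∀ z ∈ Z, z.IsSemisimple)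
    (hss : ∀ U : Submodule K V, (∀ y : g, ∀ u ∈ U, ⁅y, u⁆ ∈ U) → (∀ z ∈ Z, ∀ u ∈ U, z u ∈ U) →
      ∃ U' : Submodule K V, (∀ y : g, ∀ u ∈ U', ⁅y, u⁆ ∈ U') ∧ (∀ z ∈ Z, ∀ u ∈ U', z u ∈ U') ∧
        IsCompl U U')
    (x' : g) (z0 : Module.End K V) (hz0 : z0 ∈ Z) (hgen : GenA Z x' (toEnd K g V x' + z0))
    (W : Submodule K V) (hW : ∀ w ∈ W, (toEnd K g V x' + z0) w ∈ W)
    (htr : (finrank K V : K) * LinearMap.trace K W ((toEnd K g V x' + z0).restrict hW) =
      (finrank K W : K) * LinearMap.trace K V (toEnd K g V x' + z0)) :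
    ∃ e : Module.End K V, (∀ v, e v ∈ W) ∧ (∀ w ∈ W, e w = w) ∧
      (∀ z ∈ Z, Commute z e) ∧
      ∀ y : g, (∀ w ∈ W, toEnd K g V y w ∈ W) → Commute (toEnd K g V y) e := by
  classical
  have hz0c : ∀ y : g, Commute z0 (toEnd K g V y) := fun y => hZ1 z0 hz0 y
  set x : Module.End K V := toEnd K g V x' + z0 with hx
  set H : LieSubalgebra K g := LieSubalgebra.engel K x' with hH
  have hHC : H.IsCartanSubalgebra := engel_cartan Z x' z0 hz0c hgen
  have hHs : ∀ h ∈ H, (toEnd K g V h).IsSemisimple := fun h hh =>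
    cartan_semisimple (Z : Set (Module.End K V)) hZ1 hss H h hh
  -- elements of `H` and of `Z` stabilize `W`
  have hstab : ∀ h ∈ H, ∀ z ∈ Z, ∃ τ : K → K,
      (∀ c : K, ∀ v ∈ x.maxGenEigenspace c, (toEnd K g V h + z) v = τ c • v) ∧
      (∀ w ∈ W, (toEnd K g V h + z) w ∈ W) ∧
      (∀ m : K →₀ ℤ, (∀ c ∈ m.support, x.HasEigenvalue c) →
        (m.sum fun c j => (j : K) * c) = 0 → (m.sum fun c j => (j : K) * τ c) = 0) := by
    intro h hh z hz
    obtain ⟨τ, h1, h2⟩ := hgen h ((LieSubalgebra.mem_engel_iff K x' h).1 hh) z hz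
    have hs : (toEnd K g V h + z).IsSemisimple :=
      (hHs h hh).add_of_commute (hZ1 z hz h).symm (hZ3 z hz)
    obtain ⟨h3, h4⟩ := scalar_of_generic x (toEnd K g V h + z) hs τ h1
    exact ⟨τ, h3, h4 W hW, h2⟩
  have hHW : ∀ h ∈ H, ∀ w ∈ W, toEnd K g V h w ∈ W := by
    intro h hh w hw
    obtain ⟨τ, -, h2, -⟩ := hstab h hh 0 Z.zero_mem
    simpa using h2 w hw
  have hZW : ∀ z ∈ Z, ∀ w ∈ W, z w ∈ W := by
    intro z hz w hw
    obtain ⟨τ, -, h2, -⟩ := hstab 0 H.zero_mem z hz
    simpa using h2 w hw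
  by_cases hV : finrank K V = 0
  · have hsub : Subsingleton V := finrank_zero_iff.mp hV
    refine ⟨0, fun v => by simp, fun w _ => Subsingleton.elim _ _,
      fun z _ => Commute.zero_right _, fun y _ => Commute.zero_right _⟩
  have htr0 : ∀ (h : g) (hh : h ∈ H),
      LinearMap.trace K W ((toEnd K g V h).restrict (hHW h hh)) = 0 := by
    intro h hh
    obtain ⟨τ, h1, -, h3⟩ := hstab h hh 0 Z.zero_mem
    have h1' : ∀ c : K, ∀ v ∈ x.maxGenEigenspace c, toEnd K g V h v = τ c • v := by
      intro c v hv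
      simpa using h1 c v hv
    have h4 := trace_relation x (toEnd K g V h) τ h1' h3 W hW (hHW h hh) htr
    rw [AS_trace_zero, mul_zero] at h4
    rcases mul_eq_zero.mp h4 with h5 | h5
    · exact absurd (by exact_mod_cast h5) hV
    · exact h5
  -- the stabilizer of `W`
  let P : LieSubalgebra K g :=
    { carrier := {y | ∀ w ∈ W, toEnd K g V y w ∈ W}
      add_mem' := by
        intro a b ha hb w hw
        rw [map_add, LinearMap.add_apply]
        exact W.add_mem (ha w hw) (hb w hw)
      zero_mem' := by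
        intro w hw
        rw [map_zero, LinearMap.zero_apply]
        exact W.zero_mem
      smul_mem' := by
        intro c a ha w hw
        rw [map_smul, LinearMap.smul_apply]
        exact W.smul_mem c (ha w hw)
      lie_mem' := by
        intro a b ha hb w hw
        have ha' : ∀ w ∈ W, toEnd K g V a w ∈ W := ha
        have hb' : ∀ w ∈ W, toEnd K g V b w ∈ W := hb
        rw [LieHom.map_lie, LieRing.of_associative_ring_bracket, LinearMap.sub_apply,
          Module.End.mul_apply, Module.End.mul_apply]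
        exact W.sub_mem (ha' _ (hb' w hw)) (hb' _ (ha' w hw)) }
  have hPmem : ∀ y : g, y ∈ P ↔ ∀ w ∈ W, toEnd K g V y w ∈ W := fun y => Iff.rfl
  have hHP : H ≤ P := fun h hh => (hPmem h).2 (hHW h hh)
  have hsym : ∀ α : Weight K H g, α.IsNonZero → (∀ e ∈ rootSpace H α, e ∈ P) →
      ∀ f ∈ rootSpace H (-α), f ∈ P := by
    intro α hα hP f hf
    exact (hPmem f).2 fun w hw => opposite_root H hHs W hHW htr0 α hα
      (fun e he w hw => (hPmem e).1 (hP e he) w hw) f hf w hw
  obtain ⟨hcr, hcs⟩ := reductive_of_symm H hHs P hHP hsym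
  have hfaith : IsFaithful K P V := by
    refine ⟨fun a b hab => ?_⟩
    have h1 : toEnd K g V (a : g) = toEnd K g V (b : g) := by
      ext v
      have := congrArg (fun t : Module.End K V => t v) hab
      simpa using this
    exact Subtype.ext (IsFaithful.injective_toEnd h1)
  obtain ⟨htrivS, hdec⟩ := reductive (K := K) (P := P) (V := V) hcs
  set S : LieIdeal K P := derivedSeries K P 1 with hS
  let C : Set (Module.End K V) := {c | c ∈ Z ∨ ∃ z ∈ center K P, c = toEnd K g V (z : g)}
  have hSend : ∀ y : S, toEnd K S V y = toEnd K g V ((y : P) : g) := by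
    intro y
    ext v
    rfl
  have hC1 : ∀ z ∈ C, ∀ y : S, Commute z (toEnd K S V y) := by
    rintro z (hz | ⟨z, hz, rfl⟩) y
    · rw [hSend]
      exact hZ1 z hz _
    · rw [hSend]
      have h1 : ⁅(y : P), z⁆ = 0 := hz y
      have h2 : ⁅((y : P) : g), (z : g)⁆ = 0 := by
        rw [← LieSubalgebra.coe_bracket, h1, ZeroMemClass.coe_zero]
      have h3 : toEnd K g V ⁅((y : P) : g), (z : g)⁆ = 0 := by rw [h2, map_zero]
      rw [LieHom.map_lie, LieRing.of_associative_ring_bracket, sub_eq_zero] at h3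
      exact h3.symm
  have hC2 : ∀ z ∈ C, ∀ z' ∈ C, Commute z z' := by
    rintro z (hz | ⟨z, hz, rfl⟩) z' (hz' | ⟨z', hz', rfl⟩)
    · exact hZ2 z hz z' hz'
    · exact hZ1 z hz _
    · exact (hZ1 z' hz' _).symm
    · have h1 : ⁅z', z⁆ = 0 := hz z'
      have h2 : ⁅(z' : g), (z : g)⁆ = 0 := by
        rw [← LieSubalgebra.coe_bracket, h1, ZeroMemClass.coe_zero]
      have h3 : toEnd K g V ⁅(z' : g), (z : g)⁆ = 0 := by rw [h2, map_zero]
      rw [LieHom.map_lie, LieRing.of_associative_ring_bracket, sub_eq_zero] at h3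
      exact h3.symm
  have hC3 : ∀ z ∈ C, z.IsSemisimple := by
    rintro z (hz | ⟨z, hz, rfl⟩)
    · exact hZ3 z hz
    · exact hcs z hz
  have hCW : ∀ z ∈ C, ∀ w ∈ W, z w ∈ W := by
    rintro z (hz | ⟨z, hz, rfl⟩)
    · exact hZW z hz
    · exact (hPmem _).1 z.2
  have hSW : ∀ y : S, ∀ w ∈ W, ⁅y, w⁆ ∈ W := by
    intro y w hw
    exact (hPmem _).1 (y : P).2 w hw
  obtain ⟨e, he1, he2, he3, he4⟩ := projector (K := K) (g := S) (V := V) C hC1 hC2 hC3 W hSW hCW
  refine ⟨e, he1, he2, fun z hz => he4 z (Or.inl hz), fun y hy => ?_⟩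
  obtain ⟨s, hs, z, hz, hyz⟩ := hdec ⟨y, (hPmem y).2 hy⟩
  have hy' : y = (s : g) + (z : g) := by
    have := congrArg (fun t : P => (t : g)) hyz
    simpa using this
  rw [hy', map_add]
  refine Commute.add_left ?_ (he4 _ (Or.inr ⟨z, hz, rfl⟩))
  exact he3 ⟨s, hs⟩

end H4S
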