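import Mathlib

/-!
# H4S, chunk CR: a Lie algebra with a faithful semisimple module has central radical
-/

set_option autoImplicit false

namespace H4S

open Module LieModule LieAlgebra

attribute [local instance 100] LieRing.ofAssociativeRing

theorem CR_comm {K A : Type*} [Field K] [Ring A] [Algebra K A] {f n y : A}
    (hn : n ∈ Algebra.adjoin K {f}) (h : Commute y f) : Commute y n := by
  refine Algebra.adjoin_induction (p := fun x _ => Commute y x) ?_ ?_ ?_ ?_ hn
  · intro x hx
    rw [Set.mem_singleton_iff.1 hx]
    exact h
  · intro r
    exact (Algebra.commutes r y).symm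
  · intro a b _ _ ha hb
    exact ha.add_right hb
  · intro a b _ _ ha hb
    exact ha.mul_right hb

theorem CR_stable {K V : Type*} [Field K] [AddCommGroup V] [Module K V] {f n : Module.End K V}
    (hn : n ∈ Algebra.adjoin K {f}) (W : Submodule K V) (h : ∀ w ∈ W, f w ∈ W) :
    ∀ w ∈ W, n w ∈ W := by
  refine Algebra.adjoin_induction (p := fun x _ => ∀ w ∈ W, x w ∈ W) ?_ ?_ ?_ ?_ hn
  · intro x hx
    rw [Set.mem_singleton_iff.1 hx]
    exact h
  · intro r w hw
    rw [Module.algebraMap_end_apply]
    exact W.smul_mem r hw
  · intro a b _ _ ha hb w hw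
    exact W.add_mem (ha w hw) (hb w hw)
  · intro a b _ _ ha hb w hw
    exact ha _ (hb w hw)

/-- **CR** (M, only Mathlib). Let `L` be a finite-dimensional Lie algebra over an algebraically closed
field of characteristic zero and `V` a faithful finite-dimensional module in which every submodule
has a complement. Then the radical of `L` is its center, and the elements of the center act
semisimply on `V`.

Proof. Let `U` be an irreducible submodule of `V`. As in the proof of
`LieAlgebra.hasCentralRadical_and_of_isIrreducible_of_isFaithful` (which does not use faithfulness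
for this part) the radical acts on `U` by scalars: `exists_nontrivial_weightSpace_of_isSolvable` for
the radical gives a character `chi` with nonzero weight space, `weightSpaceOfIsLieTower` makes it a
submodule of `U`, so it is `U`. `V` is the sum of its irreducible submodules
(`ComplementedLattice`, or: let `T` be the sum of all irreducible submodules, take a complement `T'`
of it; if `T'` is not zero it contains an irreducible submodule of `V`, namely a nonzero submodule of
minimal dimension; contradiction). For `r` in the radical and `y` in `L` the bracket `[y,r]` acts as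
zero on each irreducible submodule, so on `V`, so `[y,r] = 0` by faithfulness: the radical is central
(`hasCentralRadical_of_radical_le`). An element of the center is in the radical, acts as a scalar
on each irreducible submodule, and `V` is the sum of these, so it acts diagonalizably:
semisimple (`Module.End.isSemisimple_of_...` / every invariant subspace has a complement, or:
its minimal polynomial divides a product of different linear factors, `isSemisimple_of_squarefree_aeval_eq_zero`). -/
theorem centralRadical {K L V : Type*} [Field K] [IsAlgClosed K] [CharZero K] [LieRing L]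
    [LieAlgebra K L] [FiniteDimensional K L] [AddCommGroup V] [Module K V] [FiniteDimensional K V]
    [LieRingModule L V] [LieModule K L V] [IsFaithful K L V]
    (hss : ∀ U : LieSubmodule K L V, ∃ U' : LieSubmodule K L V,
      IsCompl (U : Submodule K V) (U' : Submodule K V)) :
    HasCentralRadical K L ∧ ∀ z ∈ center K L, (toEnd K L V z).IsSemisimple := by
  classical
  let T : LieSubmodule K L V := ⨆ χ : radical K L → K, weightSpaceOfIsLieTower K V χ
  have hT : T = ⊤ := by
    obtain ⟨T', hT'⟩ := hss T
    by_cases hbot : T' = ⊥
    · have h1 := hT'.sup_eq_top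
      rw [hbot, LieSubmodule.bot_toSubmodule, sup_bot_eq] at h1
      exact LieSubmodule.toSubmodule_injective (by rw [h1, LieSubmodule.top_toSubmodule])
    · exfalso
      have hnt : Nontrivial T' := by
        rw [← not_subsingleton_iff_nontrivial]
        intro hsub
        refine hbot ?_
        rw [LieSubmodule.eq_bot_iff]
        intro m hm
        exact congrArg Subtype.val (Subsingleton.elim (⟨m, hm⟩ : T') 0)
      obtain ⟨χ, hχ⟩ : ∃ χ : Module.Dual K (radical K L), Nontrivial (weightSpace T' χ) :=
        exists_nontrivial_weightSpace_of_isSolvable K (radical K L) T'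
      obtain ⟨⟨v, hv⟩, hv0⟩ := exists_ne (0 : weightSpace T' χ)
      have h1 : (v : V) ∈ T := by
        have h2 : weightSpaceOfIsLieTower K V χ ≤ T :=
          le_iSup (fun χ : radical K L → K => weightSpaceOfIsLieTower K V χ) χ
        refine h2 ?_
        change (v : V) ∈ weightSpace V χ
        rw [mem_weightSpace] at hv ⊢
        intro r
        exact congrArg Subtype.val (hv r)
      have h3 : (v : V) = 0 := by
        have h4 : (v : V) ∈ (T : Submodule K V) ⊓ (T' : Submodule K V) := ⟨h1, v.2⟩
        rw [hT'.inf_eq_bot] at h4
        exact h4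
      exact hv0 (Subtype.ext (Subtype.ext h3))
  have hbr : ∀ r ∈ radical K L, ∀ y : L, ⁅y, r⁆ = 0 := by
    intro r hr y
    apply (toEnd_eq_zero_iff K L V).1
    ext v
    have hv : v ∈ T := by
      rw [hT]
      exact LieSubmodule.mem_top v
    refine LieSubmodule.iSup_induction (motive := fun m => toEnd K L V ⁅y, r⁆ m =
      (0 : Module.End K V) m) _ hv ?_ (by rw [map_zero, map_zero]) ?_
    · intro χ m hm
      have hm' : m ∈ weightSpace V χ := hm
      have hym : ⁅y, m⁆ ∈ weightSpace V χ := (weightSpaceOfIsLieTower K V χ).lie_mem hm
      rw [mem_weightSpace] at hm' hym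
      have h1 : ⁅r, m⁆ = χ ⟨r, hr⟩ • m := hm' ⟨r, hr⟩
      have h2 : ⁅r, ⁅y, m⁆⁆ = χ ⟨r, hr⟩ • ⁅y, m⁆ := hym ⟨r, hr⟩
      rw [toEnd_apply_apply, lie_lie, h1, h2, lie_smul, sub_self, LinearMap.zero_apply]
    · intro a b ha hb
      rw [map_add, map_add, ha, hb]
  have hrad : HasCentralRadical K L :=
    hasCentralRadical_of_radical_le K L fun r hr y => hbr r hr y
  refine ⟨hrad, fun z hz => ?_⟩
  -- the center acts semisimply
  obtain ⟨n, hn, s, hs, hnil, hss', hns⟩ := (toEnd K L V z).exists_isNilpotent_isSemisimple
  have hcomm : ∀ y : L, Commute (toEnd K L V y) (toEnd K L V z) := by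
    intro y
    have h1 : toEnd K L V ⁅y, z⁆ = 0 := by rw [hz y, map_zero]
    rw [LieHom.map_lie, LieRing.of_associative_ring_bracket] at h1
    exact sub_eq_zero.1 h1
  have hcn : ∀ y : L, Commute (toEnd K L V y) n := fun y => CR_comm hn (hcomm y)
  let U : LieSubmodule K L V :=
    { LinearMap.ker n with
      lie_mem := by
        intro y m hm
        have hm' : n m = 0 := hm
        have h1 : n ⁅y, m⁆ = ⁅y, n m⁆ := congrArg (fun t : Module.End K V => t m) (hcn y).symm
        change n ⁅y, m⁆ = 0
        rw [h1, hm', lie_zero] }
  obtain ⟨U', hU'⟩ := hss U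
  have hUz : ∀ m ∈ (U' : Submodule K V), n m ∈ (U' : Submodule K V) :=
    CR_stable hn (U' : Submodule K V) (fun w hw => U'.lie_mem (x := z) hw)
  have hU'0 : ∀ m ∈ (U' : Submodule K V), m = 0 := by
    obtain ⟨k, hk⟩ := hnil
    have h1 : ∀ j : ℕ, ∀ m ∈ (U' : Submodule K V), (n ^ j) m = 0 → m = 0 := by
      intro j
      induction j with
      | zero => intro m _ h; exact h
      | succ j ih =>
        intro m hm h
        have h2 : n m = 0 := by
          refine ih (n m) (hUz m hm) ?_
          rw [pow_succ, Module.End.mul_apply] at h
          exact h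
        have h4 : m ∈ (U : Submodule K V) ⊓ (U' : Submodule K V) := ⟨h2, hm⟩
        rw [hU'.inf_eq_bot] at h4
        exact h4
    intro m hm
    exact h1 k m hm (by rw [hk, LinearMap.zero_apply])
  have hn0 : n = 0 := by
    ext v
    have hv : v ∈ (U : Submodule K V) ⊔ (U' : Submodule K V) := by
      rw [hU'.sup_eq_top]
      exact Submodule.mem_top
    obtain ⟨a, ha, b, hb, rfl⟩ := Submodule.mem_sup.1 hv
    rw [hU'0 b hb, add_zero]
    exact ha
  rw [hns, hn0, zero_add]
  exact hss'

end H4S
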