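import Mathlib
import Pool.Agent.Lib.H4S.A0
import Pool.Agent.Lib.H4S.AS
import Pool.Agent.Lib.H4S.CR

/-!
# H4S, chunk CO: the core theorem over an algebraically closed field
-/

set_option autoImplicit false

namespace H4S

open Module LieModule LieAlgebra

attribute [local instance 100] LieRing.ofAssociativeRing

/-- **CO** (M, assembly). Core theorem over an algebraically closed field, in elementary language.

Proof. `L` gives a Lie subalgebra of `End V`; `V` is a faithful module for it, every submodule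
has a complement (`hss`). By `centralRadical` its radical is its center and the center acts
semisimply; by `reductive` the derived algebra `g` has trivial radical and `L = g + center`. Let `Z` be
the center, as a space of endomorphisms of `V`. `x = x' + z0`. `g` acts faithfully. Every subspace
stable under `g` and `Z` is stable under `L`, so it has a complement stable under `L`, hence
under `g` and `Z`. `GenA Z x' x`: for `y` in `g` with `(ad x')^N y = 0` and `z` in `Z` the element
`y + z` of `L` satisfies `(ad x)^(N+1) (y + z) = 0` (`ad x = ad x'` on `g`, and `x` commutes with `z`),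
so `GenProp L x` applies. `projector_generic` gives `e`. If `y` in `L` stabilizes `W`, write
`y = y' + z`: every element of `Z` stabilizes `W` because it commutes with the projector `e`
(`z w = z e w = e z w`), so `y'` stabilizes `W`, and `y'`, `z` commute with `e`. -/
theorem core {K V : Type*} [Field K] [IsAlgClosed K] [CharZero K] [AddCommGroup V] [Module K V]
    [FiniteDimensional K V] (L : Submodule K (Module.End K V)) (hL : IsLie L)
    (hss : SS (L : Set (Module.End K V))) (x : Module.End K V) (hx : x ∈ L) (hgen : GenProp L x)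
    (W : Submodule K V) (hW : ∀ w ∈ W, x w ∈ W)
    (htr : (finrank K V : K) * LinearMap.trace K W (x.restrict hW) =
      (finrank K W : K) * LinearMap.trace K V x) :
    ∃ e : Module.End K V, (∀ v, e v ∈ W) ∧ (∀ w ∈ W, e w = w) ∧
      ∀ y ∈ L, (∀ w ∈ W, y w ∈ W) → Commute y e := by
  classical
  let LL : LieSubalgebra K (Module.End K V) :=
    { L with
      lie_mem' := by
        intro a b ha hb
        rw [LieRing.of_associative_ring_bracket]
        exact hL a ha b hb }
  have hLL : ∀ y : Module.End K V, y ∈ LL ↔ y ∈ L := fun y => Iff.rfl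
  have hend : ∀ (y : LL) (v : V), ⁅y, v⁆ = (y : Module.End K V) v := fun y v => rfl
  have hend' : ∀ (y : LL), toEnd K LL V y = (y : Module.End K V) := fun y => rfl
  have hss' : ∀ U : LieSubmodule K LL V, ∃ U' : LieSubmodule K LL V,
      IsCompl (U : Submodule K V) (U' : Submodule K V) := by
    intro U
    obtain ⟨U', h1, h2⟩ := hss (U : Submodule K V) (fun a ha u hu => U.lie_mem (x := ⟨a, ha⟩) hu)
    exact ⟨{ U' with lie_mem := fun {y m} hm => h1 y y.2 m hm }, h2⟩
  obtain ⟨hcr, hcs⟩ := centralRadical (K := K) (L := LL) (V := V) hss'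
  obtain ⟨htriv, hdec⟩ := reductive (K := K) (P := LL) (V := V) hcs
  set S : LieIdeal K LL := derivedSeries K LL 1 with hS
  have hSend : ∀ y : S, toEnd K S V y = ((y : LL) : Module.End K V) := fun y => rfl
  have hSbr : ∀ (y : S) (v : V), ⁅y, v⁆ = ((y : LL) : Module.End K V) v := fun y v => rfl
  have hfaith : IsFaithful K S V := by
    refine ⟨fun a b hab => ?_⟩
    rw [hSend, hSend] at hab
    exact Subtype.ext (Subtype.ext hab)
  let Z : Submodule K (Module.End K V) :=
    (center K LL).toSubmodule.map (LL.toSubmodule.subtype)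
  have hZmem : ∀ z, z ∈ Z ↔ ∃ (hz : z ∈ LL), (⟨z, hz⟩ : LL) ∈ center K LL := by
    intro z
    constructor
    · rintro ⟨y, hy, rfl⟩
      exact ⟨y.2, hy⟩
    · rintro ⟨hz, h⟩
      exact ⟨⟨z, hz⟩, h, rfl⟩
  have hcomm : ∀ z ∈ Z, ∀ y ∈ L, Commute z y := by
    intro z hz y hy
    obtain ⟨hz1, hz2⟩ := (hZmem z).1 hz
    have h1 : ⁅(⟨y, hy⟩ : LL), (⟨z, hz1⟩ : LL)⁆ = 0 := hz2 ⟨y, hy⟩
    have h2 : y * z - z * y = 0 := congrArg (fun t : LL => (t : Module.End K V)) h1
    exact (sub_eq_zero.1 h2).symm
  have hZL : ∀ z ∈ Z, z ∈ L := fun z hz => ((hZmem z).1 hz).1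
  have hZ1 : ∀ z ∈ Z, ∀ y : S, Commute z (toEnd K S V y) := fun z hz y =>
    hcomm z hz _ (y : LL).2
  have hZ2 : ∀ z ∈ Z, ∀ z' ∈ Z, Commute z z' := fun z hz z' hz' => hcomm z hz z' (hZL z' hz')
  have hZ3 : ∀ z ∈ Z, z.IsSemisimple := by
    intro z hz
    obtain ⟨hz1, hz2⟩ := (hZmem z).1 hz
    exact hcs _ hz2
  have hdec' : ∀ y ∈ L, ∃ s : S, ∃ z ∈ Z, y = ((s : LL) : Module.End K V) + z := by
    intro y hy
    obtain ⟨s, hs, z, hz, h⟩ := hdec ⟨y, hy⟩
    refine ⟨⟨s, hs⟩, (z : Module.End K V), (hZmem _).2 ⟨z.2, hz⟩, ?_⟩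
    exact congrArg (fun t : LL => (t : Module.End K V)) h
  have hSL : ∀ y : S, ((y : LL) : Module.End K V) ∈ L := fun y => (y : LL).2
  have hssS : ∀ U : Submodule K V, (∀ y : S, ∀ u ∈ U, ⁅y, u⁆ ∈ U) → (∀ z ∈ Z, ∀ u ∈ U, z u ∈ U) →
      ∃ U' : Submodule K V, (∀ y : S, ∀ u ∈ U', ⁅y, u⁆ ∈ U') ∧ (∀ z ∈ Z, ∀ u ∈ U', z u ∈ U') ∧
        IsCompl U U' := by
    intro U h1 h2
    obtain ⟨U', h3, h4⟩ := hss U (fun a ha u hu => by
      obtain ⟨s, z, hz, rfl⟩ := hdec' a ha
      rw [LinearMap.add_apply]
      exact U.add_mem (h1 s u hu) (h2 z hz u hu))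
    exact ⟨U', fun y u hu => h3 _ (hSL y) u hu, fun z hz u hu => h3 z (hZL z hz) u hu, h4⟩
  obtain ⟨x', z0, hz0, hx'⟩ := hdec' x hx
  have hx'' : toEnd K S V x' + z0 = x := hx'.symm
  -- genericity
  have hbr : ∀ a b : S, (((⁅a, b⁆ : S) : LL) : Module.End K V) =
      ((a : LL) : Module.End K V) * ((b : LL) : Module.End K V) -
        ((b : LL) : Module.End K V) * ((a : LL) : Module.End K V) := fun a b => rfl
  have hstep : ∀ y : S, x * ((y : LL) : Module.End K V) - ((y : LL) : Module.End K V) * x =
      (((⁅x', y⁆ : S) : LL) : Module.End K V) := by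
    intro y
    have h1 : z0 * ((y : LL) : Module.End K V) = ((y : LL) : Module.End K V) * z0 :=
      hcomm z0 hz0 _ (hSL y)
    rw [hbr, hx', add_mul, mul_add, h1]
    abel
  have hiter : ∀ (N : ℕ) (y : S), adIter x N ((y : LL) : Module.End K V) =
      (((((ad K S x') ^ N) y : S) : LL) : Module.End K V) := by
    intro N
    induction N with
    | zero => intro y; rfl
    | succ N ih =>
      intro y
      have h1 : adIter x (N + 1) ((y : LL) : Module.End K V) =
          adIter x N (x * ((y : LL) : Module.End K V) - ((y : LL) : Module.End K V) * x) := by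
        unfold adIter
        rw [Function.iterate_succ_apply]
      rw [h1, hstep, ih, pow_succ, Module.End.mul_apply, ad_apply]
  have hgen' : GenA Z x' (toEnd K S V x' + z0) := by
    intro y hy z hz
    obtain ⟨N, hN⟩ := hy
    rw [hx'']
    refine hgen (toEnd K S V y + z) (L.add_mem (hSL y) (hZL z hz)) ⟨N + 1, ?_⟩
    have h1 : adIter x (N + 1) (toEnd K S V y + z) =
        adIter x (N + 1) ((y : LL) : Module.End K V) := by
      have h2 : x * (toEnd K S V y + z) - (toEnd K S V y + z) * x =
          x * ((y : LL) : Module.End K V) - ((y : LL) : Module.End K V) * x := by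
        have h3 : z * x = x * z := hcomm z hz x hx
        rw [hSend, mul_add, add_mul, h3]
        abel
      unfold adIter
      rw [Function.iterate_succ_apply, Function.iterate_succ_apply, h2]
    rw [h1, hiter, pow_succ', Module.End.mul_apply, hN, map_zero]
    rfl
  have hW' : ∀ w ∈ W, (toEnd K S V x' + z0) w ∈ W := by
    rw [hx'']
    exact hW
  have htr' : (finrank K V : K) * LinearMap.trace K W ((toEnd K S V x' + z0).restrict hW') =
      (finrank K W : K) * LinearMap.trace K V (toEnd K S V x' + z0) := by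
    have h1 : (toEnd K S V x' + z0).restrict hW' = x.restrict hW := by
      ext w
      simp only [LinearMap.restrict_apply, hx'']
    rw [h1, htr, hx'']
  obtain ⟨e, he1, he2, he3, he4⟩ := projector_generic (K := K) (g := S) (V := V) Z hZ1 hZ2 hZ3 hssS
    x' z0 hz0 hgen' W hW' htr'
  refine ⟨e, he1, he2, fun y hy hyW => ?_⟩
  obtain ⟨s, z, hz, hyz⟩ := hdec' y hy
  have hzW : ∀ w ∈ W, z w ∈ W := by
    intro w hw
    have h1 : z (e w) = e (z w) := congrArg (fun t : Module.End K V => t w) (he3 z hz)
    rw [he2 w hw] at h1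
    rw [h1]
    exact he1 _
  have hsW : ∀ w ∈ W, toEnd K S V s w ∈ W := by
    intro w hw
    have h1 : toEnd K S V s w = y w - z w := by
      rw [hSend, hyz, LinearMap.add_apply, add_sub_cancel_right]
    rw [h1]
    exact W.sub_mem (hyW w hw) (hzW w hw)
  rw [hyz]
  exact (he4 s hsW).add_left (he3 z hz)

end H4S
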