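import Mathlib
import Pool.Agent.Lib.H4S.A0

/-!
# H4S, chunk DA: semisimplicity and extension of scalars
-/

set_option autoImplicit false

namespace H4S

open Module

section daaux

variable {F V : Type*} [Field F] [AddCommGroup V] [Module F V]

/-- A stable subspace as a module over the algebra. -/
def daSub (A : Subalgebra F (Module.End F V)) (U : Submodule F V)
    (h : ∀ a ∈ A, ∀ u ∈ U, a u ∈ U) : Submodule A V where
  carrier := U
  add_mem' := fun ha hb => U.add_mem ha hb
  zero_mem' := U.zero_mem
  smul_mem' := fun a u hu => h a.1 a.2 u hu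

theorem da_mem {A : Subalgebra F (Module.End F V)} {U : Submodule F V}
    {h : ∀ a ∈ A, ∀ u ∈ U, a u ∈ U} {u : V} : u ∈ daSub A U h ↔ u ∈ U := Iff.rfl

theorem da_isCompl {A : Subalgebra F (Module.End F V)} {N N' : Submodule A V} {U U' : Submodule F V}
    (h1 : ∀ u, u ∈ N ↔ u ∈ U) (h2 : ∀ u, u ∈ N' ↔ u ∈ U') : IsCompl N N' ↔ IsCompl U U' := by
  constructor
  · intro h
    constructor
    · rw [Submodule.disjoint_def]
      intro x hx hx'
      exact (Submodule.disjoint_def.1 h.disjoint) x ((h1 x).2 hx) ((h2 x).2 hx')
    · rw [codisjoint_iff, eq_top_iff]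
      intro x _
      have hx : x ∈ N ⊔ N' := by rw [h.sup_eq_top]; trivial
      obtain ⟨u, hu, v, hv, rfl⟩ := Submodule.mem_sup.1 hx
      exact Submodule.add_mem_sup ((h1 u).1 hu) ((h2 v).1 hv)
  · intro h
    constructor
    · rw [Submodule.disjoint_def]
      intro x hx hx'
      exact (Submodule.disjoint_def.1 h.disjoint) x ((h1 x).1 hx) ((h2 x).1 hx')
    · rw [codisjoint_iff, eq_top_iff]
      intro x _
      have hx : x ∈ U ⊔ U' := by rw [h.sup_eq_top]; trivial
      obtain ⟨u, hu, v, hv, rfl⟩ := Submodule.mem_sup.1 hx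
      exact Submodule.add_mem_sup ((h1 u).2 hu) ((h2 v).2 hv)

theorem da_ssmodule (A : Subalgebra F (Module.End F V))
    (h : ∀ U : Submodule F V, (∀ a ∈ A, ∀ u ∈ U, a u ∈ U) →
      ∃ U' : Submodule F V, (∀ a ∈ A, ∀ u ∈ U', a u ∈ U') ∧ IsCompl U U') :
    IsSemisimpleModule A V := by
  rw [isSemisimpleModule_iff]
  refine ⟨fun N => ?_⟩
  let U : Submodule F V :=
    { carrier := N
      add_mem' := fun ha hb => N.add_mem ha hb
      zero_mem' := N.zero_mem
      smul_mem' := by
        intro c u hu
        have h1 : (algebraMap F A c) • u ∈ N := N.smul_mem _ hu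
        exact h1 }
  have hUN : ∀ u, u ∈ N ↔ u ∈ U := fun u => Iff.rfl
  obtain ⟨U', hU', hc⟩ := h U (fun a ha u hu => N.smul_mem (⟨a, ha⟩ : A) hu)
  exact ⟨daSub A U' hU', (da_isCompl hUN (fun u => da_mem)).2 hc⟩

theorem da_ssring [FiniteDimensional F V] (A : Subalgebra F (Module.End F V))
    [IsSemisimpleModule A V] : IsSemisimpleRing A := by
  let b := Module.finBasis F V
  let f : A →ₗ[A] (Fin (finrank F V) → V) :=
    LinearMap.pi fun i => LinearMap.toSpanSingleton A V (b i)
  have hf : Function.Injective f := by
    intro x y hxy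
    apply Subtype.ext
    apply b.ext
    intro i
    exact congrFun hxy i
  exact IsSemisimpleModule.of_injective f hf

/-- In a semisimple algebra of endomorphisms the trace form is nondegenerate. -/
theorem da_nondeg [CharZero F] [FiniteDimensional F V] (A : Subalgebra F (Module.End F V))
    [IsSemisimpleRing A] (a : Module.End F V) (ha : a ∈ A)
    (h : ∀ b ∈ A, LinearMap.trace F V (a * b) = 0) : a = 0 := by
  let I : Submodule A A := Submodule.span A {(⟨a, ha⟩ : A)}
  obtain ⟨J, hJ⟩ := exists_isCompl I
  have h1 : (1 : A) ∈ I ⊔ J := by rw [hJ.sup_eq_top]; trivial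
  obtain ⟨e, he, f, hf, hef⟩ := Submodule.mem_sup.1 h1
  have hx : ∀ x ∈ I, x * e = x := by
    intro x hx
    have h2 : x * f ∈ I := by
      have h3 : x * f = x - x * e := by
        rw [eq_sub_iff_add_eq, add_comm, ← mul_add, hef, mul_one]
      rw [h3]
      exact I.sub_mem hx (I.smul_mem x he)
    have h3 : x * f ∈ J := J.smul_mem x hf
    have h4 : x * f = 0 := (Submodule.disjoint_def.1 hJ.disjoint) _ h2 h3
    have h5 : x * e + x * f = x := by rw [← mul_add, hef, mul_one]
    rwa [h4, add_zero] at h5
  obtain ⟨b, hb⟩ := Submodule.mem_span_singleton.1 he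
  have htr : LinearMap.trace F V (e : Module.End F V) = 0 := by
    have h2 : (e : Module.End F V) = (b : Module.End F V) * a := by
      rw [← hb]; rfl
    rw [h2, LinearMap.trace_mul_comm]
    exact h b.1 b.2
  have hidem : IsIdempotentElem (e : Module.End F V) := by
    have h2 := congrArg Subtype.val (hx e he)
    exact h2
  have hproj := (LinearMap.isProj_range_iff_isIdempotentElem (e : Module.End F V)).2 hidem
  rw [hproj.trace] at htr
  have h0 : finrank F (LinearMap.range (e : Module.End F V)) = 0 := by exact_mod_cast htr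
  have he0 : (e : Module.End F V) = 0 := LinearMap.range_eq_bot.1 (Submodule.finrank_eq_zero.1 h0)
  have h2 := congrArg Subtype.val (hx ⟨a, ha⟩ (Submodule.mem_span_singleton_self _))
  have h3 : a * (e : Module.End F V) = a := h2
  rw [← h3, he0, mul_zero]

/-- Converse: nondegenerate trace form gives a semisimple ring. -/
theorem da_ssring_of_nondeg [FiniteDimensional F V] (A : Subalgebra F (Module.End F V))
    (h : ∀ a ∈ A, (∀ b ∈ A, LinearMap.trace F V (a * b) = 0) → a = 0) : IsSemisimpleRing A := by
  have hart : IsArtinianRing A := IsArtinianRing.of_finite F A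
  rw [IsArtinianRing.isSemisimpleRing_iff_jacobson, eq_bot_iff]
  intro a ha
  rw [Submodule.mem_bot]
  apply Subtype.ext
  apply h a.1 a.2
  intro b hb
  obtain ⟨n, hn⟩ := IsArtinianRing.isNilpotent_jacobson_bot (R := A)
  rw [Ideal.jacobson_bot] at hn
  have h1 : a * ⟨b, hb⟩ ∈ Ring.jacobson A := Ideal.mul_mem_right _ _ ha
  have h2 : (a * ⟨b, hb⟩) ^ n ∈ Ring.jacobson A ^ n := Ideal.pow_mem_pow h1 n
  rw [hn] at h2
  have h3 : (a * ⟨b, hb⟩) ^ n = 0 := by simpa using h2
  have h4 : IsNilpotent ((a : Module.End F V) * b) := by
    refine ⟨n, ?_⟩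
    have := congrArg Subtype.val h3
    exact this
  exact (LinearMap.isNilpotent_trace_of_isNilpotent h4).eq_zero

/-- Complements from a nondegenerate trace form. -/
theorem da_compl [FiniteDimensional F V] (A : Subalgebra F (Module.End F V))
    (h : ∀ a ∈ A, (∀ b ∈ A, LinearMap.trace F V (a * b) = 0) → a = 0) (U : Submodule F V)
    (hU : ∀ a ∈ A, ∀ u ∈ U, a u ∈ U) :
    ∃ U' : Submodule F V, (∀ a ∈ A, ∀ u ∈ U', a u ∈ U') ∧ IsCompl U U' := by
  have hA : IsSemisimpleRing A := da_ssring_of_nondeg A h
  obtain ⟨N', hN'⟩ := exists_isCompl (daSub A U hU)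
  let U' : Submodule F V :=
    { carrier := N'
      add_mem' := fun ha hb => N'.add_mem ha hb
      zero_mem' := N'.zero_mem
      smul_mem' := by
        intro c u hu
        have h1 : (algebraMap F A c) • u ∈ N' := N'.smul_mem _ hu
        exact h1 }
  refine ⟨U', ?_, (da_isCompl (fun u => da_mem) (fun u => Iff.rfl)).1 hN'⟩
  intro a ha u hu
  exact N'.smul_mem (⟨a, ha⟩ : A) hu

theorem da_coord [FiniteDimensional F V] (A : Subalgebra F (Module.End F V)) {ι : Type*}
    [Fintype ι] (β : Basis ι F A) (b : Module.End F V) (hb : b ∈ A) :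
    b = ∑ j, β.repr ⟨b, hb⟩ j • (β j : Module.End F V) := by
  have h := congrArg A.val (β.sum_repr ⟨b, hb⟩).symm
  rw [map_sum] at h
  simp only [map_smul] at h
  exact h

end daaux

/-- **DA** (M, only Mathlib). Base change of semisimplicity in characteristic zero.

Proof. Let `A` be the associative subalgebra (with 1) of `End V` generated by `L`, over `F`;
finite-dimensional. `V` is a semisimple faithful `A`-module.
(1) The trace form `(a, b) -> tr_V (a b)` on `A` is nondegenerate: let `a` in `A` with `tr (a b) = 0`
for all `b` in `A`, and suppose `a <> 0`. `A` is a semisimple ring: `A` embeds as a left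
`A`-module in a finite power of `V` (`a -> (a v_i)` for a basis `v_i` of `V`), which is a
semisimple `A`-module. So the left ideal `A a` is generated by an idempotent `e = b a <> 0`, and
`0 = tr (a b) = tr (b a) = tr e = rank e <> 0` (characteristic zero), a contradiction.
(2) Let `A'` be the subalgebra of `End (K ⊗ V)` generated by `spanK K L`; it is the `K`-span of the
base changes of the elements of `A`, a basis of `A` over `F` gives a basis of `A'` over `K`
(endomorphisms of `V` which are linearly independent over `F` have linearly independent base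
changes), with the same Gram matrix; so the trace form of `K ⊗ V` on `A'` is nondegenerate.
(3) The Jacobson radical `J` of the finite-dimensional algebra `A'` is nilpotent, so `tr (a b) = 0`
for `a` in `J`, `b` in `A'` (`a b` is nilpotent), so `J = 0` by (2), `A'` is a semisimple ring
(Artinian with zero Jacobson radical), and `K ⊗ V` is a semisimple `A'`-module: every subspace
stable under `spanK K L` is an `A'`-submodule and has a complement. -/
theorem ss_baseChange {F K V : Type*} [Field F] [CharZero F] [Field K] [Algebra F K]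
    [AddCommGroup V] [Module F V] [FiniteDimensional F V] (L : Submodule F (Module.End F V))
    (hss : SS (L : Set (Module.End F V))) :
    SS (spanK K L : Set (Module.End K (TensorProduct F K V))) := by
  classical
  let A : Subalgebra F (Module.End F V) := Algebra.adjoin F (L : Set (Module.End F V))
  have hLA : ∀ y ∈ L, y ∈ A := fun y hy => Algebra.subset_adjoin hy
  have hstab : ∀ U : Submodule F V, (∀ y ∈ L, ∀ u ∈ U, y u ∈ U) → ∀ a ∈ A, ∀ u ∈ U, a u ∈ U := by
    intro U hU a ha
    induction ha using Algebra.adjoin_induction with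
    | mem x hx => exact hU x hx
    | algebraMap r =>
      intro u hu
      rw [Module.algebraMap_end_apply]
      exact U.smul_mem r hu
    | add x y _ _ hx hy =>
      intro u hu
      exact U.add_mem (hx u hu) (hy u hu)
    | mul x y _ _ hx hy =>
      intro u hu
      exact hx _ (hy u hu)
  have hVA : IsSemisimpleModule A V := by
    apply da_ssmodule
    intro U hU
    obtain ⟨U', hU', hc⟩ := hss U (fun y hy => hU y (hLA y hy))
    exact ⟨U', hstab U' hU', hc⟩
  have hA : IsSemisimpleRing A := da_ssring A
  let φ : Module.End F V →ₐ[F] Module.End K (TensorProduct F K V) :=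
    Module.End.baseChangeHom F K V
  have hφ : ∀ x, φ x = bc K x := fun x => rfl
  let T : Subalgebra K (Module.End K (TensorProduct F K V)) :=
    Algebra.adjoin K (φ '' (A : Set (Module.End F V)))
  have hTspan : ∀ t ∈ T, t ∈ Submodule.span K (φ '' (A : Set (Module.End F V))) := by
    intro t ht
    have h1 : Submonoid.closure (φ '' (A : Set (Module.End F V))) =
        (A.toSubsemiring.toSubmonoid.map φ.toRingHom.toMonoidHom) := by
      have h2 : (φ '' (A : Set (Module.End F V))) =
          ((A.toSubsemiring.toSubmonoid.map φ.toRingHom.toMonoidHom : Submonoid _) : Set _) := rfl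
      rw [h2, Submonoid.closure_eq]
    have h3 : t ∈ Subalgebra.toSubmodule (Algebra.adjoin K (φ '' (A : Set (Module.End F V)))) := ht
    rw [Algebra.adjoin_eq_span, h1] at h3
    exact h3
  -- basis of A and Gram matrix
  let β := Module.finBasis F A
  let Gm : Matrix (Fin (finrank F A)) (Fin (finrank F A)) F :=
    fun i j => LinearMap.trace F V ((β i : Module.End F V) * (β j : Module.End F V))
  have hG : Gm.det ≠ 0 := by
    intro h0
    obtain ⟨v, hv0, hv⟩ := Matrix.exists_vecMul_eq_zero_iff.2 h0
    apply hv0
    have h1 : ((∑ i, v i • β i : A) : Module.End F V) = 0 := by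
      apply da_nondeg A _ (∑ i, v i • β i : A).2
      intro b hb
      rw [da_coord A β b hb]
      have h4 : ((∑ i, v i • β i : A) : Module.End F V) = ∑ i, v i • (β i : Module.End F V) := by
        simp
      rw [h4, Finset.mul_sum, map_sum]
      refine Finset.sum_eq_zero fun j _ => ?_
      rw [mul_smul_comm, map_smul, Finset.sum_mul, map_sum]
      have h5 : ∑ i, LinearMap.trace F V (v i • (β i : Module.End F V) * (β j : Module.End F V)) =
          (Matrix.vecMul v Gm) j := by
        simp only [smul_mul_assoc, map_smul, smul_eq_mul]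
        rfl
      rw [h5, hv]
      simp
    have h2 : (∑ i, v i • β i : A) = 0 := Subtype.ext h1
    funext i
    exact Fintype.linearIndependent_iff.1 β.linearIndependent v h2 i
  have hGK : (Gm.map (algebraMap F K)).det ≠ 0 := by
    rw [← RingHom.mapMatrix_apply, ← RingHom.map_det]
    exact (map_ne_zero (algebraMap F K)).2 hG
  have hTnd : ∀ t ∈ T, (∀ t' ∈ T, LinearMap.trace K (TensorProduct F K V) (t * t') = 0) → t = 0 := by
    intro t ht h0
    -- coordinates
    have h1 : ∃ c : Fin (finrank F A) → K, t = ∑ i, c i • φ (β i : Module.End F V) := by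
      have h2 : Submodule.span K (φ '' (A : Set (Module.End F V))) ≤
          Submodule.span K (Set.range fun i => φ (β i : Module.End F V)) := by
        rw [Submodule.span_le]
        rintro _ ⟨a, ha, rfl⟩
        have h3 : φ a = ∑ j, (algebraMap F K (β.repr ⟨a, ha⟩ j)) • φ (β j : Module.End F V) := by
          conv_lhs => rw [da_coord A β a ha]
          rw [map_sum]
          refine Finset.sum_congr rfl fun i _ => ?_
          rw [map_smul, algebraMap_smul]
        rw [h3]
        exact Submodule.sum_mem _ fun i _ => Submodule.smul_mem _ _ (Submodule.subset_span ⟨i, rfl⟩)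
      obtain ⟨c, hc⟩ := (Submodule.mem_span_range_iff_exists_fun K).1 (h2 (hTspan t ht))
      exact ⟨c, hc.symm⟩
    obtain ⟨c, hc⟩ := h1
    have h2 : Matrix.vecMul c (Gm.map (algebraMap F K)) = 0 := by
      funext j
      have h3 := h0 (φ (β j : Module.End F V)) (Algebra.subset_adjoin ⟨_, (β j).2, rfl⟩)
      rw [hc, Finset.sum_mul, map_sum] at h3
      simp only [smul_mul_assoc, map_smul, smul_eq_mul, ← map_mul] at h3
      have h4 : ∀ x : Module.End F V, LinearMap.trace K (TensorProduct F K V) (φ x) =
          algebraMap F K (LinearMap.trace F V x) := fun x => LinearMap.trace_baseChange x K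
      simp only [h4] at h3
      exact h3
    have h3 : c = 0 := by
      by_contra hne
      exact hGK (Matrix.exists_vecMul_eq_zero_iff.1 ⟨c, hne, h2⟩)
    rw [hc, h3]
    simp
  intro U hU
  have hUT : ∀ t ∈ T, ∀ u ∈ U, t u ∈ U := by
    intro t ht
    induction ht using Algebra.adjoin_induction with
    | mem x hx =>
      obtain ⟨a, ha, rfl⟩ := hx
      induction ha using Algebra.adjoin_induction with
      | mem x hx => exact hU _ (Submodule.subset_span ⟨x, hx, rfl⟩)
      | algebraMap r =>
        intro u hu
        rw [AlgHom.commutes, IsScalarTower.algebraMap_apply F K, Module.algebraMap_end_apply]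
        exact U.smul_mem _ hu
      | add x y _ _ hx hy =>
        intro u hu
        rw [map_add]
        exact U.add_mem (hx u hu) (hy u hu)
      | mul x y _ _ hx hy =>
        intro u hu
        rw [map_mul]
        exact hx _ (hy u hu)
    | algebraMap r =>
      intro u hu
      rw [Module.algebraMap_end_apply]
      exact U.smul_mem r hu
    | add x y _ _ hx hy =>
      intro u hu
      exact U.add_mem (hx u hu) (hy u hu)
    | mul x y _ _ hx hy =>
      intro u hu
      exact hx _ (hy u hu)
  obtain ⟨U', hU', hc⟩ := da_compl T hTnd U hUT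
  refine ⟨U', ?_, hc⟩
  intro y hy u hu
  have hyT : y ∈ T := by
    refine (Submodule.span_le (p := Subalgebra.toSubmodule T)).2 ?_ hy
    rintro _ ⟨x, hx, rfl⟩
    exact Algebra.subset_adjoin ⟨x, hLA x hx, rfl⟩
  exact hU' y hyT u hu

end H4S
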