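import Mathlib
import Pool.Agent.Lib.H4S.A0

/-!
# H4S, part T: definitions (p-adic sizes, tangent space of a group of endomorphisms)
-/

set_option autoImplicit false
set_option linter.unusedSectionVars false

namespace H4S

open Module

section

variable {p : ℕ} [hp : Fact p.Prime] {V : Type*} [AddCommGroup V] [Module ℚ_[p] V]
  {ι : Type*} [Fintype ι]

/-- All matrix entries of `A` with respect to the basis `b` have norm at most `r`. -/
def Sm (b : Basis ι ℚ_[p] V) (A : Module.End ℚ_[p] V) (r : ℝ) : Prop :=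
  ∀ i j, ‖b.repr (A (b j)) i‖ ≤ r

theorem Sm.mono {b : Basis ι ℚ_[p] V} {A : Module.End ℚ_[p] V} {r s : ℝ} (h : Sm b A r)
    (hrs : r ≤ s) : Sm b A s := fun i j => (h i j).trans hrs

theorem Sm.zero (b : Basis ι ℚ_[p] V) {r : ℝ} (hr : 0 ≤ r) : Sm b 0 r := by
  intro i j
  simpa using hr

theorem Sm.neg {b : Basis ι ℚ_[p] V} {A : Module.End ℚ_[p] V} {r : ℝ} (h : Sm b A r) :
    Sm b (-A) r := by
  intro i j
  simpa using h i j

theorem Sm.add {b : Basis ι ℚ_[p] V} {A B : Module.End ℚ_[p] V} {r : ℝ} (hA : Sm b A r)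
    (hB : Sm b B r) : Sm b (A + B) r := by
  intro i j
  have h : b.repr ((A + B) (b j)) i = b.repr (A (b j)) i + b.repr (B (b j)) i := by simp
  rw [h]
  exact (IsUltrametricDist.norm_add_le_max _ _).trans (max_le (hA i j) (hB i j))

theorem Sm.sub {b : Basis ι ℚ_[p] V} {A B : Module.End ℚ_[p] V} {r : ℝ} (hA : Sm b A r)
    (hB : Sm b B r) : Sm b (A - B) r := by
  rw [sub_eq_add_neg]
  exact hA.add hB.neg

theorem Sm.smul {b : Basis ι ℚ_[p] V} {A : Module.End ℚ_[p] V} {r : ℝ} (c : ℚ_[p])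
    (hA : Sm b A r) : Sm b (c • A) (‖c‖ * r) := by
  intro i j
  have h : b.repr ((c • A) (b j)) i = c * b.repr (A (b j)) i := by simp
  rw [h, norm_mul]
  exact mul_le_mul_of_nonneg_left (hA i j) (norm_nonneg _)

theorem Sm.sum {κ : Type*} {b : Basis ι ℚ_[p] V} (s : Finset κ) (A : κ → Module.End ℚ_[p] V)
    {r : ℝ} (hr : 0 ≤ r) (h : ∀ k ∈ s, Sm b (A k) r) : Sm b (∑ k ∈ s, A k) r := by
  classical
  induction s using Finset.induction_on with
  | empty => simpa using Sm.zero b hr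
  | insert a s ha ih =>
    rw [Finset.sum_insert ha]
    exact (h a (Finset.mem_insert_self a s)).add
      (ih fun k hk => h k (Finset.mem_insert_of_mem hk))

theorem Sm.mul {b : Basis ι ℚ_[p] V} {A B : Module.End ℚ_[p] V} {r s : ℝ} (hr : 0 ≤ r)
    (hs : 0 ≤ s) (hA : Sm b A r) (hB : Sm b B s) : Sm b (A * B) (r * s) := by
  classical
  intro i j
  have h : b.repr ((A * B) (b j)) i = ∑ k, b.repr (B (b j)) k * b.repr (A (b k)) i := by
    have h1 : A (B (b j)) = ∑ k, b.repr (B (b j)) k • A (b k) := by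
      conv_lhs => rw [← b.sum_repr (B (b j))]
      rw [map_sum]
      exact Finset.sum_congr rfl fun k _ => map_smul _ _ _
    rw [Module.End.mul_apply, h1, map_sum, Finsupp.finsetSum_apply]
    refine Finset.sum_congr rfl fun k _ => ?_
    rw [map_smul, Finsupp.smul_apply, smul_eq_mul]
  rw [h]
  refine IsUltrametricDist.norm_sum_le_of_forall_le_of_nonneg (mul_nonneg hr hs) ?_
  intro k _
  rw [norm_mul, mul_comm r s]
  exact mul_le_mul (hB k j) (hA i k) (norm_nonneg _) hs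

theorem Sm.one (b : Basis ι ℚ_[p] V) : Sm b (1 : Module.End ℚ_[p] V) 1 := by
  classical
  intro i j
  rw [Module.End.one_apply, b.repr_self, Finsupp.single_apply]
  split_ifs
  · simp
  · simp

theorem Sm.pow {b : Basis ι ℚ_[p] V} {A : Module.End ℚ_[p] V} {r : ℝ} (hr : 0 ≤ r)
    (hA : Sm b A r) (k : ℕ) : Sm b (A ^ k) (r ^ k) := by
  induction k with
  | zero => simpa using Sm.one b
  | succ k ih =>
    rw [pow_succ, pow_succ]
    exact Sm.mul (pow_nonneg hr k) hr ih hA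

theorem Sm.nonneg [Nonempty ι] {b : Basis ι ℚ_[p] V} {A : Module.End ℚ_[p] V} {r : ℝ}
    (h : Sm b A r) : 0 ≤ r := by
  obtain ⟨i⟩ := (inferInstance : Nonempty ι)
  exact (norm_nonneg _).trans (h i i)

theorem Sm.exists (b : Basis ι ℚ_[p] V) (A : Module.End ℚ_[p] V) : ∃ r : ℝ, 0 < r ∧ Sm b A r := by
  obtain ⟨r, hr⟩ := (Set.finite_range fun ij : ι × ι => ‖b.repr (A (b ij.2)) ij.1‖).bddAbove
  refine ⟨max r 1, lt_of_lt_of_le one_pos (le_max_right _ _), fun i j => ?_⟩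
  exact (hr ⟨(i, j), rfl⟩).trans (le_max_left _ _)

theorem Sm.eq_zero {b : Basis ι ℚ_[p] V} {A : Module.End ℚ_[p] V}
    (h : ∀ ε : ℝ, 0 < ε → Sm b A ε) : A = 0 := by
  apply b.ext
  intro j
  apply b.repr.injective
  ext i
  have h1 : ‖b.repr (A (b j)) i‖ ≤ 0 := le_of_forall_pos_le_add fun ε hε => by
    simpa using h ε hε i j
  simpa using h1

/-- Change of basis. -/
theorem Sm.change {κ : Type*} [Fintype κ] (b : Basis ι ℚ_[p] V) (c : Basis κ ℚ_[p] V) :
    ∃ C : ℝ, 0 < C ∧ ∀ (A : Module.End ℚ_[p] V) (r : ℝ), 0 ≤ r → Sm b A r → Sm c A (C * r) := by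
  classical
  obtain ⟨C1, hC1⟩ := (Set.finite_range fun ij : κ × ι => ‖c.repr (b ij.2) ij.1‖).bddAbove
  obtain ⟨C2, hC2⟩ := (Set.finite_range fun ij : ι × κ => ‖b.repr (c ij.2) ij.1‖).bddAbove
  refine ⟨max C1 1 * max C2 1, by positivity, fun A r hr hA k l => ?_⟩
  have h1 : c.repr (A (c l)) k =
      ∑ j, ∑ i, b.repr (c l) j * (b.repr (A (b j)) i * c.repr (b i) k) := by
    have e1 : A (c l) = ∑ j, ∑ i, (b.repr (c l) j * b.repr (A (b j)) i) • b i := by
      conv_lhs => rw [← b.sum_repr (c l)]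
      rw [map_sum]
      refine Finset.sum_congr rfl fun j _ => ?_
      rw [map_smul]
      conv_lhs => rw [← b.sum_repr (A (b j))]
      rw [Finset.smul_sum]
      refine Finset.sum_congr rfl fun i _ => ?_
      rw [smul_smul]
    rw [e1, map_sum, Finsupp.finsetSum_apply]
    refine Finset.sum_congr rfl fun j _ => ?_
    rw [map_sum, Finsupp.finsetSum_apply]
    refine Finset.sum_congr rfl fun i _ => ?_
    rw [map_smul, Finsupp.smul_apply, smul_eq_mul, mul_assoc]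
  rw [h1]
  have hpos : 0 ≤ max C1 1 * max C2 1 * r := by positivity
  refine IsUltrametricDist.norm_sum_le_of_forall_le_of_nonneg hpos fun j _ =>
    IsUltrametricDist.norm_sum_le_of_forall_le_of_nonneg hpos fun i _ => ?_
  rw [norm_mul, norm_mul]
  have e2 : ‖c.repr (b i) k‖ ≤ max C1 1 := (hC1 ⟨(k, i), rfl⟩).trans (le_max_left _ _)
  have e3 : ‖b.repr (c l) j‖ ≤ max C2 1 := (hC2 ⟨(j, l), rfl⟩).trans (le_max_left _ _)
  have e4 := hA i j
  calc ‖b.repr (c l) j‖ * (‖b.repr (A (b j)) i‖ * ‖c.repr (b i) k‖)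
      ≤ max C2 1 * (r * max C1 1) := by gcongr
    _ = max C1 1 * max C2 1 * r := by ring

/-- `A j` converges to `L`. -/
def Lim (b : Basis ι ℚ_[p] V) (A : ℕ → Module.End ℚ_[p] V) (L : Module.End ℚ_[p] V) : Prop :=
  ∀ ε : ℝ, 0 < ε → ∃ J : ℕ, ∀ j, J ≤ j → Sm b (A j - L) ε

/-- `l` is the logarithm of `g`: the limit of `p^(-j) (g^(p^j) - 1)`. -/
def IsLg (b : Basis ι ℚ_[p] V) (g l : Module.End ℚ_[p] V) : Prop :=
  Lim b (fun j => ((p : ℚ_[p]) ^ j)⁻¹ • (g ^ (p ^ j) - 1)) l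

/-- A set of endomorphisms which is a group under composition. -/
structure MGrp (G : Set (Module.End ℚ_[p] V)) : Prop where
  one : (1 : Module.End ℚ_[p] V) ∈ G
  mul : ∀ a ∈ G, ∀ c ∈ G, a * c ∈ G
  inv : ∀ a ∈ G, ∃ c ∈ G, a * c = 1 ∧ c * a = 1

/-- The elements of `G` at distance at most `δ` of the identity. -/
def near (b : Basis ι ℚ_[p] V) (G : Set (Module.End ℚ_[p] V)) (δ : ℝ) :
    Set (Module.End ℚ_[p] V) := {g ∈ G | Sm b (g - 1) δ}

/-- The tangent space of `G` at the identity: all limits of `p^(-k) (g - 1)`, `g` in `G`,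
`k` tending to infinity. -/
def TS (b : Basis ι ℚ_[p] V) (G : Set (Module.End ℚ_[p] V)) : Set (Module.End ℚ_[p] V) :=
  {y | ∀ ε : ℝ, 0 < ε → ∀ N : ℕ, ∃ k : ℕ, N ≤ k ∧ ∃ g ∈ G,
    Sm b (((p : ℚ_[p]) ^ k)⁻¹ • (g - 1) - y) ε}

end

end H4S
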