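import Mathlib
import Pool.Agent.Lib.H4S.T0

/-!
# H4S, part T: lists of eigenvalues and relations
-/

set_option autoImplicit false

namespace H4S

open Module Polynomial

/-- `z` is the list of the eigenvalues of `A` in `K`, with multiplicities. -/
def EigL {k K V : Type*} [Field k] [Field K] [Algebra k K] [AddCommGroup V] [Module k V]
    [FiniteDimensional k V] (A : Module.End k V) {n : ℕ} (z : Fin n → K) : Prop :=
  (LinearMap.charpoly A).map (algebraMap k K) = ∏ i, (X - C (z i))

/-- The additive relation `∑ m_i z_i = 0` with rational coefficients. -/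
def ARel {K : Type*} [Field K] {n : ℕ} (z : Fin n → K) (m : Fin n → ℚ) : Prop :=
  ∑ i, (m i : K) * z i = 0

/-- The multiplicative relation: `∏ z_i ^ a_i = 1` for some positive integral multiple `a` of `m`. -/
def MRel {K : Type*} [Field K] {n : ℕ} (z : Fin n → K) (m : Fin n → ℚ) : Prop :=
  ∃ N : ℕ, 0 < N ∧ ∃ a : Fin n → ℤ, (∀ i, (a i : ℚ) = N * m i) ∧ ∏ i, z i ^ a i = 1

end H4S
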