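import Mathlib
import Pool.Agent.Lib.H4S.T0

/-!
# H4S, chunk TA: `p^j`-th powers of elements near the identity
-/

set_option autoImplicit false

namespace H4S

open Module

theorem TA_step {p : ℕ} [hp : Fact p.Prime] {V : Type*} [AddCommGroup V] [Module ℚ_[p] V]
    {ι : Type*} [Fintype ι] (b : Basis ι ℚ_[p] V) (w : Module.End ℚ_[p] V) (s : ℝ) (hs0 : 0 ≤ s)
    (hs : s ≤ 1) (hw : Sm b w s) :
    Sm b ((p : ℚ_[p])⁻¹ • ((1 + w) ^ p - 1) - w) (p * s ^ 2) := by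
  have hp0 : (p : ℚ_[p]) ≠ 0 := by exact_mod_cast hp.out.ne_zero
  have h2 : 2 ≤ p := hp.out.two_le
  have hpR : (1 : ℝ) ≤ p := by exact_mod_cast hp.out.one_lt.le
  have e1 : (1 + w) ^ p = ∑ i ∈ Finset.range (p + 1), ((p.choose i : ℕ) : ℚ_[p]) • w ^ i := by
    rw [add_comm, (Commute.one_right w).add_pow]
    refine Finset.sum_congr rfl fun i _ => ?_
    rw [one_pow, mul_one, ← Nat.cast_comm, ← nsmul_eq_mul, Nat.cast_smul_eq_nsmul]
  have e2 : (p : ℚ_[p])⁻¹ • ((1 + w) ^ p - 1) - w =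
      ∑ i ∈ Finset.Ico 2 (p + 1), ((p : ℚ_[p])⁻¹ * ((p.choose i : ℕ) : ℚ_[p])) • w ^ i := by
    have e3 : ∑ i ∈ Finset.range (p + 1), ((p.choose i : ℕ) : ℚ_[p]) • w ^ i =
        1 + (p : ℚ_[p]) • w +
          ∑ i ∈ Finset.Ico 2 (p + 1), ((p.choose i : ℕ) : ℚ_[p]) • w ^ i := by
      rw [Finset.range_eq_Ico, ← Finset.sum_Ico_consecutive _ (Nat.zero_le 2) (by omega : 2 ≤ p + 1)]
      congr 1
      rw [← Finset.range_eq_Ico, Finset.sum_range_succ, Finset.sum_range_one]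
      simp
    rw [e1, e3]
    have e4 : (1 : Module.End ℚ_[p] V) + (p : ℚ_[p]) • w +
          ∑ i ∈ Finset.Ico 2 (p + 1), ((p.choose i : ℕ) : ℚ_[p]) • w ^ i - 1 =
        (p : ℚ_[p]) • w + ∑ i ∈ Finset.Ico 2 (p + 1), ((p.choose i : ℕ) : ℚ_[p]) • w ^ i := by
      abel
    rw [e4, smul_add, smul_smul, inv_mul_cancel₀ hp0, one_smul, Finset.smul_sum]
    rw [add_sub_cancel_left]
    refine Finset.sum_congr rfl fun i _ => ?_
    rw [smul_smul]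
  rw [e2]
  refine Sm.sum _ _ (by positivity) fun i hi => ?_
  have hi2 : 2 ≤ i := (Finset.mem_Ico.1 hi).1
  refine ((hw.pow hs0 i).smul _).mono ?_
  have hn : ‖(p : ℚ_[p])⁻¹ * ((p.choose i : ℕ) : ℚ_[p])‖ ≤ p := by
    rw [norm_mul, norm_inv, Padic.norm_p, inv_inv]
    have := Padic.norm_int_le_one (p := p) ((p.choose i : ℕ) : ℤ)
    rw [Int.cast_natCast] at this
    have h0 : (0:ℝ) ≤ p := by positivity
    nlinarith
  have hpow : s ^ i ≤ s ^ 2 := pow_le_pow_of_le_one hs0 hs hi2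
  exact mul_le_mul hn hpow (by positivity) (by positivity)

theorem TA_aux {p : ℕ} [hp : Fact p.Prime] {V : Type*} [AddCommGroup V] [Module ℚ_[p] V]
    {ι : Type*} [Fintype ι] (b : Basis ι ℚ_[p] V) (u : Module.End ℚ_[p] V) (r : ℝ) (hr0 : 0 ≤ r)
    (hr : r ≤ ((p : ℝ) ^ 2)⁻¹) (hu : Sm b u r) (j : ℕ) :
    Sm b (((p : ℚ_[p]) ^ j)⁻¹ • ((1 + u) ^ (p ^ j) - 1) - u) (p * r ^ 2) ∧
      Sm b ((1 + u) ^ (p ^ j) - 1) (((p : ℝ) ^ j)⁻¹ * r) := by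
  have hp0 : (p : ℚ_[p]) ≠ 0 := by exact_mod_cast hp.out.ne_zero
  have hpR : (1 : ℝ) < p := by exact_mod_cast hp.out.one_lt
  have hr1 : p * r ^ 2 ≤ r := by
    have h1 : (p : ℝ) * r ≤ 1 := by
      calc (p : ℝ) * r ≤ p * ((p : ℝ) ^ 2)⁻¹ := by gcongr
        _ = (p : ℝ)⁻¹ := by field_simp
        _ ≤ 1 := inv_le_one_of_one_le₀ hpR.le
    calc (p : ℝ) * r ^ 2 = (p * r) * r := by ring
      _ ≤ 1 * r := by gcongr
      _ = r := one_mul r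
  have key : ∀ j : ℕ, Sm b (((p : ℚ_[p]) ^ j)⁻¹ • ((1 + u) ^ (p ^ j) - 1) - u) (p * r ^ 2) →
      Sm b ((1 + u) ^ (p ^ j) - 1) (((p : ℝ) ^ j)⁻¹ * r) := by
    intro j h
    have h1 : Sm b (((p : ℚ_[p]) ^ j)⁻¹ • ((1 + u) ^ (p ^ j) - 1)) r := by
      have := (h.mono hr1).add hu
      rwa [sub_add_cancel] at this
    have h2 := h1.smul ((p : ℚ_[p]) ^ j)
    rw [smul_smul, mul_inv_cancel₀ (pow_ne_zero _ hp0), one_smul, norm_pow, Padic.norm_p,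
      inv_pow] at h2
    exact h2
  induction j with
  | zero =>
    have h0 : Sm b (((p : ℚ_[p]) ^ 0)⁻¹ • ((1 + u) ^ (p ^ 0) - 1) - u) (p * r ^ 2) := by
      have : ((p : ℚ_[p]) ^ 0)⁻¹ • ((1 + u) ^ (p ^ 0) - 1) - u = 0 := by simp
      rw [this]
      exact Sm.zero b (by positivity)
    exact ⟨h0, key 0 h0⟩
  | succ j ih =>
    obtain ⟨h1, h2⟩ := ih
    have hsj : ((p : ℝ) ^ j)⁻¹ * r ≤ 1 := by
      have a1 : ((p : ℝ) ^ j)⁻¹ ≤ 1 := inv_le_one_of_one_le₀ (one_le_pow₀ hpR.le)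
      have a2 : r ≤ 1 := hr.trans (inv_le_one_of_one_le₀ (one_le_pow₀ hpR.le))
      calc ((p : ℝ) ^ j)⁻¹ * r ≤ 1 * 1 := by gcongr
        _ = 1 := by norm_num
    have h3 := TA_step b ((1 + u) ^ (p ^ j) - 1) (((p : ℝ) ^ j)⁻¹ * r) (by positivity) hsj h2
    rw [add_sub_cancel, ← pow_mul, ← pow_succ] at h3
    have h4 := h3.smul ((p : ℚ_[p]) ^ j)⁻¹
    have h5 : Sm b (((p : ℚ_[p]) ^ (j + 1))⁻¹ • ((1 + u) ^ (p ^ (j + 1)) - 1) - u) (p * r ^ 2) := by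
      have e : ((p : ℚ_[p]) ^ (j + 1))⁻¹ • ((1 + u) ^ (p ^ (j + 1)) - 1) - u =
          ((p : ℚ_[p]) ^ j)⁻¹ • ((p : ℚ_[p])⁻¹ • ((1 + u) ^ p ^ (j + 1) - 1) -
            ((1 + u) ^ p ^ j - 1)) + (((p : ℚ_[p]) ^ j)⁻¹ • ((1 + u) ^ (p ^ j) - 1) - u) := by
        rw [smul_sub (((p : ℚ_[p]) ^ j)⁻¹) ((p : ℚ_[p])⁻¹ • ((1 + u) ^ p ^ (j + 1) - 1)), smul_smul,
          pow_succ (p : ℚ_[p]) j, mul_inv, sub_add_sub_cancel]
      rw [e]
      refine (h4.mono ?_).add h1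
      rw [norm_inv, norm_pow, Padic.norm_p, inv_pow, inv_inv]
      have hpj : (1 : ℝ) ≤ (p : ℝ) ^ j := one_le_pow₀ hpR.le
      calc (p : ℝ) ^ j * (p * (((p : ℝ) ^ j)⁻¹ * r) ^ 2) = (((p : ℝ) ^ j)⁻¹) * (p * r ^ 2) := by
            field_simp
        _ ≤ 1 * (p * r ^ 2) := by
            gcongr
            exact inv_le_one_of_one_le₀ hpj
        _ = p * r ^ 2 := one_mul _
    exact ⟨h5, key _ h5⟩

/-- **TA** (M). Let `u` have size at most `r`, `r <= p^(-2)`. Then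
`p^(-j) ((1+u)^(p^j) - 1) - u` has size at most `p r^2`.

Proof. One step: if `w` has size at most `r <= p^(-2)` then
`(1+w)^p - 1 = p w + sum_{2 <= i <= p} binom(p,i) w^i`; for `2 <= i < p` the coefficient is divisible
by `p`, so after division by `p` the term has size at most `r^i <= r^2`; the term `i = p` divided by
`p` has size at most `p r^p <= p r^2`. So `w' = (1+w)^p - 1` satisfies: `p^(-1) w' - w` has
size at most `p r^2 <= r/p < r`, hence `w'` has size at most `r / p`. Define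
`w_j = (1+u)^(p^j) - 1`, `w_0 = u`, `w_(j+1) = (1+w_j)^p - 1`. By induction `w_j` has size at most
`r p^(-j)` and `p^(-1) w_(j+1) - w_j` has size at most `p (r p^(-j))^2`, so
`p^(-(j+1)) w_(j+1) - p^(-j) w_j` has size at most `p^j p r^2 p^(-2j) <= p r^2`. Add up (the size of a
sum is at most the maximum of the sizes). Use `Sm.add`, `Sm.smul`, `Sm.mul`, `Sm.pow`, `Sm.sum`. -/
theorem pow_est {p : ℕ} [hp : Fact p.Prime] {V : Type*} [AddCommGroup V] [Module ℚ_[p] V]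
    {ι : Type*} [Fintype ι] (b : Basis ι ℚ_[p] V) (u : Module.End ℚ_[p] V) (r : ℝ) (hr0 : 0 ≤ r)
    (hr : r ≤ ((p : ℝ) ^ 2)⁻¹) (hu : Sm b u r) (j : ℕ) :
    Sm b (((p : ℚ_[p]) ^ j)⁻¹ • ((1 + u) ^ (p ^ j) - 1) - u) (p * r ^ 2) :=
  (TA_aux b u r hr0 hr hu j).1

end H4S
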