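import Mathlib
import Pool.Agent.Lib.H4S.TA

/-!
# H4S, chunk TB: logarithms
-/

set_option autoImplicit false

namespace H4S

open Module

theorem TB_pow {p : ℕ} [hp : Fact p.Prime] {V : Type*} [AddCommGroup V] [Module ℚ_[p] V]
    {ι : Type*} [Fintype ι] (b : Basis ι ℚ_[p] V) (g : Module.End ℚ_[p] V) (r : ℝ) (hr0 : 0 ≤ r)
    (hr : r ≤ ((p : ℝ) ^ 2)⁻¹) (hg : Sm b (g - 1) r) (j : ℕ) :
    Sm b (g ^ (p ^ j) - 1) (((p : ℝ) ^ j)⁻¹ * r) := by
  have h := (TA_aux b (g - 1) r hr0 hr hg j).2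
  rwa [add_sub_cancel] at h

theorem TB_diff {p : ℕ} [hp : Fact p.Prime] {V : Type*} [AddCommGroup V] [Module ℚ_[p] V]
    {ι : Type*} [Fintype ι] (b : Basis ι ℚ_[p] V) (g : Module.End ℚ_[p] V) (r : ℝ) (hr0 : 0 ≤ r)
    (hr : r ≤ ((p : ℝ) ^ 2)⁻¹) (hg : Sm b (g - 1) r) (j i : ℕ) :
    Sm b (((p : ℚ_[p]) ^ (j + i))⁻¹ • (g ^ (p ^ (j + i)) - 1) -
      ((p : ℚ_[p]) ^ j)⁻¹ • (g ^ (p ^ j) - 1)) (((p : ℝ) ^ j)⁻¹ * (p * r ^ 2)) := by
  have hpR : (1 : ℝ) < p := by exact_mod_cast hp.out.one_lt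
  have h1 := TB_pow b g r hr0 hr hg j
  have hle : ((p : ℝ) ^ j)⁻¹ * r ≤ ((p : ℝ) ^ 2)⁻¹ := by
    calc ((p : ℝ) ^ j)⁻¹ * r ≤ 1 * r := by
          gcongr
          exact inv_le_one_of_one_le₀ (one_le_pow₀ hpR.le)
      _ = r := one_mul r
      _ ≤ _ := hr
  have h2 := pow_est b (g ^ (p ^ j) - 1) (((p : ℝ) ^ j)⁻¹ * r) (by positivity) hle h1 i
  rw [add_sub_cancel, ← pow_mul, ← pow_add] at h2
  have h3 := h2.smul ((p : ℚ_[p]) ^ j)⁻¹
  rw [smul_sub, smul_smul, ← mul_inv, ← pow_add] at h3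
  refine h3.mono ?_
  rw [norm_inv, norm_pow, Padic.norm_p, inv_pow, inv_inv]
  have : (p : ℝ) ^ j * (p * (((p : ℝ) ^ j)⁻¹ * r) ^ 2) = (((p : ℝ) ^ j)⁻¹) * (p * r ^ 2) := by
    field_simp
  rw [this]

theorem TB_lim_unique {p : ℕ} [hp : Fact p.Prime] {V : Type*} [AddCommGroup V] [Module ℚ_[p] V]
    {ι : Type*} [Fintype ι] (b : Basis ι ℚ_[p] V) (A : ℕ → Module.End ℚ_[p] V)
    (l l' : Module.End ℚ_[p] V) (h : Lim b A l) (h' : Lim b A l') : l' = l := by
  rw [← sub_eq_zero]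
  refine Sm.eq_zero (b := b) fun ε hε => ?_
  obtain ⟨J, hJ⟩ := h ε hε
  obtain ⟨J', hJ'⟩ := h' ε hε
  have h1 := hJ (max J J') (le_max_left _ _)
  have h2 := hJ' (max J J') (le_max_right _ _)
  have h3 := h1.sub h2
  rwa [sub_sub_sub_cancel_left] at h3

/-- **TB** (M, uses `pow_est`). If `g - 1` has size at most `r <= p^(-2)` then `g` has a
logarithm `l`, unique, and `l - (g - 1)` has size at most `p r^2`.

Proof. Let `w_j = g^(p^j) - 1`, of size at most `r p^(-j)` (from `pow_est`: `p^(-j) w_j - w_0` has size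
at most `p r^2 <= r`). Apply `pow_est` to `u = w_j`, exponent `i`: the matrices
`p^(-(j+i)) w_(j+i) - p^(-j) w_j` have size at most `p^j p (r p^(-j))^2 = p r^2 p^(-j)`. So the matrix
entries of `p^(-j) w_j` are Cauchy sequences in `ℚ_p` and converge; the limit matrix gives `l`; the
estimate passes to the limit. Uniqueness: two limits differ by something of size at most `ε` for all
`ε > 0` (`Sm.eq_zero`). -/
theorem exists_lg {p : ℕ} [hp : Fact p.Prime] {V : Type*} [AddCommGroup V] [Module ℚ_[p] V]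
    {ι : Type*} [Fintype ι] (b : Basis ι ℚ_[p] V) (g : Module.End ℚ_[p] V) (r : ℝ) (hr0 : 0 ≤ r)
    (hr : r ≤ ((p : ℝ) ^ 2)⁻¹) (hg : Sm b (g - 1) r) :
    ∃ l : Module.End ℚ_[p] V, IsLg b g l ∧ Sm b (l - (g - 1)) (p * r ^ 2) ∧
      ∀ l', IsLg b g l' → l' = l := by
  classical
  have hpR : (1 : ℝ) < p := by exact_mod_cast hp.out.one_lt
  set A : ℕ → Module.End ℚ_[p] V := fun j => ((p : ℚ_[p]) ^ j)⁻¹ • (g ^ (p ^ j) - 1) with hA
  have hd : ∀ j m, j ≤ m → Sm b (A m - A j) (((p : ℝ) ^ j)⁻¹ * (p * r ^ 2)) := by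
    intro j m hjm
    obtain ⟨i, rfl⟩ := Nat.exists_eq_add_of_le hjm
    exact TB_diff b g r hr0 hr hg j i
  have htend : Filter.Tendsto (fun j : ℕ => ((p : ℝ) ^ j)⁻¹ * (p * r ^ 2)) Filter.atTop
      (nhds 0) := by
    have h1 : Filter.Tendsto (fun j : ℕ => ((p : ℝ) ^ j)⁻¹) Filter.atTop (nhds 0) :=
      tendsto_inv_atTop_zero.comp (tendsto_pow_atTop_atTop_of_one_lt hpR)
    simpa using h1.mul_const (p * r ^ 2)
  -- entries are Cauchy
  have hc : ∀ i k, ∃ x : ℚ_[p], Filter.Tendsto (fun j => b.repr (A j (b k)) i) Filter.atTop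
      (nhds x) := by
    intro i k
    apply cauchySeq_tendsto_of_complete
    refine cauchySeq_of_le_tendsto_0' (fun j : ℕ => ((p : ℝ) ^ j)⁻¹ * (p * r ^ 2)) ?_ htend
    intro j m hjm
    rw [dist_comm, dist_eq_norm]
    have := hd j m hjm i k
    rwa [LinearMap.sub_apply, map_sub, Finsupp.sub_apply] at this
  choose x hx using hc
  let l : Module.End ℚ_[p] V := b.constr ℚ_[p] fun k => ∑ i, x i k • b i
  have hl : ∀ i k, b.repr (l (b k)) i = x i k := by
    intro i k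
    have : l (b k) = ∑ i, x i k • b i := by
      simp only [l]
      rw [Basis.constr_basis]
    rw [this, b.repr_sum_self]
  -- the distance to the limit
  have hlim : ∀ j, Sm b (l - A j) (((p : ℝ) ^ j)⁻¹ * (p * r ^ 2)) := by
    intro j i k
    rw [LinearMap.sub_apply, map_sub, Finsupp.sub_apply, hl]
    have h1 : Filter.Tendsto (fun m => ‖b.repr (A m (b k)) i - b.repr (A j (b k)) i‖) Filter.atTop
        (nhds ‖x i k - b.repr (A j (b k)) i‖) := ((hx i k).sub_const _).norm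
    refine le_of_tendsto h1 (Filter.eventually_atTop.2 ⟨j, fun m hm => ?_⟩)
    have := hd j m hm i k
    rwa [LinearMap.sub_apply, map_sub, Finsupp.sub_apply] at this
  have hLg : IsLg b g l := by
    intro ε hε
    obtain ⟨J, hJ⟩ := Filter.eventually_atTop.1 ((htend.eventually_le_const hε))
    refine ⟨J, fun j hj => ?_⟩
    have h1 := ((hlim j).mono (hJ j hj)).neg
    rwa [neg_sub] at h1
  refine ⟨l, hLg, ?_, fun l' hl' => TB_lim_unique b _ l l' hLg hl'⟩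
  have h0 := hlim 0
  have e : A 0 = g - 1 := by simp [A]
  rw [e] at h0
  simpa using h0

/-- Linear functionals on endomorphisms are bounded. -/
theorem TB_fun {p : ℕ} [hp : Fact p.Prime] {V : Type*} [AddCommGroup V] [Module ℚ_[p] V]
    {ι : Type*} [Fintype ι] (b : Basis ι ℚ_[p] V) (Φ : Module.End ℚ_[p] V →ₗ[ℚ_[p]] ℚ_[p]) :
    ∃ K : ℝ, 0 < K ∧ ∀ (A : Module.End ℚ_[p] V) (r : ℝ), 0 ≤ r → Sm b A r → ‖Φ A‖ ≤ K * r := by
  classical
  let E : ι → ι → Module.End ℚ_[p] V := fun i j =>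
    b.constr ℚ_[p] (fun k => if k = j then b i else 0)
  obtain ⟨K, hK⟩ := (Set.finite_range fun ij : ι × ι => ‖Φ (E ij.1 ij.2)‖).bddAbove
  refine ⟨max K 1, lt_of_lt_of_le one_pos (le_max_right _ _), fun A r hr hA => ?_⟩
  have e : A = ∑ j, ∑ i, b.repr (A (b j)) i • E i j := by
    apply b.ext
    intro k
    rw [LinearMap.sum_apply]
    have : ∀ j, (∑ i, b.repr (A (b j)) i • E i j) (b k) = if k = j then A (b j) else 0 := by
      intro j
      rw [LinearMap.sum_apply]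
      have h1 : ∀ i, (b.repr (A (b j)) i • E i j) (b k) =
          if k = j then b.repr (A (b j)) i • b i else 0 := by
        intro i
        rw [LinearMap.smul_apply]
        simp only [E, Basis.constr_basis]
        split_ifs <;> simp
      rw [Finset.sum_congr rfl fun i _ => h1 i]
      split_ifs with h
      · exact b.sum_repr _
      · exact Finset.sum_const_zero
    rw [Finset.sum_congr rfl fun j _ => this j, Finset.sum_ite_eq]
    simp
  have e2 : Φ A = ∑ j, ∑ i, b.repr (A (b j)) i * Φ (E i j) := by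
    conv_lhs => rw [e]
    rw [map_sum]
    refine Finset.sum_congr rfl fun j _ => ?_
    rw [map_sum]
    refine Finset.sum_congr rfl fun i _ => ?_
    rw [map_smul, smul_eq_mul]
  rw [e2]
  have hpos : 0 ≤ max K 1 * r := mul_nonneg (le_trans zero_le_one (le_max_right _ _)) hr
  refine IsUltrametricDist.norm_sum_le_of_forall_le_of_nonneg hpos fun j _ =>
    IsUltrametricDist.norm_sum_le_of_forall_le_of_nonneg hpos fun i _ => ?_
  rw [norm_mul, mul_comm]
  have h2 : ‖Φ (E i j)‖ ≤ max K 1 := (hK ⟨(i, j), rfl⟩).trans (le_max_left _ _)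
  exact mul_le_mul h2 (hA i j) (norm_nonneg _) (le_trans zero_le_one (le_max_right _ _))

/-- Linear maps between endomorphisms are bounded. -/
theorem TB_lin {p : ℕ} [hp : Fact p.Prime] {V : Type*} [AddCommGroup V] [Module ℚ_[p] V]
    {ι : Type*} [Fintype ι] (b : Basis ι ℚ_[p] V)
    (Φ : Module.End ℚ_[p] V →ₗ[ℚ_[p]] Module.End ℚ_[p] V) :
    ∃ K : ℝ, 0 < K ∧ ∀ (A : Module.End ℚ_[p] V) (r : ℝ), 0 ≤ r → Sm b A r →
      Sm b (Φ A) (K * r) := by
  classical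
  have h : ∀ ij : ι × ι, ∃ K : ℝ, 0 < K ∧ ∀ (A : Module.End ℚ_[p] V) (r : ℝ), 0 ≤ r → Sm b A r →
      ‖b.repr (Φ A (b ij.2)) ij.1‖ ≤ K * r := by
    intro ij
    let Ψ : Module.End ℚ_[p] V →ₗ[ℚ_[p]] ℚ_[p] :=
      { toFun := fun A => b.repr (Φ A (b ij.2)) ij.1
        map_add' := by
          intro A B
          rw [map_add, LinearMap.add_apply, map_add, Finsupp.add_apply]
        map_smul' := by
          intro c A
          rw [map_smul, LinearMap.smul_apply, map_smul, Finsupp.smul_apply, RingHom.id_apply] }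
    exact TB_fun b Ψ
  choose K hK0 hK using h
  obtain ⟨M, hM⟩ := (Set.finite_range K).bddAbove
  refine ⟨max M 1, lt_of_lt_of_le one_pos (le_max_right _ _), fun A r hr hA i j => ?_⟩
  refine (hK (i, j) A r hr hA).trans ?_
  have : K (i, j) ≤ max M 1 := (hM ⟨(i, j), rfl⟩).trans (le_max_left _ _)
  gcongr

/-- One step: `o` applied to `p^(-1) ((1+w)^p - 1) - w`. -/
theorem TB_step {p : ℕ} [hp : Fact p.Prime] {V : Type*} [AddCommGroup V] [Module ℚ_[p] V]
    {ι : Type*} [Fintype ι] (b : Basis ι ℚ_[p] V)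
    (o : Module.End ℚ_[p] V →ₗ[ℚ_[p]] Module.End ℚ_[p] V)
    (w : Module.End ℚ_[p] V) (ρ s : ℝ) (hρ : 0 ≤ ρ) (hρ1 : ρ ≤ 1) (hs : 0 ≤ s)
    (hP : ∀ i : ℕ, Sm b (o (w ^ (i + 1))) (ρ ^ i * s)) :
    Sm b (o ((p : ℚ_[p])⁻¹ • ((1 + w) ^ p - 1) - w)) (p * ρ * s) := by
  have hp0 : (p : ℚ_[p]) ≠ 0 := by exact_mod_cast hp.out.ne_zero
  have h2 : 2 ≤ p := hp.out.two_le
  have hpR : (1 : ℝ) ≤ p := by exact_mod_cast hp.out.one_lt.le
  have e1 : (1 + w) ^ p = ∑ i ∈ Finset.range (p + 1), ((p.choose i : ℕ) : ℚ_[p]) • w ^ i := by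
    rw [add_comm, (Commute.one_right w).add_pow]
    refine Finset.sum_congr rfl fun i _ => ?_
    rw [one_pow, mul_one, ← Nat.cast_comm, ← nsmul_eq_mul, Nat.cast_smul_eq_nsmul]
  have e2 : (p : ℚ_[p])⁻¹ • ((1 + w) ^ p - 1) - w =
      ∑ i ∈ Finset.Ico 2 (p + 1), ((p : ℚ_[p])⁻¹ * ((p.choose i : ℕ) : ℚ_[p])) • w ^ i := by
    have e3 : ∑ i ∈ Finset.range (p + 1), ((p.choose i : ℕ) : ℚ_[p]) • w ^ i =
        1 + (p : ℚ_[p]) • w +
          ∑ i ∈ Finset.Ico 2 (p + 1), ((p.choose i : ℕ) : ℚ_[p]) • w ^ i := by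
      rw [Finset.range_eq_Ico, ← Finset.sum_Ico_consecutive _ (Nat.zero_le 2) (by omega : 2 ≤ p + 1)]
      congr 1
      rw [← Finset.range_eq_Ico, Finset.sum_range_succ, Finset.sum_range_one]
      simp
    rw [e1, e3]
    have e4 : (1 : Module.End ℚ_[p] V) + (p : ℚ_[p]) • w +
          ∑ i ∈ Finset.Ico 2 (p + 1), ((p.choose i : ℕ) : ℚ_[p]) • w ^ i - 1 =
        (p : ℚ_[p]) • w + ∑ i ∈ Finset.Ico 2 (p + 1), ((p.choose i : ℕ) : ℚ_[p]) • w ^ i := by
      abel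
    rw [e4, smul_add, smul_smul, inv_mul_cancel₀ hp0, one_smul, Finset.smul_sum]
    rw [add_sub_cancel_left]
    refine Finset.sum_congr rfl fun i _ => ?_
    rw [smul_smul]
  rw [e2, map_sum]
  refine Sm.sum _ _ (by positivity) fun i hi => ?_
  obtain ⟨j, rfl⟩ := Nat.exists_eq_add_of_le (Finset.mem_Ico.1 hi).1
  rw [map_smul]
  have h3 := (hP (1 + j)).smul ((p : ℚ_[p])⁻¹ * ((p.choose (2 + j) : ℕ) : ℚ_[p]))
  rw [show 1 + j + 1 = 2 + j by omega] at h3
  refine h3.mono ?_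
  have hn : ‖(p : ℚ_[p])⁻¹ * ((p.choose (2 + j) : ℕ) : ℚ_[p])‖ ≤ p := by
    rw [norm_mul, norm_inv, Padic.norm_p, inv_inv]
    have := Padic.norm_int_le_one (p := p) ((p.choose (2 + j) : ℕ) : ℤ)
    rw [Int.cast_natCast] at this
    have h0 : (0:ℝ) ≤ p := by positivity
    nlinarith
  have hpow : ρ ^ (1 + j) ≤ ρ := by
    calc ρ ^ (1 + j) ≤ ρ ^ 1 := pow_le_pow_of_le_one hρ hρ1 (by omega)
      _ = ρ := pow_one ρ
  calc ‖(p : ℚ_[p])⁻¹ * ((p.choose (2 + j) : ℕ) : ℚ_[p])‖ * (ρ ^ (1 + j) * s)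
      ≤ p * (ρ * s) := by gcongr
    _ = p * ρ * s := by ring

/-- If `o` kills `1` and the logarithm of `g`, and `o (w^i)` is small with `o w`, then `o` kills
`g`. -/
theorem TB_gen {p : ℕ} [hp : Fact p.Prime] {V : Type*} [AddCommGroup V] [Module ℚ_[p] V]
    {ι : Type*} [Fintype ι] (b : Basis ι ℚ_[p] V)
    (o : Module.End ℚ_[p] V →ₗ[ℚ_[p]] Module.End ℚ_[p] V)
    (hP : ∀ (w : Module.End ℚ_[p] V) (ρ s : ℝ), 0 ≤ ρ → 0 ≤ s → Sm b w ρ → Sm b (o w) s →
      ∀ i : ℕ, Sm b (o (w ^ (i + 1))) (ρ ^ i * s))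
    (g l : Module.End ℚ_[p] V) (hg : Sm b (g - 1) ((p : ℝ) ^ 2)⁻¹) (hl : IsLg b g l)
    (h0 : o l = 0) : o (g - 1) = 0 := by
  have hp0 : (p : ℚ_[p]) ≠ 0 := by exact_mod_cast hp.out.ne_zero
  have hpR : (1 : ℝ) < p := by exact_mod_cast hp.out.one_lt
  have hρ0 : (0 : ℝ) ≤ ((p : ℝ) ^ 2)⁻¹ := by positivity
  obtain ⟨K, hK0, hK⟩ := TB_lin b o
  -- the main step
  have main : ∀ s : ℝ, 0 ≤ s → Sm b (o (g - 1)) s → Sm b (o (g - 1)) (s / p) := by
    intro s hs hos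
    have hind : ∀ j : ℕ, Sm b (o (g ^ (p ^ j) - 1)) (((p : ℝ) ^ j)⁻¹ * s) ∧
        Sm b (o (((p : ℚ_[p]) ^ j)⁻¹ • (g ^ (p ^ j) - 1)) - o (g - 1)) (s / p) := by
      intro j
      induction j with
      | zero =>
        refine ⟨by simpa using hos, ?_⟩
        have : o (((p : ℚ_[p]) ^ 0)⁻¹ • (g ^ (p ^ 0) - 1)) - o (g - 1) = 0 := by simp
        rw [this]
        exact Sm.zero b (by positivity)
      | succ j ih =>
        obtain ⟨i1, i2⟩ := ih
        have hw := TB_pow b g _ hρ0 le_rfl hg j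
        have hle : ((p : ℝ) ^ j)⁻¹ * ((p : ℝ) ^ 2)⁻¹ ≤ 1 := by
          have a1 : ((p : ℝ) ^ j)⁻¹ ≤ 1 := inv_le_one_of_one_le₀ (one_le_pow₀ hpR.le)
          have a2 : ((p : ℝ) ^ 2)⁻¹ ≤ 1 := inv_le_one_of_one_le₀ (one_le_pow₀ hpR.le)
          calc ((p : ℝ) ^ j)⁻¹ * ((p : ℝ) ^ 2)⁻¹ ≤ 1 * 1 := by gcongr
            _ = 1 := by norm_num
        have h1 := TB_step b o (g ^ (p ^ j) - 1) (((p : ℝ) ^ j)⁻¹ * ((p : ℝ) ^ 2)⁻¹)
          (((p : ℝ) ^ j)⁻¹ * s) (by positivity) hle (by positivity)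
          (hP _ _ _ (by positivity) (by positivity) hw i1)
        rw [add_sub_cancel, ← pow_mul, ← pow_succ] at h1
        -- size at most `s p^(-j) / p`
        have hpj : ((p : ℝ) ^ j)⁻¹ ≤ 1 := inv_le_one_of_one_le₀ (one_le_pow₀ hpR.le)
        have h2 : Sm b (o ((p : ℚ_[p])⁻¹ • (g ^ (p ^ (j + 1)) - 1) - (g ^ (p ^ j) - 1)))
            (((p : ℝ) ^ j)⁻¹ * (s / p)) := by
          refine h1.mono ?_
          calc (p : ℝ) * (((p : ℝ) ^ j)⁻¹ * ((p : ℝ) ^ 2)⁻¹) * (((p : ℝ) ^ j)⁻¹ * s)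
              = ((p : ℝ) ^ j)⁻¹ * (((p : ℝ) ^ j)⁻¹ * (s / p)) := by field_simp
            _ ≤ 1 * (((p : ℝ) ^ j)⁻¹ * (s / p)) := by gcongr
            _ = _ := one_mul _
        constructor
        · have h3 : Sm b (o ((p : ℚ_[p])⁻¹ • (g ^ (p ^ (j + 1)) - 1))) (((p : ℝ) ^ j)⁻¹ * s) := by
            have h4 : Sm b (o ((p : ℚ_[p])⁻¹ • (g ^ (p ^ (j + 1)) - 1) - (g ^ (p ^ j) - 1)))
                (((p : ℝ) ^ j)⁻¹ * s) := by
              refine h2.mono ?_
              gcongr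
              exact div_le_self hs hpR.le
            have h5 := h4.add i1
            rwa [← map_add, sub_add_cancel] at h5
          have h6 := h3.smul (p : ℚ_[p])
          rw [← map_smul, smul_smul, mul_inv_cancel₀ hp0, one_smul, Padic.norm_p] at h6
          refine h6.mono (le_of_eq ?_)
          rw [pow_succ, mul_inv]
          ring
        · have h3 := h2.smul ((p : ℚ_[p]) ^ j)⁻¹
          rw [← map_smul, smul_sub, smul_smul, ← mul_inv, ← pow_succ, norm_inv, norm_pow,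
            Padic.norm_p, inv_pow, inv_inv, ← mul_assoc, mul_inv_cancel₀ (by positivity), one_mul,
            map_sub] at h3
          have h4 := h3.add i2
          rwa [sub_add_sub_cancel] at h4
    -- pass to the limit
    intro i k
    refine le_of_forall_pos_le_add fun ε hε => ?_
    obtain ⟨J, hJ⟩ := hl (ε / K) (by positivity)
    have h1 := hK _ _ (by positivity) (hJ J le_rfl)
    have h2 : Sm b (o (((p : ℚ_[p]) ^ J)⁻¹ • (g ^ (p ^ J) - 1))) ε := by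
      rw [map_sub, h0, sub_zero] at h1
      refine h1.mono (le_of_eq ?_)
      field_simp
    have h3 := (hind J).2
    have h4 : Sm b (o (g - 1)) (max ε (s / p)) := by
      have h5 := (h2.mono (le_max_left ε (s / p))).sub (h3.mono (le_max_right ε (s / p)))
      rwa [sub_sub_cancel] at h5
    refine (h4 i k).trans ?_
    have : 0 ≤ s / p := by positivity
    exact max_le (by linarith) (by linarith)
  obtain ⟨s, hs0, hs⟩ := Sm.exists b (o (g - 1))
  have key : ∀ n : ℕ, Sm b (o (g - 1)) (s / (p : ℝ) ^ n) := by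
    intro n
    induction n with
    | zero => simpa using hs
    | succ n ih =>
      have := main _ (by positivity) ih
      rwa [div_div, ← pow_succ] at this
  refine Sm.eq_zero (b := b) fun ε hε => ?_
  obtain ⟨n, hn⟩ := pow_unbounded_of_one_lt (s / ε) hpR
  refine (key n).mono ?_
  rw [div_le_iff₀ (by positivity)]
  rw [div_lt_iff₀ hε] at hn
  linarith

/-- The logarithm of an element of the group is in the tangent space. -/
theorem TB_mem {p : ℕ} [hp : Fact p.Prime] {V : Type*} [AddCommGroup V] [Module ℚ_[p] V]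
    {ι : Type*} [Fintype ι] (b : Basis ι ℚ_[p] V) (G : Set (Module.End ℚ_[p] V)) (hG : MGrp G)
    (g l : Module.End ℚ_[p] V) (hg : g ∈ G) (hl : IsLg b g l) : l ∈ TS b G := by
  intro ε hε N
  obtain ⟨J, hJ⟩ := hl ε hε
  refine ⟨max J N, le_max_right _ _, g ^ (p ^ max J N), ?_, hJ _ (le_max_left _ _)⟩
  generalize p ^ max J N = n
  induction n with
  | zero => rw [pow_zero]; exact hG.one
  | succ n ih => rw [pow_succ]; exact hG.mul _ ih _ hg

theorem TB_change {p : ℕ} [hp : Fact p.Prime] {V : Type*} [AddCommGroup V] [Module ℚ_[p] V]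
    {ι κ : Type*} [Fintype ι] [Fintype κ] (b : Basis ι ℚ_[p] V) (c : Basis κ ℚ_[p] V)
    (g l : Module.End ℚ_[p] V) (h : IsLg b g l) : IsLg c g l := by
  obtain ⟨C, hC, hchange⟩ := Sm.change b c
  intro ε hε
  obtain ⟨J, hJ⟩ := h (ε / C) (by positivity)
  refine ⟨J, fun j hj => ?_⟩
  refine (hchange _ _ (by positivity) (hJ j hj)).mono (le_of_eq ?_)
  field_simp

end H4S
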