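import Mathlib
import Pool.Agent.Lib.H4S.T1

/-!
# H4S, chunk TK: eigenvalues near 1, roots of unity near 1
-/

set_option autoImplicit false

namespace H4S

open Module Polynomial

theorem TK_pow {K : Type*} [NormedField K] [IsUltrametricDist K] (x : K) (hx : ‖x‖ ≤ 1) (n : ℕ) :
    ‖(1 + x) ^ n - 1 - n * x‖ ≤ ‖x‖ ^ 2 ∧ ‖(1 + x) ^ n - 1‖ ≤ ‖x‖ := by
  induction n with
  | zero => simp
  | succ n ih =>
    obtain ⟨i1, i2⟩ := ih
    constructor
    · have e : (1 + x) ^ (n + 1) - 1 - ((n + 1 : ℕ) : K) * x =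
          ((1 + x) ^ n - 1 - n * x) + x * ((1 + x) ^ n - 1) := by
        push_cast
        ring
      rw [e]
      refine (IsUltrametricDist.norm_add_le_max _ _).trans (max_le i1 ?_)
      rw [norm_mul, sq]
      gcongr
    · have e : (1 + x) ^ (n + 1) - 1 = ((1 + x) ^ n - 1) + (x + x * ((1 + x) ^ n - 1)) := by ring
      rw [e]
      refine (IsUltrametricDist.norm_add_le_max _ _).trans (max_le i2 ?_)
      refine (IsUltrametricDist.norm_add_le_max _ _).trans (max_le le_rfl ?_)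
      rw [norm_mul]
      calc ‖x‖ * ‖(1 + x) ^ n - 1‖ ≤ ‖x‖ * 1 := by
            gcongr
            exact i2.trans hx
        _ = ‖x‖ := mul_one _

theorem TK_cast {p : ℕ} [hp : Fact p.Prime] (N : ℕ) :
    ‖(N : PadicAlgCl p)‖ = ‖(N : ℚ_[p])‖ := by
  rw [← map_natCast (algebraMap ℚ_[p] (PadicAlgCl p)), norm_algebraMap']

/-- The case in which `‖N x‖` is larger than `‖x‖^2`. -/
theorem TK_one {p : ℕ} [hp : Fact p.Prime] (u : PadicAlgCl p) (hu : ‖u - 1‖ ≤ 1) (N : ℕ)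
    (h : ‖u - 1‖ < ‖(N : ℚ_[p])‖) : ‖u ^ N - 1‖ = ‖(N : ℚ_[p])‖ * ‖u - 1‖ := by
  rcases eq_or_ne u 1 with rfl | hu1
  · simp
  have hpos : 0 < ‖u - 1‖ := norm_pos_iff.2 (sub_ne_zero.2 hu1)
  have h1 := (TK_pow (u - 1) hu N).1
  rw [add_sub_cancel] at h1
  have h2 : ‖(u ^ N - 1) + -((N : PadicAlgCl p) * (u - 1))‖ <
      max ‖u ^ N - 1‖ ‖-((N : PadicAlgCl p) * (u - 1))‖ := by
    refine lt_of_le_of_lt ?_ (lt_of_lt_of_le ?_ (le_max_right _ _)) (b := ‖u - 1‖ ^ 2)
    · rw [← sub_eq_add_neg]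
      exact h1
    · rw [norm_neg, norm_mul, TK_cast, sq]
      exact mul_lt_mul_of_pos_right h hpos
  have h3 := IsUltrametricDist.norm_eq_of_add_norm_lt_max h2
  rw [h3, norm_neg, norm_mul, TK_cast]

/-- **TK1** (M). Powers of numbers near `1` in the algebraic closure of `ℚ_p`: if
`‖u - 1‖ <= p^(-2)` then `‖u^N - 1‖ = ‖N‖ ‖u - 1‖` for every natural number `N`.

Proof. Let `x = u - 1`. For `N = p`: `(1+x)^p - 1 - p x = sum_{i >= 2} binom(p,i) x^i` has norm at most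
`max(p^(-1) ‖x‖^2, ‖x‖^p) < p^(-1) ‖x‖` if `x <> 0`. For `N` prime to `p`:
`(1+x)^N - 1 - N x` has norm at most `‖x‖^2 < ‖x‖` if `x <> 0`, and `‖N‖ = 1`. General `N`:
write `N = p^k M`, `M` prime to `p`, induction on `k`; the power `u^p` is again within `p^(-2)` of
`1`. `N = 0` is trivial. -/
theorem norm_pow_sub_one {p : ℕ} [hp : Fact p.Prime] (u : PadicAlgCl p)
    (hu : ‖u - 1‖ ≤ ((p : ℝ) ^ 2)⁻¹) (N : ℕ) : ‖u ^ N - 1‖ = ‖(N : ℚ_[p])‖ * ‖u - 1‖ := by
  have hpR : (1 : ℝ) < p := by exact_mod_cast hp.out.one_lt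
  have hlt : ((p : ℝ) ^ 2)⁻¹ < (p : ℝ)⁻¹ := by
    rw [inv_lt_inv₀ (by positivity) (by positivity)]
    nlinarith
  have hlt1 : (p : ℝ)⁻¹ < 1 := inv_lt_one_of_one_lt₀ hpR
  revert u
  induction N using induction_on_primes with
  | zero =>
    intro u hu
    simp
  | one =>
    intro u hu
    simp
  | prime_mul q a hq ih =>
    intro u hu
    have hu1 : ‖u - 1‖ ≤ 1 := hu.trans (hlt.le.trans hlt1.le)
    have hq1 : ‖u ^ q - 1‖ = ‖(q : ℚ_[p])‖ * ‖u - 1‖ := by
      refine TK_one u hu1 q ?_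
      by_cases hqp : q = p
      · rw [hqp, Padic.norm_p]
        exact lt_of_le_of_lt hu hlt
      · have : ‖(q : ℚ_[p])‖ = 1 := by
          rw [Padic.norm_natCast_eq_one_iff]
          exact (Nat.coprime_primes hp.out hq).2 (Ne.symm hqp)
        rw [this]
        exact lt_of_le_of_lt hu (hlt.trans hlt1)
    have hle : ‖(q : ℚ_[p])‖ ≤ 1 := by
      have := Padic.norm_int_le_one (p := p) (q : ℤ)
      rwa [Int.cast_natCast] at this
    have hq2 : ‖u ^ q - 1‖ ≤ ((p : ℝ) ^ 2)⁻¹ := by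
      rw [hq1]
      refine le_trans ?_ hu
      exact mul_le_of_le_one_left (norm_nonneg _) hle
    rw [pow_mul, ih _ hq2, hq1, Nat.cast_mul, norm_mul]
    ring

/-- **TK2** (M). Eigenvalues of an endomorphism of size at most `r` have norm at most `r`.

Proof. An eigenvalue `c` of `A` (in the algebraic closure) has an eigenvector `v` with coordinates in
`PadicAlgCl p`; let `v_i` be a coordinate of maximal norm. `c v_i = sum_j A_ij v_j` gives
`‖c‖ ‖v_i‖ <= r ‖v_i‖`. (The matrix of `A` in the basis `b`, mapped to `PadicAlgCl p`, has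
characteristic polynomial `∏ (X - z_i)`; `Matrix.exists_mulVec_eq_zero_iff` for `z_i - A`.) -/
theorem norm_eig_le {p : ℕ} [hp : Fact p.Prime] {V : Type*} [AddCommGroup V] [Module ℚ_[p] V]
    [FiniteDimensional ℚ_[p] V] {ι : Type*} [Fintype ι] (b : Basis ι ℚ_[p] V)
    (A : Module.End ℚ_[p] V) (r : ℝ) (hA : Sm b A r) {n : ℕ} (z : Fin n → PadicAlgCl p)
    (hz : EigL A z) (i : Fin n) : ‖z i‖ ≤ r := by
  classical
  set M : Matrix ι ι (PadicAlgCl p) :=
    (LinearMap.toMatrix b b A).map (algebraMap ℚ_[p] (PadicAlgCl p)) with hM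
  have hchar : M.charpoly = ∏ i, (X - C (z i)) := by
    rw [hM, Matrix.charpoly_map, LinearMap.charpoly_toMatrix]
    exact hz
  have hdet : (Matrix.scalar ι (z i) - M).det = 0 := by
    rw [← Matrix.eval_charpoly, hchar, eval_prod]
    refine Finset.prod_eq_zero (Finset.mem_univ i) ?_
    simp
  obtain ⟨v, hv0, hv⟩ := Matrix.exists_mulVec_eq_zero_iff.2 hdet
  obtain ⟨k0, hk0⟩ : ∃ k, v k ≠ 0 := by
    by_contra hcon
    push Not at hcon
    exact hv0 (funext hcon)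
  have : Nonempty ι := ⟨k0⟩
  have hr : 0 ≤ r := hA.nonneg
  obtain ⟨k, -, hk⟩ := Finset.exists_max_image Finset.univ (fun k => ‖v k‖) ⟨k0, Finset.mem_univ _⟩
  have hvk : 0 < ‖v k‖ := lt_of_lt_of_le (norm_pos_iff.2 hk0) (hk k0 (Finset.mem_univ _))
  have h1 : z i * v k = ∑ j, M k j * v j := by
    have h2 := congrFun hv k
    rw [Matrix.sub_mulVec, Pi.sub_apply, Pi.zero_apply, sub_eq_zero] at h2
    have h3 : (Matrix.scalar ι (z i)).mulVec v k = z i * v k := by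
      rw [Matrix.scalar_apply, Matrix.mulVec_diagonal]
    rw [← h3, h2]
    rfl
  have h2 : ‖z i‖ * ‖v k‖ ≤ r * ‖v k‖ := by
    rw [← norm_mul, h1]
    refine IsUltrametricDist.norm_sum_le_of_forall_le_of_nonneg (by positivity) fun j _ => ?_
    rw [norm_mul]
    have h3 : ‖M k j‖ ≤ r := by
      rw [hM, Matrix.map_apply, norm_algebraMap', LinearMap.toMatrix_apply]
      exact hA k j
    exact mul_le_mul h3 (hk j (Finset.mem_univ _)) (norm_nonneg _) hr
  exact le_of_mul_le_mul_right h2 hvk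

end H4S
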