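import Mathlib
import Pool.Agent.Lib.H4S.TK
import Pool.Agent.Lib.H43.GS.Closed

/-!
# H4S: limits of eigenvalue lists, eigenvalues of polynomials (auxiliary lemmas for TL, TJ)
-/

set_option autoImplicit false

namespace H4S

open Module Polynomial Filter Topology

theorem TKU_coeff {K : Type*} [NormedField K] {ι : Type*} [Fintype ι] [DecidableEq ι] (k : ℕ) :
    Continuous fun M : Matrix ι ι K => M.charpoly.coeff k := by
  have h3 : (fun M : Matrix ι ι K => M.charpoly.coeff k) = fun M =>
      MvPolynomial.eval (fun ij : ι × ι => M ij.1 ij.2)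
        ((Matrix.charpoly.univ K ι).coeff k) := by
    funext M
    have h := Matrix.charpoly.univ_coeff_eval₂Hom ι (RingHom.id K)
      (fun ij : ι × ι => M ij.1 ij.2) k
    have h2 : Matrix.of (Function.curry fun ij : ι × ι => M ij.1 ij.2) = M := by
      ext i j
      rfl
    rw [h2] at h
    rw [← h]
    rfl
  rw [h3]
  refine (MvPolynomial.continuous_eval _).comp ?_
  exact continuous_pi fun ij => continuous_id.matrix_elem ij.1 ij.2

/-- Limits of lists of eigenvalues along an ultrafilter. -/
theorem TKU_lim {p : ℕ} [hp : Fact p.Prime] {V : Type*} [AddCommGroup V] [Module ℚ_[p] V]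
    [FiniteDimensional ℚ_[p] V] {ι : Type*} [Fintype ι] (b : Basis ι ℚ_[p] V) (u : Ultrafilter ℕ)
    (A : ℕ → Module.End ℚ_[p] V) (l : Module.End ℚ_[p] V)
    (hA : ∀ i k, Tendsto (fun j => b.repr (A j (b k)) i) u (𝓝 (b.repr (l (b k)) i)))
    {n : ℕ} (x : ℕ → Fin n → PadicAlgCl p) (hx : ∀ᶠ j in (u : Filter ℕ), EigL (A j) (x j)) :
    ∃ lam : Fin n → PadicAlgCl p, EigL l lam ∧ ∀ i, Tendsto (fun j => x j i) u (𝓝 (lam i)) := by
  classical
  have hdeg : ∀ T : Module.End ℚ_[p] V, (LinearMap.charpoly T).natDegree = finrank ℚ_[p] V :=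
    fun T => LinearMap.charpoly_natDegree T
  have hlimc : ∀ i, Tendsto (fun j => (LinearMap.charpoly (A j)).coeff i) u
      (𝓝 ((LinearMap.charpoly l).coeff i)) := by
    intro i
    have h1 : ∀ T : Module.End ℚ_[p] V, (LinearMap.charpoly T).coeff i =
        (LinearMap.toMatrix b b T).charpoly.coeff i := by
      intro T
      rw [LinearMap.charpoly_toMatrix]
    simp only [h1]
    have h2 : Tendsto (fun j => LinearMap.toMatrix b b (A j)) u
        (𝓝 (LinearMap.toMatrix b b l)) := by
      refine tendsto_pi_nhds.2 fun a => tendsto_pi_nhds.2 fun c => ?_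
      simp only [LinearMap.toMatrix_apply]
      exact hA a c
    exact ((TKU_coeff i).tendsto _).comp h2
  have hev : ∀ i, ∃ c : PadicAlgCl p, Tendsto (fun j => x j i) u (𝓝 c) := by
    intro i
    refine Pool.Agent.H43GS.exists_root_limit (L := PadicAlgCl p) u
      (fun j => LinearMap.charpoly (A j)) (LinearMap.charpoly l)
      (fun j => LinearMap.charpoly_monic _) (LinearMap.charpoly_monic _) (fun j => hdeg _)
      (hdeg _) hlimc (fun j => x j i) ?_
    filter_upwards [hx] with j hj
    rw [← eval_map_algebraMap, hj, eval_prod]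
    exact Finset.prod_eq_zero (Finset.mem_univ i) (by simp)
  choose lam hlam using hev
  refine ⟨lam, ?_, hlam⟩
  apply Polynomial.funext
  intro t
  rw [eval_prod]
  simp only [eval_sub, eval_X, eval_C]
  have h1 : Tendsto (fun j => aeval t (LinearMap.charpoly (A j))) u
      (𝓝 (aeval t (LinearMap.charpoly l))) := by
    have h2 : ∀ T : Module.End ℚ_[p] V, aeval t (LinearMap.charpoly T) =
        ∑ i ∈ Finset.range (finrank ℚ_[p] V + 1),
          algebraMap ℚ_[p] (PadicAlgCl p) ((LinearMap.charpoly T).coeff i) * t ^ i := by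
      intro T
      rw [aeval_eq_sum_range, hdeg T]
      refine Finset.sum_congr rfl fun i _ => ?_
      rw [Algebra.smul_def]
    simp only [h2]
    refine tendsto_finsetSum _ fun i _ => Tendsto.mul_const _ ?_
    exact ((continuous_algebraMap ℚ_[p] (PadicAlgCl p)).tendsto _).comp (hlimc i)
  have h3 : Tendsto (fun j => ∏ i, (t - x j i)) u (𝓝 (∏ i, (t - lam i))) :=
    tendsto_finsetProd _ fun i _ => (hlam i).const_sub t
  rw [eval_map_algebraMap]
  refine tendsto_nhds_unique (h1.congr' ?_) h3
  filter_upwards [hx] with j hj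
  rw [← eval_map_algebraMap, hj, eval_prod]
  simp only [eval_sub, eval_X, eval_C]

/-- The eigenvalues of a polynomial in `g`. -/
theorem TKU_aeval {k K V : Type*} [Field k] [Field K] [IsAlgClosed K] [Algebra k K]
    [AddCommGroup V] [Module k V] [FiniteDimensional k V] (g : Module.End k V) {n : ℕ}
    (z : Fin n → K) (hz : EigL g z) (P : k[X]) : EigL (aeval g P) (fun i => aeval (z i) P) := by
  classical
  let b := Module.finBasis k V
  have hn : finrank k V = n := by
    have h1 := congrArg natDegree hz
    rw [natDegree_map, LinearMap.charpoly_natDegree,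
      natDegree_finsetProd_X_sub_C_eq_card, Finset.card_univ, Fintype.card_fin] at h1
    exact h1
  let b' : Basis (Fin n) k V := b.reindex (finCongr hn)
  set M : Matrix (Fin n) (Fin n) K := (LinearMap.toMatrix b' b' g).map (algebraMap k K) with hM
  have hchar : M.charpoly = ∏ i, (X - C (z i)) := by
    rw [hM, Matrix.charpoly_map, LinearMap.charpoly_toMatrix]
    exact hz
  have h1 : (LinearMap.toMatrix b' b' (aeval g P)).map (algebraMap k K) =
      aeval M (P.map (algebraMap k K)) := by
    have e1 : LinearMap.toMatrix b' b' (aeval g P) = aeval (LinearMap.toMatrix b' b' g) P := by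
      have := Polynomial.aeval_algHom_apply (LinearMap.toMatrixAlgEquiv b').toAlgHom g P
      exact this.symm
    rw [e1, hM]
    have e2 := Polynomial.map_aeval_eq_aeval_map (R := k) (S := Matrix (Fin n) (Fin n) k)
      (T := K) (U := Matrix (Fin n) (Fin n) K) (φ := algebraMap k K)
      (ψ := (algebraMap k K).mapMatrix) (by
        ext c i j
        rcases eq_or_ne i j with h | h <;> simp [Matrix.algebraMap_matrix_apply, h]) P (LinearMap.toMatrix b' b' g)
    exact e2
  show (LinearMap.charpoly (aeval g P)).map (algebraMap k K) = _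
  rw [← LinearMap.charpoly_toMatrix (aeval g P) b', ← Matrix.charpoly_map, h1]
  have hinf : Infinite K := IsAlgClosed.instInfinite
  apply Polynomial.funext
  intro c
  rw [Matrix.eval_charpoly, eval_prod]
  simp only [eval_sub, eval_X, eval_C]
  have h2 : Matrix.scalar (Fin n) c - aeval M (P.map (algebraMap k K)) =
      aeval M (C c - P.map (algebraMap k K)) := by
    rw [map_sub, aeval_C]
    rfl
  rw [h2, Pool.Agent.Ord.det_aeval hchar]
  refine Finset.prod_congr rfl fun i _ => ?_
  rw [eval_sub, eval_C, eval_map_algebraMap]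

end H4S
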