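import Mathlib
import Pool.Agent.Lib.H4S.TB
import Pool.Agent.Lib.H4S.TK
import Pool.Agent.Lib.H43.GS.Closed
import Pool.Agent.Lib.H4S.TKU

/-!
# H4S, chunk TL: eigenvalues of logarithms
-/

set_option autoImplicit false

namespace H4S

open Module Polynomial Filter Topology

section

variable {p : ℕ} [hp : Fact p.Prime]

/-- `p^(-j) (s^(p^j) - 1)` tends to `σ`. -/
def TL_T (u : Ultrafilter ℕ) (s σ : PadicAlgCl p) : Prop :=
  Tendsto (fun j : ℕ => ((p : PadicAlgCl p) ^ j)⁻¹ * (s ^ (p ^ j) - 1)) u (𝓝 σ)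

theorem TL_pj (u : Ultrafilter ℕ) (hu : (u : Filter ℕ) ≤ atTop) :
    Tendsto (fun j : ℕ => (p : PadicAlgCl p) ^ j) u (𝓝 0) := by
  have hpR : (1 : ℝ) < p := by exact_mod_cast hp.out.one_lt
  have h1 : ‖(p : PadicAlgCl p)‖ < 1 := by
    rw [TK_cast, Padic.norm_p]
    exact inv_lt_one_of_one_lt₀ hpR
  exact (tendsto_pow_atTop_nhds_zero_of_norm_lt_one h1).mono_left hu

theorem TL_p0 : (p : PadicAlgCl p) ≠ 0 := by
  exact_mod_cast hp.out.ne_zero

theorem TL_T_one (u : Ultrafilter ℕ) : TL_T (p := p) u 1 0 := by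
  unfold TL_T
  simp

theorem TL_T_mul (u : Ultrafilter ℕ) (hu : (u : Filter ℕ) ≤ atTop) (s t σ τ : PadicAlgCl p)
    (hs : TL_T u s σ) (ht : TL_T u t τ) : TL_T u (s * t) (σ + τ) := by
  have h := (hs.add ht).add ((TL_pj u hu).mul (hs.mul ht))
  unfold TL_T
  rw [zero_mul, add_zero] at h
  refine h.congr fun j => ?_
  have : (p : PadicAlgCl p) ^ j ≠ 0 := pow_ne_zero _ TL_p0
  rw [mul_pow]
  field_simp
  ring

theorem TL_T_inv (u : Ultrafilter ℕ) (hu : (u : Filter ℕ) ≤ atTop) (s σ : PadicAlgCl p)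
    (hs0 : s ≠ 0) (hs : TL_T u s σ) : TL_T u s⁻¹ (-σ) := by
  have h1 : Tendsto (fun j : ℕ => s ^ (p ^ j)) u (𝓝 1) := by
    have h2 := ((TL_pj u hu).mul hs).const_add 1
    rw [zero_mul, add_zero] at h2
    refine h2.congr fun j => ?_
    have : (p : PadicAlgCl p) ^ j ≠ 0 := pow_ne_zero _ TL_p0
    field_simp
    ring
  have h3 := (hs.neg).mul (h1.inv₀ one_ne_zero)
  unfold TL_T
  rw [inv_one, mul_one] at h3
  refine h3.congr fun j => ?_
  have h4 : s ^ (p ^ j) ≠ 0 := pow_ne_zero _ hs0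
  have h5 : (p : PadicAlgCl p) ^ j ≠ 0 := pow_ne_zero _ TL_p0
  rw [inv_pow]
  field_simp
  ring

theorem TL_T_pow (u : Ultrafilter ℕ) (hu : (u : Filter ℕ) ≤ atTop) (s σ : PadicAlgCl p)
    (hs : TL_T u s σ) (n : ℕ) : TL_T u (s ^ n) (n * σ) := by
  induction n with
  | zero => simpa using TL_T_one (p := p) u
  | succ n ih =>
    rw [pow_succ, Nat.cast_succ, add_mul, one_mul]
    exact TL_T_mul u hu _ _ _ _ ih hs

theorem TL_T_zpow (u : Ultrafilter ℕ) (hu : (u : Filter ℕ) ≤ atTop) (s σ : PadicAlgCl p)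
    (hs0 : s ≠ 0) (hs : TL_T u s σ) (a : ℤ) : TL_T u (s ^ a) (a * σ) := by
  obtain ⟨n, rfl | rfl⟩ := a.eq_nat_or_neg
  · rw [zpow_natCast, Int.cast_natCast]
    exact TL_T_pow u hu s σ hs n
  · rw [zpow_neg, zpow_natCast, Int.cast_neg, Int.cast_natCast, neg_mul]
    exact TL_T_inv u hu _ _ (pow_ne_zero _ hs0) (TL_T_pow u hu s σ hs n)

theorem TL_T_prod (u : Ultrafilter ℕ) (hu : (u : Filter ℕ) ≤ atTop) {κ : Type*} (S : Finset κ)
    (s σ : κ → PadicAlgCl p) (hs : ∀ i ∈ S, TL_T u (s i) (σ i)) :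
    TL_T u (∏ i ∈ S, s i) (∑ i ∈ S, σ i) := by
  classical
  induction S using Finset.induction_on with
  | empty => simpa using TL_T_one (p := p) u
  | insert a S ha ih =>
    rw [Finset.prod_insert ha, Finset.sum_insert ha]
    exact TL_T_mul u hu _ _ _ _ (hs a (Finset.mem_insert_self a S))
      (ih fun i hi => hs i (Finset.mem_insert_of_mem hi))

/-- The numbers at distance at most `ρ < 1` of `1`. -/
theorem TL_near_mul (ρ : ℝ) (hρ : ρ < 1) (s t : PadicAlgCl p) (hs : ‖s - 1‖ ≤ ρ)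
    (ht : ‖t - 1‖ ≤ ρ) : ‖s * t - 1‖ ≤ ρ := by
  have e : s * t - 1 = (s - 1) + ((t - 1) + (s - 1) * (t - 1)) := by ring
  rw [e]
  refine (IsUltrametricDist.norm_add_le_max _ _).trans (max_le hs ?_)
  refine (IsUltrametricDist.norm_add_le_max _ _).trans (max_le ht ?_)
  rw [norm_mul]
  calc ‖s - 1‖ * ‖t - 1‖ ≤ 1 * ρ := by
        gcongr
        exact hs.trans hρ.le
    _ = ρ := one_mul ρ

theorem TL_near_norm (ρ : ℝ) (hρ : ρ < 1) (s : PadicAlgCl p) (hs : ‖s - 1‖ ≤ ρ) : ‖s‖ = 1 := by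
  have h := IsUltrametricDist.norm_eq_of_add_norm_lt_max (x := s) (y := (-1 : PadicAlgCl p)) (by
    rw [← sub_eq_add_neg]
    refine lt_of_lt_of_le (lt_of_le_of_lt hs hρ) ?_
    refine le_trans (le_of_eq ?_) (le_max_right _ _)
    simp)
  simpa using h

theorem TL_near_inv (ρ : ℝ) (hρ : ρ < 1) (s : PadicAlgCl p) (hs : ‖s - 1‖ ≤ ρ) :
    ‖s⁻¹ - 1‖ ≤ ρ := by
  have h1 := TL_near_norm ρ hρ s hs
  have hs0 : s ≠ 0 := by
    intro h
    rw [h, norm_zero] at h1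
    exact zero_ne_one h1
  have e : s⁻¹ - 1 = -((s - 1) * s⁻¹) := by
    field_simp
    ring
  rw [e, norm_neg, norm_mul, norm_inv, h1, inv_one, mul_one]
  exact hs

theorem TL_near_zpow (ρ : ℝ) (hρ0 : 0 ≤ ρ) (hρ : ρ < 1) (s : PadicAlgCl p) (hs : ‖s - 1‖ ≤ ρ)
    (a : ℤ) : ‖s ^ a - 1‖ ≤ ρ := by
  have hpow : ∀ n : ℕ, ‖s ^ n - 1‖ ≤ ρ := by
    intro n
    induction n with
    | zero => simpa using hρ0
    | succ n ih =>
      rw [pow_succ]
      exact TL_near_mul ρ hρ _ _ ih hs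
  obtain ⟨n, rfl | rfl⟩ := a.eq_nat_or_neg
  · rw [zpow_natCast]
    exact hpow n
  · rw [zpow_neg, zpow_natCast]
    exact TL_near_inv ρ hρ _ (hpow n)

theorem TL_near_prod (ρ : ℝ) (hρ0 : 0 ≤ ρ) (hρ : ρ < 1) {κ : Type*} (S : Finset κ)
    (s : κ → PadicAlgCl p) (hs : ∀ i ∈ S, ‖s i - 1‖ ≤ ρ) : ‖∏ i ∈ S, s i - 1‖ ≤ ρ := by
  classical
  induction S using Finset.induction_on with
  | empty => simpa using hρ0
  | insert a S ha ih =>
    rw [Finset.prod_insert ha]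
    exact TL_near_mul ρ hρ _ _ (hs a (Finset.mem_insert_self a S))
      (ih fun i hi => hs i (Finset.mem_insert_of_mem hi))

theorem TL_rho : ((p : ℝ) ^ 2)⁻¹ < 1 := by
  have hpR : (1 : ℝ) < p := by exact_mod_cast hp.out.one_lt
  exact inv_lt_one_of_one_lt₀ (one_lt_pow₀ hpR (by norm_num))

/-- Common denominators. -/
theorem TL_denom {n : ℕ} (m : Fin n → ℚ) : ∃ N : ℕ, 0 < N ∧ ∃ a : Fin n → ℤ,
    ∀ i, (a i : ℚ) = N * m i := by
  refine ⟨∏ i, (m i).den, Finset.prod_pos fun i _ => (m i).den_pos,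
    fun i => (m i).num * ∏ j ∈ Finset.univ.erase i, ((m j).den : ℤ), fun i => ?_⟩
  rw [← Finset.mul_prod_erase Finset.univ (fun i => (m i).den) (Finset.mem_univ i)]
  push_cast
  have h := Rat.mul_den_eq_num (m i)
  rw [← h]
  ring

/-- Multiplicative relations between numbers near `1`. -/
theorem TL_mrel {n : ℕ} (z : Fin n → PadicAlgCl p) (hz : ∀ i, ‖z i - 1‖ ≤ ((p : ℝ) ^ 2)⁻¹)
    (m : Fin n → ℚ) (N : ℕ) (hN : 0 < N) (a : Fin n → ℤ) (ha : ∀ i, (a i : ℚ) = N * m i) :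
    MRel z m ↔ ∏ i, z i ^ a i = 1 := by
  have hρ0 : (0 : ℝ) ≤ ((p : ℝ) ^ 2)⁻¹ := by positivity
  constructor
  · rintro ⟨N', hN', a', ha', h⟩
    have hw : ‖∏ i, z i ^ a i - 1‖ ≤ ((p : ℝ) ^ 2)⁻¹ :=
      TL_near_prod _ hρ0 TL_rho _ _ fun i _ => TL_near_zpow _ hρ0 TL_rho _ (hz i) _
    have h1 : (∏ i, z i ^ a i) ^ N' = 1 := by
      have h2 : (∏ i, z i ^ a i) ^ N' = (∏ i, z i ^ a' i) ^ N := by
        rw [← Finset.prod_pow, ← Finset.prod_pow]
        refine Finset.prod_congr rfl fun i _ => ?_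
        rw [← zpow_natCast, ← zpow_mul, ← zpow_natCast, ← zpow_mul]
        congr 1
        have h3 : ((a i * (N' : ℤ) : ℤ) : ℚ) = ((a' i * (N : ℤ) : ℤ) : ℚ) := by
          push_cast
          rw [ha i, ha' i]
          ring
        exact_mod_cast h3
      rw [h2, h, one_pow]
    have h2 := norm_pow_sub_one _ hw N'
    rw [h1, sub_self, norm_zero] at h2
    have h3 : ‖(N' : ℚ_[p])‖ ≠ 0 := by
      rw [norm_ne_zero_iff]
      exact_mod_cast hN'.ne'
    rcases mul_eq_zero.1 h2.symm with h4 | h4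
    · exact absurd h4 h3
    · rw [norm_eq_zero, sub_eq_zero] at h4
      exact h4
  · intro h
    exact ⟨N, hN, a, ha, h⟩

/-- Additive relations, with integral coefficients. -/
theorem TL_arel {n : ℕ} (x : Fin n → PadicAlgCl p) (m : Fin n → ℚ) (N : ℕ) (hN : 0 < N)
    (a : Fin n → ℤ) (ha : ∀ i, (a i : ℚ) = N * m i) :
    ARel x m ↔ ∑ i, (a i : PadicAlgCl p) * x i = 0 := by
  have h1 : ∑ i, (a i : PadicAlgCl p) * x i = (N : PadicAlgCl p) * ∑ i, (m i : PadicAlgCl p) * x i := by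
    rw [Finset.mul_sum]
    refine Finset.sum_congr rfl fun i _ => ?_
    have h2 : ((a i : ℚ) : PadicAlgCl p) = ((N * m i : ℚ) : PadicAlgCl p) := by rw [ha i]
    push_cast at h2
    rw [h2, mul_assoc]
  rw [h1, mul_eq_zero, or_iff_right (by exact_mod_cast hN.ne')]
  rfl

end

/-- **TL** (M/L). Let `g - 1` have size at most `p^(-2)`, `l` the logarithm of `g`, `z` the list of
eigenvalues of `g`. There is a list `lam` of the eigenvalues of `l` which satisfies exactly the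
additive relations corresponding to the multiplicative relations of `z`.

Proof. `‖z_i - 1‖ <= p^(-2)` (`norm_eig_le` for `g - 1`, whose eigenvalue list is `z_i - 1`). The list
of eigenvalues of `A_j = p^(-j) (g^(p^j) - 1)` is `x_(j,i) = p^(-j) (z_i^(p^j) - 1)` (eigenvalues
of a polynomial in `g`: `Matrix.aeval_eq_aeval_mod_charpoly`/`Pool.Agent.H43GS.roots_charpoly_pow` or
`Module.End` triangular form; see also `charpoly_pow_eq` in Lib/Helper95/Ord). Let `u` be a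
non-principal ultrafilter on `ℕ` (below `atTop`). `A_j -> l`, so the coefficients of the
characteristic polynomials converge, and by `Pool.Agent.H43GS.exists_root_limit` each `x_(j,i)`
converges along `u` to some `lam_i`; passing to the limit in
`charpoly A_j = ∏ (X - x_(j,i))` (evaluate at all points, or coefficients) `EigL l lam`.
Let `m` be rational, `N0 > 0` with `a = N0 m` integral, `w = ∏ z_i^(a_i)`, `‖w - 1‖ <= p^(-2)`
(ultrametric; inverses too). Claim: `p^(-j)(w^(p^j) - 1)` tends to `sum a_i lam_i` along `u`: for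
numbers `s_j, t_j` with `s_j = 1 + p^j σ_j`, `t_j = 1 + p^j τ_j`, `σ_j -> σ`, `τ_j -> τ` the
product `s_j t_j` is `1 + p^j (σ_j + τ_j + p^j σ_j τ_j)`, and the inverse of `s_j` is
`1 - p^j σ_j / s_j`. By `norm_pow_sub_one`, `‖p^(-j)(w^(p^j) - 1)‖ = ‖w - 1‖`
(where `‖p^(-j)‖ = p^j`). So `sum a_i lam_i = 0` iff `w = 1`. Finally `w = 1` iff `MRel z m`: if
`∏ z_i^(a'_i) = 1` with `a' = N' m`, then `w^(N') = (∏ z_i^(a'_i))^(N0) = 1`, and
`‖w^(N') - 1‖ = ‖N'‖ ‖w - 1‖` gives `w = 1`. And `ARel lam m` iff `sum a_i lam_i = 0`. -/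
theorem eig_lg {p : ℕ} [hp : Fact p.Prime] {V : Type*} [AddCommGroup V] [Module ℚ_[p] V]
    [FiniteDimensional ℚ_[p] V] {ι : Type*} [Fintype ι] (b : Basis ι ℚ_[p] V)
    (g l : Module.End ℚ_[p] V) (hg : Sm b (g - 1) ((p : ℝ) ^ 2)⁻¹) (hl : IsLg b g l)
    {n : ℕ} (z : Fin n → PadicAlgCl p) (hz : EigL g z) :
    ∃ lam : Fin n → PadicAlgCl p, EigL l lam ∧ ∀ m : Fin n → ℚ, ARel lam m ↔ MRel z m := by
  classical
  have hρ0 : (0 : ℝ) ≤ ((p : ℝ) ^ 2)⁻¹ := by positivity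
  have hp0 : (p : ℚ_[p]) ≠ 0 := by exact_mod_cast hp.out.ne_zero
  -- the eigenvalues are near `1`
  have hz1 : ∀ i, ‖z i - 1‖ ≤ ((p : ℝ) ^ 2)⁻¹ := by
    have h1 := TKU_aeval g z hz (X - C 1)
    have h2 : aeval g (X - C 1 : ℚ_[p][X]) = g - 1 := by simp
    rw [h2] at h1
    intro i
    have h3 := norm_eig_le b (g - 1) _ hg _ h1 i
    simpa using h3
  set u : Ultrafilter ℕ := Ultrafilter.of atTop with hu
  have hule : (u : Filter ℕ) ≤ atTop := Ultrafilter.of_le _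
  -- the approximations
  have hE : ∀ j : ℕ, EigL (((p : ℚ_[p]) ^ j)⁻¹ • (g ^ (p ^ j) - 1))
      (fun i => ((p : PadicAlgCl p) ^ j)⁻¹ * (z i ^ (p ^ j) - 1)) := by
    intro j
    have h1 := TKU_aeval g z hz (C ((p : ℚ_[p]) ^ j)⁻¹ * (X ^ (p ^ j) - 1))
    have h2 : aeval g (C ((p : ℚ_[p]) ^ j)⁻¹ * (X ^ (p ^ j) - 1) : ℚ_[p][X]) =
        ((p : ℚ_[p]) ^ j)⁻¹ • (g ^ (p ^ j) - 1) := by
      rw [map_mul, aeval_C, map_sub, map_pow, aeval_X, map_one, Algebra.smul_def]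
    have h3 : ∀ i, aeval (z i) (C ((p : ℚ_[p]) ^ j)⁻¹ * (X ^ (p ^ j) - 1) : ℚ_[p][X]) =
        ((p : PadicAlgCl p) ^ j)⁻¹ * (z i ^ (p ^ j) - 1) := by
      intro i
      rw [map_mul, aeval_C, map_sub, map_pow, aeval_X, map_one, map_inv₀, map_pow, map_natCast]
    rw [h2] at h1
    simp only [h3] at h1
    exact h1
  obtain ⟨lam, hlam, hlim⟩ := TKU_lim b u (fun j => ((p : ℚ_[p]) ^ j)⁻¹ • (g ^ (p ^ j) - 1)) l
    (by
      intro i k
      refine Tendsto.mono_left ?_ hule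
      rw [Metric.tendsto_atTop]
      intro ε hε
      obtain ⟨J, hJ⟩ := hl (ε / 2) (half_pos hε)
      refine ⟨J, fun j hj => ?_⟩
      have h1 := hJ j hj i k
      rw [LinearMap.sub_apply, map_sub, Finsupp.sub_apply] at h1
      rw [dist_eq_norm]
      exact lt_of_le_of_lt h1 (half_lt_self hε))
    (fun j i => ((p : PadicAlgCl p) ^ j)⁻¹ * (z i ^ (p ^ j) - 1))
    (Eventually.of_forall hE)
  refine ⟨lam, hlam, fun m => ?_⟩
  obtain ⟨N, hN, a, ha⟩ := TL_denom m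
  rw [TL_arel lam m N hN a ha, TL_mrel z hz1 m N hN a ha]
  have hz0 : ∀ i, z i ≠ 0 := by
    intro i h
    have h1 := TL_near_norm _ TL_rho _ (hz1 i)
    rw [h, norm_zero] at h1
    exact zero_ne_one h1
  have hT : TL_T u (∏ i, z i ^ a i) (∑ i, (a i : PadicAlgCl p) * lam i) :=
    TL_T_prod u hule _ _ _ fun i _ => TL_T_zpow u hule _ _ (hz0 i) (hlim i) _
  have hw : ‖∏ i, z i ^ a i - 1‖ ≤ ((p : ℝ) ^ 2)⁻¹ :=
    TL_near_prod _ hρ0 TL_rho _ _ fun i _ => TL_near_zpow _ hρ0 TL_rho _ (hz1 i) _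
  have hconst : ∀ j : ℕ, ‖((p : PadicAlgCl p) ^ j)⁻¹ * ((∏ i, z i ^ a i) ^ (p ^ j) - 1)‖ =
      ‖∏ i, z i ^ a i - 1‖ := by
    intro j
    have hpR : (1 : ℝ) < p := by exact_mod_cast hp.out.one_lt
    rw [norm_mul, norm_pow_sub_one _ hw, norm_inv, norm_pow, TK_cast, Padic.norm_p, Nat.cast_pow,
      norm_pow, Padic.norm_p, ← mul_assoc, inv_mul_cancel₀ (by positivity), one_mul]
  have hnorm : ‖∑ i, (a i : PadicAlgCl p) * lam i‖ = ‖∏ i, z i ^ a i - 1‖ := by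
    have h1 := hT.norm
    simp only [hconst] at h1
    exact tendsto_nhds_unique h1 tendsto_const_nhds
  rw [← norm_eq_zero, hnorm, norm_eq_zero, sub_eq_zero]

end H4S
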