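import Mathlib
import Pool.Agent.Lib.H4S.T1
import Pool.Agent.Lib.H43.GS.Closed
import Pool.Agent.Lib.H4S.TL
import Pool.Agent.Lib.H4S.A0

/-!
# H4S, chunk TM: genericity
-/

set_option autoImplicit false

namespace H4S

open Module Polynomial Filter Topology

/-- If a power of `ad X` kills `Y` then `Y` preserves the generalized eigenspaces of `X`. -/
theorem TM_stab {k V : Type*} [Field k] [AddCommGroup V] [Module k V] (X : Module.End k V) (c : k)
    (N : ℕ) : ∀ Y : Module.End k V, adIter X N Y = 0 →
      ∀ v ∈ X.maxGenEigenspace c, Y v ∈ X.maxGenEigenspace c := by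
  induction N with
  | zero =>
    intro Y h v _
    have h0 : Y = 0 := h
    rw [h0]
    exact Submodule.zero_mem _
  | succ N ih =>
    intro Y h v hv
    have hZ := ih (X * Y - Y * X) (by
      have h1 : adIter X (N + 1) Y = adIter X N (X * Y - Y * X) := by
        unfold adIter
        rw [Function.iterate_succ_apply]
      rw [← h1]
      exact h)
    obtain ⟨M, hM⟩ := (Module.End.mem_maxGenEigenspace X c v).1 hv
    clear hv
    induction M generalizing v with
    | zero =>
      have h0 : v = 0 := by simpa using hM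
      rw [h0, map_zero]
      exact Submodule.zero_mem _
    | succ M ihM =>
      have h1 : ((X - c • (1 : Module.End k V)) ^ M) ((X - c • (1 : Module.End k V)) v) = 0 := by
        rw [← Module.End.mul_apply, ← pow_succ]
        exact hM
      have h2 := ihM _ h1
      have h3 : v ∈ X.maxGenEigenspace c :=
        (Module.End.mem_maxGenEigenspace X c v).2 ⟨M + 1, hM⟩
      have h4 := hZ v h3
      have h5 : (X - c • (1 : Module.End k V)) (Y v) =
          Y ((X - c • (1 : Module.End k V)) v) + (X * Y - Y * X) v := by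
        simp only [LinearMap.sub_apply, LinearMap.smul_apply, Module.End.one_apply,
          Module.End.mul_apply, map_sub, map_smul]
        abel
      have h6 : (X - c • (1 : Module.End k V)) (Y v) ∈ X.maxGenEigenspace c := by
        rw [h5]
        exact Submodule.add_mem _ h2 h4
      obtain ⟨K, hK⟩ := (Module.End.mem_maxGenEigenspace X c _).1 h6
      refine (Module.End.mem_maxGenEigenspace X c _).2 ⟨K + 1, ?_⟩
      rw [pow_succ, Module.End.mul_apply]
      exact hK

theorem TM_stabX {k V : Type*} [Field k] [AddCommGroup V] [Module k V] (X : Module.End k V)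
    (c : k) : ∀ v ∈ X.maxGenEigenspace c, X v ∈ X.maxGenEigenspace c :=
  TM_stab X c 1 X (by
    show X * X - X * X = 0
    rw [sub_self])

/-- Leading coefficients of polynomial families of vectors. -/
theorem TM_expand {K U : Type*} [Field K] [AddCommGroup U] [Module K U] (A B : Module.End K U)
    (v : U) (n : ℕ) : ∃ w : ℕ → U, w n = (B ^ n) v ∧
      ∀ t : K, ((A + t • B) ^ n) v = ∑ j ∈ Finset.range (n + 1), t ^ j • w j := by
  induction n with
  | zero => exact ⟨fun _ => v, by simp, fun t => by simp⟩
  | succ n ih =>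
    obtain ⟨w, hw, h⟩ := ih
    refine ⟨fun j => (if j ≤ n then A (w j) else 0) + (if j = 0 then 0 else B (w (j - 1))), ?_,
      fun t => ?_⟩
    · show (if n + 1 ≤ n then A (w (n + 1)) else 0) +
        (if n + 1 = 0 then 0 else B (w (n + 1 - 1))) = _
      rw [if_neg (by omega), if_neg (by omega), zero_add, Nat.add_sub_cancel, hw, pow_succ',
        Module.End.mul_apply]
    · rw [pow_succ', Module.End.mul_apply, h, LinearMap.add_apply, LinearMap.smul_apply, map_sum,
        map_sum]
      have e : ∀ j, t ^ j • ((if j ≤ n then A (w j) else 0) +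
          (if j = 0 then 0 else B (w (j - 1)))) =
          (if j ≤ n then t ^ j • A (w j) else 0) +
          (if j = 0 then 0 else t ^ j • B (w (j - 1))) := by
        intro j
        split_ifs <;> simp
      rw [Finset.sum_congr rfl fun j _ => e j, Finset.sum_add_distrib]
      congr 1
      · rw [Finset.sum_range_succ _ (n + 1), if_neg (by omega), add_zero]
        refine Finset.sum_congr rfl fun j hj => ?_
        rw [if_pos (by have := Finset.mem_range.1 hj; omega), map_smul]
      · rw [Finset.sum_range_succ' _ (n + 1), if_pos rfl, add_zero, Finset.smul_sum]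
        refine Finset.sum_congr rfl fun j _ => ?_
        rw [if_neg (by omega), Nat.add_sub_cancel, map_smul, smul_smul, pow_succ']

theorem TM_lead {K U : Type*} [Field K] [AddCommGroup U] [Module K U] (A B : Module.End K U)
    (v : U) (n : ℕ) (S : Set K) (hS : S.Infinite) (h : ∀ t ∈ S, ((A + t • B) ^ n) v = 0) :
    (B ^ n) v = 0 := by
  obtain ⟨w, hw, hexp⟩ := TM_expand A B v n
  by_contra hne
  obtain ⟨f, hf⟩ : ∃ f : Module.Dual K U, f ((B ^ n) v) ≠ 0 := by
    by_contra hcon
    push Not at hcon
    exact hne ((Module.forall_dual_apply_eq_zero_iff K _).1 hcon)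
  let P : K[X] := ∑ j ∈ Finset.range (n + 1), C (f (w j)) * X ^ j
  have hP : P = 0 := by
    apply Polynomial.eq_zero_of_infinite_isRoot
    refine hS.mono fun t ht => ?_
    show P.eval t = 0
    have h1 := congrArg f (hexp t)
    rw [h t ht, map_zero, map_sum] at h1
    simp only [P, eval_finsetSum, eval_mul, eval_C, eval_pow, eval_X]
    rw [h1]
    refine Finset.sum_congr rfl fun j _ => ?_
    rw [map_smul, smul_eq_mul, mul_comm]
  have h2 : P.coeff n = f (w n) := by
    simp only [P, finsetSum_coeff, coeff_C_mul, coeff_X_pow]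
    rw [Finset.sum_eq_single n]
    · simp
    · intro j _ hj
      rw [if_neg (Ne.symm hj), mul_zero]
    · intro hn
      exact absurd (Finset.mem_range.2 (Nat.lt_succ_self n)) hn
  rw [hP, coeff_zero, hw] at h2
  exact hf h2.symm

theorem TM_eig_ne {K U : Type*} [Field K] [AddCommGroup U] [Module K U] (X : Module.End K U)
    (c a : K) (ha : a ≠ c) (w : U) (hw : w ∈ X.maxGenEigenspace c) (h : X w = a • w) : w = 0 := by
  obtain ⟨M, hM⟩ := (Module.End.mem_maxGenEigenspace X c w).1 hw
  have key : ∀ M : ℕ, ((X - c • (1 : Module.End K U)) ^ M) w = (a - c) ^ M • w := by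
    intro M
    induction M with
    | zero => simp
    | succ M ih =>
      rw [pow_succ', Module.End.mul_apply, ih, map_smul, LinearMap.sub_apply, LinearMap.smul_apply,
        Module.End.one_apply, h, ← sub_smul, smul_smul, pow_succ]
  rw [key] at hM
  rcases smul_eq_zero.1 hM with h1 | h1
  · exact absurd h1 (pow_ne_zero _ (sub_ne_zero.2 ha))
  · exact h1

theorem TM_det_cont {K W : Type*} [NormedField K] [AddCommGroup W] [Module K W]
    [FiniteDimensional K W] (x y : Module.End K W) :
    Continuous fun q : K × K => LinearMap.det (x + q.1 • y - q.2 • (1 : Module.End K W)) := by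
  classical
  let B := Module.finBasis K W
  have hdet : (fun q : K × K => LinearMap.det (x + q.1 • y - q.2 • (1 : Module.End K W))) =
      fun q : K × K => (LinearMap.toMatrix B B x +
      q.1 • LinearMap.toMatrix B B y - q.2 • (1 : Matrix _ _ K)).det := by
    funext q
    rw [← LinearMap.det_toMatrix B]
    congr 1
    rw [map_sub, map_add, map_smul, map_smul, LinearMap.toMatrix_one]
  rw [hdet]
  exact Continuous.matrix_det ((continuous_const.add (continuous_fst.smul continuous_const)).sub
      (continuous_snd.smul continuous_const))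

theorem TM_inj_aux {K W : Type*} [NormedField K] [AddCommGroup W] [Module K W]
    [FiniteDimensional K W] (x y : Module.End K W) (a : K) (u : Ultrafilter ℕ) (t z : ℕ → K)
    (ht : Tendsto t u (𝓝 0)) (hz : Tendsto z u (𝓝 a)) (hinj : ∀ w : W, x w = a • w → w = 0) :
    ∀ᶠ k in (u : Filter ℕ), ∀ w : W, (x + t k • y) w = z k • w → w = 0 := by
  have h1 : Tendsto (fun k => (t k, z k)) u (𝓝 ((0 : K), a)) := ht.prodMk_nhds hz
  have hlim := ((TM_det_cont x y).tendsto ((0 : K), a)).comp h1
  have hne : LinearMap.det (x + (0 : K) • y - a • (1 : Module.End K W)) ≠ 0 := by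
    have hu : IsUnit (x + (0 : K) • y - a • (1 : Module.End K W)) := by
      rw [LinearMap.isUnit_iff_ker_eq_bot, LinearMap.ker_eq_bot']
      intro w hw
      rw [zero_smul, add_zero, LinearMap.sub_apply, LinearMap.smul_apply, Module.End.one_apply,
        sub_eq_zero] at hw
      exact hinj w hw
    exact ((LinearMap.isUnit_iff_isUnit_det _).1 hu).ne_zero
  filter_upwards [hlim.eventually_ne hne] with k hk w hXw
  have hu : IsUnit (x + t k • y - z k • (1 : Module.End K W)) := by
    rw [LinearMap.isUnit_iff_isUnit_det]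
    exact isUnit_iff_ne_zero.2 hk
  rw [LinearMap.isUnit_iff_ker_eq_bot, LinearMap.ker_eq_bot'] at hu
  apply hu w
  rw [LinearMap.sub_apply, LinearMap.smul_apply, Module.End.one_apply, sub_eq_zero]
  exact hXw

/-- Injectivity of `X + t Y - z` on the generalized eigenspace, near `t = 0`, `z = a`. -/
theorem TM_inj {K U : Type*} [NormedField K] [AddCommGroup U] [Module K U] [FiniteDimensional K U]
    (X Y : Module.End K U) (c a : K) (ha : a ≠ c)
    (hY : ∀ v ∈ X.maxGenEigenspace c, Y v ∈ X.maxGenEigenspace c) (u : Ultrafilter ℕ) (t z : ℕ → K)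
    (ht : Tendsto t u (𝓝 0)) (hz : Tendsto z u (𝓝 a)) :
    ∀ᶠ k in (u : Filter ℕ), ∀ w ∈ X.maxGenEigenspace c,
      (X + t k • Y) w = z k • w → w = 0 := by
  have h := TM_inj_aux (X.restrict (TM_stabX X c)) (Y.restrict hY) a u t z ht hz (by
    intro w hw
    apply Subtype.ext
    exact TM_eig_ne X c a ha w w.2 (congrArg Subtype.val hw))
  filter_upwards [h] with k hk w hw hXw
  have h1 := hk ⟨w, hw⟩ (Subtype.ext hXw)
  exact congrArg Subtype.val h1

/-- `X + t Y` has a single eigenvalue on the generalized eigenspace. -/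
theorem TM_single {K U : Type*} [NormedField K] [AddCommGroup U] [Module K U]
    [FiniteDimensional K U] (X Y : Module.End K U) (c : K)
    (hY : ∀ v ∈ X.maxGenEigenspace c, Y v ∈ X.maxGenEigenspace c) (u : Ultrafilter ℕ) (t : ℕ → K)
    (ht : Tendsto t u (𝓝 0)) {n : ℕ} (nu : Fin n → K) (z : ℕ → Fin n → K)
    (hz : ∀ i, Tendsto (fun k => z k i) u (𝓝 (nu i)))
    (hCH : ∀ᶠ k in (u : Filter ℕ), aeval (X + t k • Y) (∏ i, (Polynomial.X - C (z k i))) = 0)
    (hs : ∀ᶠ k in (u : Filter ℕ), ∀ i j, nu i = nu j → z k i = z k j) (i0 : Fin n)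
    (hi0 : nu i0 = c) :
    ∀ᶠ k in (u : Filter ℕ), ∀ v ∈ X.maxGenEigenspace c,
      (((X + t k • Y) - z k i0 • (1 : Module.End K U)) ^ n) v = 0 := by
  classical
  have hinj : ∀ᶠ k in (u : Filter ℕ), ∀ i, nu i ≠ c → ∀ w ∈ X.maxGenEigenspace c,
      (X + t k • Y) w = z k i • w → w = 0 := by
    rw [Filter.eventually_all]
    intro i
    by_cases h : nu i = c
    · exact Eventually.of_forall fun k hk => absurd h hk
    · filter_upwards [TM_inj X Y c (nu i) h hY u t (fun k => z k i) ht (hz i)] with k hk _
      exact hk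
  filter_upwards [hCH, hs, hinj] with k h1 h2 h3
  set A := X + t k • Y with hA
  set W := X.maxGenEigenspace c with hW
  have hAW : ∀ w ∈ W, A w ∈ W := fun w hw =>
    Submodule.add_mem _ (TM_stabX X c w hw) (Submodule.smul_mem _ _ (hY w hw))
  have hPW : ∀ P : K[X], ∀ w ∈ W, aeval A P w ∈ W := by
    intro P w hw
    have h := Polynomial.aeval_apply_smul_mem_of_le_comap (q := W) hw P A (fun v hv => hAW v hv)
    exact h
  -- products
  have key : ∀ S : Finset (Fin n), ∀ v ∈ W, aeval A (∏ i ∈ S, (Polynomial.X - C (z k i))) v = 0 →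
      ((A - z k i0 • (1 : Module.End K U)) ^ S.card) v = 0 := by
    intro S
    induction S using Finset.induction_on with
    | empty =>
      intro v _ h
      simpa using h
    | insert a S ha ih =>
      intro v hv h
      rw [Finset.prod_insert ha, mul_comm, map_mul, Module.End.mul_apply] at h
      have h5 : aeval A (Polynomial.X - C (z k a)) = A - z k a • (1 : Module.End K U) := by
        rw [map_sub, aeval_X, aeval_C, Algebra.algebraMap_eq_smul_one]
      rw [Finset.card_insert_of_notMem ha, pow_succ, Module.End.mul_apply]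
      by_cases hac : nu a = c
      · have h6 : z k a = z k i0 := h2 a i0 (by rw [hac, hi0])
        rw [h5, h6] at h
        refine ih _ ?_ h
        rw [← h6, ← h5]
        exact hPW _ v hv
      · -- the factor is injective
        rw [← Module.End.mul_apply, ← map_mul, mul_comm, map_mul, Module.End.mul_apply] at h
        have h7 := hPW (∏ i ∈ S, (Polynomial.X - C (z k i))) v hv
        have h8 : aeval A (∏ i ∈ S, (Polynomial.X - C (z k i))) v = 0 := by
          apply h3 a hac _ h7
          rw [h5, LinearMap.sub_apply, LinearMap.smul_apply, Module.End.one_apply, sub_eq_zero] at h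
          exact h
        have h9 := ih v hv h8
        rw [← Module.End.mul_apply, ← pow_succ, pow_succ', Module.End.mul_apply, h9, map_zero]
  intro v hv
  have h4 := key Finset.univ v hv (by rw [h1]; rfl)
  rwa [Finset.card_univ, Fintype.card_fin] at h4

theorem TM_alg {K U : Type*} [Field K] [AddCommGroup U] [Module K U] (X Y : Module.End K U)
    (a t τ : K) : X - a • (1 : Module.End K U) + t • (Y - τ • (1 : Module.End K U)) =
      (X + t • Y) - (a + t * τ) • (1 : Module.End K U) := by
  rw [add_smul, smul_sub, smul_smul]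
  abel

theorem TM_trace {K U : Type*} [Field K] [CharZero K] [AddCommGroup U] [Module K U]
    [FiniteDimensional K U] (X Y : Module.End K U) (c : K)
    (hY : ∀ v ∈ X.maxGenEigenspace c, Y v ∈ X.maxGenEigenspace c) (hc : X.maxGenEigenspace c ≠ ⊥)
    (t z : K) (n : ℕ)
    (h : ∀ v ∈ X.maxGenEigenspace c, (((X + t • Y) - z • (1 : Module.End K U)) ^ n) v = 0) :
    z = c + t * ((finrank K (X.maxGenEigenspace c) : K)⁻¹ *
      LinearMap.trace K (X.maxGenEigenspace c) (Y.restrict hY)) := by
  set W := X.maxGenEigenspace c with hW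
  set x : Module.End K W := X.restrict (TM_stabX X c) with hx
  set y : Module.End K W := Y.restrict hY with hy
  have hd : (finrank K W : K) ≠ 0 := by
    have h1 : 0 < finrank K W := Module.finrank_pos_iff.2 (Submodule.nontrivial_iff_ne_bot.2 hc)
    exact_mod_cast h1.ne'
  have h1 : IsNilpotent (x + t • y - z • (1 : Module.End K W)) := by
    refine ⟨n, ?_⟩
    have key : ∀ (m : ℕ) (w : W), ((((x + t • y - z • (1 : Module.End K W)) ^ m) w : W) : U) =
        (((X + t • Y) - z • (1 : Module.End K U)) ^ m) (w : U) := by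
      intro m
      induction m with
      | zero => intro w; simp
      | succ m ih =>
        intro w
        rw [pow_succ, pow_succ, Module.End.mul_apply, Module.End.mul_apply, ih]
        rfl
    ext w
    rw [key, h w w.2]
    rfl
  have h2 : IsNilpotent (x - c • (1 : Module.End K W)) := by
    have h3 := Module.End.isNilpotent_restrict_maxGenEigenspace_sub_algebraMap X c
    convert h3 using 1
    ext w
    rfl
  have h3 := (LinearMap.isNilpotent_trace_of_isNilpotent h1).eq_zero
  have h4 := (LinearMap.isNilpotent_trace_of_isNilpotent h2).eq_zero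
  rw [map_sub, map_add, map_smul, map_smul, LinearMap.trace_one, smul_eq_mul, smul_eq_mul] at h3
  rw [map_sub, map_smul, LinearMap.trace_one, smul_eq_mul] at h4
  apply mul_right_cancel₀ hd
  have e : (c + t * ((finrank K W : K)⁻¹ * LinearMap.trace K W y)) * (finrank K W : K) =
      c * (finrank K W : K) + t * LinearMap.trace K W y := by
    rw [add_mul]
    congr 1
    field_simp
  rw [e]
  linear_combination h4 - h3

theorem TM_root {K U : Type*} [Field K] [AddCommGroup U] [Module K U] [FiniteDimensional K U]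
    (X : Module.End K U) {n : ℕ} (nu : Fin n → K)
    (hnu : LinearMap.charpoly X = ∏ i, (Polynomial.X - C (nu i))) (c : K)
    (hc : X.HasEigenvalue c) : ∃ i, nu i = c := by
  rw [Module.End.hasEigenvalue_iff_isRoot_charpoly, hnu, IsRoot.def, eval_prod,
    Finset.prod_eq_zero_iff] at hc
  obtain ⟨i, -, hi⟩ := hc
  rw [eval_sub, eval_X, eval_C, sub_eq_zero] at hi
  exact ⟨i, hi.symm⟩

theorem TM_bc_iter {F K V : Type*} [Field F] [Field K] [Algebra F K] [AddCommGroup V] [Module F V]
    (x : Module.End F V) (N : ℕ) : ∀ y : Module.End F V,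
      bc K (adIter x N y) = adIter (bc K x) N (bc K y) := by
  induction N with
  | zero => intro y; rfl
  | succ N ih =>
    intro y
    unfold adIter at ih ⊢
    rw [Function.iterate_succ_apply, Function.iterate_succ_apply, ih]
    congr 1
    unfold bc
    rw [LinearMap.baseChange_sub, LinearMap.baseChange_mul, LinearMap.baseChange_mul]

theorem TM_arel_single {K : Type*} [Field K] {n : ℕ} (w : Fin n → K) (i j : Fin n) :
    ARel w (Pi.single i 1 - Pi.single j 1) ↔ w i = w j := by
  unfold ARel
  have h : ∀ l, (((Pi.single i 1 - Pi.single j 1 : Fin n → ℚ) l : ℚ) : K) * w l =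
      (if l = i then w l else 0) - (if l = j then w l else 0) := by
    intro l
    rw [Pi.sub_apply, Pi.single_apply, Pi.single_apply]
    split_ifs <;> simp
  rw [Finset.sum_congr rfl fun l _ => h l, Finset.sum_sub_distrib, Finset.sum_ite_eq',
    Finset.sum_ite_eq', if_pos (Finset.mem_univ _), if_pos (Finset.mem_univ _), sub_eq_zero]

theorem TM_arel_sum {K : Type*} [Field K] [CharZero K] {n : ℕ} (w : Fin n → K) (T : Finset K)
    (m : K → ℤ) (I : K → Fin n) :
    ARel w (∑ c ∈ T, Pi.single (I c) (m c : ℚ)) ↔ ∑ c ∈ T, (m c : K) * w (I c) = 0 := by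
  unfold ARel
  have h : ∑ i, (((∑ c ∈ T, Pi.single (I c) (m c : ℚ) : Fin n → ℚ) i : ℚ) : K) * w i =
      ∑ c ∈ T, (m c : K) * w (I c) := by
    have h1 : ∀ i, (((∑ c ∈ T, Pi.single (I c) (m c : ℚ) : Fin n → ℚ) i : ℚ) : K) * w i =
        ∑ c ∈ T, if i = I c then (m c : K) * w i else 0 := by
      intro i
      rw [Finset.sum_apply]
      push_cast
      rw [Finset.sum_mul]
      refine Finset.sum_congr rfl fun c _ => ?_
      rw [Pi.single_apply]
      split_ifs <;> simp
    rw [Finset.sum_congr rfl fun i _ => h1 i, Finset.sum_comm]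
    refine Finset.sum_congr rfl fun c _ => ?_
    rw [Finset.sum_ite_eq', if_pos (Finset.mem_univ _)]
  rw [h]

/-- The space of additive relations. -/
def TM_R {K : Type*} [Field K] [CharZero K] {n : ℕ} (w : Fin n → K) : Submodule ℚ (Fin n → ℚ) where
  carrier := {m | ARel w m}
  add_mem' := by
    intro a b ha hb
    have ha' : ∑ i, (a i : K) * w i = 0 := ha
    have hb' : ∑ i, (b i : K) * w i = 0 := hb
    show ∑ i, ((a + b) i : K) * w i = 0
    have : ∀ i, (((a + b) i : ℚ) : K) * w i = (a i : K) * w i + (b i : K) * w i := by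
      intro i
      rw [Pi.add_apply]
      push_cast
      ring
    rw [Finset.sum_congr rfl fun i _ => this i, Finset.sum_add_distrib, ha', hb', add_zero]
  zero_mem' := by
    show ∑ i, (((0 : Fin n → ℚ) i : ℚ) : K) * w i = 0
    simp
  smul_mem' := by
    intro c a ha
    have ha' : ∑ i, (a i : K) * w i = 0 := ha
    show ∑ i, (((c • a) i : ℚ) : K) * w i = 0
    have : ∀ i, (((c • a) i : ℚ) : K) * w i = (c : K) * ((a i : K) * w i) := by
      intro i
      rw [Pi.smul_apply, smul_eq_mul]
      push_cast
      ring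
    rw [Finset.sum_congr rfl fun i _ => this i, ← Finset.mul_sum, ha', mul_zero]

/-- **TM** (L). Let every `y` in `L` satisfy additively one of the finitely many spaces of relations
`M` in `S`, all of dimension at least `d`, and let the eigenvalues of `x` in `L` satisfy a space of
relations of dimension at most `d`. Then `x` is generic in `L`.

Proof. Write `x_K, y_K` for the base changes to `K = PadicAlgCl p`, `V_c` for the generalized
eigenspace of `x_K` for `c`, `d_c` for its dimension. Let `y` be in `L`, `(ad x)^N y = 0`. For every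
`k`, `x + p^k y` is in `L`: choose `M_k` in `S` and a list `z_k` with `EigL (x + p^k y) z_k`,
`M_k` in the relations of `z_k`. Let `u` be an ultrafilter on `ℕ` below `atTop`;
`M_k = M` for `u`-almost all `k` (`S` finite). By `Pool.Agent.H43GS.exists_root_limit`
`z_(k,i) -> nu_i` along `u`, `EigL x nu` and `ARel nu m` for all `m` in `M` (limits). The space of
all `m` with `ARel nu m` contains `M`, has dimension at most `d <= dim M`, so it is `M`:
(*) `m in M` iff `ARel nu m`.
`V_c` is stable under `y_K` (it is killed by a power of `ad x_K`). The eigenvalues of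
`x_K + p^k y_K` on `V_c` tend to `c` (the characteristic polynomial on `V_c` tends to
`(X - c)^(d_c)`), and the characteristic polynomial of `x + p^k y` is the product over `c` of the ones
on the `V_c`. Let `δ > 0` be smaller than a third of the distances between different
eigenvalues of `x`. For `u`-almost all `k`: `‖z_(k,i) - nu_i‖ < δ` for all `i`, and all eigenvalues on
`V_c` are within `δ` of `c`, for all `c`; so `z_(k,i)` is an eigenvalue on `V_c` iff `nu_i = c`, and the
eigenvalues on `V_c` are the `z_(k,i)` with `nu_i = c`. If `nu_i = nu_j` then the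
vector `e_i - e_j` is in `M` by (*), so `z_(k,i) = z_(k,j)`. Hence `x_K + p^k y_K` has a SINGLE
eigenvalue on each `V_c <> 0`; by the trace it is `c + p^k τ(c)` with `τ(c) = tr(y_K | V_c) / d_c`.
So the polynomial in `t` with endomorphism coefficients `((x_K - c) + t (y_K - τ(c)))^(d_c)` on `V_c`
vanishes for infinitely many `t = p^k`, so it vanishes identically, and its leading coefficient
`(y_K - τ(c))^(d_c)` is zero on `V_c`. (For `c` not an eigenvalue `V_c = 0`, take `τ(c) = 0`.)
Relations: let `m` be an integer relation between the eigenvalues `c` of `x_K`. Choose for each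
eigenvalue `c` an index `i(c)` with `nu_(i(c)) = c`, and let `m'` be the vector with `m'_(i(c)) = m_c`
and zeros elsewhere. `ARel nu m'`, so `m'` is in `M`, so `ARel z_k m'` for `u`-almost all `k`:
`0 = sum_c m_c z_(k,i(c)) = sum_c m_c (c + p^k τ(c)) = p^k sum_c m_c τ(c)`. -/
theorem generic {p : ℕ} [hp : Fact p.Prime] {V : Type*} [AddCommGroup V] [Module ℚ_[p] V]
    [FiniteDimensional ℚ_[p] V] (L : Submodule ℚ_[p] (Module.End ℚ_[p] V))
    (x : Module.End ℚ_[p] V) (hx : x ∈ L) {n : ℕ} (S : Set (Submodule ℚ (Fin n → ℚ)))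
    (hS : S.Finite) (d : ℕ) (hd : ∀ M ∈ S, d ≤ finrank ℚ M)
    (hL : ∀ y ∈ L, ∃ M ∈ S, ∃ z : Fin n → PadicAlgCl p, EigL y z ∧ ∀ m ∈ M, ARel z m)
    (hxd : ∀ z : Fin n → PadicAlgCl p, EigL x z → ∀ M : Submodule ℚ (Fin n → ℚ),
      (∀ m ∈ M, ARel z m) → finrank ℚ M ≤ d) :
    GenPropF (PadicAlgCl p) L x := by
  classical
  rintro y hyL ⟨N, hN⟩
  set u : Ultrafilter ℕ := Ultrafilter.of atTop with hu
  have hule : (u : Filter ℕ) ≤ atTop := Ultrafilter.of_le _
  let t : ℕ → PadicAlgCl p := fun k => (p : PadicAlgCl p) ^ k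
  have ht : Tendsto t u (𝓝 0) := TL_pj u hule
  have ht0 : ∀ k, t k ≠ 0 := fun k => pow_ne_zero _ TL_p0
  have hA : ∀ k : ℕ, x + (p : ℚ_[p]) ^ k • y ∈ L := fun k => L.add_mem hx (L.smul_mem _ hyL)
  choose M hMS z hz hzM using fun k => hL _ (hA k)
  -- a constant space of relations
  obtain ⟨M0, hM0, hMu⟩ : ∃ M0 ∈ S, ∀ᶠ j in (u : Filter ℕ), M j = M0 := by
    have h1 : S ∈ u.map M := by
      rw [Ultrafilter.mem_map]
      exact Filter.univ_mem' fun j => hMS j
    obtain ⟨M0, hM0, h2⟩ := Ultrafilter.eq_pure_of_finite_mem hS h1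
    refine ⟨M0, hM0, ?_⟩
    have h3 : ({M0} : Set (Submodule ℚ (Fin n → ℚ))) ∈ u.map M := by
      rw [h2]
      exact rfl
    exact h3
  let b := Module.finBasis ℚ_[p] V
  have hpj : Tendsto (fun k : ℕ => (p : ℚ_[p]) ^ k) u (𝓝 0) := by
    have hpR : (1 : ℝ) < p := by exact_mod_cast hp.out.one_lt
    have h1 : ‖(p : ℚ_[p])‖ < 1 := by
      rw [Padic.norm_p]
      exact inv_lt_one_of_one_lt₀ hpR
    exact (tendsto_pow_atTop_nhds_zero_of_norm_lt_one h1).mono_left hule
  obtain ⟨nu, hnu, hlim⟩ := TKU_lim b u (fun k => x + (p : ℚ_[p]) ^ k • y) x (by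
    intro i c
    have h1 : ∀ k : ℕ, b.repr ((x + (p : ℚ_[p]) ^ k • y) (b c)) i =
        b.repr (x (b c)) i + (p : ℚ_[p]) ^ k * b.repr (y (b c)) i := by
      intro k
      simp
    simp only [h1]
    have h2 := (hpj.mul_const (b.repr (y (b c)) i)).const_add (b.repr (x (b c)) i)
    rwa [zero_mul, add_zero] at h2) z (Eventually.of_forall hz)
  -- the relations of `nu`
  have hM0R : M0 = TM_R nu := by
    refine Submodule.eq_of_le_of_finrank_le ?_ ?_
    · intro m hm
      show ∑ i, (m i : PadicAlgCl p) * nu i = 0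
      have h1 : Tendsto (fun k => ∑ i, (m i : PadicAlgCl p) * z k i) u
          (𝓝 (∑ i, (m i : PadicAlgCl p) * nu i)) :=
        tendsto_finsetSum _ fun i _ => (hlim i).const_mul _
      have h2 : Tendsto (fun k => ∑ i, (m i : PadicAlgCl p) * z k i) u (𝓝 0) := by
        refine tendsto_const_nhds.congr' ?_
        filter_upwards [hMu] with k hk
        exact (hzM k m (by rw [hk]; exact hm)).symm
      exact tendsto_nhds_unique h1 h2
    · exact (hxd nu hnu (TM_R nu) fun m hm => hm).trans (hd M0 hM0)
  have hstar : ∀ m, ARel nu m → m ∈ M0 := by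
    intro m hm
    rw [hM0R]
    exact hm
  have hs : ∀ᶠ k in (u : Filter ℕ), ∀ i j, nu i = nu j → z k i = z k j := by
    filter_upwards [hMu] with k hk i j hij
    rw [← TM_arel_single]
    refine hzM k _ ?_
    rw [hk]
    exact hstar _ ((TM_arel_single nu i j).2 hij)
  -- over the algebraic closure
  set X := bc (PadicAlgCl p) x with hX
  set Y := bc (PadicAlgCl p) y with hY
  have hbc : ∀ k, bc (PadicAlgCl p) (x + (p : ℚ_[p]) ^ k • y) = X + t k • Y := by
    intro k
    have e1 : bc (PadicAlgCl p) (x + (p : ℚ_[p]) ^ k • y) =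
        X + (p : ℚ_[p]) ^ k • Y := by
      rw [hX, hY]
      unfold bc
      rw [LinearMap.baseChange_add, LinearMap.baseChange_smul]
    rw [e1]
    congr 1
    have e2 : t k = algebraMap ℚ_[p] (PadicAlgCl p) ((p : ℚ_[p]) ^ k) := by
      rw [map_pow, map_natCast]
    rw [e2, algebraMap_smul]
  have hcharX : LinearMap.charpoly X = ∏ i, (Polynomial.X - C (nu i)) := by
    rw [hX]
    unfold bc
    rw [LinearMap.charpoly_baseChange]
    exact hnu
  have hCH : ∀ᶠ k in (u : Filter ℕ),
      aeval (X + t k • Y) (∏ i, (Polynomial.X - C (z k i))) = 0 := by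
    refine Eventually.of_forall fun k => ?_
    have h1 : LinearMap.charpoly (X + t k • Y) = ∏ i, (Polynomial.X - C (z k i)) := by
      rw [← hbc]
      unfold bc
      rw [LinearMap.charpoly_baseChange]
      exact hz k
    rw [← h1]
    exact LinearMap.aeval_self_charpoly _
  have hYst : ∀ c, ∀ v ∈ X.maxGenEigenspace c, Y v ∈ X.maxGenEigenspace c := by
    intro c
    refine TM_stab X c N Y ?_
    rw [hX, hY, ← TM_bc_iter, hN]
    unfold bc
    rw [LinearMap.baseChange_zero]
  let τ : PadicAlgCl p → PadicAlgCl p := fun c => (finrank (PadicAlgCl p)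
    (X.maxGenEigenspace c) : PadicAlgCl p)⁻¹ * LinearMap.trace (PadicAlgCl p)
      (X.maxGenEigenspace c) (Y.restrict (hYst c))
  have hnil : ∀ i, ∀ᶠ k in (u : Filter ℕ), ∀ v ∈ X.maxGenEigenspace (nu i),
      (((X + t k • Y) - z k i • (1 : Module.End (PadicAlgCl p) (TensorProduct ℚ_[p] (PadicAlgCl p) V))) ^ n) v = 0 := fun i =>
    TM_single X Y (nu i) (hYst _) u t ht nu z hlim hCH hs i rfl
  have hne : ∀ i, X.maxGenEigenspace (nu i) ≠ ⊥ := by
    intro i h0
    have h1 : X.HasEigenvalue (nu i) := by
      rw [Module.End.hasEigenvalue_iff_isRoot_charpoly, hcharX, IsRoot.def, eval_prod]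
      exact Finset.prod_eq_zero (Finset.mem_univ i) (by simp)
    exact h1 (eq_bot_iff.2 ((Module.End.eigenspace_le_maxGenEigenspace).trans h0.le))
  have hE : ∀ i, ∀ᶠ k in (u : Filter ℕ), z k i = nu i + t k * τ (nu i) := by
    intro i
    filter_upwards [hnil i] with k hk
    exact TM_trace X Y (nu i) (hYst _) (hne i) (t k) (z k i) n hk
  have htinj : Function.Injective t := by
    intro a c hac
    have h1 : ‖(p : PadicAlgCl p)‖ ^ a = ‖(p : PadicAlgCl p)‖ ^ c := by
      rw [← norm_pow, ← norm_pow]
      exact congrArg norm hac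
    have hpR : (1 : ℝ) < p := by exact_mod_cast hp.out.one_lt
    rw [TK_cast, Padic.norm_p] at h1
    exact pow_right_injective₀ (by positivity) (inv_lt_one_of_one_lt₀ hpR).ne h1
  refine ⟨τ, fun c v hv => ?_, fun m hm hsum => ?_⟩
  · by_cases hc : X.maxGenEigenspace c = ⊥
    · refine ⟨0, ?_⟩
      rw [hc, Submodule.mem_bot] at hv
      rw [hv, map_zero]
    · have hev : X.HasEigenvalue c := Module.End.HasUnifEigenvalue.lt zero_lt_one hc
      obtain ⟨i, rfl⟩ := TM_root X nu hcharX c hev
      refine ⟨n, ?_⟩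
      rw [Algebra.algebraMap_eq_smul_one]
      have hboth := (hnil i).and (hE i)
      refine TM_lead (X - nu i • (1 : Module.End (PadicAlgCl p) (TensorProduct ℚ_[p] (PadicAlgCl p) V))) (Y - τ (nu i) • (1 : Module.End (PadicAlgCl p) (TensorProduct ℚ_[p] (PadicAlgCl p) V))) v n
        (t '' {k | (∀ v ∈ X.maxGenEigenspace (nu i),
          (((X + t k • Y) - z k i • (1 : Module.End (PadicAlgCl p) (TensorProduct ℚ_[p] (PadicAlgCl p) V))) ^ n) v = 0) ∧
          z k i = nu i + t k * τ (nu i)}) ?_ ?_
      · refine Set.Infinite.image htinj.injOn fun hfin => ?_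
        obtain ⟨B, hB⟩ := hfin.bddAbove
        obtain ⟨k, hk1, hk2⟩ := (hboth.and (hule (Ioi_mem_atTop B))).exists
        exact absurd (hB hk1) (not_le.2 hk2)
      · rintro _ ⟨k, ⟨hk1, hk2⟩, rfl⟩
        have h1 := hk1 v hv
        rw [hk2] at h1
        rw [TM_alg]
        exact h1
  · have hroot : ∀ c ∈ m.support, ∃ i, nu i = c := fun c hc => TM_root X nu hcharX c (hm c hc)
    rcases m.support.eq_empty_or_nonempty with hemp | ⟨c0, hc0⟩
    · show ∑ c ∈ m.support, ((m c : ℤ) : PadicAlgCl p) * τ c = 0
      rw [hemp, Finset.sum_empty]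
    have hnon : Nonempty (Fin n) := ⟨(hroot c0 hc0).choose⟩
    choose! I hI using hroot
    have hsum' : ∑ c ∈ m.support, ((m c : ℤ) : PadicAlgCl p) * c = 0 := hsum
    have h1 : ARel nu (∑ c ∈ m.support, Pi.single (I c) ((m c : ℤ) : ℚ)) := by
      rw [TM_arel_sum]
      rw [← hsum']
      refine Finset.sum_congr rfl fun c hc => ?_
      rw [hI c hc]
    have h2 := hstar _ h1
    have h3 : ∀ᶠ k in (u : Filter ℕ), ∀ c ∈ m.support, z k (I c) = c + t k * τ c := by
      rw [Filter.eventually_all_finset]
      intro c hc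
      filter_upwards [hE (I c)] with k hk
      rw [hk, hI c hc]
    obtain ⟨k, hk1, hk2⟩ := (hMu.and h3).exists
    have h4 := hzM k _ (by rw [hk1]; exact h2)
    rw [TM_arel_sum] at h4
    have h5 : ∑ c ∈ m.support, ((m c : ℤ) : PadicAlgCl p) * z k (I c) =
        ∑ c ∈ m.support, ((m c : ℤ) : PadicAlgCl p) * c +
          t k * ∑ c ∈ m.support, ((m c : ℤ) : PadicAlgCl p) * τ c := by
      rw [Finset.mul_sum, ← Finset.sum_add_distrib]
      refine Finset.sum_congr rfl fun c hc => ?_
      rw [hk2 c hc]
      ring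
    rw [h5, hsum', zero_add, mul_eq_zero, or_iff_right (ht0 k)] at h4
    exact h4

end H4S
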