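import Mathlib
import Pool.Agent.Lib.H4S.A0
import Pool.Agent.Lib.H4S.TM

/-!
# H4S, chunk DB: genericity and base change
-/

set_option autoImplicit false

namespace H4S

open Module

theorem DB_nilpow {K W : Type*} [Field K] [AddCommGroup W] [Module K W] [FiniteDimensional K W]
    (A : Module.End K W) (h : IsNilpotent A) : A ^ (finrank K W) = 0 := by
  have h1 := (LinearMap.aeval_self_charpoly A)
  rw [h.charpoly_eq_X_pow_finrank, map_pow, Polynomial.aeval_X] at h1
  exact h1

theorem DB_lead {K U : Type*} [Field K] [AddCommGroup U] [Module K U] (A B : Module.End K U)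
    (v : U) (n : ℕ) (S : Set K) (hS : S.Infinite) (h : ∀ t ∈ S, ((A + t • B) ^ n) v = 0) (t0 : K) :
    ((A + t0 • B) ^ n) v = 0 := by
  obtain ⟨w, -, hexp⟩ := TM_expand A B v n
  by_contra hne
  obtain ⟨f, hf⟩ : ∃ f : Module.Dual K U, f (((A + t0 • B) ^ n) v) ≠ 0 := by
    by_contra hcon
    push Not at hcon
    exact hne ((Module.forall_dual_apply_eq_zero_iff K _).1 hcon)
  let P : Polynomial K := ∑ j ∈ Finset.range (n + 1), Polynomial.C (f (w j)) * Polynomial.X ^ j
  have hPe : ∀ t : K, P.eval t = f (((A + t • B) ^ n) v) := by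
    intro t
    rw [hexp t, map_sum]
    simp only [P, Polynomial.eval_finsetSum, Polynomial.eval_mul, Polynomial.eval_C,
      Polynomial.eval_pow, Polynomial.eval_X]
    refine Finset.sum_congr rfl fun j _ => ?_
    rw [map_smul, smul_eq_mul, mul_comm]
  have hP : P = 0 := by
    apply Polynomial.eq_zero_of_infinite_isRoot
    refine hS.mono fun t ht => ?_
    show P.eval t = 0
    rw [hPe, h t ht, map_zero]
  apply hf
  rw [← hPe, hP, Polynomial.eval_zero]

/-- Nilpotency of all combinations over an infinite subfield passes to the field. -/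
theorem DB_nil {F K W κ : Type*} [Field F] [Infinite F] [Field K] [Algebra F K] [AddCommGroup W]
    [Module K W] [FiniteDimensional K W] (A : κ → Module.End K W) (s : Finset κ)
    (h : ∀ f : κ → F, IsNilpotent (∑ j ∈ s, algebraMap F K (f j) • A j)) (a : κ → K) :
    IsNilpotent (∑ j ∈ s, a j • A j) := by
  classical
  set n := finrank K W with hn
  have hinf : (Set.range (algebraMap F K)).Infinite :=
    Set.infinite_range_of_injective (algebraMap F K).injective
  have key : ∀ T : Finset κ, ∀ a : κ → K, (∀ j, j ∉ T → a j ∈ Set.range (algebraMap F K)) →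
      (∑ j ∈ s, a j • A j) ^ n = 0 := by
    intro T
    induction T using Finset.induction_on with
    | empty =>
      intro a ha
      choose f hf using fun j => ha j (Finset.notMem_empty j)
      have h1 := DB_nilpow _ (h f)
      simp only [hf] at h1
      exact h1
    | insert j0 T hj0 ih =>
      intro a ha
      by_cases hs : j0 ∈ s
      · have e : ∀ t : K, ∑ j ∈ s, Function.update a j0 t j • A j =
            ∑ j ∈ s.erase j0, a j • A j + t • A j0 := by
          intro t
          rw [← Finset.sum_erase_add _ _ hs, Function.update_self]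
          congr 1
          refine Finset.sum_congr rfl fun j hj => ?_
          rw [Function.update_of_ne (Finset.ne_of_mem_erase hj)]
        refine LinearMap.ext fun v => ?_
        have h1 := DB_lead (∑ j ∈ s.erase j0, a j • A j) (A j0) v n (Set.range (algebraMap F K))
          hinf (by
            intro t ht
            rw [← e t, ih (Function.update a j0 t) (by
              intro j hj
              by_cases hjj : j = j0
              · rw [hjj, Function.update_self]
                exact ht
              · rw [Function.update_of_ne hjj]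
                exact ha j (by
                  rw [Finset.mem_insert, not_or]
                  exact ⟨hjj, hj⟩))]
            rfl) (a j0)
        rw [← e (a j0), Function.update_eq_self] at h1
        exact h1
      · have e : ∑ j ∈ s, a j • A j = ∑ j ∈ s, Function.update a j0 0 j • A j := by
          refine Finset.sum_congr rfl fun j hj => ?_
          rw [Function.update_of_ne (fun hh : j = j0 => hs (hh ▸ hj))]
        rw [e]
        refine ih _ ?_
        intro j hj
        by_cases hjj : j = j0
        · rw [hjj, Function.update_self]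
          exact ⟨0, map_zero _⟩
        · rw [Function.update_of_ne hjj]
          exact ha j (by
            rw [Finset.mem_insert, not_or]
            exact ⟨hjj, hj⟩)
  have e : ∑ j ∈ s, a j • A j = ∑ j ∈ s, (if j ∈ s then a j else 0) • A j :=
    Finset.sum_congr rfl fun j hj => by rw [if_pos hj]
  rw [e]
  exact ⟨n, key s _ fun j hj => ⟨0, by rw [map_zero, if_neg hj]⟩⟩

theorem DB_adSum {K U κ : Type*} [Field K] [AddCommGroup U] [Module K U] (X : Module.End K U)
    (s : Finset κ) (b : κ → K) (N : ℕ) : ∀ Y : κ → Module.End K U,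
      adIter X N (∑ j ∈ s, b j • Y j) = ∑ j ∈ s, b j • adIter X N (Y j) := by
  induction N with
  | zero => intro Y; rfl
  | succ N ih =>
    intro Y
    have h1 : ∀ Z, adIter X (N + 1) Z = adIter X N (X * Z - Z * X) := by
      intro Z
      unfold adIter
      rw [Function.iterate_succ_apply]
    rw [h1]
    have h2 : X * (∑ j ∈ s, b j • Y j) - (∑ j ∈ s, b j • Y j) * X =
        ∑ j ∈ s, b j • (X * Y j - Y j * X) := by
      rw [Finset.mul_sum, Finset.sum_mul, ← Finset.sum_sub_distrib]
      refine Finset.sum_congr rfl fun j _ => ?_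
      rw [mul_smul_comm, smul_mul_assoc, smul_sub]
    rw [h2, ih]
    refine Finset.sum_congr rfl fun j _ => ?_
    rw [h1]

theorem DB_ind {F K V κ : Type*} [Field F] [Field K] [Algebra F K] [AddCommGroup V] [Module F V]
    [FiniteDimensional F V] (B : Basis κ F K) (s : Finset κ) (e : κ → Module.End F V)
    (h : ∑ j ∈ s, B j • bc K (e j) = 0) : ∀ j ∈ s, e j = 0 := by
  intro j hj
  let b := Module.finBasis F V
  refine b.ext fun i => ?_
  rw [LinearMap.zero_apply]
  apply b.repr.injective
  rw [map_zero]
  ext r
  rw [Finsupp.zero_apply]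
  have h1 := LinearMap.congr_fun h (TensorProduct.tmul F (1 : K) (b i))
  have h2 := congrArg (fun z => (Algebra.TensorProduct.basis K b).repr z r) h1
  simp only [LinearMap.zero_apply, map_zero, Finsupp.zero_apply, LinearMap.sum_apply,
    LinearMap.smul_apply, map_sum, map_smul, Finsupp.coe_finsetSum, Finset.sum_apply,
    Finsupp.smul_apply] at h2
  have h3 : ∀ k, (Algebra.TensorProduct.basis K b).repr
      ((bc K (e k)) (TensorProduct.tmul F (1 : K) (b i))) r =
      algebraMap F K (b.repr (e k (b i)) r) := by
    intro k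
    unfold bc
    rw [LinearMap.baseChange_tmul, Algebra.TensorProduct.basis_repr_tmul, one_smul,
      Finsupp.mapRange_apply]
  simp only [h3] at h2
  have h4 : ∑ k ∈ s, (b.repr (e k (b i)) r) • B k = 0 := by
    rw [← h2]
    refine Finset.sum_congr rfl fun k _ => ?_
    rw [Algebra.smul_def, smul_eq_mul, mul_comm]
  exact linearIndependent_iff'.1 B.linearIndependent s _ h4 j hj

theorem DB_rep {F K V κ : Type*} [Field F] [Field K] [Algebra F K] [AddCommGroup V] [Module F V]
    (B : Basis κ F K) (L : Submodule F (Module.End F V)) (y : Module.End K (TensorProduct F K V))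
    (hy : y ∈ spanK K L) : ∃ w : κ →₀ Module.End F V, (∀ j, w j ∈ L) ∧
      y = ∑ j ∈ w.support, B j • bc K (w j) := by
  classical
  unfold spanK at hy
  rw [Submodule.mem_span_set] at hy
  obtain ⟨c, hc, rfl⟩ := hy
  unfold Finsupp.sum
  have hbc0 : bc K (0 : Module.End F V) = 0 := by
    unfold bc
    exact LinearMap.baseChange_zero
  refine Finset.sum_induction _ (fun y => ∃ w : κ →₀ Module.End F V, (∀ j, w j ∈ L) ∧
      y = ∑ j ∈ w.support, B j • bc K (w j)) ?_ ?_ ?_
  · rintro _ _ ⟨w1, h1, rfl⟩ ⟨w2, h2, rfl⟩
    refine ⟨w1 + w2, fun j => L.add_mem (h1 j) (h2 j), ?_⟩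
    have e : ∀ w : κ →₀ Module.End F V, ∑ j ∈ w.support, B j • bc K (w j) =
        w.sum fun j u => B j • bc K u := fun _ => rfl
    rw [e, e, e, Finsupp.sum_add_index']
    · intro j
      rw [hbc0, smul_zero]
    · intro j u v
      rw [← smul_add]
      congr 1
      unfold bc
      rw [LinearMap.baseChange_add]
  · exact ⟨0, fun j => L.zero_mem, by simp⟩
  · intro z hz
    obtain ⟨u, hu, rfl⟩ := hc hz
    refine ⟨(B.repr (c (bc K u))).mapRange (fun r => r • u) (zero_smul _ _), fun j => ?_, ?_⟩
    · rw [Finsupp.mapRange_apply]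
      exact L.smul_mem _ hu
    · have e : ∀ w : κ →₀ Module.End F V, ∑ j ∈ w.support, B j • bc K (w j) =
          w.sum fun j u => B j • bc K u := fun _ => rfl
      rw [e, Finsupp.sum_mapRange_index (by
        intro j
        rw [hbc0, smul_zero])]
      show c (bc K u) • bc K u = ∑ j ∈ (B.repr (c (bc K u))).support,
        B j • bc K ((B.repr (c (bc K u)) j) • u)
      have h1 : ∀ d : K, d = ∑ j ∈ (B.repr d).support, (B.repr d j) • B j := by
        intro d
        conv_lhs => rw [← B.linearCombination_repr d]
        rfl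
      have h2 : ∀ d : K, d • bc K u = ∑ j ∈ (B.repr d).support, B j • bc K ((B.repr d j) • u) := by
        intro d
        conv_lhs => rw [h1 d]
        rw [Finset.sum_smul]
        refine Finset.sum_congr rfl fun j _ => ?_
        unfold bc
        rw [LinearMap.baseChange_smul, smul_assoc, smul_comm]
      exact h2 _

theorem DB_core {F K U κ : Type*} [Field F] [Infinite F] [Field K] [CharZero K] [Algebra F K]
    [AddCommGroup U] [Module K U] [FiniteDimensional K U] (W : Submodule K U)
    (Y : κ → Module.End K U) (hst : ∀ j, ∀ v ∈ W, Y j v ∈ W) (s : Finset κ) (τ : κ → K)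
    (hτ : ∀ j, ∀ v ∈ W, ∃ n : ℕ, ((Y j - τ j • (1 : Module.End K U)) ^ n) v = 0)
    (hf : ∀ f : κ → F, ∃ σ : K, ∀ v ∈ W, ∃ n : ℕ,
      ((∑ j ∈ s, algebraMap F K (f j) • Y j - σ • (1 : Module.End K U)) ^ n) v = 0)
    (a : κ → K) : ∀ v ∈ W, ∃ n : ℕ,
      ((∑ j ∈ s, a j • Y j - (∑ j ∈ s, a j * τ j) • (1 : Module.End K U)) ^ n) v = 0 := by
  classical
  let R : κ → Module.End K W := fun j => (Y j).restrict (hst j)
  let A : κ → Module.End K W := fun j => R j - τ j • (1 : Module.End K W)
  have hcoe : ∀ (Z : Module.End K U) (Z' : Module.End K W),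
      (∀ u : W, ((Z' u : W) : U) = Z u) →
      ∀ (n : ℕ) (u : W), (((Z' ^ n) u : W) : U) = (Z ^ n) u := by
    intro Z Z' hZ n
    induction n with
    | zero => intro u; simp
    | succ n ih =>
      intro u
      rw [pow_succ, Module.End.mul_apply, ih, hZ, pow_succ, Module.End.mul_apply]
  have hnilA : ∀ j, IsNilpotent (A j) := by
    intro j
    rw [Module.End.isNilpotent_iff_of_finite]
    intro u
    obtain ⟨n, hn⟩ := hτ j u u.2
    refine ⟨n, Subtype.ext ?_⟩
    rw [hcoe (Y j - τ j • (1 : Module.End K U)) (A j) (fun u => rfl) n u, hn]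
    rfl
  have hall : ∀ f : κ → F, IsNilpotent (∑ j ∈ s, algebraMap F K (f j) • A j) := by
    intro f
    obtain ⟨σ, hσ⟩ := hf f
    by_cases hbot : W = ⊥
    · have : Subsingleton W := by
        rw [hbot]
        infer_instance
      exact ⟨1, Subsingleton.elim _ _⟩
    have hd : (finrank K W : K) ≠ 0 := by
      have h1 : 0 < finrank K W :=
        Module.finrank_pos_iff.2 (Submodule.nontrivial_iff_ne_bot.2 hbot)
      exact_mod_cast h1.ne'
    have hG : IsNilpotent (∑ j ∈ s, algebraMap F K (f j) • R j -
        σ • (1 : Module.End K W)) := by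
      rw [Module.End.isNilpotent_iff_of_finite]
      intro u
      obtain ⟨n, hn⟩ := hσ u u.2
      refine ⟨n, Subtype.ext ?_⟩
      rw [hcoe (∑ j ∈ s, algebraMap F K (f j) • Y j - σ • (1 : Module.End K U)) _ (fun u => by
        rw [LinearMap.sub_apply, LinearMap.sub_apply, LinearMap.sum_apply, LinearMap.sum_apply,
          AddSubgroupClass.coe_sub, AddSubmonoidClass.coe_finsetSum]
        rfl) n u, hn]
      rfl
    have hsplit : ∑ j ∈ s, algebraMap F K (f j) • A j =
        (∑ j ∈ s, algebraMap F K (f j) • R j) -
        (∑ j ∈ s, algebraMap F K (f j) * τ j) • (1 : Module.End K W) := by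
      rw [Finset.sum_smul, ← Finset.sum_sub_distrib]
      refine Finset.sum_congr rfl fun j _ => ?_
      rw [mul_smul]
      exact smul_sub _ _ _
    have h1 := (LinearMap.isNilpotent_trace_of_isNilpotent hG).eq_zero
    have h2 : ∀ j, LinearMap.trace K W (A j) = 0 := fun j =>
      (LinearMap.isNilpotent_trace_of_isNilpotent (hnilA j)).eq_zero
    have h3 : LinearMap.trace K W (∑ j ∈ s, algebraMap F K (f j) • A j) = 0 := by
      rw [map_sum]
      exact Finset.sum_eq_zero fun j _ => by rw [map_smul, h2 j, smul_zero]
    rw [hsplit] at h3 ⊢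
    rw [map_sub, map_smul, LinearMap.trace_one, smul_eq_mul] at h1 h3
    have h4 : σ = ∑ j ∈ s, algebraMap F K (f j) * τ j := by
      apply mul_right_cancel₀ hd
      linear_combination h3 - h1
    rw [← h4]
    exact hG
  obtain ⟨n, hn⟩ := DB_nil A s hall a
  intro v hv
  refine ⟨n, ?_⟩
  have h1 := hcoe (∑ j ∈ s, a j • Y j - (∑ j ∈ s, a j * τ j) • (1 : Module.End K U))
    (∑ j ∈ s, a j • A j) (fun u => by
      rw [Finset.sum_smul, ← Finset.sum_sub_distrib]
      rw [LinearMap.sum_apply, LinearMap.sum_apply, AddSubmonoidClass.coe_finsetSum]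
      refine Finset.sum_congr rfl fun j _ => ?_
      rw [mul_smul, ← smul_sub]
      rfl) n ⟨v, hv⟩
  rw [hn] at h1
  exact h1.symm

/-- **DB** (M, only Mathlib). Base change of genericity.

Proof. Write `V_c` for the generalized eigenspace of `bc K x` for `c`, `d_c` for its dimension.
(1) Let `y` be in `spanK K L` with `(ad x)^N y = 0` (we write `x` for `bc K x`). Then `y` is a
`K`-linear combination `sum_i a_i y_i` of base changes of elements `y_i` of `L` with
`(ad x)^N y_i = 0` for all `i`: the map `(ad x)^N : L -> End V` is `F`-linear, and the kernel of its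
base change `K ⊗ L -> K ⊗ End V` is the base change of its kernel; concretely, write
`y = sum_j b_j bc(u_j)` with `u_j` in `L` and `b_j` in `K` linearly independent over `F`
(`Finsupp`/tensor representation); then `0 = (ad x)^N y = sum_j b_j bc((ad x)^N u_j)` gives
`(ad x)^N u_j = 0` for all `j` (`K ⊗ End V` injects into `End (K ⊗ V)`).
(2) Let `τ_i` be the functions of `GenPropF` for `y_i` and put `τ = sum_i a_i τ_i` (for `c` not an
eigenvalue the condition is empty). The second part of `GenProp` is clear by linearity.
(3) On `V_c`: all `y_i` preserve `V_c` (they are killed by a power of `ad x`). For `f : ι -> F` the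
element `sum_i f_i y_i` of `L` is killed by `(ad x)^N`, so by `GenPropF` it has a single
eigenvalue on `V_c`, which is its trace divided by `d_c`, i.e. `sum_i f_i τ_i(c)` (if `V_c <> 0`). So,
with `A_i = y_i - τ_i(c)` on `V_c`, `(sum_i f_i A_i)^(d_c) = 0` for all `f` in `F^ι`. The matrix
entries of `(sum_i X_i A_i)^(d_c)` are polynomials in the `X_i` with coefficients in `K`
vanishing on `F^ι`, with `F` infinite, so they vanish identically (`MvPolynomial.funext_set` or
induction on the number of variables), and `(sum_i a_i A_i)^(d_c) = 0`: this is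
`(y - τ c)^(d_c) = 0` on `V_c`. -/
theorem gen_baseChange {F K V : Type*} [Field F] [CharZero F] [Field K] [IsAlgClosed K]
    [Algebra F K] [AddCommGroup V] [Module F V] [FiniteDimensional F V]
    (L : Submodule F (Module.End F V)) (x : Module.End F V) (hx : x ∈ L)
    (hgen : GenPropF K L x) : GenProp (spanK K L) (bc K x) := by
  classical
  have : CharZero K := charZero_of_injective_algebraMap (algebraMap F K).injective
  rintro y hy ⟨N, hN⟩
  let B := Basis.ofVectorSpace F K
  obtain ⟨w, hwL, rfl⟩ := DB_rep B L y hy
  set s := w.support with hs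
  set X := bc K x with hX
  have hN' : ∀ j ∈ s, adIter x N (w j) = 0 := by
    apply DB_ind B s
    rw [DB_adSum] at hN
    rw [← hN]
    refine Finset.sum_congr rfl fun j _ => ?_
    rw [TM_bc_iter]
  have hN2 : ∀ j, adIter x N (w j) = 0 := by
    intro j
    by_cases hj : j ∈ s
    · exact hN' j hj
    · rw [Finsupp.notMem_support_iff.1 hj]
      have h1 := DB_adSum x (∅ : Finset ℕ) (fun _ => (0 : F)) N (fun _ => x)
      simpa using h1
  choose τ hτ1 hτ2 using fun j => hgen (w j) (hwL j) ⟨N, hN2 j⟩
  have hst : ∀ j c, ∀ v ∈ X.maxGenEigenspace c, bc K (w j) v ∈ X.maxGenEigenspace c := by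
    intro j c
    refine TM_stab X c N _ ?_
    rw [hX, ← TM_bc_iter, hN2 j]
    unfold bc
    rw [LinearMap.baseChange_zero]
  refine ⟨fun c => ∑ j ∈ s, B j * τ j c, fun c v hv => ?_, fun m hm hsum => ?_⟩
  · have h1 := DB_core (F := F) (X.maxGenEigenspace c) (fun j => bc K (w j))
      (fun j => hst j c) s (fun j => τ j c) (fun j u hu => by
        have h2 := hτ1 j c u hu
        simp only [Algebra.algebraMap_eq_smul_one] at h2
        exact h2) (by
        intro f
        have hyL : ∑ j ∈ s, f j • w j ∈ L := L.sum_mem fun j _ => L.smul_mem _ (hwL j)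
        have hyN : adIter x N (∑ j ∈ s, f j • w j) = 0 := by
          rw [DB_adSum]
          exact Finset.sum_eq_zero fun j _ => by rw [hN2 j, smul_zero]
        obtain ⟨σ, hσ, -⟩ := hgen _ hyL ⟨N, hyN⟩
        have hbcs : ∀ T : Finset _, bc K (∑ j ∈ T, f j • w j) =
            ∑ j ∈ T, algebraMap F K (f j) • bc K (w j) := by
          intro T
          induction T using Finset.induction_on with
          | empty =>
            unfold bc
            simp
          | insert j T hj ih =>
            rw [Finset.sum_insert hj, Finset.sum_insert hj, ← ih]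
            unfold bc
            rw [LinearMap.baseChange_add, LinearMap.baseChange_smul, algebraMap_smul]
        refine ⟨σ c, fun u hu => ?_⟩
        have h2 := hσ c u hu
        rw [hbcs s, Algebra.algebraMap_eq_smul_one] at h2
        exact h2) (fun j => B j) v hv
    simp only [Algebra.algebraMap_eq_smul_one]
    exact h1
  · show ∑ c ∈ m.support, ((m c : ℤ) : K) * ∑ j ∈ s, B j * τ j c = 0
    have h1 : ∀ j, ∑ c ∈ m.support, ((m c : ℤ) : K) * τ j c = 0 := fun j => hτ2 j m hm hsum
    have h2 : ∑ c ∈ m.support, ((m c : ℤ) : K) * ∑ j ∈ s, B j * τ j c =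
        ∑ j ∈ s, B j * ∑ c ∈ m.support, ((m c : ℤ) : K) * τ j c := by
      simp_rw [Finset.mul_sum]
      rw [Finset.sum_comm]
      refine Finset.sum_congr rfl fun j _ => Finset.sum_congr rfl fun c _ => ?_
      ring
    rw [h2]
    exact Finset.sum_eq_zero fun j _ => by rw [h1 j, mul_zero]

end H4S
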