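import Mathlib
import Pool.Agent.Lib.H4S.A0

/-!
# H4S, chunk DC: descent of a projector
-/

set_option autoImplicit false

namespace H4S

open Module TensorProduct

/-- **DC** (S/M, only Mathlib). Descent of a projector from `K` to `F`.

Proof. Let `θ : K -> F` be an `F`-linear map with `θ 1 = 1`. Define
`e' v = (θ ⊗ 1) (e (1 ⊗ v))`, where `θ ⊗ 1 : K ⊗ V -> F ⊗ V = V` (an `F`-linear map,
`TensorProduct.lid` after `LinearMap.rTensor`). It is `F`-linear. `e (1 ⊗ v)` is in
`K ⊗ W` (`W.baseChange K` is spanned by the `a ⊗ w`), so `e' v` is in `W`. For `w` in `W`: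
`e (1 ⊗ w) = 1 ⊗ w`, so `e' w = w`. If `bc K y` commutes with `e`: `θ ⊗ 1` intertwines `bc K y` and
`y`, so `e' (y v) = (θ ⊗ 1) (e (bc y (1 ⊗ v))) = (θ ⊗ 1) (bc y (e (1 ⊗ v))) = y (e' v)`. -/
theorem descend {F K V : Type*} [Field F] [Field K] [Algebra F K] [AddCommGroup V] [Module F V]
    [FiniteDimensional F V] (W : Submodule F V) (e : Module.End K (TensorProduct F K V))
    (h1 : ∀ v, e v ∈ W.baseChange K) (h2 : ∀ w ∈ W.baseChange K, e w = w) :
    ∃ e' : Module.End F V, (∀ v, e' v ∈ W) ∧ (∀ w ∈ W, e' w = w) ∧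
      ∀ y : Module.End F V, Commute (bc K y) e → Commute y e' := by
  obtain ⟨θ, hθ⟩ := LinearMap.exists_leftInverse_of_injective (Algebra.linearMap F K)
    (LinearMap.ker_eq_bot.2 (algebraMap F K).injective)
  have hθ1 : θ 1 = 1 := by
    have h := LinearMap.congr_fun hθ 1
    simpa using h
  let π : TensorProduct F K V →ₗ[F] V :=
    (TensorProduct.lid F V).toLinearMap ∘ₗ (LinearMap.rTensor V θ)
  have hπ : ∀ (a : K) (v : V), π (a ⊗ₜ[F] v) = θ a • v := by
    intro a v
    simp [π]
  let ι : V →ₗ[F] TensorProduct F K V := TensorProduct.mk F K V 1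
  have hι : ∀ v, ι v = (1 : K) ⊗ₜ[F] v := fun v => rfl
  let e' : Module.End F V := π ∘ₗ (e.restrictScalars F) ∘ₗ ι
  have he' : ∀ v, e' v = π (e (ι v)) := fun v => rfl
  have hπW : ∀ z ∈ W.baseChange K, ∀ k : K, π (k • z) ∈ W := by
    intro z hz
    rw [Submodule.baseChange_eq_span] at hz
    induction hz using Submodule.span_induction with
    | mem z hz =>
      obtain ⟨w, hw, rfl⟩ := hz
      intro k
      have : k • (TensorProduct.mk F K V 1) w = k ⊗ₜ[F] w := by
        rw [TensorProduct.mk_apply, TensorProduct.smul_tmul', smul_eq_mul, mul_one]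
      rw [this, hπ]
      exact W.smul_mem _ hw
    | zero =>
      intro k
      rw [smul_zero, map_zero]
      exact W.zero_mem
    | add a b _ _ ha hb =>
      intro k
      rw [smul_add, map_add]
      exact W.add_mem (ha k) (hb k)
    | smul a z _ hz =>
      intro k
      rw [smul_smul]
      exact hz _
  refine ⟨e', fun v => ?_, fun w hw => ?_, fun y hy => ?_⟩
  · rw [he']
    have := hπW _ (h1 (ι v)) 1
    rwa [one_smul] at this
  · have hmem : ι w ∈ W.baseChange K := by
      rw [hι]
      exact Submodule.tmul_mem_baseChange_of_mem 1 hw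
    rw [he', h2 _ hmem, hι, hπ, hθ1, one_smul]
  · have hint : ∀ z : TensorProduct F K V, π (bc K y z) = y (π z) := by
      intro z
      induction z with
      | zero => simp
      | tmul a v =>
        have : bc K y (a ⊗ₜ[F] v) = a ⊗ₜ[F] (y v) := rfl
        rw [this, hπ, hπ, map_smul]
      | add a b ha hb => rw [map_add, map_add, ha, hb, map_add, map_add]
    ext v
    rw [Module.End.mul_apply, Module.End.mul_apply, he', he']
    have h3 : ι (y v) = bc K y (ι v) := rfl
    have h4 : e (bc K y (ι v)) = bc K y (e (ι v)) := by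
      have := congrArg (fun T : Module.End K (TensorProduct F K V) => T (ι v)) hy.eq
      exact this.symm
    rw [h3, h4, hint]

end H4S
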