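import Mathlib
import Pool.Agent.Lib.H4S.CO
import Pool.Agent.Lib.H4S.DA
import Pool.Agent.Lib.H4S.DB
import Pool.Agent.Lib.H4S.DC

/-!
# H4S, chunk DD: the core theorem over a field of characteristic zero
-/

set_option autoImplicit false

namespace H4S

open Module TensorProduct

theorem DD_span_lie {K M : Type*} [Field K] [AddCommGroup M] [Module K M]
    (S : Set (Module.End K M)) (hS : ∀ a ∈ S, ∀ b ∈ S, a * b - b * a ∈ S) :
    IsLie (Submodule.span K S) := by
  intro a ha b hb
  refine Submodule.span_induction (p := fun a _ => a * b - b * a ∈ Submodule.span K S)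
    ?_ ?_ ?_ ?_ ha
  · intro a ha
    refine Submodule.span_induction (p := fun b _ => a * b - b * a ∈ Submodule.span K S)
      ?_ ?_ ?_ ?_ hb
    · intro b hb
      exact Submodule.subset_span (hS a ha b hb)
    · rw [mul_zero, zero_mul, sub_zero]
      exact Submodule.zero_mem _
    · intro x y _ _ hx hy
      rw [mul_add, add_mul, add_sub_add_comm]
      exact Submodule.add_mem _ hx hy
    · intro c x _ hx
      rw [mul_smul_comm, smul_mul_assoc, ← smul_sub]
      exact Submodule.smul_mem _ c hx
  · rw [mul_zero, zero_mul, sub_zero]
    exact Submodule.zero_mem _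
  · intro x y _ _ hx hy
    rw [mul_add, add_mul, add_sub_add_comm]
    exact Submodule.add_mem _ hx hy
  · intro c x _ hx
    rw [mul_smul_comm, smul_mul_assoc, ← smul_sub]
    exact Submodule.smul_mem _ c hx

theorem DD_lie {F K V : Type*} [Field F] [Field K] [Algebra F K] [AddCommGroup V] [Module F V]
    (L : Submodule F (Module.End F V)) (hL : IsLie L) : IsLie (spanK K L) := by
  refine DD_span_lie (M := TensorProduct F K V) _ ?_
  rintro _ ⟨a, ha, rfl⟩ _ ⟨b, hb, rfl⟩
  refine ⟨_, hL a ha b hb, ?_⟩
  change LinearMap.baseChange K (a * b - b * a) = LinearMap.baseChange K a *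
    LinearMap.baseChange K b - LinearMap.baseChange K b * LinearMap.baseChange K a
  rw [← LinearMap.baseChange_mul, ← LinearMap.baseChange_mul]
  exact LinearMap.baseChange_sub _ _

theorem DD_trace {K M N : Type*} [Field K] [AddCommGroup M] [Module K M] [AddCommGroup N]
    [Module K N] (E : M ≃ₗ[K] N) (f : Module.End K M) (g : Module.End K N)
    (h : ∀ t, g (E t) = E (f t)) : LinearMap.trace K N g = LinearMap.trace K M f := by
  have h1 : g = E.conj f := by
    ext w
    obtain ⟨t, rfl⟩ := E.surjective w
    rw [LinearEquiv.conj_apply_apply, E.symm_apply_apply, h]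
  rw [h1, LinearMap.trace_conj']

theorem DD_stable {F K V : Type*} [Field F] [Field K] [Algebra F K] [AddCommGroup V] [Module F V]
    (y : Module.End F V) (W : Submodule F V) (hW : ∀ w ∈ W, y w ∈ W) :
    ∀ w ∈ W.baseChange K, bc K y w ∈ W.baseChange K := by
  intro w hw
  rw [Submodule.baseChange_eq_span] at hw
  refine Submodule.span_induction (p := fun w _ => bc K y w ∈ W.baseChange K) ?_ ?_ ?_ ?_ hw
  · rintro _ ⟨w, hw, rfl⟩
    change LinearMap.baseChange K y (1 ⊗ₜ[F] w) ∈ W.baseChange K
    rw [LinearMap.baseChange_tmul]
    exact Submodule.tmul_mem_baseChange_of_mem 1 (hW w hw)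
  · rw [map_zero]
    exact Submodule.zero_mem _
  · intro x y _ _ hx hy
    rw [map_add]
    exact Submodule.add_mem _ hx hy
  · intro c x _ hx
    rw [map_smul]
    exact Submodule.smul_mem _ c hx

/-- `K ⊗ W` is `W.baseChange K`. -/
theorem DD_equiv {F K V : Type*} [Field F] [Field K] [Algebra F K] [AddCommGroup V] [Module F V]
    (W : Submodule F V) : ∃ E : TensorProduct F K W ≃ₗ[K] W.baseChange K,
      ∀ t, ((E t : W.baseChange K) : TensorProduct F K V) = LinearMap.baseChange K W.subtype t := by
  have hinj : Function.Injective (LinearMap.baseChange K W.subtype) :=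
    Module.Flat.lTensor_preserves_injective_linearMap (M := K) W.subtype W.subtype_injective
  have hrange : LinearMap.range (LinearMap.baseChange K W.subtype) = W.baseChange K := rfl
  refine ⟨(LinearEquiv.ofInjective _ hinj).trans (LinearEquiv.ofEq _ _ hrange), fun t => rfl⟩

/-- **DD** (M, assembly). Core theorem over `F`.

Proof. Apply `core` over `K` to `spanK K L`, `bc K x`, `W.baseChange K`. `spanK K L` is closed under
commutators: `bc` is a ring homomorphism, bilinearity. `SS`: `ss_baseChange`. `GenProp`:
`gen_baseChange`. `bc K x` maps `W.baseChange K` to itself; trace relation: the dimension of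
`W.baseChange K` is that of `W` (it is the range of the injective base change of the inclusion), the
trace of the restriction of `bc K x` is the image of the trace of the restriction of `x`
(`LinearMap.trace_baseChange`, and the restriction of `bc K x` to `W.baseChange K` corresponds to
`(x.restrict hW).baseChange K` under the isomorphism `K ⊗ W = W.baseChange K`). Then `descend`; if
`y` in `L` stabilizes `W`, then `bc K y` stabilizes `W.baseChange K`, so it commutes with `e`. -/
theorem coreF {F : Type*} (K : Type*) {V : Type*} [Field F] [CharZero F] [Field K] [IsAlgClosed K]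
    [Algebra F K] [AddCommGroup V] [Module F V] [FiniteDimensional F V]
    (L : Submodule F (Module.End F V)) (hL : IsLie L) (hss : SS (L : Set (Module.End F V)))
    (x : Module.End F V) (hx : x ∈ L) (hgen : GenPropF K L x)
    (W : Submodule F V) (hW : ∀ w ∈ W, x w ∈ W)
    (htr : (finrank F V : F) * LinearMap.trace F W (x.restrict hW) =
      (finrank F W : F) * LinearMap.trace F V x) :
    ∃ e : Module.End F V, (∀ v, e v ∈ W) ∧ (∀ w ∈ W, e w = w) ∧
      ∀ y ∈ L, (∀ w ∈ W, y w ∈ W) → Commute y e := by
  classical
  obtain ⟨E, hE⟩ := DD_equiv (K := K) W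
  have hfr : finrank K (W.baseChange K) = finrank F W := by
    rw [← E.finrank_eq, Module.finrank_baseChange]
  have hfrV : finrank K (TensorProduct F K V) = finrank F V := Module.finrank_baseChange
  have hWK := DD_stable (K := K) x W hW
  have htrW : LinearMap.trace K (W.baseChange K) ((bc K x).restrict hWK) =
      algebraMap F K (LinearMap.trace F W (x.restrict hW)) := by
    have h2 : (LinearMap.baseChange K x).comp (LinearMap.baseChange K W.subtype) =
        (LinearMap.baseChange K W.subtype).comp (LinearMap.baseChange K (x.restrict hW)) := by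
      rw [← LinearMap.baseChange_comp, ← LinearMap.baseChange_comp]
      rfl
    have h1 : LinearMap.trace K (W.baseChange K) ((bc K x).restrict hWK) =
        LinearMap.trace K (TensorProduct F K W) (LinearMap.baseChange K (x.restrict hW)) := by
      refine DD_trace (M := TensorProduct F K W) (N := W.baseChange K) E _ _ fun t => ?_
      apply Subtype.ext
      rw [hE]
      change bc K x ((E t : W.baseChange K) : TensorProduct F K V) = _
      rw [hE]
      exact congrArg (fun f : TensorProduct F K W →ₗ[K] TensorProduct F K V => f t) h2
    rw [h1]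
    exact LinearMap.trace_baseChange (x.restrict hW) K
  have htrV : LinearMap.trace K (TensorProduct F K V) (bc K x) =
      algebraMap F K (LinearMap.trace F V x) := LinearMap.trace_baseChange x K
  have htrK : (finrank K (TensorProduct F K V) : K) *
      LinearMap.trace K (W.baseChange K) ((bc K x).restrict hWK) =
      (finrank K (W.baseChange K) : K) * LinearMap.trace K (TensorProduct F K V) (bc K x) := by
    rw [htrW, htrV, hfr, hfrV]
    have h1 := congrArg (algebraMap F K) htr
    rw [map_mul, map_mul, map_natCast, map_natCast] at h1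
    exact h1
  have hxK : bc K x ∈ spanK K L := Submodule.subset_span ⟨x, hx, rfl⟩
  have hcz : CharZero K := charZero_of_injective_algebraMap (algebraMap F K).injective
  obtain ⟨e, he1, he2, he3⟩ := core (spanK K L) (DD_lie L hL) (ss_baseChange L hss) (bc K x) hxK
    (gen_baseChange L x hx hgen) (W.baseChange K) hWK htrK
  obtain ⟨e', h1, h2, h3⟩ := descend W e he1 he2
  refine ⟨e', h1, h2, fun y hy hyW => h3 y ?_⟩
  exact he3 (bc K y) (Submodule.subset_span ⟨y, hy, rfl⟩) (DD_stable (K := K) y W hyW)

end H4S
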