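import Mathlib
import Pool.Agent.Lib.H4S.T1

/-!
# H4S, part F: definitions
-/

set_option autoImplicit false

namespace H4S

open Module Polynomial

/-- The matrix coefficients of `ρ` are continuous. -/
def IsContR {p : ℕ} [Fact p.Prime] {G V : Type*} [Group G] [TopologicalSpace G] [AddCommGroup V]
    [Module ℚ_[p] V] (ρ : Representation ℚ_[p] G V) : Prop :=
  ∀ (v : V) (f : Dual ℚ_[p] V), Continuous fun g => f (ρ g v)

/-- `V` is semisimple over the subset `A` of `G`: every subspace stable under the elements of `A` has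
a complement stable under the elements of `A`. -/
def SSOn {k G V : Type*} [Field k] [Group G] [AddCommGroup V] [Module k V]
    (ρ : Representation k G V) (A : Set G) : Prop :=
  ∀ W : Submodule k V, (∀ g ∈ A, ∀ x ∈ W, ρ g x ∈ W) →
    ∃ W' : Submodule k V, (∀ g ∈ A, ∀ x ∈ W', ρ g x ∈ W') ∧ IsCompl W W'

/-- `z` is the list of the roots of the monic integral polynomial `P` in `K`. -/
def RootL (P : ℤ[X]) {K : Type*} [Field K] {n : ℕ} (z : Fin n → K) : Prop :=
  P.map (algebraMap ℤ K) = ∏ i, (X - C (z i))

/-- The multiplicative relations of the roots of a monic integral polynomial of degree `n` all of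
whose complex roots have absolute value `q^(w/2)`, `q` prime, form one of the spaces in `S`. -/
def RelList (n w : ℕ) (S : Set (Submodule ℚ (Fin n → ℚ))) : Prop :=
  ∀ (q : ℕ), q.Prime → ∀ P : ℤ[X], (∀ z : ℂ, aeval z P = 0 → ‖z‖ ^ 2 = (q : ℝ) ^ w) →
    ∀ (K : Type) [Field K] [CharZero K] (z : Fin n → K), RootL P z →
      ∃ M ∈ S, ∀ m, m ∈ M ↔ MRel z m

end H4S
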