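import Mathlib
import Pool.Agent.Lib.H4S.F0

/-!
# H4S, chunk FA1: absolute values of roots in the algebraic closure of `ℚ_q`
-/

set_option autoImplicit false

namespace H4S

open Module Polynomial

section fa1aux

variable {p : ℕ} [hp : Fact p.Prime]

theorem fa1_int (c : ℤ) : ‖(c : PadicAlgCl p)‖ ≤ 1 := by
  have h1 : (c : PadicAlgCl p) = algebraMap ℚ_[p] (PadicAlgCl p) (c : ℚ_[p]) := by simp
  rw [h1, PadicAlgCl.norm_extends]
  exact Padic.norm_int_le_one c

/-- Integral polynomials take small values at small points. -/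
theorem fa1_aeval (R : ℤ[X]) (z : PadicAlgCl p) (hz : ‖z‖ ≤ 1) : ‖aeval z R‖ ≤ 1 := by
  rw [aeval_eq_sum_range]
  refine IsUltrametricDist.norm_sum_le_of_forall_le_of_nonneg zero_le_one fun i _ => ?_
  rw [zsmul_eq_mul, norm_mul, norm_pow]
  calc ‖((R.coeff i : ℤ) : PadicAlgCl p)‖ * ‖z‖ ^ i ≤ 1 * 1 := by
        gcongr
        · exact fa1_int _
        · exact pow_le_one₀ (norm_nonneg _) hz
    _ = 1 := one_mul 1

/-- Integral elements have norm at most `1`. -/
theorem fa1_le_one (P : ℤ[X]) (hP : P.Monic) (z : PadicAlgCl p) (hz : aeval z P = 0) :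
    ‖z‖ ≤ 1 := by
  by_contra hcon
  push Not at hcon
  have h1 := hP.as_sum
  set n := P.natDegree with hn
  rw [h1, map_add, map_pow, aeval_X, map_sum] at hz
  have h2 : z ^ n = -∑ i ∈ Finset.range n, aeval z (C (P.coeff i) * X ^ i) :=
    eq_neg_of_add_eq_zero_left hz
  have hpos : 0 < ‖z‖ := lt_trans one_pos hcon
  have hnpos : 0 < n := by
    rcases Nat.eq_zero_or_pos n with h | h
    · rw [h] at h2
      simp at h2
    · exact h
  have h3 : ‖z‖ ^ n ≤ ‖z‖ ^ (n - 1) := by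
    rw [← norm_pow, h2, norm_neg]
    refine IsUltrametricDist.norm_sum_le_of_forall_le_of_nonneg (by positivity) fun i hi => ?_
    rw [map_mul, aeval_C, map_pow, aeval_X, norm_mul, norm_pow]
    have hi' : i ≤ n - 1 := by
      have := Finset.mem_range.1 hi
      omega
    have h4 : ‖(algebraMap ℤ (PadicAlgCl p)) (P.coeff i)‖ ≤ 1 := by
      have h5 : (algebraMap ℤ (PadicAlgCl p)) (P.coeff i) = ((P.coeff i : ℤ) : PadicAlgCl p) := by
        simp
      rw [h5]
      exact fa1_int _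
    calc ‖(algebraMap ℤ (PadicAlgCl p)) (P.coeff i)‖ * ‖z‖ ^ i ≤ 1 * ‖z‖ ^ (n - 1) := by
          gcongr
          exact hcon.le
      _ = ‖z‖ ^ (n - 1) := one_mul _
  have h5 : ‖z‖ ^ (n - 1) < ‖z‖ ^ n := pow_lt_pow_right₀ hcon (by omega)
  exact absurd h3 (not_le.2 h5)

/-- The lower bound. -/
theorem fa1_ge (P : ℤ[X]) (hP : P.Monic) (z : PadicAlgCl p) (hz : aeval z P = 0) :
    ‖((P.coeff 0 : ℤ) : PadicAlgCl p)‖ ≤ ‖z‖ := by
  have h1 := congrArg (aeval z) (divX_mul_X_add P)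
  rw [map_add, map_mul, aeval_X, aeval_C, hz] at h1
  have h2 : ((P.coeff 0 : ℤ) : PadicAlgCl p) = -(aeval z P.divX * z) := by
    have h3 : (algebraMap ℤ (PadicAlgCl p)) (P.coeff 0) = ((P.coeff 0 : ℤ) : PadicAlgCl p) := by
      simp
    rw [h3] at h1
    exact eq_neg_of_add_eq_zero_right h1
  rw [h2, norm_neg, norm_mul]
  calc ‖aeval z P.divX‖ * ‖z‖ ≤ 1 * ‖z‖ := by
        gcongr
        exact fa1_aeval _ z (fa1_le_one P hP z hz)
    _ = ‖z‖ := one_mul _

theorem fa1_norm_int (c : ℤ) : ‖(c : PadicAlgCl p)‖ = ‖((c.natAbs : ℕ) : ℚ_[p])‖ := by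
  have h1 : (c : PadicAlgCl p) = algebraMap ℚ_[p] (PadicAlgCl p) (c : ℚ_[p]) := by simp
  rw [h1, PadicAlgCl.norm_extends]
  rcases Int.natAbs_eq c with h | h
  · rw [h]; simp
  · rw [h]; simp

end fa1aux

/-- **FA1a** (M). Let `P` be a monic integral polynomial of degree `n` with `|P(0)| = q^k` and `z` a
root in the algebraic closure of `ℚ_q`. Then `‖z‖^(n!) = q^(-s)` with a natural number
`s <= n! k`.

Proof. Let `μ` be the minimal polynomial of `z` over `ℚ_q`, of degree `d <= n`. All roots of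
`μ` have the same norm (`spectralNorm`; `PadicAlgCl` norm is the spectral norm, invariant under
automorphisms / defined by the minimal polynomial), so `‖z‖^d = ‖μ(0)‖`, which is `q^(-t)` with
an integer `t` (`Padic.norm_values`), so `‖z‖^(n!) = q^(-t n!/d)`. `z` is integral, `‖z‖ <= 1`, so
`t >= 0`. All roots of `P` have norm at most `1` and their product has norm `‖P(0)‖ = q^(-k)`, so
`‖z‖ >= q^(-k)` and `s = t n!/d <= n! k`. -/
theorem norm_root_pow (q : ℕ) [hq : Fact q.Prime] {n : ℕ} (P : ℤ[X]) (hP : P.Monic)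
    (hn : P.natDegree = n) (k : ℕ) (hk : (P.coeff 0).natAbs = q ^ k) (z : PadicAlgCl q)
    (hz : aeval z P = 0) :
    ∃ s : ℕ, s ≤ n.factorial * k ∧ ‖z‖ ^ n.factorial = ((q : ℝ) ^ s)⁻¹ := by
  classical
  have hq1 : (1 : ℝ) < q := by exact_mod_cast hq.out.one_lt
  have hq0 : (0 : ℝ) < q := lt_trans one_pos hq1
  have hle := fa1_le_one P hP z hz
  have hge := fa1_ge P hP z hz
  rw [fa1_norm_int, hk, Nat.cast_pow, norm_pow, Padic.norm_p, inv_pow] at hge
  have hzpos : 0 < ‖z‖ := lt_of_lt_of_le (by positivity) hge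
  have hz0 : z ≠ 0 := norm_pos_iff.1 hzpos
  have hint : IsIntegral ℚ_[q] z := Algebra.IsIntegral.isIntegral z
  set μ := minpoly ℚ_[q] z with hμ
  set d := μ.natDegree with hd
  have hdpos : 0 < d := minpoly.natDegree_pos hint
  have hdn : d ≤ n := by
    have h1 : μ ∣ P.map (algebraMap ℤ ℚ_[q]) := by
      apply minpoly.dvd
      rw [aeval_def, eval₂_map]
      have h2 : (algebraMap ℚ_[q] (PadicAlgCl q)).comp (algebraMap ℤ ℚ_[q]) =
        algebraMap ℤ (PadicAlgCl q) := RingHom.ext_int _ _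
      rw [h2, ← aeval_def]
      exact hz
    have h3 := natDegree_le_of_dvd h1 (hP.map _).ne_zero
    rwa [hP.natDegree_map, hn] at h3
  have hdvd : d ∣ n.factorial := Nat.dvd_factorial hdpos hdn
  obtain ⟨e, he⟩ := hdvd
  have hμ0 : μ.coeff 0 ≠ 0 := minpoly.coeff_zero_ne_zero hint hz0
  have hnorm : ‖z‖ ^ d = ‖μ.coeff 0‖ := by
    have h1 : ‖z‖ = ‖μ.coeff 0‖ ^ (1 / (d : ℝ)) :=
      spectralNorm.spectralNorm_eq_norm_coeff_zero_rpow ℚ_[q] (PadicAlgCl q) z
    rw [h1, ← Real.rpow_natCast, ← Real.rpow_mul (norm_nonneg _), one_div,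
      inv_mul_cancel₀ (by exact_mod_cast hdpos.ne'), Real.rpow_one]
  rw [Padic.norm_eq_zpow_neg_valuation hμ0] at hnorm
  have ht : 0 ≤ (μ.coeff 0).valuation := by
    by_contra hneg
    push Not at hneg
    have h1 : (1 : ℝ) < (q : ℝ) ^ (-(μ.coeff 0).valuation) := one_lt_zpow₀ hq1 (by omega)
    rw [← hnorm] at h1
    exact absurd h1 (not_lt.2 (pow_le_one₀ (norm_nonneg _) hle))
  obtain ⟨t, ht'⟩ := Int.eq_ofNat_of_zero_le ht
  rw [ht', zpow_neg] at hnorm
  have hnorm' : ‖z‖ ^ d = ((q : ℝ) ^ t)⁻¹ := by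
    rw [hnorm]
    congr 1
  have hfin : ‖z‖ ^ n.factorial = ((q : ℝ) ^ (t * e))⁻¹ := by
    rw [he, pow_mul, hnorm', inv_pow, pow_mul]
  refine ⟨t * e, ?_, hfin⟩
  have h1 : ((q : ℝ) ^ (n.factorial * k))⁻¹ ≤ ‖z‖ ^ n.factorial := by
    calc ((q : ℝ) ^ (n.factorial * k))⁻¹ = (((q : ℝ) ^ k)⁻¹) ^ n.factorial := by
          rw [inv_pow, ← pow_mul, mul_comm]
      _ ≤ ‖z‖ ^ n.factorial := by gcongr
  rw [hfin] at h1
  have h2 : (q : ℝ) ^ (t * e) ≤ (q : ℝ) ^ (n.factorial * k) := by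
    rwa [inv_le_inv₀ (by positivity) (by positivity)] at h1
  exact (pow_le_pow_iff_right₀ hq1).1 h2

/-- **FA1b** (S/M). At a prime `p` different from `q` the roots of `P` are units.

Proof. They are integral, of norm at most `1`, and their product is `± P(0) = ± q^k`, of norm `1`. -/
theorem norm_root_one (q p : ℕ) (hq : q.Prime) [hp : Fact p.Prime] (hqp : q ≠ p) {n : ℕ} (P : ℤ[X])
    (hP : P.Monic) (hn : P.natDegree = n) (k : ℕ) (hk : (P.coeff 0).natAbs = q ^ k)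
    (z : PadicAlgCl p) (hz : aeval z P = 0) : ‖z‖ = 1 := by
  have hle := fa1_le_one P hP z hz
  have hge := fa1_ge P hP z hz
  rw [fa1_norm_int, hk, Nat.cast_pow, norm_pow] at hge
  have h1 : ‖((q : ℕ) : ℚ_[p])‖ = 1 := by
    rw [Padic.norm_natCast_eq_one_iff]
    exact (Nat.coprime_primes hp.out hq).2 (Ne.symm hqp)
  rw [h1, one_pow] at hge
  exact le_antisymm hle hge

end H4S
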