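import Mathlib
import Pool.Agent.Lib.H4S.F0

/-!
# H4S, chunk FA2: integrality from absolute values
-/

set_option autoImplicit false

namespace H4S

open Module Polynomial

theorem fa2_coeff {K : Type*} [NormedField K] [IsUltrametricDist K] (s : Multiset K)
    (hs : ∀ a ∈ s, ‖a‖ ≤ 1) (i : ℕ) : ‖((s.map fun a => X - C a).prod).coeff i‖ ≤ 1 := by
  induction s using Multiset.induction_on generalizing i with
  | empty =>
    rw [Multiset.map_zero, Multiset.prod_zero, coeff_one]
    split_ifs
    · simp
    · simp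
  | cons a s ih =>
    have ih' := ih fun b hb => hs b (Multiset.mem_cons_of_mem hb)
    rw [Multiset.map_cons, Multiset.prod_cons, sub_mul, coeff_sub, coeff_C_mul]
    have h1 : ‖(X * (s.map fun a => X - C a).prod).coeff i‖ ≤ 1 := by
      rcases i with _ | i
      · rw [coeff_X_mul_zero, norm_zero]; exact zero_le_one
      · rw [coeff_X_mul]; exact ih' i
    have h2 : ‖a * ((s.map fun a => X - C a).prod).coeff i‖ ≤ 1 := by
      rw [norm_mul]
      exact mul_le_one₀ (hs a (Multiset.mem_cons_self a s)) (norm_nonneg _) (ih' i)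
    rw [sub_eq_add_neg]
    refine (IsUltrametricDist.norm_add_le_max _ _).trans (max_le h1 ?_)
    rw [norm_neg]
    exact h2

theorem fa2_rat (r : ℚ) (h : ∀ (q : ℕ) [Fact q.Prime], ‖(r : ℚ_[q])‖ ≤ 1) :
    ∃ m : ℤ, (m : ℚ) = r := by
  have hden : r.den = 1 := by
    by_contra hne
    obtain ⟨q, hq, hqd⟩ := Nat.exists_prime_and_dvd hne
    have : Fact q.Prime := ⟨hq⟩
    have h1 := h q
    have h2 : ((r.den : ℕ) : ℚ_[q]) * (r : ℚ_[q]) = ((r.num : ℤ) : ℚ_[q]) := by
      have h3 : ((r.den : ℚ) * r) = (r.num : ℚ) := Rat.den_mul_eq_num r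
      exact_mod_cast congrArg (fun x : ℚ => (x : ℚ_[q])) h3
    have h4 : ‖((r.den : ℕ) : ℚ_[q])‖ < 1 := (Padic.norm_natCast_lt_one_iff).2 hqd
    have h5 : ‖((r.num : ℤ) : ℚ_[q])‖ < 1 := by
      rw [← h2, norm_mul]
      exact mul_lt_one_of_nonneg_of_lt_one_left (norm_nonneg _) h4 h1
    have h6 : (q : ℤ) ∣ r.num := (Padic.norm_intCast_lt_one_iff).1 h5
    have h7 : q ∣ r.num.natAbs := Int.natCast_dvd.1 h6
    have h8 : q ∣ Nat.gcd r.num.natAbs r.den := Nat.dvd_gcd h7 hqd
    rw [r.reduced] at h8
    exact hq.one_lt.ne' (Nat.dvd_one.1 h8)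
  exact ⟨r.num, Rat.den_eq_one_iff r |>.1 hden⟩

/-- **FA2** (M). An element of a number field all of whose images in the algebraic closures of the
fields `ℚ_q` have norm at most `1` is an algebraic integer.

Proof. Let `μ` be the minimal polynomial of `u` over `ℚ`, monic. Let `q` be a prime. The roots of `μ` in
`PadicAlgCl q` are the images of `u` under the embeddings of `ℚ(u)`, each of which extends to an
embedding `τ` of `L` (`PadicAlgCl q` is algebraically closed, `L` algebraic over `ℚ(u)`;
`Algebra.IsAlgebraic.range_eval_eq_rootSet_minpoly`). So all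
roots have norm at most `1`, hence the coefficients of `μ` (up to sign elementary symmetric
functions of the roots) have `q`-adic norm at most `1`. As this holds for all `q`, the coefficients are
integers (`padicNorm.int_of_...`: a rational number whose denominator is divisible by no prime), and
`u` is integral over `ℤ`. -/
theorem isIntegral_of_padic {L : Type*} [Field L] [NumberField L] (u : L)
    (h : ∀ (q : ℕ) [Fact q.Prime] (τ : L →+* PadicAlgCl q), ‖τ u‖ ≤ 1) : IsIntegral ℤ u := by
  classical
  have hint : IsIntegral ℚ u := Algebra.IsIntegral.isIntegral u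
  have hmon := minpoly.monic hint
  have hcoef : ∀ i, ∃ m : ℤ, (m : ℚ) = (minpoly ℚ u).coeff i := by
    intro i
    apply fa2_rat
    intro q hq
    set K := PadicAlgCl q
    have hsp : ((minpoly ℚ u).map (algebraMap ℚ K)).Splits := IsAlgClosed.splits _
    have hroots : ∀ a ∈ ((minpoly ℚ u).map (algebraMap ℚ K)).roots, ‖a‖ ≤ 1 := by
      intro a ha
      have h1 : a ∈ (minpoly ℚ u).rootSet K := by
        rw [mem_rootSet]
        refine ⟨hmon.ne_zero, ?_⟩
        have h2 := (mem_roots'.1 ha).2
        rw [IsRoot.def, eval_map_algebraMap] at h2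
        exact h2
      rw [← NumberField.Embeddings.range_eval_eq_rootSet_minpoly L K u] at h1
      obtain ⟨τ, hτ⟩ := h1
      have h3 : τ u = a := hτ
      rw [← h3]
      exact h q τ
    have h4 := fa2_coeff _ hroots i
    rw [← hsp.eq_prod_roots_of_monic (hmon.map _), coeff_map] at h4
    have h5 : (algebraMap ℚ K) ((minpoly ℚ u).coeff i) =
        algebraMap ℚ_[q] K (((minpoly ℚ u).coeff i : ℚ) : ℚ_[q]) := by
      simp
    rw [h5, PadicAlgCl.norm_extends] at h4
    exact h4
  choose m hm using hcoef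
  have hlift : minpoly ℚ u ∈ Polynomial.lifts (algebraMap ℤ ℚ) := by
    rw [Polynomial.lifts_iff_coeff_lifts]
    intro i
    exact ⟨m i, by rw [← hm i]; simp⟩
  obtain ⟨Q, hQ, -, hQm⟩ := Polynomial.lifts_and_natDegree_eq_and_monic hlift hmon
  refine ⟨Q, hQm, ?_⟩
  have h1 : (algebraMap ℚ L).comp (algebraMap ℤ ℚ) = algebraMap ℤ L := RingHom.ext_int _ _
  rw [← h1, ← eval₂_map, hQ, ← aeval_def]
  exact minpoly.aeval ℚ u

end H4S
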