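import Mathlib
import Pool.Agent.Lib.H4S.F0

/-!
# H4S, chunk FA3: lists of roots in the splitting field, transfer between fields
-/

set_option autoImplicit false

namespace H4S

open Module Polynomial

theorem fa3_monic {P : ℤ[X]} {K : Type*} [Field K] [CharZero K] {n : ℕ} {z : Fin n → K}
    (hz : RootL P z) : P.Monic := by
  have h1 : (P.map (algebraMap ℤ K)).Monic := by
    rw [show P.map (algebraMap ℤ K) = _ from hz]
    exact monic_prod_of_monic _ _ fun i _ => monic_X_sub_C _
  exact Polynomial.monic_of_injective (algebraMap ℤ K).injective_int h1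

theorem fa3_roots {K : Type*} [Field K] {n : ℕ} (z : Fin n → K) :
    (∏ i, (X - C (z i))).roots = Finset.univ.val.map z := by
  have h := Polynomial.roots_multiset_prod_X_sub_C (Finset.univ.val.map z)
  rw [Multiset.map_map] at h
  exact h

theorem fa3_list {α : Type*} {n : ℕ} (s : Multiset α) (hs : Multiset.card s = n) :
    ∃ y : Fin n → α, Finset.univ.val.map y = s := by
  obtain ⟨l, rfl⟩ := Quot.exists_rep s
  have hl : l.length = n := hs
  subst hl
  refine ⟨l.get, ?_⟩
  have h1 : (Finset.univ.val.map l.get : Multiset α) = ((List.ofFn l.get : List α) : Multiset α) := by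
    rw [Fin.univ_val_map]
  rw [h1, List.ofFn_get]
  rfl

/-- **FA3d** (S). Permutations of an eigenvalue or root list. -/
theorem exists_perm_of_prod {K : Type*} [Field K] {n : ℕ} (z z' : Fin n → K)
    (h : ∏ i, (X - C (z i)) = ∏ i, (X - C (z' i))) :
    ∃ π : Equiv.Perm (Fin n), ∀ i, z' i = z (π i) := by
  classical
  have h1 : Finset.univ.val.map z = Finset.univ.val.map z' := by
    rw [← fa3_roots z, ← fa3_roots z', h]
  have h2 : ∀ (x : Fin n → K) (a : K), Fintype.card {i // x i = a} =
      Multiset.count a (Finset.univ.val.map x) := by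
    intro x a
    rw [Multiset.count_map, Fintype.card_subtype]
    have h3 : (fun i => x i = a) = fun i => a = x i := by
      funext i
      exact propext eq_comm
    simp only [h3]
    rfl
  have h4 : ∀ a : K, Fintype.card {i // z' i = a} = Fintype.card {i // z i = a} := by
    intro a
    rw [h2, h2, h1]
  let e : ∀ a : K, {i // z' i = a} ≃ {i // z i = a} := fun a => Fintype.equivOfCardEq (h4 a)
  exact ⟨Equiv.ofFiberEquiv e, fun i => (Equiv.ofFiberEquiv_map e i).symm⟩

theorem fa3_gal (L : Type) [Field L] [hA : Algebra ℚ L] [CharZero L] [hg : IsGalois ℚ L] :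
    @IsGalois ℚ _ L _ DivisionRing.toRatAlgebra := by
  have h : hA = DivisionRing.toRatAlgebra := Subsingleton.elim _ _
  subst h
  exact hg

theorem fa3_splitK {k : Type} [Field k] [CharZero k] (Q : k[X]) :
    IsGalois k Q.SplittingField := by
  have hN : Normal k Q.SplittingField := Normal.of_isSplittingField Q
  exact ⟨⟩

theorem fa3_split_gal (Q : ℚ[X]) :
    @IsGalois ℚ _ Q.SplittingField _ DivisionRing.toRatAlgebra :=
  @fa3_gal Q.SplittingField _ _ _ (fa3_splitK Q)

/-- **FA3a** (M). A list of roots in a field `K` of characteristic zero comes from a list of roots in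
a number field, Galois over `ℚ`.

Proof. Take for `L` the splitting field of `P` over `ℚ`; `P` splits in `K` (it is a product of linear
factors), so `L` embeds in `K` (`IsSplittingField.lift`); the image contains all roots of `P` in
`K`, so `z_i = ψ y_i`, and `RootL P y` since `ψ` is injective. -/
theorem exists_galois_list (P : ℤ[X]) {K : Type} [Field K] [CharZero K] {n : ℕ} (z : Fin n → K)
    (hz : RootL P z) :
    ∃ (L : Type) (_ : Field L) (_ : NumberField L) (_ : IsGalois ℚ L) (ψ : L →+* K)
      (y : Fin n → L), RootL P y ∧ ∀ i, ψ (y i) = z i := by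
  classical
  set Q : ℚ[X] := P.map (algebraMap ℤ ℚ) with hQ
  have hPm := fa3_monic hz
  let L := Q.SplittingField
  have hnf : NumberField L := ⟨⟩
  have hgal : @IsGalois ℚ _ L _ DivisionRing.toRatAlgebra := fa3_split_gal Q
  have hQK : Q.map (algebraMap ℚ K) = ∏ i, (X - C (z i)) := by
    rw [hQ, Polynomial.map_map]
    have h1 : P.map (algebraMap ℤ K) = ∏ i, (X - C (z i)) := hz
    rw [← h1]
    congr 1
    exact RingHom.ext_int _ _
  have hsplit : (Q.map (algebraMap ℚ K)).Splits := by
    rw [hQK]
    exact Polynomial.Splits.prod fun i _ => Polynomial.Splits.X_sub_C _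
  let ψ : L →ₐ[ℚ] K := SplittingField.lift Q hsplit
  have hsp : (Q.map (algebraMap ℚ L)).Splits := SplittingField.splits Q
  have hQm : Q.Monic := hPm.map _
  have hroots : (Q.map (algebraMap ℚ K)).roots = (Q.map (algebraMap ℚ L)).roots.map ψ := by
    have h1 : (Q.map (algebraMap ℚ K)) = (Q.map (algebraMap ℚ L)).map (ψ : L →+* K) := by
      have h2 : (ψ : L →+* K).comp (algebraMap ℚ L) = algebraMap ℚ K := ψ.comp_algebraMap
      rw [← h2, ← Polynomial.map_map]
    rw [h1, hsp.roots_map]
    rfl
  have hcard : Multiset.card (Q.map (algebraMap ℚ L)).roots = n := by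
    have h1 := congrArg Multiset.card hroots
    rw [hQK, fa3_roots, Multiset.card_map, Multiset.card_map] at h1
    rw [← h1]
    simp
  obtain ⟨y0, hy0⟩ := fa3_list _ hcard
  have hy0K : ∏ i, (X - C (ψ (y0 i))) = ∏ i, (X - C (z i)) := by
    have h1 : Finset.univ.val.map (fun i => ψ (y0 i)) = Finset.univ.val.map z := by
      rw [← fa3_roots z, ← hQK, hroots, ← hy0, Multiset.map_map]
      rfl
    have h2 : ∀ x : Fin n → K, ∏ i, (X - C (x i)) =
        ((Finset.univ.val.map x).map (fun a => X - C a)).prod := by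
      intro x
      rw [Multiset.map_map]
      rfl
    rw [h2, h2, h1]
  obtain ⟨π, hπ⟩ := exists_perm_of_prod (fun i => ψ (y0 i)) z hy0K
  refine ⟨L, inferInstance, hnf, hgal, (ψ : L →+* K), fun i => y0 (π i), ?_, fun i => (hπ i).symm⟩
  have hinj : Function.Injective (Polynomial.map (ψ : L →+* K)) :=
    Polynomial.map_injective _ (ψ : L →+* K).injective
  unfold RootL
  apply hinj
  rw [Polynomial.map_map, Polynomial.map_prod]
  have h1 : P.map (algebraMap ℤ K) = ∏ i, (X - C (z i)) := hz
  have h2 : ∀ f : ℤ →+* L, (ψ : L →+* K).comp f = algebraMap ℤ K := fun f => RingHom.ext_int _ _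
  rw [h2, h1]
  refine Finset.prod_congr rfl fun i _ => ?_
  rw [Polynomial.map_sub, Polynomial.map_X, Polynomial.map_C, hπ i]
  rfl

/-- **FA3b** (S). Relations are preserved by field embeddings. -/
theorem mrel_map {K L : Type*} [Field K] [Field L] (ψ : L →+* K) {n : ℕ} (y : Fin n → L)
    (m : Fin n → ℚ) : MRel (fun i => ψ (y i)) m ↔ MRel y m := by
  have h1 : ∀ a : Fin n → ℤ, ∏ i, ψ (y i) ^ a i = ψ (∏ i, y i ^ a i) := by
    intro a
    rw [map_prod]
    exact Finset.prod_congr rfl fun i _ => (map_zpow₀ ψ _ _).symm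
  constructor
  · rintro ⟨N, hN, a, ha, hp⟩
    refine ⟨N, hN, a, ha, ?_⟩
    rw [h1, ← map_one ψ] at hp
    exact ψ.injective hp
  · rintro ⟨N, hN, a, ha, hp⟩
    refine ⟨N, hN, a, ha, ?_⟩
    rw [h1, hp, map_one]

/-- **FA3c** (M, uses FA3a, FA3b). The relations between the roots of `P` do not depend on the field, up
to the order of the roots.

Proof. Let `L` be the splitting field of `P`; it embeds in `K` and in `K'`, and (as in FA3a) the two
lists come from two lists `y, y'` of the roots of `P` in `L`. From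
`∏ (X - y_i) = ∏ (X - y'_i)` the lists differ by a permutation (equality of multisets of roots). -/
theorem mrel_transfer (P : ℤ[X]) {K K' : Type} [Field K] [CharZero K] [Field K'] [CharZero K']
    {n : ℕ} (z : Fin n → K) (hz : RootL P z) (z' : Fin n → K') (hz' : RootL P z') :
    ∃ π : Equiv.Perm (Fin n), ∀ m : Fin n → ℚ, MRel z' m ↔ MRel z (fun i => m (π i)) := by
  classical
  obtain ⟨L, _, _, _, ψ, y, hy, hψ⟩ := exists_galois_list P z hz
  -- embed L in an algebraically closed field containing K'
  let K2 := AlgebraicClosure K'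
  have halg : Algebra.IsAlgebraic ℚ L := inferInstance
  let φ : L →ₐ[ℚ] K2 := IsAlgClosed.lift
  have h1 : ∏ i, (X - C (algebraMap K' K2 (z' i))) = ∏ i, (X - C (φ (y i))) := by
    have e1 : P.map (algebraMap ℤ K2) = ∏ i, (X - C (algebraMap K' K2 (z' i))) := by
      have h2 : (algebraMap K' K2).comp (algebraMap ℤ K') = algebraMap ℤ K2 := RingHom.ext_int _ _
      rw [← h2, ← Polynomial.map_map, show P.map (algebraMap ℤ K') = _ from hz',
        Polynomial.map_prod]
      refine Finset.prod_congr rfl fun i _ => ?_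
      rw [Polynomial.map_sub, Polynomial.map_X, Polynomial.map_C]
    have e2 : P.map (algebraMap ℤ K2) = ∏ i, (X - C (φ (y i))) := by
      have h2 : (φ : L →+* K2).comp (algebraMap ℤ L) = algebraMap ℤ K2 := RingHom.ext_int _ _
      rw [← h2, ← Polynomial.map_map, show P.map (algebraMap ℤ L) = _ from hy,
        Polynomial.map_prod]
      refine Finset.prod_congr rfl fun i _ => ?_
      rw [Polynomial.map_sub, Polynomial.map_X, Polynomial.map_C]
      rfl
    rw [← e1, e2]
  obtain ⟨π, hπ⟩ := exists_perm_of_prod _ _ h1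
  -- φ (y i) = z' (π i)
  refine ⟨π, fun m => ?_⟩
  have h3 : MRel z (fun i => m (π i)) ↔ MRel y (fun i => m (π i)) := by
    have h4 : z = fun i => ψ (y i) := funext fun i => (hψ i).symm
    rw [h4]
    exact mrel_map ψ y _
  have h5 : MRel z' m ↔ MRel (fun i => algebraMap K' K2 (z' i)) m :=
    (mrel_map (algebraMap K' K2) z' m).symm
  have h6 : MRel y (fun i => m (π i)) ↔ MRel (fun i => algebraMap K' K2 (z' (π i)))
      (fun i => m (π i)) := by
    have h7 : (fun i => algebraMap K' K2 (z' (π i))) = fun i => (φ : L →+* K2) (y i) :=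
      funext fun i => (hπ i).symm
    rw [h7]
    exact (mrel_map (φ : L →+* K2) y _).symm
  rw [h3, h5, h6]
  constructor
  · rintro ⟨N, hN, a, ha, hp⟩
    refine ⟨N, hN, fun i => a (π i), fun i => ha _, ?_⟩
    rw [← hp]
    exact Equiv.prod_comp π (fun i => algebraMap K' K2 (z' i) ^ a i)
  · rintro ⟨N, hN, a, ha, hp⟩
    refine ⟨N, hN, fun i => a (π.symm i), fun i => ?_, ?_⟩
    · rw [ha]
      simp
    · rw [← hp, ← Equiv.prod_comp π]
      refine Finset.prod_congr rfl fun i _ => ?_
      simp

end H4S
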