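import Mathlib
import Pool.Agent.Lib.H4S.FA1
import Pool.Agent.Lib.H4S.FA2
import Pool.Agent.Lib.H4S.FA3
import Pool.Agent.Lib.H4S.TL

/-!
# H4S, chunk FA: the finite list of relation spaces
-/

set_option autoImplicit false

namespace H4S

open Module Polynomial

section faaux

theorem fa_prod {n : ℕ} (q : ℝ) (hq : q ≠ 0) (t : Fin n → ℕ) (a : Fin n → ℤ) :
    ∏ i, ((q ^ t i)⁻¹) ^ a i = q ^ (-∑ i, a i * (t i : ℤ)) := by
  classical
  have h : ∀ s : Finset (Fin n), ∏ i ∈ s, ((q ^ t i)⁻¹) ^ a i =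
      q ^ (-∑ i ∈ s, a i * (t i : ℤ)) := by
    intro s
    induction s using Finset.induction_on with
    | empty => simp
    | insert i s hi ih =>
      rw [Finset.prod_insert hi, Finset.sum_insert hi, ih, neg_add, zpow_add₀ hq]
      congr 1
      rw [← zpow_natCast, ← zpow_neg, ← zpow_mul]
      congr 1
      ring
  exact h Finset.univ

theorem fa_prod_const {n : ℕ} (x : ℝ) (hx : x ≠ 0) (a : Fin n → ℤ) :
    ∏ i, x ^ a i = x ^ (∑ i, a i) := by
  classical
  have h : ∀ s : Finset (Fin n), ∏ i ∈ s, x ^ a i = x ^ (∑ i ∈ s, a i) := by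
    intro s
    induction s using Finset.induction_on with
    | empty => simp
    | insert i s hi ih =>
      rw [Finset.prod_insert hi, Finset.sum_insert hi, ih, zpow_add₀ hx]
  exact h Finset.univ

/-- The space of relations attached to `s` and `Γ`. -/
def faM (w : ℕ) {n : ℕ} (s : Fin n → ℕ) (Γ : Set (Equiv.Perm (Fin n))) :
    Submodule ℚ (Fin n → ℚ) where
  carrier := {m | (w : ℚ) * ∑ i, m i = 0 ∧ ∀ π ∈ Γ, ∑ i, m i * (s (π i) : ℚ) = 0}
  add_mem' := by
    rintro m m' ⟨h1, h2⟩ ⟨h1', h2'⟩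
    refine ⟨?_, fun π hπ => ?_⟩
    · simp only [Pi.add_apply, Finset.sum_add_distrib, mul_add, h1, h1', add_zero]
    · simp only [Pi.add_apply, add_mul, Finset.sum_add_distrib, h2 π hπ, h2' π hπ, add_zero]
  zero_mem' := by
    refine ⟨by simp, fun π _ => by simp⟩
  smul_mem' := by
    rintro c m ⟨h1, h2⟩
    refine ⟨?_, fun π hπ => ?_⟩
    · simp only [Pi.smul_apply, smul_eq_mul, ← Finset.mul_sum]
      rw [mul_left_comm, h1, mul_zero]
    · simp only [Pi.smul_apply, smul_eq_mul, mul_assoc, ← Finset.mul_sum, h2 π hπ, mul_zero]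

end faaux

/-- **FA** (L). There is a finite list of relation spaces.

Proof. For a function `s : Fin n -> ℕ` with values at most `n! n w` and a set `Γ` of permutations of
`Fin n` let `M(s, Γ)` be the space of all rational vectors `m` with `w sum_i m_i = 0` and
`sum_i m_i s(π i) = 0` for all `π` in `Γ`. There are finitely many; let `S` be the set of all of them.
Let `P, q, K, z` be given; `P` is monic of degree `n` (it is a product of `n` monic linear
factors in `K`, characteristic zero). By `exists_galois_list` and `mrel_map` we may assume that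
`K = L` is a number field Galois over `ℚ`, `z = y`. The product of the complex roots of `P` is
`± P(0)`, so `|P(0)|^2 = q^(w n)`, and `|P(0)| = q^k` with `2k = w n`. Fix an embedding `τ` of `L` in
`PadicAlgCl q`. By `norm_root_pow` `‖τ y_i‖^(n!) = q^(-s_i)` with `s_i <= n! k <= n! n w`. Let `Γ` be
the set of all permutations `π` such that some automorphism `σ` of `L` satisfies
`σ y_i = y_(π i)` for all `i`; every automorphism `σ` gives at least one such `π` (`σ` permutes the list
of roots, `exists_perm_of_prod`).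
Claim: `m` in `M(s, Γ)` iff `MRel y m`.
(=>) Let `N > 0` with `a = N m` integral, `u = ∏ y_i^(a_i)`. The `y_i` are not zero. For each
automorphism `σ` with permutation `π`: `‖τ (σ u)‖^(n!) = ∏ ‖τ y_(π i)‖^(n! a_i) =
q^(- sum_i a_i s(π i)) = 1`. Every embedding of `L` in `PadicAlgCl q` is `τ ∘ σ` for some
automorphism `σ` (`L` normal over `ℚ`), so all embeddings in `PadicAlgCl q` map `u` to norm `1`. For a
prime `p <> q` every embedding maps each `y_i` to norm `1` by `norm_root_one`, so also `u`. By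
`isIntegral_of_padic` `u` is an algebraic integer. Every complex embedding maps each `y_i` to
absolute value `q^(w/2)`, and `u` to `q^(w/2 sum a_i) = 1`, since `w sum_i a_i = 0`. By
Kronecker (`NumberField.Embeddings.pow_eq_one_of_norm_eq_one`) `u^(N') = 1` for some `N' > 0`, so
`MRel y m` with `N N'`, `N' a`.
(<=) If `∏ y_i^(a_i) = 1`, `a = N m`, apply `σ`, `τ` and norms: `sum_i a_i s(π i) = 0`; apply a complex
embedding: `w sum_i a_i = 0`. Divide by `N`. -/
theorem finite_relList (n w : ℕ) :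
    ∃ S : Set (Submodule ℚ (Fin n → ℚ)), S.Finite ∧ RelList n w S := by
  classical
  set B := n.factorial * (w * n) with hB
  refine ⟨Set.range fun x : (Fin n → Fin (B + 1)) × Set (Equiv.Perm (Fin n)) =>
    faM w (fun i => (x.1 i : ℕ)) x.2, Set.finite_range _, ?_⟩
  intro q hq P hP K _ _ z hz
  have hqf : Fact q.Prime := ⟨hq⟩
  obtain ⟨L, _, _, _, ψ, y, hy, hψ⟩ := exists_galois_list P z hz
  have hPm := fa3_monic hz
  have hq0 : (q : ℝ) ≠ 0 := by exact_mod_cast hq.ne_zero
  have hq1 : (1 : ℝ) < q := by exact_mod_cast hq.one_lt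
  -- root lists in any field
  have hmapL : ∀ {K' : Type} [Field K'] [CharZero K'] (φ : L →+* K'),
      P.map (algebraMap ℤ K') = ∏ i, (X - C (φ (y i))) := by
    intro K' _ _ φ
    have h2 : φ.comp (algebraMap ℤ L) = algebraMap ℤ K' := RingHom.ext_int _ _
    rw [← h2, ← Polynomial.map_map, show P.map (algebraMap ℤ L) = _ from hy, Polynomial.map_prod]
    refine Finset.prod_congr rfl fun i _ => ?_
    rw [Polynomial.map_sub, Polynomial.map_X, Polynomial.map_C]
  have hroot : ∀ {K' : Type} [Field K'] [CharZero K'] (φ : L →+* K') (i : Fin n),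
      aeval (φ (y i)) P = 0 := by
    intro K' _ _ φ i
    rw [aeval_def, ← eval_map, hmapL φ, eval_prod]
    exact Finset.prod_eq_zero (Finset.mem_univ i) (by simp)
  have hdeg : P.natDegree = n := by
    have h1 : (P.map (algebraMap ℤ L)).natDegree = n := by
      rw [show P.map (algebraMap ℤ L) = _ from hy, natDegree_finsetProd_X_sub_C_eq_card]
      simp
    rwa [hPm.natDegree_map] at h1
  -- the constant term
  let φ0 : L →+* ℂ := (IsAlgClosed.lift (R := ℚ) (S := L) (M := ℂ)).toRingHom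
  have hcpx : ∀ (φ : L →+* ℂ) i, ‖φ (y i)‖ ^ 2 = (q : ℝ) ^ w := fun φ i => hP _ (hroot φ i)
  have hk0 : ∃ k ≤ w * n, (P.coeff 0).natAbs = q ^ k := by
    have h1 := congrArg (eval 0) (hmapL φ0)
    rw [eval_prod, ← coeff_zero_eq_eval_zero, coeff_map] at h1
    simp only [eval_sub, eval_X, eval_C, zero_sub] at h1
    have h2 := congrArg (fun x : ℂ => ‖x‖ ^ 2) h1
    simp only [norm_prod, norm_neg, ← Finset.prod_pow, hcpx, Finset.prod_const, Finset.card_univ,
      Fintype.card_fin] at h2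
    have h3 : ‖(algebraMap ℤ ℂ) (P.coeff 0)‖ = (((P.coeff 0).natAbs : ℕ) : ℝ) := by
      rw [eq_intCast, Complex.norm_intCast, Nat.cast_natAbs, Int.cast_abs]
    rw [h3] at h2
    have h4 : (P.coeff 0).natAbs ^ 2 = q ^ (w * n) := by
      have h5 : (((P.coeff 0).natAbs : ℕ) : ℝ) ^ 2 = (q : ℝ) ^ (w * n) := by rw [h2, pow_mul]
      exact_mod_cast h5
    have h6 : (P.coeff 0).natAbs ∣ q ^ (w * n) := by
      rw [← h4, sq]; exact dvd_mul_right _ _
    obtain ⟨k, hk, hk'⟩ := (Nat.dvd_prime_pow hq).1 h6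
    exact ⟨k, hk, hk'⟩
  obtain ⟨k, hkle, hk⟩ := hk0
  -- the valuations
  let τ : L →+* PadicAlgCl q := (IsAlgClosed.lift (R := ℚ) (S := L) (M := PadicAlgCl q)).toRingHom
  have hval : ∀ i, ∃ s : ℕ, s ≤ n.factorial * k ∧ ‖τ (y i)‖ ^ n.factorial = ((q : ℝ) ^ s)⁻¹ :=
    fun i => norm_root_pow q P hPm hdeg k hk (τ (y i)) (hroot τ i)
  choose s hsle hs using hval
  let Γ : Set (Equiv.Perm (Fin n)) := {π | ∃ τ' : L →+* PadicAlgCl q, ∀ i, τ' (y i) = τ (y (π i))}
  have hsB : ∀ i, s i < B + 1 := by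
    intro i
    have h1 : n.factorial * k ≤ B := Nat.mul_le_mul_left _ hkle
    have := hsle i
    omega
  refine ⟨faM w s Γ, ⟨(fun i => ⟨s i, hsB i⟩, Γ), rfl⟩, ?_⟩
  have hzy : z = fun i => ψ (y i) := funext fun i => (hψ i).symm
  intro m
  rw [hzy, mrel_map]
  have hfact : n.factorial ≠ 0 := Nat.factorial_ne_zero n
  have hy0 : ∀ i, y i ≠ 0 := by
    intro i h0
    have h1 := hcpx φ0 i
    rw [h0, map_zero, norm_zero] at h1
    have h2 : (0 : ℝ) < (q : ℝ) ^ w := by positivity
    rw [← h1] at h2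
    norm_num at h2
  -- the norm of a product
  have hprodτ : ∀ (τ' : L →+* PadicAlgCl q) (π : Equiv.Perm (Fin n))
      (hπ : ∀ i, τ' (y i) = τ (y (π i))) (a : Fin n → ℤ),
      ‖τ' (∏ i, y i ^ a i)‖ ^ n.factorial = (q : ℝ) ^ (-∑ i, a i * (s (π i) : ℤ)) := by
    intro τ' π hπ a
    rw [map_prod, norm_prod, ← Finset.prod_pow, ← fa_prod (q : ℝ) hq0 (fun i => s (π i)) a]
    refine Finset.prod_congr rfl fun i _ => ?_
    rw [map_zpow₀, norm_zpow, hπ i, ← hs (π i), ← zpow_natCast, ← zpow_natCast, ← zpow_mul,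
      ← zpow_mul, mul_comm]
  have hprodC : ∀ (φ : L →+* ℂ) (a : Fin n → ℤ),
      ‖φ (∏ i, y i ^ a i)‖ ^ 2 = ((q : ℝ) ^ w) ^ (∑ i, a i) := by
    intro φ a
    have hne : ((q : ℝ) ^ w) ≠ 0 := pow_ne_zero _ hq0
    rw [map_prod, norm_prod, ← Finset.prod_pow, ← fa_prod_const _ hne a]
    refine Finset.prod_congr rfl fun i _ => ?_
    rw [map_zpow₀, norm_zpow, ← hcpx φ i, ← zpow_natCast, ← zpow_natCast, ← zpow_mul, ← zpow_mul,
      mul_comm]
  constructor
  · rintro ⟨hm1, hm2⟩
    obtain ⟨N, hN, a, ha⟩ := TL_denom m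
    have hN0 : (N : ℚ) ≠ 0 := by exact_mod_cast hN.ne'
    have ha2 : ∀ π ∈ Γ, ∑ i, a i * (s (π i) : ℤ) = 0 := by
      intro π hπ
      have h1 : ((∑ i, a i * (s (π i) : ℤ) : ℤ) : ℚ) = N * ∑ i, m i * (s (π i) : ℚ) := by
        push_cast
        rw [Finset.mul_sum]
        refine Finset.sum_congr rfl fun i _ => ?_
        rw [ha i]; ring
      rw [hm2 π hπ, mul_zero] at h1
      exact_mod_cast h1
    have ha1 : (w : ℤ) * ∑ i, a i = 0 := by
      have h1 : (((w : ℤ) * ∑ i, a i : ℤ) : ℚ) = N * ((w : ℚ) * ∑ i, m i) := by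
        push_cast
        rw [Finset.mul_sum, Finset.mul_sum, Finset.mul_sum]
        refine Finset.sum_congr rfl fun i _ => ?_
        rw [ha i]; ring
      rw [hm1, mul_zero] at h1
      exact_mod_cast h1
    set u : L := ∏ i, y i ^ a i with hu
    have hint : IsIntegral ℤ u := by
      apply isIntegral_of_padic
      intro p' hp' τ'
      apply le_of_eq
      by_cases hpq : q = p'
      · subst hpq
        obtain ⟨π, hπ⟩ := exists_perm_of_prod (fun i => τ (y i)) (fun i => τ' (y i))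
          ((hmapL τ).symm.trans (hmapL τ'))
        have h1 := hprodτ τ' π hπ a
        rw [ha2 π ⟨τ', hπ⟩, neg_zero, zpow_zero] at h1
        exact (pow_eq_one_iff_of_nonneg (norm_nonneg _) hfact).1 h1
      · rw [hu, map_prod, norm_prod]
        refine Finset.prod_eq_one fun i _ => ?_
        rw [map_zpow₀, norm_zpow, norm_root_one q p' hq hpq P hPm hdeg k hk (τ' (y i))
          (hroot τ' i), one_zpow]
    have hC : ∀ φ : L →+* ℂ, ‖φ u‖ = 1 := by
      intro φ
      have h1 := hprodC φ a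
      rw [← zpow_natCast (q : ℝ) w, ← zpow_mul, ha1, zpow_zero] at h1
      exact (pow_eq_one_iff_of_nonneg (norm_nonneg _) two_ne_zero).1 h1
    obtain ⟨N', hN', hroot1⟩ := NumberField.Embeddings.pow_eq_one_of_norm_eq_one L ℂ hint hC
    refine ⟨N' * N, Nat.mul_pos hN' hN, fun i => N' * a i, fun i => ?_, ?_⟩
    · push_cast
      rw [ha i]; ring
    · rw [← hroot1, hu, ← Finset.prod_pow]
      refine Finset.prod_congr rfl fun i _ => ?_
      change y i ^ ((N' : ℤ) * a i) = (y i ^ a i) ^ N'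
      rw [mul_comm, zpow_mul, zpow_natCast]
  · rintro ⟨N, hN, a, ha, hprod⟩
    have hN0 : (N : ℚ) ≠ 0 := by exact_mod_cast hN.ne'
    refine ⟨?_, ?_⟩
    · have h1 := hprodC φ0 a
      rw [hprod, map_one, norm_one, one_pow, ← zpow_natCast (q : ℝ) w, ← zpow_mul] at h1
      have h2 : (w : ℤ) * ∑ i, a i = 0 :=
        (zpow_eq_one_iff_right₀ (le_of_lt (lt_trans one_pos hq1)) hq1.ne').1 h1.symm
      have h3 : (N : ℚ) * ((w : ℚ) * ∑ i, m i) = 0 := by
        have h4 : (((w : ℤ) * ∑ i, a i : ℤ) : ℚ) = N * ((w : ℚ) * ∑ i, m i) := by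
          push_cast
          rw [Finset.mul_sum, Finset.mul_sum, Finset.mul_sum]
          refine Finset.sum_congr rfl fun i _ => ?_
          rw [ha i]; ring
        rw [← h4, h2, Int.cast_zero]
      exact (mul_eq_zero.1 h3).resolve_left hN0
    · rintro π ⟨τ', hπ⟩
      have h1 := hprodτ τ' π hπ a
      rw [hprod, map_one, norm_one, one_pow] at h1
      have h2 : -∑ i, a i * (s (π i) : ℤ) = 0 :=
        (zpow_eq_one_iff_right₀ (le_of_lt (lt_trans one_pos hq1)) hq1.ne').1 h1.symm
      have h3 : (N : ℚ) * ∑ i, m i * (s (π i) : ℚ) = 0 := by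
        have h4 : ((∑ i, a i * (s (π i) : ℤ) : ℤ) : ℚ) = N * ∑ i, m i * (s (π i) : ℚ) := by
          push_cast
          rw [Finset.mul_sum]
          refine Finset.sum_congr rfl fun i _ => ?_
          rw [ha i]; ring
        rw [← h4, neg_eq_zero.1 h2, Int.cast_zero]
      exact (mul_eq_zero.1 h3).resolve_left hN0

end H4S
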