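import Mathlib
import Pool.Agent.Lib.H4S.TK
import Pool.Agent.Lib.H4S.TKU
import Pool.Agent.Lib.H4S.TL
import Pool.Agent.Lib.H43.GS.Closed

/-!
# H4S, chunk FB: relations are closed conditions near the identity
-/

set_option autoImplicit false

namespace H4S

open Module Polynomial Filter Topology

/-- Limits of lists of eigenvalues along an ultrafilter on any set. -/
theorem fb_lim {p : ℕ} [hp : Fact p.Prime] {V : Type*} [AddCommGroup V] [Module ℚ_[p] V]
    [FiniteDimensional ℚ_[p] V] {ι : Type*} [Fintype ι] (b : Basis ι ℚ_[p] V) {Y : Type*}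
    (u : Ultrafilter Y) (A : Y → Module.End ℚ_[p] V) (l : Module.End ℚ_[p] V)
    (hA : ∀ i k, Tendsto (fun j => b.repr (A j (b k)) i) u (𝓝 (b.repr (l (b k)) i)))
    {n : ℕ} (x : Y → Fin n → PadicAlgCl p) (hx : ∀ᶠ j in (u : Filter Y), EigL (A j) (x j)) :
    ∃ lam : Fin n → PadicAlgCl p, EigL l lam ∧ ∀ i, Tendsto (fun j => x j i) u (𝓝 (lam i)) := by
  classical
  have hdeg : ∀ T : Module.End ℚ_[p] V, (LinearMap.charpoly T).natDegree = finrank ℚ_[p] V :=
    fun T => LinearMap.charpoly_natDegree T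
  have hlimc : ∀ i, Tendsto (fun j => (LinearMap.charpoly (A j)).coeff i) u
      (𝓝 ((LinearMap.charpoly l).coeff i)) := by
    intro i
    have h1 : ∀ T : Module.End ℚ_[p] V, (LinearMap.charpoly T).coeff i =
        (LinearMap.toMatrix b b T).charpoly.coeff i := by
      intro T
      rw [LinearMap.charpoly_toMatrix]
    simp only [h1]
    have h2 : Tendsto (fun j => LinearMap.toMatrix b b (A j)) u
        (𝓝 (LinearMap.toMatrix b b l)) := by
      refine tendsto_pi_nhds.2 fun a => tendsto_pi_nhds.2 fun c => ?_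
      simp only [LinearMap.toMatrix_apply]
      exact hA a c
    exact ((TKU_coeff i).tendsto _).comp h2
  have hev : ∀ i, ∃ c : PadicAlgCl p, Tendsto (fun j => x j i) u (𝓝 c) := by
    intro i
    refine Pool.Agent.H43GS.exists_root_limit (L := PadicAlgCl p) u
      (fun j => LinearMap.charpoly (A j)) (LinearMap.charpoly l)
      (fun j => LinearMap.charpoly_monic _) (LinearMap.charpoly_monic _) (fun j => hdeg _)
      (hdeg _) hlimc (fun j => x j i) ?_
    filter_upwards [hx] with j hj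
    rw [← eval_map_algebraMap, hj, eval_prod]
    exact Finset.prod_eq_zero (Finset.mem_univ i) (by simp)
  choose lam hlam using hev
  refine ⟨lam, ?_, hlam⟩
  apply Polynomial.funext
  intro t
  rw [eval_prod]
  simp only [eval_sub, eval_X, eval_C]
  have h1 : Tendsto (fun j => aeval t (LinearMap.charpoly (A j))) u
      (𝓝 (aeval t (LinearMap.charpoly l))) := by
    have h2 : ∀ T : Module.End ℚ_[p] V, aeval t (LinearMap.charpoly T) =
        ∑ i ∈ Finset.range (finrank ℚ_[p] V + 1),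
          algebraMap ℚ_[p] (PadicAlgCl p) ((LinearMap.charpoly T).coeff i) * t ^ i := by
      intro T
      rw [aeval_eq_sum_range, hdeg T]
      refine Finset.sum_congr rfl fun i _ => ?_
      rw [Algebra.smul_def]
    simp only [h2]
    refine tendsto_finsetSum _ fun i _ => Tendsto.mul_const _ ?_
    exact ((continuous_algebraMap ℚ_[p] (PadicAlgCl p)).tendsto _).comp (hlimc i)
  have h3 : Tendsto (fun j => ∏ i, (t - x j i)) u (𝓝 (∏ i, (t - lam i))) :=
    tendsto_finsetProd _ fun i _ => (hlam i).const_sub t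
  rw [eval_map_algebraMap]
  refine tendsto_nhds_unique (h1.congr' ?_) h3
  filter_upwards [hx] with j hj
  rw [← eval_map_algebraMap, hj, eval_prod]
  simp only [eval_sub, eval_X, eval_C]

/-- **FB** (M/L). Let `c` be a continuous map to endomorphisms, `A` a set of points at which `c` is
near the identity and satisfies one of finitely many spaces of relations. The same
holds at the points of the closure of `A`.

Proof. Let `u` be an ultrafilter converging to `x` with `A` in `u` (`mem_closure_iff_ultrafilter`). For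
`a` in `A` choose `M_a, z_a`. As `S` is finite, `M_a = M` for `u`-almost all `a`. By
`Pool.Agent.H43GS.exists_root_limit` (the coefficients of the characteristic polynomial of `c a` are
continuous in `a`: polynomials in the matrix entries) `z_(a,i) -> z_i` along `u`, and `EigL (c x) z`
(limit of `charpoly (c a) = ∏ (X - z_(a,i))`). `‖z_(a,i) - 1‖ <= p^(-2)` (`norm_eig_le` for
`c a - 1`, whose eigenvalues are the `z_(a,i) - 1`), so `‖z_i - 1‖ <= p^(-2)`, `z_i <> 0`. Let `m` be in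
`M`, `N0 > 0`, `e = N0 m` integral. From `MRel z_a m`: `w = ∏ z_(a,i)^(e_i)` satisfies
`w^(N') = 1` for some `N' > 0` and `‖w - 1‖ <= p^(-2)`, so `w = 1` (`norm_pow_sub_one`). By
continuity of `t -> t^e` at nonzero points `∏ z_i^(e_i) = 1`, so `MRel z m`. -/
theorem closure_rel {p : ℕ} [hp : Fact p.Prime] {V : Type*} [AddCommGroup V] [Module ℚ_[p] V]
    [FiniteDimensional ℚ_[p] V] {ι : Type*} [Fintype ι] (b : Basis ι ℚ_[p] V)
    {Y : Type*} [TopologicalSpace Y] (c : Y → Module.End ℚ_[p] V)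
    (hc : ∀ i j, Continuous fun y => b.repr (c y (b j)) i) {n : ℕ}
    (S : Set (Submodule ℚ (Fin n → ℚ))) (hS : S.Finite) (A : Set Y)
    (hA : ∀ a ∈ A, Sm b (c a - 1) ((p : ℝ) ^ 2)⁻¹ ∧ ∃ M ∈ S, ∃ z : Fin n → PadicAlgCl p,
      EigL (c a) z ∧ ∀ m ∈ M, MRel z m) (y : Y) (hy : y ∈ closure A) :
    Sm b (c y - 1) ((p : ℝ) ^ 2)⁻¹ ∧ ∃ M ∈ S, ∃ z : Fin n → PadicAlgCl p,
      EigL (c y) z ∧ ∀ m ∈ M, MRel z m := by
  classical
  have hρ0 : (0 : ℝ) ≤ ((p : ℝ) ^ 2)⁻¹ := by positivity
  obtain ⟨u, hu1, hu2⟩ := mem_closure_iff_ultrafilter.1 hy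
  have hcont : ∀ i j, Continuous fun y => b.repr ((c y - 1) (b j)) i := by
    intro i j
    have h1 : (fun y => b.repr ((c y - 1) (b j)) i) =
        fun y => b.repr (c y (b j)) i - b.repr (b j) i := by
      funext a
      simp
    rw [h1]
    exact (hc i j).sub continuous_const
  have hsm : Sm b (c y - 1) ((p : ℝ) ^ 2)⁻¹ := by
    intro i j
    have h1 : IsClosed {a : Y | ‖b.repr ((c a - 1) (b j)) i‖ ≤ ((p : ℝ) ^ 2)⁻¹} :=
      isClosed_le (hcont i j).norm continuous_const
    have h2 : A ⊆ {a : Y | ‖b.repr ((c a - 1) (b j)) i‖ ≤ ((p : ℝ) ^ 2)⁻¹} :=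
      fun a ha => (hA a ha).1 i j
    exact closure_minimal h2 h1 hy
  refine ⟨hsm, ?_⟩
  have hA2 : ∀ a ∈ A, ∃ M : Submodule ℚ (Fin n → ℚ), ∃ z : Fin n → PadicAlgCl p, M ∈ S ∧
      EigL (c a) z ∧ ∀ m ∈ M, MRel z m := by
    intro a ha
    obtain ⟨-, M, hM, z, hz, hr⟩ := hA a ha
    exact ⟨M, z, hM, hz, hr⟩
  choose! M z hMS hz hr using hA2
  have hAu : ∀ᶠ a in (u : Filter Y), a ∈ A := hu1
  obtain ⟨M0, hM0, hMu⟩ : ∃ M0 ∈ S, ∀ᶠ j in (u : Filter Y), M j = M0 := by
    have h1 : S ∈ u.map M := by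
      rw [Ultrafilter.mem_map]
      exact Filter.mem_of_superset hu1 fun j hj => hMS j hj
    obtain ⟨M0, hM0, h2⟩ := Ultrafilter.eq_pure_of_finite_mem hS h1
    refine ⟨M0, hM0, ?_⟩
    have h3 : ({M0} : Set (Submodule ℚ (Fin n → ℚ))) ∈ u.map M := by
      rw [h2]
      exact rfl
    exact h3
  obtain ⟨lam, hlam, hlim⟩ := fb_lim b u c (c y)
    (fun i k => ((hc i k).tendsto y).mono_left hu2) z (by
      filter_upwards [hAu] with a ha
      exact hz a ha)
  refine ⟨M0, hM0, lam, hlam, fun m hm => ?_⟩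
  have hnear : ∀ a ∈ A, ∀ i, ‖z a i - 1‖ ≤ ((p : ℝ) ^ 2)⁻¹ := by
    intro a ha i
    have h1 := TKU_aeval (c a) (z a) (hz a ha) (X - C 1)
    have h2 : aeval (c a) (X - C 1 : ℚ_[p][X]) = c a - 1 := by simp
    rw [h2] at h1
    have h3 := norm_eig_le b (c a - 1) _ (hA a ha).1 _ h1 i
    simpa using h3
  have hlamnear : ∀ i, ‖lam i - 1‖ ≤ ((p : ℝ) ^ 2)⁻¹ := by
    intro i
    have h1 := TKU_aeval (c y) lam hlam (X - C 1)
    have h2 : aeval (c y) (X - C 1 : ℚ_[p][X]) = c y - 1 := by simp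
    rw [h2] at h1
    have h3 := norm_eig_le b (c y - 1) _ hsm _ h1 i
    simpa using h3
  have hlam0 : ∀ i, lam i ≠ 0 := by
    intro i h
    have h1 := TL_near_norm _ TL_rho (lam i) (hlamnear i)
    rw [h, norm_zero] at h1
    exact zero_ne_one h1
  obtain ⟨N, hN, a, ha⟩ := TL_denom m
  rw [TL_mrel lam hlamnear m N hN a ha]
  have h1 : Tendsto (fun j => ∏ i, z j i ^ a i) u (𝓝 (∏ i, lam i ^ a i)) :=
    tendsto_finsetProd _ fun i _ => (hlim i).zpow₀ (a i) (Or.inl (hlam0 i))
  refine tendsto_nhds_unique h1 (tendsto_const_nhds.congr' ?_)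
  filter_upwards [hAu, hMu] with j hj hMj
  exact ((TL_mrel (z j) (hnear j hj) m N hN a ha).1 (hr j hj m (by rw [hMj]; exact hm))).symm

end H4S
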