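import Mathlib
import Pool.Agent.Lib.H4S.F0

/-!
# H4S, chunks FE1, FE2, FE3, FE4: Clifford theory and averaging
-/

set_option autoImplicit false

namespace H4S

open Module

section feaux

variable {k G V : Type*} [Field k] [Group G] [AddCommGroup V] [Module k V]

/-- `W` is stable under `A`. -/
def feStab (ρ : Representation k G V) (A : Set G) (W : Submodule k V) : Prop :=
  ∀ g ∈ A, ∀ x ∈ W, ρ g x ∈ W

/-- `E` is an irreducible stable subspace. -/
def feIrr (ρ : Representation k G V) (A : Set G) (E : Submodule k V) : Prop :=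
  feStab ρ A E ∧ E ≠ ⊥ ∧ ∀ W, feStab ρ A W → W ≤ E → W = ⊥ ∨ W = E

theorem fe_stab_inf {ρ : Representation k G V} {A : Set G} {W W' : Submodule k V}
    (h : feStab ρ A W) (h' : feStab ρ A W') : feStab ρ A (W ⊓ W') :=
  fun g hg x hx => ⟨h g hg x hx.1, h' g hg x hx.2⟩

theorem fe_stab_sup {ρ : Representation k G V} {A : Set G} {W W' : Submodule k V}
    (h : feStab ρ A W) (h' : feStab ρ A W') : feStab ρ A (W ⊔ W') := by
  intro g hg x hx
  obtain ⟨u, hu, v, hv, rfl⟩ := Submodule.mem_sup.1 hx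
  rw [map_add]
  exact Submodule.add_mem_sup (h g hg u hu) (h' g hg v hv)

/-- Every nonzero stable subspace contains an irreducible one. -/
theorem fe_exists_irr [FiniteDimensional k V] {ρ : Representation k G V} {A : Set G} :
    ∀ (n : ℕ) (W : Submodule k V), finrank k W = n → feStab ρ A W → W ≠ ⊥ →
      ∃ E, feIrr ρ A E ∧ E ≤ W := by
  intro n
  induction n using Nat.strong_induction_on with
  | _ n ih =>
    intro W hn hW hW0
    by_cases h : ∀ W', feStab ρ A W' → W' ≤ W → W' = ⊥ ∨ W' = W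
    · exact ⟨W, ⟨hW, hW0, h⟩, le_rfl⟩
    · push Not at h
      obtain ⟨W', h1, h2, h3, h4⟩ := h
      have hlt : finrank k W' < n := by
        rw [← hn]
        exact Submodule.finrank_lt_finrank_of_lt (lt_of_le_of_ne h2 h4)
      obtain ⟨E, hE, hEW⟩ := ih _ hlt W' rfl h1 h3
      exact ⟨E, hE, hEW.trans h2⟩

/-- If `V` is the sum of the irreducible stable subspaces, stable subspaces have stable
complements. -/
theorem fe_compl [FiniteDimensional k V] {ρ : Representation k G V} {A : Set G}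
    (htop : sSup {E : Submodule k V | feIrr ρ A E} = ⊤) (W : Submodule k V)
    (hW : feStab ρ A W) : ∃ W', feStab ρ A W' ∧ IsCompl W W' := by
  classical
  -- a stable subspace of maximal dimension among those disjoint from W
  let P : ℕ → Prop := fun d => ∃ W' : Submodule k V, feStab ρ A W' ∧ Disjoint W W' ∧
    finrank k W' = d
  have hP0 : P 0 := ⟨⊥, fun g _ x hx => by
    rw [Submodule.mem_bot] at hx ⊢; rw [hx, map_zero], disjoint_bot_right, finrank_bot k V⟩
  have hbd : ∀ d, P d → d ≤ finrank k V := by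
    rintro d ⟨W', -, -, rfl⟩
    exact Submodule.finrank_le W'
  set D := Nat.findGreatest P (finrank k V) with hD
  have hPD : P D := Nat.findGreatest_spec (Nat.zero_le _) hP0
  obtain ⟨W', hW', hdis, hfin⟩ := hPD
  refine ⟨W', hW', hdis, ?_⟩
  rw [codisjoint_iff]
  by_contra hne
  obtain ⟨E, hE, hEn⟩ : ∃ E, feIrr ρ A E ∧ ¬ E ≤ W ⊔ W' := by
    by_contra hcon
    push Not at hcon
    apply hne
    rw [eq_top_iff, ← htop]
    exact sSup_le fun E hE => hcon E hE
  have hst := fe_stab_sup hW hW'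
  have hE0 : E ⊓ (W ⊔ W') = ⊥ := by
    rcases hE.2.2 (E ⊓ (W ⊔ W')) (fe_stab_inf hE.1 hst) inf_le_left with h | h
    · exact h
    · exact absurd (inf_eq_left.1 h) hEn
  have hEW' : Disjoint W' E := by
    rw [disjoint_iff]
    apply le_bot_iff.1
    rw [← hE0]
    exact le_inf inf_le_right (inf_le_left.trans le_sup_right)
  have h1 : P (finrank k (W' ⊔ E : Submodule k V)) := by
    refine ⟨W' ⊔ E, fe_stab_sup hW' hE.1, ?_, rfl⟩
    rw [Submodule.disjoint_def]
    intro x hxW hx
    obtain ⟨u, hu, v, hv, huv⟩ := Submodule.mem_sup.1 hx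
    have h2 : v ∈ E ⊓ (W ⊔ W') := by
      refine ⟨hv, ?_⟩
      have h3 : v = x - u := by rw [← huv]; abel
      rw [h3]
      exact Submodule.sub_mem _ (Submodule.mem_sup_left hxW) (Submodule.mem_sup_right hu)
    rw [hE0, Submodule.mem_bot] at h2
    rw [h2, add_zero] at huv
    exact (Submodule.disjoint_def.1 hdis) x hxW (huv ▸ hu)
  have h2 : finrank k (W' ⊔ E : Submodule k V) ≤ D := Nat.le_findGreatest (hbd _ h1) h1
  have h3 : finrank k W' < finrank k (W' ⊔ E : Submodule k V) := by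
    apply Submodule.finrank_lt_finrank_of_lt
    refine lt_of_le_of_ne le_sup_left ?_
    intro heq
    have h4 : E ≤ W' := by rw [heq]; exact le_sup_right
    have h5 : E ≤ E ⊓ (W ⊔ W') := le_inf le_rfl (h4.trans le_sup_right)
    rw [hE0] at h5
    exact hE.2.1 (le_bot_iff.1 h5)
  rw [hfin] at h3
  exact absurd h2 (not_le.2 h3)

theorem fe_inv_apply (ρ : Representation k G V) (g : G) (v : V) : ρ g⁻¹ (ρ g v) = v := by
  rw [← Module.End.mul_apply, ← map_mul, inv_mul_cancel, map_one]; rfl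

theorem fe_apply_inv (ρ : Representation k G V) (g : G) (v : V) : ρ g (ρ g⁻¹ v) = v := by
  rw [← Module.End.mul_apply, ← map_mul, mul_inv_cancel, map_one]; rfl

/-- Translates of irreducible subspaces are irreducible. -/
theorem fe_translate {ρ : Representation k G V} (N : Subgroup G) [hn : N.Normal]
    {E : Submodule k V} (hE : feIrr ρ (N : Set G) E) (g : G) :
    feIrr ρ (N : Set G) (E.map (ρ g)) := by
  have key : ∀ (W : Submodule k V) (g : G), feStab ρ (N : Set G) W →
      feStab ρ (N : Set G) (W.map (ρ g)) := by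
    rintro W g hW n hnN _ ⟨x, hx, rfl⟩
    have h1 : g⁻¹ * n * g ∈ N := by
      have := hn.conj_mem n hnN g⁻¹
      rwa [inv_inv] at this
    refine ⟨ρ (g⁻¹ * n * g) x, hW _ h1 x hx, ?_⟩
    rw [← Module.End.mul_apply, ← Module.End.mul_apply, ← map_mul, ← map_mul]
    congr 2
    group
  refine ⟨key E g hE.1, ?_, ?_⟩
  · intro h
    apply hE.2.1
    rw [eq_bot_iff]
    intro x hx
    have h1 : ρ g x ∈ E.map (ρ g) := ⟨x, hx, rfl⟩
    rw [h, Submodule.mem_bot] at h1
    rw [Submodule.mem_bot, ← fe_inv_apply ρ g x, h1, map_zero]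
  · intro W hW hWE
    have h1 : W.map (ρ g⁻¹) ≤ E := by
      rintro _ ⟨x, hx, rfl⟩
      obtain ⟨y, hy, hxy⟩ := hWE hx
      rw [← hxy, fe_inv_apply]
      exact hy
    have hback : (W.map (ρ g⁻¹)).map (ρ g) = W := by
      ext x
      constructor
      · rintro ⟨_, ⟨y, hy, rfl⟩, rfl⟩
        rw [fe_apply_inv]
        exact hy
      · intro hx
        exact ⟨ρ g⁻¹ x, ⟨x, hx, rfl⟩, fe_apply_inv ρ g x⟩
    rcases hE.2.2 (W.map (ρ g⁻¹)) (key W g⁻¹ hW) h1 with h | h
    · left
      rw [← hback, h, Submodule.map_bot]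
    · right
      rw [← hback, h]

end feaux

/-- **FE1** (M, only Mathlib). Clifford: restriction of a semisimple representation to a normal
subgroup is semisimple.

Proof. Let `T` be the sum of all irreducible `N`-stable subspaces of `V` (nonzero `N`-stable subspaces
without proper nonzero `N`-stable subspaces). For `g` in `G` and such a subspace `E`, `ρ g E` is again
one (`N` normal), so `T` is `G`-stable. Let `T'` be a `G`-stable complement; if `T' <> 0` it
contains a nonzero `N`-stable subspace of minimal dimension, which is irreducible, so contained in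
`T`: contradiction. So `V = T` is a sum of irreducible `N`-stable subspaces, and every `N`-stable
subspace `W` has a complement: take a maximal `N`-stable `W'` with `W ∩ W' = 0`; if `W + W' <> V` some
irreducible `E` is not contained in `W + W'`, so `E ∩ (W + W') = 0` and `W' + E` is larger.
(Alternatively: semisimple modules over the monoid algebra of `N`.) -/
theorem clifford {k G V : Type*} [Field k] [Group G] [AddCommGroup V] [Module k V]
    [FiniteDimensional k V] (ρ : Representation k G V) (N : Subgroup G) [N.Normal]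
    (h : SSOn ρ Set.univ) : SSOn ρ (N : Set G) := by
  classical
  set T := sSup {E : Submodule k V | feIrr ρ (N : Set G) E} with hT
  have hTst : ∀ g ∈ (Set.univ : Set G), ∀ x ∈ T, ρ g x ∈ T := by
    intro g _ x hx
    have h1 : T.map (ρ g) ≤ T := by
      rw [Submodule.map_le_iff_le_comap]
      exact sSup_le fun E hE => Submodule.map_le_iff_le_comap.1 (le_sSup (fe_translate N hE g))
    exact h1 ⟨x, hx, rfl⟩
  obtain ⟨T', hT', hc⟩ := h T hTst
  have htop : T = ⊤ := by
    by_contra hne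
    have hT'0 : T' ≠ ⊥ := by
      rintro rfl
      apply hne
      have := hc.sup_eq_top
      rwa [sup_bot_eq] at this
    obtain ⟨E, hE, hET⟩ := fe_exists_irr (A := (N : Set G)) _ T' rfl
      (fun g _ x hx => hT' g trivial x hx) hT'0
    have h1 : E ≤ T := le_sSup hE
    have h2 : E ≤ T ⊓ T' := le_inf h1 hET
    rw [hc.inf_eq_bot] at h2
    exact hE.2.1 (le_bot_iff.1 h2)
  intro W hW
  exact fe_compl htop W hW

/-- **FE2** (M, only Mathlib). Averaging a projector over a subgroup of finite index.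

Proof. `e' = |H/N|^(-1) sum over H/N of ρ(h) e ρ(h)^(-1)`, well defined as `e` commutes with `N`. -/
theorem average {k G V : Type*} [Field k] [CharZero k] [Group G] [AddCommGroup V] [Module k V]
    (ρ : Representation k G V) (H N : Subgroup G) (hNH : N ≤ H)
    (hfin : (N.subgroupOf H).FiniteIndex) (W : Submodule k V)
    (hW : ∀ g ∈ H, ∀ w ∈ W, ρ g w ∈ W) (e : Module.End k V) (he1 : ∀ v, e v ∈ W)
    (he2 : ∀ w ∈ W, e w = w) (heN : ∀ g ∈ N, Commute (ρ g) e) :
    ∃ e' : Module.End k V, (∀ v, e' v ∈ W) ∧ (∀ w ∈ W, e' w = w) ∧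
      ∀ g ∈ H, Commute (ρ g) e' := by
  classical
  let Q := H ⧸ N.subgroupOf H
  have hQfin : Finite Q := inferInstance
  have hQ : Fintype Q := Fintype.ofFinite Q
  let φ : H → Module.End k V := fun h => ρ (h : G) * e * ρ (h : G)⁻¹
  have hφ : ∀ h h' : H, QuotientGroup.leftRel (N.subgroupOf H) h h' → φ h = φ h' := by
    intro h h' hr
    rw [QuotientGroup.leftRel_apply] at hr
    obtain ⟨m, hm⟩ : ∃ m, m = (h : G)⁻¹ * (h' : G) := ⟨_, rfl⟩
    have h1 : m ∈ N := by rw [hm]; exact hr
    have h2 : (h' : G) = h * m := by rw [hm]; group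
    have h3 : (h' : G)⁻¹ = m⁻¹ * (h : G)⁻¹ := by rw [h2]; group
    have h4 := (heN m h1).eq
    change ρ (h : G) * e * ρ (h : G)⁻¹ = ρ (h' : G) * e * ρ (h' : G)⁻¹
    rw [h3, h2, map_mul, map_mul]
    have h5 : ρ m * ρ m⁻¹ = 1 := by rw [← map_mul, mul_inv_cancel, map_one]
    calc ρ (h : G) * e * ρ (h : G)⁻¹ = ρ (h : G) * e * (ρ m * ρ m⁻¹) * ρ (h : G)⁻¹ := by
          rw [h5, mul_one]
      _ = ρ (h : G) * (e * ρ m) * ρ m⁻¹ * ρ (h : G)⁻¹ := by simp only [mul_assoc]
      _ = ρ (h : G) * (ρ m * e) * ρ m⁻¹ * ρ (h : G)⁻¹ := by rw [h4]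
      _ = ρ (h : G) * ρ m * e * (ρ m⁻¹ * ρ (h : G)⁻¹) := by simp only [mul_assoc]
  let Φ : Q → Module.End k V := Quotient.lift φ hφ
  have hΦ : ∀ h : H, Φ (QuotientGroup.mk h) = φ h := fun h => rfl
  have hcard : (Fintype.card Q : k) ≠ 0 := by
    have : 0 < Fintype.card Q := Fintype.card_pos
    exact_mod_cast this.ne'
  let e' : Module.End k V := (Fintype.card Q : k)⁻¹ • ∑ q : Q, Φ q
  have hinvH : ∀ h : H, ((h : G)⁻¹) ∈ H := fun h => H.inv_mem h.2
  have hφW : ∀ (h : H) v, φ h v ∈ W := by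
    intro h v
    exact hW _ h.2 _ (he1 _)
  have hφw : ∀ (h : H), ∀ w ∈ W, φ h w = w := by
    intro h w hw
    change ρ (h : G) (e (ρ (h : G)⁻¹ w)) = w
    rw [he2 _ (hW _ (hinvH h) w hw), fe_apply_inv]
  refine ⟨e', ?_, ?_, ?_⟩
  · intro v
    change ((Fintype.card Q : k)⁻¹ • ∑ q : Q, Φ q) v ∈ W
    rw [LinearMap.smul_apply, LinearMap.sum_apply]
    refine W.smul_mem _ (Submodule.sum_mem _ fun q _ => ?_)
    obtain ⟨h, rfl⟩ := QuotientGroup.mk_surjective q
    exact hφW h v
  · intro w hw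
    change ((Fintype.card Q : k)⁻¹ • ∑ q : Q, Φ q) w = w
    rw [LinearMap.smul_apply, LinearMap.sum_apply]
    have h1 : ∀ q ∈ (Finset.univ : Finset Q), Φ q w = w := by
      intro q _
      obtain ⟨h, rfl⟩ := QuotientGroup.mk_surjective q
      exact hφw h w hw
    rw [Finset.sum_congr rfl h1, Finset.sum_const, Finset.card_univ, ← Nat.cast_smul_eq_nsmul k,
      smul_smul, inv_mul_cancel₀ hcard, one_smul]
  · intro g hg
    have h1 : ∀ q : Q, ρ g * Φ q = Φ ((⟨g, hg⟩ : H) • q) * ρ g := by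
      intro q
      obtain ⟨h, rfl⟩ := QuotientGroup.mk_surjective q
      have h2 : (⟨g, hg⟩ : H) • (QuotientGroup.mk h : Q) = QuotientGroup.mk ((⟨g, hg⟩ : H) * h) := rfl
      rw [h2, hΦ, hΦ]
      change ρ g * (ρ (h : G) * e * ρ (h : G)⁻¹) =
        ρ (g * (h : G)) * e * ρ (g * (h : G))⁻¹ * ρ g
      rw [mul_inv_rev, map_mul, map_mul]
      have h5 : ρ g⁻¹ * ρ g = 1 := by rw [← map_mul, inv_mul_cancel, map_one]
      calc ρ g * (ρ (h : G) * e * ρ (h : G)⁻¹)
          = ρ g * ρ (h : G) * e * ρ (h : G)⁻¹ * 1 := by simp only [mul_assoc, mul_one]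
        _ = ρ g * ρ (h : G) * e * ρ (h : G)⁻¹ * (ρ g⁻¹ * ρ g) := by rw [h5]
        _ = _ := by simp only [mul_assoc]
    change ρ g * ((Fintype.card Q : k)⁻¹ • ∑ q : Q, Φ q) =
      ((Fintype.card Q : k)⁻¹ • ∑ q : Q, Φ q) * ρ g
    rw [mul_smul_comm, smul_mul_assoc, Finset.mul_sum, Finset.sum_mul]
    congr 1
    rw [Finset.sum_congr rfl fun q _ => h1 q]
    exact Equiv.sum_comp (MulAction.toPerm (⟨g, hg⟩ : H)) (fun q : Q => Φ q * ρ g)

/-- **FE3** (S, only Mathlib). From a projector to a complement (the kernel) and back. -/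
theorem compl_of_projector {k V : Type*} [Field k] [AddCommGroup V] [Module k V]
    (W : Submodule k V) (e : Module.End k V) (he1 : ∀ v, e v ∈ W) (he2 : ∀ w ∈ W, e w = w) :
    IsCompl W (LinearMap.ker e) := by
  constructor
  · rw [Submodule.disjoint_def]
    intro x hx hk
    rw [← he2 x hx]
    exact hk
  · rw [codisjoint_iff, eq_top_iff]
    intro x _
    rw [Submodule.mem_sup]
    refine ⟨e x, he1 x, x - e x, ?_, by abel⟩
    rw [LinearMap.mem_ker, map_sub, he2 _ (he1 x), sub_self]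

theorem projector_of_compl {k V : Type*} [Field k] [AddCommGroup V] [Module k V]
    (W W' : Submodule k V) (h : IsCompl W W') :
    ∃ e : Module.End k V, (∀ v, e v ∈ W) ∧ (∀ w ∈ W, e w = w) ∧
      ∀ g : Module.End k V, (∀ w ∈ W, g w ∈ W) → (∀ w ∈ W', g w ∈ W') → Commute g e := by
  let e : Module.End k V := W.subtype ∘ₗ W.projectionOnto W' h
  have h1 : ∀ w ∈ W, e w = w := by
    intro w hw
    exact congrArg Subtype.val (Submodule.projectionOnto_apply_left h ⟨w, hw⟩)
  have h2 : ∀ w ∈ W', e w = 0 := by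
    intro w hw
    exact congrArg Subtype.val (Submodule.projectionOnto_apply_right h ⟨w, hw⟩)
  refine ⟨e, fun v => (W.projectionOnto W' h v).2, h1, ?_⟩
  intro g hg hg'
  ext v
  rw [Module.End.mul_apply, Module.End.mul_apply]
  have hv : v ∈ W ⊔ W' := by rw [h.sup_eq_top]; trivial
  obtain ⟨a, ha, b, hb, rfl⟩ := Submodule.mem_sup.1 hv
  rw [map_add, map_add, map_add, map_add, h1 a ha, h2 b hb, h1 _ (hg a ha), h2 _ (hg' b hb),
    map_zero]

end H4S
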