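import Mathlib
import Pool.Agent.Lib.H4S.FE

/-!
# H4S, chunk FF: semisimplicity over the arithmetic fundamental group
-/

set_option autoImplicit false

namespace H4S

open Module

section ffaux

variable {k G V : Type*} [Field k] [Group G] [AddCommGroup V] [Module k V]

/-- The endomorphisms commuting with `Δ`. -/
def ffA (ρ : Representation k G V) (Δ : Subgroup G) : Submodule k (Module.End k V) where
  carrier := {a | ∀ d ∈ Δ, Commute (ρ d) a}
  add_mem' := fun {a b} ha hb d hd => (ha d hd).add_right (hb d hd)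
  zero_mem' := fun d _ => Commute.zero_right _
  smul_mem' := fun c a ha d hd => (ha d hd).smul_right c

theorem ff_mem_A {ρ : Representation k G V} {Δ : Subgroup G} {a : Module.End k V} :
    a ∈ ffA ρ Δ ↔ ∀ d ∈ Δ, Commute (ρ d) a := Iff.rfl

theorem ff_mul_mem {ρ : Representation k G V} {Δ : Subgroup G} {a b : Module.End k V}
    (ha : a ∈ ffA ρ Δ) (hb : b ∈ ffA ρ Δ) : a * b ∈ ffA ρ Δ :=
  fun d hd => (ha d hd).mul_right (hb d hd)

theorem ff_conj_mem {ρ : Representation k G V} {Δ : Subgroup G} [hn : Δ.Normal]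
    {a : Module.End k V} (ha : a ∈ ffA ρ Δ) (g : G) : ρ g * a * ρ g⁻¹ ∈ ffA ρ Δ := by
  intro d hd
  have h1 : ρ d * ρ g = ρ g * ρ (g⁻¹ * d * g) := by
    rw [← map_mul, ← map_mul]; congr 1; group
  have h2 : ρ g⁻¹ * ρ d = ρ (g⁻¹ * d * g) * ρ g⁻¹ := by
    rw [← map_mul, ← map_mul]; congr 1; group
  have h3 : g⁻¹ * d * g ∈ Δ := by
    have := hn.conj_mem d hd g⁻¹
    rwa [inv_inv] at this
  have h4 := ha _ h3
  change ρ d * (ρ g * a * ρ g⁻¹) = ρ g * a * ρ g⁻¹ * ρ d
  calc ρ d * (ρ g * a * ρ g⁻¹) = (ρ d * ρ g) * a * ρ g⁻¹ := by simp only [mul_assoc]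
    _ = ρ g * (ρ (g⁻¹ * d * g) * a) * ρ g⁻¹ := by rw [h1]; simp only [mul_assoc]
    _ = ρ g * (a * ρ (g⁻¹ * d * g)) * ρ g⁻¹ := by rw [h4.eq]
    _ = ρ g * a * (ρ (g⁻¹ * d * g) * ρ g⁻¹) := by simp only [mul_assoc]
    _ = ρ g * a * (ρ g⁻¹ * ρ d) := by rw [h2]
    _ = ρ g * a * ρ g⁻¹ * ρ d := by simp only [mul_assoc]

/-- The key step (1): the trace form is nondegenerate on the commutant. -/
theorem ff_nondeg [CharZero k] [FiniteDimensional k V] {ρ : Representation k G V}
    {Δ : Subgroup G} (hΔ : SSOn ρ (Δ : Set G)) (a : Module.End k V) (ha : a ∈ ffA ρ Δ)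
    (ha0 : a ≠ 0) : ∃ c ∈ ffA ρ Δ, LinearMap.trace k V (a * c) ≠ 0 := by
  classical
  have hker : ∀ g ∈ (Δ : Set G), ∀ x ∈ LinearMap.ker a, ρ g x ∈ LinearMap.ker a := by
    intro g hg x hx
    rw [LinearMap.mem_ker] at hx ⊢
    have h := LinearMap.congr_fun (ha g hg).eq x
    rw [Module.End.mul_apply, Module.End.mul_apply, hx, map_zero] at h
    exact h.symm
  have hran : ∀ g ∈ (Δ : Set G), ∀ x ∈ LinearMap.range a, ρ g x ∈ LinearMap.range a := by
    rintro g hg _ ⟨y, rfl⟩
    have h := LinearMap.congr_fun (ha g hg).eq y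
    rw [Module.End.mul_apply, Module.End.mul_apply] at h
    exact ⟨ρ g y, h.symm⟩
  obtain ⟨C, hC, hCc⟩ := hΔ _ hker
  obtain ⟨D, hD, hDc⟩ := hΔ _ hran
  obtain ⟨e, he1, he2, he3⟩ := projector_of_compl (LinearMap.range a) D hDc
  have heA : e ∈ ffA ρ Δ := fun d hd => he3 _ (hran d hd) (hD d hd)
  -- the isomorphism
  let f : C →ₗ[k] LinearMap.range a := (a.domRestrict C).codRestrict (LinearMap.range a)
    (fun x => ⟨(x : V), rfl⟩)
  have hf : ∀ x : C, (f x : V) = a x := fun x => rfl
  have hinj : Function.Injective f := by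
    rw [injective_iff_map_eq_zero]
    intro x hx
    have h1 : a (x : V) = 0 := by rw [← hf, hx]; rfl
    have h2 : (x : V) ∈ LinearMap.ker a ⊓ C := ⟨h1, x.2⟩
    rw [hCc.inf_eq_bot] at h2
    exact Subtype.ext ((Submodule.mem_bot k).1 h2)
  have hsurj : Function.Surjective f := by
    rintro ⟨_, ⟨y, rfl⟩⟩
    have h1 : y ∈ LinearMap.ker a ⊔ C := by rw [hCc.sup_eq_top]; trivial
    obtain ⟨u, hu, c, hc, huc⟩ := Submodule.mem_sup.1 h1
    refine ⟨⟨c, hc⟩, Subtype.ext ?_⟩
    rw [hf]
    change a c = a y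
    rw [← huc, map_add, LinearMap.mem_ker.1 hu, zero_add]
  let F : C ≃ₗ[k] LinearMap.range a := LinearEquiv.ofBijective f ⟨hinj, hsurj⟩
  let c : Module.End k V := C.subtype ∘ₗ F.symm.toLinearMap ∘ₗ
    (e.codRestrict (LinearMap.range a) he1)
  have hcC : ∀ v, c v ∈ C := fun v => (F.symm (e.codRestrict (LinearMap.range a) he1 v)).2
  have hac : ∀ v, a (c v) = e v := by
    intro v
    have h1 : a (c v) = ((F (F.symm (e.codRestrict (LinearMap.range a) he1 v)) :
      LinearMap.range a) : V) := rfl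
    rw [h1, LinearEquiv.apply_symm_apply]
    rfl
  have hainj : ∀ x ∈ C, ∀ y ∈ C, a x = a y → x = y := by
    intro x hx y hy hxy
    have h1 : f ⟨x, hx⟩ = f ⟨y, hy⟩ := Subtype.ext hxy
    exact congrArg Subtype.val (hinj h1)
  refine ⟨c, ?_, ?_⟩
  · intro d hd
    ext v
    rw [Module.End.mul_apply, Module.End.mul_apply]
    refine hainj _ (hC d hd _ (hcC v)) _ (hcC _) ?_
    have h := LinearMap.congr_fun (ha d hd).eq (c v)
    rw [Module.End.mul_apply, Module.End.mul_apply] at h
    have h' := LinearMap.congr_fun (heA d hd).eq v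
    rw [Module.End.mul_apply, Module.End.mul_apply] at h'
    rw [← h, hac, hac, h']
  · have hace : a * c = e := by
      ext v
      rw [Module.End.mul_apply, hac]
    rw [hace]
    have hproj : LinearMap.IsProj (LinearMap.range a) e := ⟨he1, he2⟩
    rw [hproj.trace]
    have hne : LinearMap.range a ≠ ⊥ := by
      intro h
      exact ha0 (LinearMap.range_eq_bot.1 h)
    have hpos : finrank k (LinearMap.range a) ≠ 0 := by
      intro h
      exact hne (Submodule.finrank_eq_zero.1 h)
    exact_mod_cast hpos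

/-- The trace form on endomorphisms. -/
noncomputable def ffT (k V : Type*) [Field k] [AddCommGroup V] [Module k V] :
    LinearMap.BilinForm k (Module.End k V) :=
  (LinearMap.mul k (Module.End k V)).compr₂ (LinearMap.trace k V)

theorem ffT_apply (x y : Module.End k V) : ffT k V x y = LinearMap.trace k V (x * y) := rfl

theorem ffT_symm (x y : Module.End k V) : ffT k V x y = ffT k V y x := by
  rw [ffT_apply, ffT_apply, LinearMap.trace_mul_comm]

/-- The decomposition (2). -/
theorem ff_decomp [CharZero k] [FiniteDimensional k V] {ρ : Representation k G V}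
    {Δ : Subgroup G} (hΔ : SSOn ρ (Δ : Set G)) :
    IsCompl (ffA ρ Δ) ((ffT k V).orthogonal (ffA ρ Δ)) := by
  apply LinearMap.BilinForm.isCompl_orthogonal_of_restrict_nondegenerate
  · intro x y h
    rw [ffT_symm]; exact h
  · have h1 : ∀ a : ffA ρ Δ, (∀ b : ffA ρ Δ, ffT k V (a : Module.End k V) b = 0) → a = 0 := by
      intro a h
      by_contra hne
      have ha0 : (a : Module.End k V) ≠ 0 := fun h' => hne (Subtype.ext h')
      obtain ⟨c, hc, hac⟩ := ff_nondeg hΔ a.1 a.2 ha0
      exact hac (h ⟨c, hc⟩)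
    refine ⟨?_, ?_⟩
    · intro a h
      exact h1 a (fun b => h b)
    · intro a h
      refine h1 a (fun b => ?_)
      rw [ffT_symm]
      exact h b

theorem ff_mem_B {ρ : Representation k G V} {Δ : Subgroup G} {y : Module.End k V} :
    y ∈ (ffT k V).orthogonal (ffA ρ Δ) ↔
      ∀ a ∈ ffA ρ Δ, LinearMap.trace k V (a * y) = 0 := Iff.rfl

end ffaux

/-- **FF1** (M, only Mathlib and FE). Let `Δ` be a normal subgroup and `E` a subgroup of `G`, `V`
semisimple over `Δ` and over `E`, and `Δ E` of finite index. Then `V` is semisimple over `G`.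

Proof. Let `A` be the algebra of all endomorphisms commuting with `ρ Δ`.
(1) For `a <> 0` in `A` there is `c` in `A` with `tr (a c) <> 0`: the image `I` of `a` and the kernel of
`a` are `Δ`-stable; let `C` be a `Δ`-stable complement of the kernel, `D` one of `I`; `a` maps `C`
isomorphically to `I`; let `c` be the inverse on `I` and `0` on `D`; `c` is in `A`, `a c` is a
projector onto `I`, of trace `dim I <> 0` (characteristic zero).
(2) So `End V` is the direct sum of `A` and `B = {y : tr (y a) = 0 for all a in A}`. Both are stable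
under conjugation by `ρ g`, `g` in `G` (`Δ` normal), so the projection `π : End V -> A` along `B`
commutes with conjugation by `ρ g`. Also `π (a y c) = a π(y) c` for `a, c` in `A` (`B` is
stable under multiplication by `A` on both sides).
(3) Let `W` be `G`-stable. Let `e` be a projector onto `W` commuting with `ρ E` (`V` semisimple over
`E`) and `d` one commuting with `ρ Δ`. Put `e' = π e`. `d e = e`, so `d e' = e'`: the image of `e'` is
in `W`. `e d = d`, so `e' d = π (e d) = π d = d`: `e'` is the identity on `W`. And `e'` commutes with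
`ρ Δ` and, by equivariance of `π`, with `ρ E`; so with the subgroup generated by `Δ` and `E`, of
finite index; `average` gives a projector commuting with `ρ G`. -/
theorem ss_of_point {k G V : Type*} [Field k] [CharZero k] [Group G] [AddCommGroup V] [Module k V]
    [FiniteDimensional k V] (ρ : Representation k G V) (Δ E : Subgroup G) [Δ.Normal]
    (hΔ : SSOn ρ (Δ : Set G)) (hE : SSOn ρ (E : Set G)) (hfin : (Δ ⊔ E).FiniteIndex) :
    SSOn ρ Set.univ := by
  classical
  intro W hW
  have hdec := ff_decomp hΔ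
  set A := ffA ρ Δ with hA
  set B := (ffT k V).orthogonal (ffA ρ Δ) with hB
  -- uniqueness
  have huniq : ∀ a ∈ A, ∀ a' ∈ A, ∀ b ∈ B, ∀ b' ∈ B, a + b = a' + b' → a = a' := by
    intro a ha a' ha' b hb b' hb' h
    have h1 : a - a' = b' - b := by
      rw [sub_eq_sub_iff_add_eq_add, h]; abel
    have h2 : a - a' ∈ A ⊓ B := ⟨A.sub_mem ha ha', by rw [h1]; exact B.sub_mem hb' hb⟩
    rw [hdec.inf_eq_bot, Submodule.mem_bot, sub_eq_zero] at h2
    exact h2
  -- multiplication
  have hBl : ∀ a ∈ A, ∀ y ∈ B, a * y ∈ B := by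
    intro a ha y hy
    rw [hB, ff_mem_B] at hy ⊢
    intro a' ha'
    rw [← mul_assoc]
    exact hy _ (ff_mul_mem ha' ha)
  have hBr : ∀ a ∈ A, ∀ y ∈ B, y * a ∈ B := by
    intro a ha y hy
    rw [hB, ff_mem_B] at hy ⊢
    intro a' ha'
    rw [← mul_assoc, LinearMap.trace_mul_comm, ← mul_assoc]
    exact hy _ (ff_mul_mem ha ha')
  have hBc : ∀ g, ∀ y ∈ B, ρ g * y * ρ g⁻¹ ∈ B := by
    intro g y hy
    rw [hB, ff_mem_B] at hy ⊢
    intro a ha
    have h1 := ff_conj_mem ha g⁻¹
    rw [inv_inv] at h1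
    have h2 := hy _ h1
    have h3 : LinearMap.trace k V (a * (ρ g * y * ρ g⁻¹)) =
        LinearMap.trace k V (ρ g⁻¹ * a * ρ g * y) := by
      rw [← mul_assoc, LinearMap.trace_mul_comm]
      simp only [mul_assoc]
    rw [h3]; exact h2
  obtain ⟨W1, hW1, hc1⟩ := hE W (fun g _ x hx => hW g trivial x hx)
  obtain ⟨W2, hW2, hc2⟩ := hΔ W (fun g _ x hx => hW g trivial x hx)
  obtain ⟨e, he1, he2, he3⟩ := projector_of_compl W W1 hc1
  obtain ⟨d, hd1, hd2, hd3⟩ := projector_of_compl W W2 hc2
  have hdA : d ∈ A := fun g hg => hd3 _ (fun w hw => hW g trivial w hw) (fun w hw => hW2 g hg w hw)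
  have hemem : e ∈ A ⊔ B := by rw [hdec.sup_eq_top]; trivial
  obtain ⟨e', he', b, hb, heb⟩ := Submodule.mem_sup.1 hemem
  have hde : d * e = e := by
    ext v
    rw [Module.End.mul_apply, hd2 _ (he1 v)]
  have hed : e * d = d := by
    ext v
    rw [Module.End.mul_apply, he2 _ (hd1 v)]
  have h1 : d * e' = e' := by
    refine huniq _ (ff_mul_mem hdA he') _ he' (d * b) (hBl _ hdA _ hb) b hb ?_
    rw [← mul_add, heb, hde]
  have h2 : e' * d = d := by
    refine huniq _ (ff_mul_mem he' hdA) _ hdA (b * d) (hBr _ hdA _ hb) 0 B.zero_mem ?_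
    rw [← add_mul, heb, hed, add_zero]
  have h3 : ∀ v, e' v ∈ W := by
    intro v
    rw [← h1, Module.End.mul_apply]
    exact hd1 _
  have h4 : ∀ w ∈ W, e' w = w := by
    intro w hw
    have h := LinearMap.congr_fun h2 w
    rw [Module.End.mul_apply, hd2 w hw] at h
    exact h
  have hcE : ∀ g ∈ E, Commute (ρ g) e' := by
    intro g hg
    have h5 : Commute (ρ g) e := he3 _ (fun w hw => hW g trivial w hw) (fun w hw => hW1 g hg w hw)
    have h6 : ρ g * ρ g⁻¹ = 1 := by rw [← map_mul, mul_inv_cancel, map_one]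
    have h6' : ρ g⁻¹ * ρ g = 1 := by rw [← map_mul, inv_mul_cancel, map_one]
    have h7 : ρ g * e * ρ g⁻¹ = e := by rw [h5.eq, mul_assoc, h6, mul_one]
    have h8 : ρ g * e' * ρ g⁻¹ = e' := by
      refine huniq _ (ff_conj_mem he' g) _ he' (ρ g * b * ρ g⁻¹) (hBc g b hb) b hb ?_
      rw [← add_mul, ← mul_add, heb, h7]
    change ρ g * e' = e' * ρ g
    conv_rhs => rw [← h8]
    rw [mul_assoc, h6', mul_one]
  let S : Subgroup G :=
    { carrier := {g | Commute (ρ g) e'}
      mul_mem' := by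
        intro a c ha hc
        change Commute (ρ (a * c)) e'
        rw [map_mul]
        exact Commute.mul_left ha hc
      one_mem' := by
        change Commute (ρ 1) e'
        rw [map_one]
        exact Commute.one_left _
      inv_mem' := by
        intro a ha
        change Commute (ρ a⁻¹) e'
        have h6 : ρ a * ρ a⁻¹ = 1 := by rw [← map_mul, mul_inv_cancel, map_one]
        have h6' : ρ a⁻¹ * ρ a = 1 := by rw [← map_mul, inv_mul_cancel, map_one]
        have ha' : ρ a * e' = e' * ρ a := ha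
        change ρ a⁻¹ * e' = e' * ρ a⁻¹
        calc ρ a⁻¹ * e' = ρ a⁻¹ * e' * (ρ a * ρ a⁻¹) := by rw [h6, mul_one]
          _ = ρ a⁻¹ * (e' * ρ a) * ρ a⁻¹ := by simp only [mul_assoc]
          _ = ρ a⁻¹ * (ρ a * e') * ρ a⁻¹ := by rw [ha']
          _ = (ρ a⁻¹ * ρ a) * e' * ρ a⁻¹ := by simp only [mul_assoc]
          _ = e' * ρ a⁻¹ := by rw [h6', one_mul] }
  have hSle : Δ ⊔ E ≤ S := sup_le (fun g hg => he' g hg) (fun g hg => hcE g hg)
  obtain ⟨e'', q1, q2, q3⟩ := average ρ ⊤ (Δ ⊔ E) le_top inferInstance W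
    (fun g _ w hw => hW g trivial w hw) e' h3 h4 (fun g hg => hSle hg)
  refine ⟨LinearMap.ker e'', ?_, compl_of_projector W e'' q1 q2⟩
  intro g _ x hx
  rw [LinearMap.mem_ker] at hx ⊢
  have h := LinearMap.congr_fun (q3 g (Subgroup.mem_top g)).eq x
  rw [Module.End.mul_apply, Module.End.mul_apply, hx, map_zero] at h
  exact h.symm

/-- **FF2** (S/M, uses `average`). Let `V` be semisimple over `Δ` and suppose that the elements of a
subgroup `N` of finite index commute with all endomorphisms which commute with `Δ`. Then `V` is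
semisimple over `G`.

Proof. A projector onto the `G`-stable `W` commuting with `ρ Δ` commutes with `ρ N`; `average`. -/
theorem ss_of_mult {k G V : Type*} [Field k] [CharZero k] [Group G] [AddCommGroup V] [Module k V]
    [FiniteDimensional k V] (ρ : Representation k G V) (Δ N : Subgroup G)
    (hΔ : SSOn ρ (Δ : Set G)) (hN : N.FiniteIndex)
    (hmult : ∀ g ∈ N, ∀ e : Module.End k V, (∀ d ∈ Δ, Commute (ρ d) e) → Commute (ρ g) e) :
    SSOn ρ Set.univ := by
  intro W hW
  obtain ⟨W2, hW2, hc2⟩ := hΔ W (fun g _ x hx => hW g trivial x hx)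
  obtain ⟨d, hd1, hd2, hd3⟩ := projector_of_compl W W2 hc2
  have hdA : ∀ g ∈ Δ, Commute (ρ g) d := fun g hg =>
    hd3 _ (fun w hw => hW g trivial w hw) (fun w hw => hW2 g hg w hw)
  obtain ⟨e'', q1, q2, q3⟩ := average ρ ⊤ N le_top inferInstance W
    (fun g _ w hw => hW g trivial w hw) d hd1 hd2 (fun g hg => hmult g hg d hdA)
  refine ⟨LinearMap.ker e'', ?_, compl_of_projector W e'' q1 q2⟩
  intro g _ x hx
  rw [LinearMap.mem_ker] at hx ⊢
  have h := LinearMap.congr_fun (q3 g (Subgroup.mem_top g)).eq x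
  rw [Module.End.mul_apply, Module.End.mul_apply, hx, map_zero] at h
  exact h.symm

end H4S
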