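import Mathlib
import Pool.Agent.Lib.H4S.FE

/-!
# H4S, chunk FN: neighbourhoods of the identity in a compact group of endomorphisms
-/

set_option autoImplicit false

namespace H4S

open Module

section fnaux

variable {p : ℕ} [hp : Fact p.Prime] {G V : Type*} [Group G] [TopologicalSpace G]
    [IsTopologicalGroup G] [AddCommGroup V] [Module ℚ_[p] V]

omit [IsTopologicalGroup G] in
theorem fn_open (ρ : Representation ℚ_[p] G V) (hρ : IsContR ρ) {ι : Type*} [Fintype ι]
    (b : Basis ι ℚ_[p] V) (δ : ℝ) (hδ : 0 < δ) : IsOpen {a : G | Sm b (ρ a - 1) δ} := by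
  have h1 : {a : G | Sm b (ρ a - 1) δ} = ⋂ i, ⋂ j,
      (fun a => b.repr ((ρ a - 1) (b j)) i) ⁻¹' Metric.closedBall 0 δ := by
    ext a
    simp only [Set.mem_ofPred_eq, Set.mem_iInter, Set.mem_preimage, Metric.mem_closedBall,
      dist_zero_right]
    rfl
  rw [h1]
  refine isOpen_iInter_of_finite fun i => isOpen_iInter_of_finite fun j => ?_
  refine (IsUltrametricDist.isOpen_closedBall 0 hδ.ne').preimage ?_
  have h2 : (fun a => b.repr ((ρ a - 1) (b j)) i) =
      fun a => b.repr (ρ a (b j)) i - b.repr (b j) i := by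
    funext a
    simp
  rw [h2]
  exact (hρ (b j) (b.coord i)).sub continuous_const

omit [TopologicalSpace G] [IsTopologicalGroup G] in
theorem fn_mul (ρ : Representation ℚ_[p] G V) {ι : Type*} [Fintype ι]
    (b : Basis ι ℚ_[p] V) (δ : ℝ) (hδ : 0 < δ) (hδ1 : δ ≤ 1) {g h : G}
    (hg : Sm b (ρ g - 1) δ) (hh : Sm b (ρ h - 1) δ) : Sm b (ρ (g * h) - 1) δ := by
  have h1 : ρ (g * h) - 1 = (ρ g - 1) * (ρ h - 1) + (ρ g - 1) + (ρ h - 1) := by
    rw [map_mul, sub_mul, mul_sub, mul_sub, mul_one, one_mul, mul_one]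
    abel
  rw [h1]
  refine ((Sm.mono (hg.mul hδ.le hδ.le hh) ?_).add hg).add hh
  calc δ * δ ≤ δ * 1 := by gcongr
    _ = δ := mul_one δ

end fnaux

/-- **FN1** (M). For a continuous representation of a compact group `G` and `δ > 0` there is a
normal subgroup `N` of finite index of `G`, open, with `ρ(N)` in `near b (range ρ) δ`.

Proof. Let `δ' = min δ 1/2` and `H` the set of all `g` with `ρ g - 1` of size at most `δ'`. It contains
`1`; `gh - 1 = (g-1)(h-1) + (g-1) + (h-1)`; for inverses: `a = ρ g` has size at most `1`;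
let `s` be the maximum of the norms of the entries of `a' = ρ g^(-1)`; from
`a' - 1 = - (a - 1) a'` the size of `a' - 1` is at most `s/2`, so `s <= max(1, s/2)`, `s <= 1`, and
`a' - 1` has size at most `δ'`. So `H` is a subgroup, open by continuity (finitely many matrix
coefficients), hence of finite index (`G` compact); take its normal core, which is a finite
intersection of conjugates of `H`, open. -/
theorem exists_normal_near {p : ℕ} [hp : Fact p.Prime] {G V : Type*} [Group G]
    [TopologicalSpace G] [IsTopologicalGroup G] [CompactSpace G] [AddCommGroup V]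
    [Module ℚ_[p] V] (ρ : Representation ℚ_[p] G V) (hρ : IsContR ρ) {ι : Type*} [Fintype ι]
    (b : Basis ι ℚ_[p] V) (δ : ℝ) (hδ : 0 < δ) :
    ∃ N : Subgroup G, N.Normal ∧ N.FiniteIndex ∧ IsOpen (N : Set G) ∧
      ∀ g ∈ N, ρ g ∈ near b (Set.range ρ) δ := by
  classical
  set δ' := min δ 1 with hδ'
  have hδ'0 : 0 < δ' := lt_min hδ one_pos
  have hδ'1 : δ' ≤ 1 := min_le_right _ _
  let H : Subgroup G :=
    { carrier := {g | Sm b (ρ g - 1) δ' ∧ Sm b (ρ g⁻¹ - 1) δ'}
      mul_mem' := by
        rintro x y ⟨hx1, hx2⟩ ⟨hy1, hy2⟩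
        refine ⟨fn_mul ρ b δ' hδ'0 hδ'1 hx1 hy1, ?_⟩
        rw [mul_inv_rev]
        exact fn_mul ρ b δ' hδ'0 hδ'1 hy2 hx2
      one_mem' := by
        have h1 : Sm b (ρ (1 : G) - 1) δ' := by
          rw [map_one, sub_self]
          exact Sm.zero b hδ'0.le
        refine ⟨h1, ?_⟩
        rw [inv_one]
        exact h1
      inv_mem' := by
        rintro x ⟨hx1, hx2⟩
        refine ⟨hx2, ?_⟩
        rw [inv_inv]
        exact hx1 }
  have hHo : IsOpen (H : Set G) := by
    have h1 := fn_open ρ hρ b δ' hδ'0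
    exact h1.inter (h1.preimage continuous_inv)
  have hHq : Finite (G ⧸ H) := Subgroup.quotient_finite_of_isOpen H hHo
  have hHf : H.FiniteIndex := Subgroup.finiteIndex_of_finite_quotient
  have hcl : IsClosed (H.normalCore : Set G) := by
    have h1 : (H.normalCore : Set G) = ⋂ c : G, (fun a => c * a * c⁻¹) ⁻¹' (H : Set G) := by
      ext a
      simp only [Set.mem_iInter, Set.mem_preimage]
      rfl
    rw [h1]
    refine isClosed_iInter fun c => (Subgroup.isClosed_of_isOpen H hHo).preimage ?_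
    fun_prop
  have hfi : H.normalCore.FiniteIndex := inferInstance
  refine ⟨H.normalCore, inferInstance, hfi, Subgroup.isOpen_of_isClosed_of_finiteIndex _ hcl, ?_⟩
  intro g hg
  have h1 : g ∈ H := H.normalCore_le hg
  exact ⟨⟨g, rfl⟩, h1.1.mono (min_le_left _ _)⟩

/-- **FN2** (M, uses `clifford`, `average`, FN1). Semisimplicity over `G` implies semisimplicity over
the neighbourhoods of `1`.

Proof. Let `N` be as in `exists_normal_near`. Let `U` be stable under `near b (range ρ) δ`. Let `H` be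
the subgroup of all `g` with `ρ g U ⊆ U` and `ρ g^(-1) U ⊆ U`; it contains `N` and all `g`
with `ρ g` in `near b (range ρ) δ` (`ρ g` is injective and `U` finite-dimensional, so `ρ g U = U`).
By `clifford` `U` has an `N`-stable complement, so there is a projector onto `U` commuting
with `ρ N` (`projector_of_compl`); by `average` (`N` has finite index in `H`) there is one commuting
with `ρ H`; its kernel is a complement stable under `near b (range ρ) δ`. -/
theorem ss_near {p : ℕ} [hp : Fact p.Prime] {G V : Type*} [Group G]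
    [TopologicalSpace G] [IsTopologicalGroup G] [CompactSpace G] [AddCommGroup V]
    [Module ℚ_[p] V] [FiniteDimensional ℚ_[p] V] (ρ : Representation ℚ_[p] G V)
    (hρ : IsContR ρ) (hss : SSOn ρ Set.univ) {ι : Type*} [Fintype ι]
    (b : Basis ι ℚ_[p] V) (δ : ℝ) (hδ : 0 < δ) : SS (near b (Set.range ρ) δ) := by
  classical
  intro U hU
  obtain ⟨N, hNn, hNf, hNo, hN⟩ := exists_normal_near ρ hρ b δ hδ
  have hss' := clifford ρ N hss
  have hNU : ∀ g ∈ N, ∀ u ∈ U, ρ g u ∈ U := fun g hg u hu => hU _ (hN g hg) u hu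
  let H : Subgroup G :=
    { carrier := {g | (∀ u ∈ U, ρ g u ∈ U) ∧ ∀ u ∈ U, ρ g⁻¹ u ∈ U}
      mul_mem' := by
        rintro x y ⟨hx1, hx2⟩ ⟨hy1, hy2⟩
        refine ⟨fun u hu => ?_, fun u hu => ?_⟩
        · rw [map_mul, Module.End.mul_apply]
          exact hx1 _ (hy1 u hu)
        · rw [mul_inv_rev, map_mul, Module.End.mul_apply]
          exact hy2 _ (hx2 u hu)
      one_mem' := by
        refine ⟨fun u hu => ?_, fun u hu => ?_⟩
        · rw [map_one]; exact hu
        · rw [inv_one, map_one]; exact hu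
      inv_mem' := by
        rintro x ⟨hx1, hx2⟩
        refine ⟨hx2, ?_⟩
        rw [inv_inv]
        exact hx1 }
  have hNH : N ≤ H := fun g hg => ⟨hNU g hg, hNU g⁻¹ (N.inv_mem hg)⟩
  have hnearH : ∀ g, ρ g ∈ near b (Set.range ρ) δ → g ∈ H := by
    intro g hg
    have h1 : ∀ u ∈ U, ρ g u ∈ U := hU _ hg
    refine ⟨h1, fun u hu => ?_⟩
    have hinv1 : ∀ v, ρ g⁻¹ (ρ g v) = v := by
      intro v
      rw [← Module.End.mul_apply, ← map_mul, inv_mul_cancel, map_one]; rfl
    have hinj : Function.Injective (ρ g) := by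
      intro x y hxy
      rw [← hinv1 x, ← hinv1 y, hxy]
    have h2 : Submodule.map (ρ g) U ≤ U := by
      rintro _ ⟨x, hx, rfl⟩
      exact h1 x hx
    have h3 : Submodule.map (ρ g) U = U :=
      Submodule.eq_of_le_of_finrank_eq h2 (LinearEquiv.finrank_eq (Submodule.equivMapOfInjective (ρ g) hinj U)).symm
    have h4 : u ∈ Submodule.map (ρ g) U := by rw [h3]; exact hu
    obtain ⟨x, hx, rfl⟩ := h4
    rw [hinv1]
    exact hx
  obtain ⟨U', hU', hc⟩ := hss' U hNU
  obtain ⟨e, he1, he2, he3⟩ := projector_of_compl U U' hc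
  obtain ⟨e', q1, q2, q3⟩ := average ρ H N hNH inferInstance U (fun g hg => hg.1) e he1 he2
    (fun g hg => he3 _ (hNU g hg) (hU' g hg))
  refine ⟨LinearMap.ker e', ?_, compl_of_projector U e' q1 q2⟩
  rintro a ha u hu
  obtain ⟨g, rfl⟩ := ha.1
  rw [LinearMap.mem_ker] at hu ⊢
  have h := LinearMap.congr_fun (q3 g (hnearH g ha)).eq u
  rw [Module.End.mul_apply, Module.End.mul_apply, hu, map_zero] at h
  exact h.symm

/-- **FN3** (S/M, uses `average`, FN1). A projector commuting with the elements near `1` gives a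
stable complement. -/
theorem complement_of_near {p : ℕ} [hp : Fact p.Prime] {G V : Type*} [Group G]
    [TopologicalSpace G] [IsTopologicalGroup G] [CompactSpace G] [AddCommGroup V]
    [Module ℚ_[p] V] [FiniteDimensional ℚ_[p] V] (ρ : Representation ℚ_[p] G V)
    (hρ : IsContR ρ) {ι : Type*} [Fintype ι] (b : Basis ι ℚ_[p] V) (δ : ℝ) (hδ : 0 < δ)
    (W : Submodule ℚ_[p] V) (hW : ∀ g, ∀ w ∈ W, ρ g w ∈ W) (e : Module.End ℚ_[p] V)
    (he1 : ∀ v, e v ∈ W) (he2 : ∀ w ∈ W, e w = w)
    (he : ∀ g ∈ near b (Set.range ρ) δ, Commute g e) :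
    ∃ W' : Submodule ℚ_[p] V, (∀ g, ∀ w ∈ W', ρ g w ∈ W') ∧ IsCompl W W' := by
  classical
  obtain ⟨N, hNn, hNf, hNo, hN⟩ := exists_normal_near ρ hρ b δ hδ
  obtain ⟨e', q1, q2, q3⟩ := average ρ ⊤ N le_top inferInstance W (fun g _ => hW g) e he1 he2
    (fun g hg => he _ (hN g hg))
  refine ⟨LinearMap.ker e', ?_, compl_of_projector W e' q1 q2⟩
  rintro g u hu
  rw [LinearMap.mem_ker] at hu ⊢
  have h := LinearMap.congr_fun (q3 g (Subgroup.mem_top g)).eq u
  rw [Module.End.mul_apply, Module.End.mul_apply, hu, map_zero] at h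
  exact h.symm

end H4S
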