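import Mathlib
import Pool.Agent.Lib.H4S.TA

/-!
# H4S, chunk TC: the tangent space is a closed subspace
-/

set_option autoImplicit false

namespace H4S

open Module

theorem TC_pow_mem {p : ℕ} [hp : Fact p.Prime] {V : Type*} [AddCommGroup V] [Module ℚ_[p] V]
    (G : Set (Module.End ℚ_[p] V)) (hG : MGrp G) (g : Module.End ℚ_[p] V) (hg : g ∈ G) (n : ℕ) :
    g ^ n ∈ G := by
  induction n with
  | zero => rw [pow_zero]; exact hG.one
  | succ n ih => rw [pow_succ]; exact hG.mul _ ih _ hg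

theorem TC_small {p : ℕ} [hp : Fact p.Prime] (B ε : ℝ) (_hB : 0 ≤ B) (hε : 0 < ε) :
    ∃ K : ℕ, ∀ k, K ≤ k → B * ((p : ℝ) ^ k)⁻¹ ≤ ε := by
  have hpR : (1 : ℝ) < p := by exact_mod_cast hp.out.one_lt
  have htend : Filter.Tendsto (fun k : ℕ => B * ((p : ℝ) ^ k)⁻¹) Filter.atTop (nhds 0) := by
    have h1 : Filter.Tendsto (fun j : ℕ => ((p : ℝ) ^ j)⁻¹) Filter.atTop (nhds 0) :=
      tendsto_inv_atTop_zero.comp (tendsto_pow_atTop_atTop_of_one_lt hpR)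
    simpa using h1.const_mul B
  exact Filter.eventually_atTop.1 (htend.eventually_le_const hε)

/-- If `p^(-k) (g - 1)` has size at most `C` then `g - 1` has size at most `p^(-k) C`. -/
theorem TC_size {p : ℕ} [hp : Fact p.Prime] {V : Type*} [AddCommGroup V] [Module ℚ_[p] V]
    {ι : Type*} [Fintype ι] (b : Basis ι ℚ_[p] V) (w y : Module.End ℚ_[p] V) (C ε : ℝ) (k : ℕ)
    (hy : Sm b y C) (hε : ε ≤ C) (h : Sm b (((p : ℚ_[p]) ^ k)⁻¹ • w - y) ε) :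
    Sm b (((p : ℚ_[p]) ^ k)⁻¹ • w) C ∧ Sm b w (((p : ℝ) ^ k)⁻¹ * C) := by
  have hp0 : (p : ℚ_[p]) ≠ 0 := by exact_mod_cast hp.out.ne_zero
  have h1 : Sm b (((p : ℚ_[p]) ^ k)⁻¹ • w) C := by
    have := (h.mono hε).add hy
    rwa [sub_add_cancel] at this
  refine ⟨h1, ?_⟩
  have h2 := h1.smul ((p : ℚ_[p]) ^ k)
  rwa [smul_smul, mul_inv_cancel₀ (pow_ne_zero _ hp0), one_smul, norm_pow, Padic.norm_p,
    inv_pow] at h2

/-- Elements of the tangent space are approximated at all large levels. -/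
theorem TC_unif {p : ℕ} [hp : Fact p.Prime] {V : Type*} [AddCommGroup V] [Module ℚ_[p] V]
    {ι : Type*} [Fintype ι] (b : Basis ι ℚ_[p] V) (G : Set (Module.End ℚ_[p] V)) (hG : MGrp G)
    (y : Module.End ℚ_[p] V) (hy : y ∈ TS b G) (ε : ℝ) (hε : 0 < ε) :
    ∃ K : ℕ, ∀ m, K ≤ m → ∃ g ∈ G, Sm b (((p : ℚ_[p]) ^ m)⁻¹ • (g - 1) - y) ε := by
  obtain ⟨C0, hC0, hyC0⟩ := Sm.exists b y
  set C := max C0 1 with hC
  have hC1 : 1 ≤ C := le_max_right _ _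
  have hyC : Sm b y C := hyC0.mono (le_max_left _ _)
  set ε' := min ε 1 with hε'
  have hε'0 : 0 < ε' := lt_min hε one_pos
  have hε'1 : ε' ≤ C := (min_le_right _ _).trans hC1
  have hpR : (1 : ℝ) < p := by exact_mod_cast hp.out.one_lt
  obtain ⟨K1, hK1⟩ := TC_small (p := p) C ((p : ℝ) ^ 2)⁻¹ (by linarith) (by positivity)
  obtain ⟨K2, hK2⟩ := TC_small (p := p) (p * C ^ 2) ε' (by positivity) hε'0
  obtain ⟨k, hk, g, hg, hgk⟩ := hy ε' hε'0 (max K1 K2)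
  refine ⟨k, fun m hm => ?_⟩
  obtain ⟨j, rfl⟩ := Nat.exists_eq_add_of_le hm
  refine ⟨g ^ (p ^ j), TC_pow_mem G hG g hg _, ?_⟩
  obtain ⟨-, h1⟩ := TC_size b (g - 1) y C ε' k hyC hε'1 hgk
  have hr : ((p : ℝ) ^ k)⁻¹ * C ≤ ((p : ℝ) ^ 2)⁻¹ := by
    rw [mul_comm]
    exact hK1 k ((le_max_left _ _).trans hk)
  have h2 := pow_est b (g - 1) (((p : ℝ) ^ k)⁻¹ * C) (by positivity) hr h1 j
  rw [add_sub_cancel] at h2
  have h3 := h2.smul ((p : ℚ_[p]) ^ k)⁻¹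
  rw [smul_sub, smul_smul, ← mul_inv, ← pow_add, norm_inv, norm_pow, Padic.norm_p, inv_pow,
    inv_inv] at h3
  have e : (p : ℝ) ^ k * (p * (((p : ℝ) ^ k)⁻¹ * C) ^ 2) = p * C ^ 2 * ((p : ℝ) ^ k)⁻¹ := by
    field_simp
  rw [e] at h3
  have h4 := (h3.mono (hK2 k ((le_max_right _ _).trans hk))).add hgk
  rw [sub_add_sub_cancel] at h4
  exact h4.mono (min_le_left _ _)

theorem TC_add {p : ℕ} [hp : Fact p.Prime] {V : Type*} [AddCommGroup V] [Module ℚ_[p] V]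
    {ι : Type*} [Fintype ι] (b : Basis ι ℚ_[p] V) (G : Set (Module.End ℚ_[p] V)) (hG : MGrp G)
    (y z : Module.End ℚ_[p] V) (hy : y ∈ TS b G) (hz : z ∈ TS b G) : y + z ∈ TS b G := by
  intro ε hε N
  obtain ⟨C1, hC1, hyC1⟩ := Sm.exists b y
  obtain ⟨C2, hC2, hzC2⟩ := Sm.exists b z
  set C := max (max C1 C2) 1 with hC
  have hC1 : 1 ≤ C := le_max_right _ _
  have hyC : Sm b y C := hyC1.mono ((le_max_left _ _).trans (le_max_left _ _))
  have hzC : Sm b z C := hzC2.mono ((le_max_right _ _).trans (le_max_left _ _))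
  set ε' := min ε 1 with hε'
  have hε'0 : 0 < ε' := lt_min hε one_pos
  have hε'1 : ε' ≤ C := (min_le_right _ _).trans hC1
  obtain ⟨K1, hK1⟩ := TC_unif b G hG y hy ε' hε'0
  obtain ⟨K2, hK2⟩ := TC_unif b G hG z hz ε' hε'0
  obtain ⟨K3, hK3⟩ := TC_small (p := p) (C ^ 2) ε' (by positivity) hε'0
  set m := max (max K1 K2) (max K3 N) with hm
  have m1 : K1 ≤ m := (le_max_left _ _).trans (le_max_left _ _)
  have m2 : K2 ≤ m := (le_max_right _ _).trans (le_max_left _ _)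
  have m3 : K3 ≤ m := (le_max_left _ _).trans (le_max_right _ _)
  have m4 : N ≤ m := (le_max_right _ _).trans (le_max_right _ _)
  obtain ⟨g, hg, hgm⟩ := hK1 m m1
  obtain ⟨h, hh, hhm⟩ := hK2 m m2
  refine ⟨m, m4, g * h, hG.mul g hg h hh, ?_⟩
  obtain ⟨s1, -⟩ := TC_size b (g - 1) y C ε' m hyC hε'1 hgm
  obtain ⟨-, s2⟩ := TC_size b (h - 1) z C ε' m hzC hε'1 hhm
  have s3 := s1.mul (by positivity) (by positivity) s2
  have e1 : C * (((p : ℝ) ^ m)⁻¹ * C) = C ^ 2 * ((p : ℝ) ^ m)⁻¹ := by ring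
  rw [e1] at s3
  have e2 : ((p : ℚ_[p]) ^ m)⁻¹ • (g * h - 1) - (y + z) =
      (((p : ℚ_[p]) ^ m)⁻¹ • (g - 1) - y) + (((p : ℚ_[p]) ^ m)⁻¹ • (h - 1) - z) +
        (((p : ℚ_[p]) ^ m)⁻¹ • (g - 1)) * (h - 1) := by
    rw [smul_mul_assoc]
    have e3 : g * h - 1 = (g - 1) + (h - 1) + (g - 1) * (h - 1) := by
      rw [sub_mul, mul_sub, one_mul, mul_one]
      abel
    rw [e3, smul_add, smul_add]
    abel
  rw [e2]
  exact ((hgm.add hhm).add (s3.mono (hK3 m m3))).mono (min_le_left _ _)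

theorem TC_inv_smul {p : ℕ} [hp : Fact p.Prime] {V : Type*} [AddCommGroup V] [Module ℚ_[p] V]
    {ι : Type*} [Fintype ι] (b : Basis ι ℚ_[p] V) (G : Set (Module.End ℚ_[p] V))
    (y : Module.End ℚ_[p] V) (hy : y ∈ TS b G) (i : ℕ) : ((p : ℚ_[p]) ^ i)⁻¹ • y ∈ TS b G := by
  have hpR : (1 : ℝ) < p := by exact_mod_cast hp.out.one_lt
  intro ε hε N
  obtain ⟨k, hk, g, hg, h⟩ := hy (((p : ℝ) ^ i)⁻¹ * ε) (by positivity) N
  refine ⟨i + k, by omega, g, hg, ?_⟩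
  have h1 := h.smul ((p : ℚ_[p]) ^ i)⁻¹
  rw [smul_sub, smul_smul, ← mul_inv, ← pow_add, norm_inv, norm_pow, Padic.norm_p, inv_pow,
    inv_inv, ← mul_assoc, mul_inv_cancel₀ (by positivity), one_mul] at h1
  exact h1

theorem TC_zero {p : ℕ} [hp : Fact p.Prime] {V : Type*} [AddCommGroup V] [Module ℚ_[p] V]
    {ι : Type*} [Fintype ι] (b : Basis ι ℚ_[p] V) (G : Set (Module.End ℚ_[p] V)) (hG : MGrp G) :
    (0 : Module.End ℚ_[p] V) ∈ TS b G := by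
  intro ε hε N
  refine ⟨N, le_rfl, 1, hG.one, ?_⟩
  rw [sub_self, smul_zero, sub_zero]
  exact Sm.zero b hε.le

theorem TC_nsmul {p : ℕ} [hp : Fact p.Prime] {V : Type*} [AddCommGroup V] [Module ℚ_[p] V]
    {ι : Type*} [Fintype ι] (b : Basis ι ℚ_[p] V) (G : Set (Module.End ℚ_[p] V)) (hG : MGrp G)
    (y : Module.End ℚ_[p] V) (hy : y ∈ TS b G) (n : ℕ) : (n : ℚ_[p]) • y ∈ TS b G := by
  induction n with
  | zero =>
    rw [Nat.cast_zero, zero_smul]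
    exact TC_zero b G hG
  | succ n ih =>
    rw [Nat.cast_succ, add_smul, one_smul]
    exact TC_add b G hG _ _ ih hy

theorem TC_dense {p : ℕ} [hp : Fact p.Prime] (c : ℚ_[p]) (ε : ℝ) (hε : 0 < ε) :
    ∃ i n : ℕ, ‖((p : ℚ_[p]) ^ i)⁻¹ * (n : ℚ_[p]) - c‖ ≤ ε := by
  have hp0 : (p : ℚ_[p]) ≠ 0 := by exact_mod_cast hp.out.ne_zero
  have hpR : (1 : ℝ) < p := by exact_mod_cast hp.out.one_lt
  obtain ⟨i, hi⟩ := TC_small (p := p) ‖c‖ 1 (norm_nonneg _) one_pos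
  have hi' := hi i le_rfl
  have h1 : ‖(p : ℚ_[p]) ^ i * c‖ ≤ 1 := by
    rw [norm_mul, norm_pow, Padic.norm_p, inv_pow, mul_comm]
    exact hi'
  let x : ℤ_[p] := ⟨(p : ℚ_[p]) ^ i * c, h1⟩
  obtain ⟨n, hn⟩ := (Metric.denseRange_iff.1 (PadicInt.denseRange_natCast (p := p))) x
    (((p : ℝ) ^ i)⁻¹ * ε) (by positivity)
  refine ⟨i, n, ?_⟩
  rw [dist_eq_norm, PadicInt.norm_def] at hn
  have h2 : ((p : ℚ_[p]) ^ i)⁻¹ * (n : ℚ_[p]) - c =
      -(((p : ℚ_[p]) ^ i)⁻¹ * ((p : ℚ_[p]) ^ i * c - n)) := by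
    field_simp
    ring
  rw [h2, norm_neg, norm_mul, norm_inv, norm_pow, Padic.norm_p, inv_pow, inv_inv]
  have h3 : ‖(p : ℚ_[p]) ^ i * c - n‖ ≤ ((p : ℝ) ^ i)⁻¹ * ε := by
    have h4 := hn.le
    rw [PadicInt.coe_sub, PadicInt.coe_natCast] at h4
    exact h4
  calc (p : ℝ) ^ i * ‖(p : ℚ_[p]) ^ i * c - n‖ ≤ (p : ℝ) ^ i * (((p : ℝ) ^ i)⁻¹ * ε) := by gcongr
    _ = ε := by
      rw [← mul_assoc, mul_inv_cancel₀ (by positivity), one_mul]

/-- **TC1** (S). The tangent space is closed. (Choose `y'` in `TS b G` close to `y`, then `g`.) -/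
theorem ts_closed {p : ℕ} [hp : Fact p.Prime] {V : Type*} [AddCommGroup V] [Module ℚ_[p] V]
    {ι : Type*} [Fintype ι] (b : Basis ι ℚ_[p] V) (G : Set (Module.End ℚ_[p] V))
    (y : Module.End ℚ_[p] V) (h : ∀ ε : ℝ, 0 < ε → ∃ y' ∈ TS b G, Sm b (y' - y) ε) :
    y ∈ TS b G := by
  intro ε hε N
  obtain ⟨y', hy', h1⟩ := h ε hε
  obtain ⟨k, hk, g, hg, h2⟩ := hy' ε hε N
  refine ⟨k, hk, g, hg, ?_⟩
  have h3 := h2.add h1
  rwa [sub_add_sub_cancel] at h3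

/-- **TC2** (M, uses `pow_est`). The tangent space of a group is a subspace.

Proof. `0`: take `g = 1`. Let `y, z` be in `TS b G`, `C >= 1` a bound for their sizes. Let `ε < 1` and
`N` be given; choose `k, g` for `y` and `m, h` for `z` with error `ε`, and `k, m` so large that
`p C p^(-min(k,m)) <= min(ε, 1) / (p C)`. `g - 1` has size at most `C p^(-k)`, `h - 1` has size at
most `C p^(-m)`. Say `k <= m` (the other case is symmetric); replace `g` by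
`g' = g^(p^(m-k))`: by `pow_est` with `u = g - 1`,
`p^(-(m-k)) (g' - 1) - (g - 1)` has size at most `p (C p^(-k))^2`, so
`p^(-m) (g' - 1) - p^(-k) (g - 1)` has size at most `p C^2 p^(-k) <= ε`; so `p^(-m)(g'-1)` is
within `ε` of `y`. Now `g' h - 1 = (g'-1) + (h-1) + (g'-1)(h-1)`, and `p^(-m) (g'-1)(h-1)` has
size at most `C p^(-m) C <= ε`. So `y + z` is in `TS b G`. Multiples: `- y`: `g^(-1) - 1 =
- (g-1) + (g - 1)(1 - g^(-1))`, error small as before (or: it is enough to treat multiples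
by non-negative integers and `-1 = lim (p^N - 1)`, using `ts_closed`); `p^(-1) y`: replace `k` by
`k + 1` (same `g`); `p y`: replace `k` by `k - 1`; natural multiples by addition; elements of
`ℤ_p` are limits of natural numbers (`ts_closed`), elements of `ℚ_p` are `p^(-i)` times elements of
`ℤ_p`. -/
theorem ts_submodule {p : ℕ} [hp : Fact p.Prime] {V : Type*} [AddCommGroup V] [Module ℚ_[p] V]
    {ι : Type*} [Fintype ι] (b : Basis ι ℚ_[p] V) (G : Set (Module.End ℚ_[p] V)) (hG : MGrp G) :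
    ∃ L : Submodule ℚ_[p] (Module.End ℚ_[p] V), (L : Set (Module.End ℚ_[p] V)) = TS b G := by
  refine ⟨{ carrier := TS b G
            add_mem' := fun {a c} ha hc => TC_add b G hG a c ha hc
            zero_mem' := TC_zero b G hG
            smul_mem' := fun c y hy => ?_ }, rfl⟩
  refine ts_closed b G _ fun ε hε => ?_
  obtain ⟨C, hC, hyC⟩ := Sm.exists b y
  obtain ⟨i, n, h⟩ := TC_dense (p := p) c (ε / C) (by positivity)
  refine ⟨((p : ℚ_[p]) ^ i)⁻¹ • ((n : ℚ_[p]) • y),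
    TC_inv_smul b G _ (TC_nsmul b G hG y hy n) i, ?_⟩
  rw [smul_smul, ← sub_smul]
  refine (hyC.smul _).mono ?_
  calc ‖((p : ℚ_[p]) ^ i)⁻¹ * (n : ℚ_[p]) - c‖ * C ≤ ε / C * C := by gcongr
    _ = ε := by field_simp

end H4S
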