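import Mathlib
import Pool.Agent.Lib.H4S.TC

/-!
# H4S, chunk TD: the tangent space is a Lie algebra
-/

set_option autoImplicit false

namespace H4S

open Module

theorem TD_conj {p : ℕ} [hp : Fact p.Prime] {V : Type*} [AddCommGroup V] [Module ℚ_[p] V]
    {ι : Type*} [Fintype ι] (b : Basis ι ℚ_[p] V) (G : Set (Module.End ℚ_[p] V)) (hG : MGrp G)
    (g g' z : Module.End ℚ_[p] V) (hg : g ∈ G) (hg' : g' ∈ G) (h1 : g * g' = 1)
    (hz : z ∈ TS b G) : g * z * g' ∈ TS b G := by
  intro ε hε N
  obtain ⟨A, hA0, hA⟩ := Sm.exists b g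
  obtain ⟨B, hB0, hB⟩ := Sm.exists b g'
  obtain ⟨k, hk, h, hh, hkh⟩ := hz (ε / (A * B)) (by positivity) N
  refine ⟨k, hk, g * h * g', hG.mul _ (hG.mul _ hg _ hh) _ hg', ?_⟩
  have e : ((p : ℚ_[p]) ^ k)⁻¹ • (g * h * g' - 1) - g * z * g' =
      g * (((p : ℚ_[p]) ^ k)⁻¹ • (h - 1) - z) * g' := by
    rw [mul_sub, sub_mul, mul_smul_comm, smul_mul_assoc, mul_sub, sub_mul, mul_one, h1]
  rw [e]
  refine ((hA.mul hA0.le (by positivity) hkh).mul (by positivity) hB0.le hB).mono (le_of_eq ?_)
  field_simp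

theorem TD_inv {p : ℕ} [hp : Fact p.Prime] {V : Type*} [AddCommGroup V] [Module ℚ_[p] V]
    {ι : Type*} [Fintype ι] (b : Basis ι ℚ_[p] V) (g g' : Module.End ℚ_[p] V)
    (h1 : g * g' = 1) (hg : Sm b (g - 1) (1 / 2)) : Sm b g' 1 := by
  obtain ⟨s, hs0, hs⟩ := Sm.exists b g'
  have e : g' = 1 - (g - 1) * g' := by
    rw [sub_mul, h1, one_mul]
    abel
  have key : ∀ n : ℕ, Sm b g' (max 1 (s / 2 ^ n)) := by
    intro n
    induction n with
    | zero =>
      refine hs.mono ?_
      rw [pow_zero, div_one]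
      exact le_max_right _ _
    | succ n ih =>
      rw [e]
      have h2 := hg.mul (by norm_num) (le_trans zero_le_one (le_max_left _ _)) ih
      refine ((Sm.one b).mono (le_max_left _ _)).sub (h2.mono ?_)
      rw [pow_succ]
      rcases le_total (s / 2 ^ n) 1 with h | h
      · rw [max_eq_left h]
        exact le_trans (by norm_num) (le_max_left _ _)
      · rw [max_eq_right h]
        refine le_trans (le_of_eq ?_) (le_max_right _ _)
        field_simp
  obtain ⟨n, hn⟩ := pow_unbounded_of_one_lt s (one_lt_two)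
  refine (key n).mono (max_le le_rfl ?_)
  rw [div_le_one (by positivity)]
  exact hn.le

/-- **TD** (M, uses `ts_closed`, `ts_submodule`). The tangent space of a group is closed under
commutators.

Proof. (1) If `g` is in `G` with inverse `g'` and `z` in `TS b G` then `g z g'` is in `TS b G`:
`g (h - 1) g' = g h g' - 1`, multiplication by `g` and `g'` multiplies sizes by a constant.
(2) Let `y, z` be in `TS b G`. For `ε > 0` and large `k` choose `g` in `G` with
`p^(-k) (g - 1) - y` of size at most `ε`; let `g'` be its inverse. `g - 1` has size at most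
`C p^(-k)`, `C` a bound for `y`; for large `k` it is at most `1/2`, so `g` has size at most
`1`, and `g' - 1 = -(g-1) g'`, which gives (sizes are ultrametric) that `g' ` has size at
most `1` (if the size `s` of `g'` were larger than `1`, then `s = size(g' - 1) <= s/2`; take `s` to
be the maximum of the norms of the entries). Then
`p^(-k) (g z g' - z) = p^(-k) (g z - z g) g' = (p^(-k) (g-1) z - z p^(-k) (g-1)) g'` is
close to `y z - z y` (error at most a constant times `ε + p^(-k)`). The left side is in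
`TS b G` (a subspace, by (1)), so `y z - z y` is in `TS b G` by `ts_closed`. -/
theorem ts_lie {p : ℕ} [hp : Fact p.Prime] {V : Type*} [AddCommGroup V] [Module ℚ_[p] V]
    {ι : Type*} [Fintype ι] (b : Basis ι ℚ_[p] V) (G : Set (Module.End ℚ_[p] V)) (hG : MGrp G)
    (y z : Module.End ℚ_[p] V) (hy : y ∈ TS b G) (hz : z ∈ TS b G) :
    y * z - z * y ∈ TS b G := by
  refine ts_closed b G _ fun ε hε => ?_
  obtain ⟨L, hL⟩ := ts_submodule b G hG
  obtain ⟨C1, hC1, hyC1⟩ := Sm.exists b y
  obtain ⟨C2, hC2, hzC2⟩ := Sm.exists b z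
  set C := max (max C1 C2) 1 with hC
  have hC1' : 1 ≤ C := le_max_right _ _
  have hC0 : 0 < C := lt_of_lt_of_le one_pos hC1'
  have hyC : Sm b y C := hyC1.mono ((le_max_left _ _).trans (le_max_left _ _))
  have hzC : Sm b z C := hzC2.mono ((le_max_right _ _).trans (le_max_left _ _))
  set ε' := min (ε / C) 1 with hε'
  have hε'0 : 0 < ε' := lt_min (by positivity) one_pos
  have hε'1 : ε' ≤ C := (min_le_right _ _).trans hC1'
  obtain ⟨K1, hK1⟩ := TC_unif b G hG y hy ε' hε'0
  obtain ⟨K2, hK2⟩ := TC_small (p := p) C (1 / 2) (by positivity) (by norm_num)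
  obtain ⟨K3, hK3⟩ := TC_small (p := p) (C ^ 3) ε (by positivity) hε
  set k := max K1 (max K2 K3) with hk
  obtain ⟨g, hg, hgk⟩ := hK1 k (le_max_left _ _)
  obtain ⟨g', hg', h1, h1'⟩ := hG.inv g hg
  obtain ⟨s1, s2⟩ := TC_size b (g - 1) y C ε' k hyC hε'1 hgk
  have s3 : Sm b (g - 1) (1 / 2) := s2.mono (by
    rw [mul_comm]
    exact hK2 k ((le_max_left _ _).trans (le_max_right _ _)))
  have s4 : Sm b g' 1 := TD_inv b g g' h1 s3
  have s5 : Sm b (g' - 1) (((p : ℝ) ^ k)⁻¹ * C) := by
    have e : g' - 1 = -((g - 1) * g') := by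
      rw [sub_mul, h1, one_mul]
      abel
    rw [e]
    have := (s2.mul (by positivity) zero_le_one s4).neg
    rwa [mul_one] at this
  refine ⟨((p : ℚ_[p]) ^ k)⁻¹ • (g * z * g' - z), ?_, ?_⟩
  · rw [← hL]
    refine L.smul_mem _ (L.sub_mem ?_ ?_)
    · have := TD_conj b G hG g g' z hg hg' h1 hz
      rwa [← hL] at this
    · rwa [← hL] at hz
  · set E := ((p : ℚ_[p]) ^ k)⁻¹ • (g - 1) with hE
    have e1 : ((p : ℚ_[p]) ^ k)⁻¹ • (g * z * g' - z) - (y * z - z * y) =
        (E * z - z * E) * (g' - 1) + ((E - y) * z - z * (E - y)) := by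
      have e2 : g * z * g' - z = ((g - 1) * z - z * (g - 1)) * g' := by
        have e5 : (g - 1) * z - z * (g - 1) = g * z - z * g := by
          rw [sub_mul g 1 z, mul_sub z g 1, one_mul, mul_one, sub_sub_sub_cancel_right]
        rw [e5, sub_mul, mul_assoc z g g', h1, mul_one]
      have e3 : ((p : ℚ_[p]) ^ k)⁻¹ • (g * z * g' - z) = (E * z - z * E) * g' := by
        rw [e2, hE, smul_mul_assoc, mul_smul_comm, ← smul_sub, smul_mul_assoc]
      rw [e3]
      noncomm_ring
    rw [e1]
    have t1 : Sm b (E * z - z * E) (C * C) :=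
      (s1.mul hC0.le hC0.le hzC).sub (hzC.mul hC0.le hC0.le s1)
    have t2 : Sm b ((E * z - z * E) * (g' - 1)) ε := by
      refine (t1.mul (by positivity) (by positivity) s5).mono ?_
      have e4 : C * C * (((p : ℝ) ^ k)⁻¹ * C) = C ^ 3 * ((p : ℝ) ^ k)⁻¹ := by ring
      rw [e4]
      exact hK3 k ((le_max_right _ _).trans (le_max_right _ _))
    have hCε : ε' * C ≤ ε := by
      calc ε' * C ≤ ε / C * C := by
            gcongr
            exact min_le_left _ _
        _ = ε := by field_simp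
    have t3 : Sm b ((E - y) * z - z * (E - y)) ε :=
      ((hgk.mul hε'0.le hC0.le hzC).mono hCε).sub
        ((hzC.mul hC0.le hε'0.le hgk).mono (by rw [mul_comm]; exact hCε))
    exact t2.add t3

end H4S
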