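import Mathlib
import Pool.Agent.Lib.H4S.T0

/-!
# H4S, chunk TE: stable subspaces of the group are stable under the tangent space
-/

set_option autoImplicit false

namespace H4S

open Module

/-- **TE** (S/M). If `W` is stable under the elements of `G` near the identity, it is stable under
`TS b G`.

Proof. Let `y` be in `TS b G`, `C` a bound for its size. For `ε <= 1` and `k` large choose `g` in
`G` with `p^(-k)(g-1) - y` of size at most `ε`; `g - 1` has size at most `max(C,1) p^(-k) <= δ`, so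
`g` is in `near b G δ` and `p^(-k)(g-1)` maps `W` to itself. Let `q` be a projection of `V` onto a
complement with kernel `W` (a linear map with kernel `W`). For `w` in `W`:
`q (y w) = - q ((p^(-k)(g-1) - y) w)`, whose coordinates are at most a constant times `ε`. So
`q (y w) = 0`, `y w` is in `W`. -/
theorem ts_stable {p : ℕ} [hp : Fact p.Prime] {V : Type*} [AddCommGroup V] [Module ℚ_[p] V]
    {ι : Type*} [Fintype ι] (b : Basis ι ℚ_[p] V) (G : Set (Module.End ℚ_[p] V)) (δ : ℝ)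
    (hδ : 0 < δ) (W : Submodule ℚ_[p] V) (hW : ∀ g ∈ near b G δ, ∀ w ∈ W, g w ∈ W) :
    ∀ y ∈ TS b G, ∀ w ∈ W, y w ∈ W := by
  classical
  intro y hy w hw
  have hpR : (1 : ℝ) < p := by exact_mod_cast hp.out.one_lt
  have hp0 : (p : ℚ_[p]) ≠ 0 := by exact_mod_cast hp.out.ne_zero
  rw [← Subspace.dualAnnihilator_dualCoannihilator_eq (W := W), Submodule.mem_dualCoannihilator]
  intro f hf
  rw [Submodule.mem_dualAnnihilator] at hf
  obtain ⟨C, hC0, hyC⟩ := Sm.exists b y
  -- a bound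
  obtain ⟨K1, hK1⟩ := (Set.finite_range fun i : ι => ‖f (b i)‖).bddAbove
  obtain ⟨K2, hK2⟩ := (Set.finite_range fun j : ι => ‖b.repr w j‖).bddAbove
  set A1 := max K1 1 with hA1
  set A2 := max K2 1 with hA2
  have hA10 : 0 < A1 := lt_of_lt_of_le one_pos (le_max_right _ _)
  have hA20 : 0 < A2 := lt_of_lt_of_le one_pos (le_max_right _ _)
  have hbound : ∀ (A : Module.End ℚ_[p] V) (ε : ℝ), 0 ≤ ε → Sm b A ε →
      ‖f (A w)‖ ≤ A1 * A2 * ε := by
    intro A ε hε hA
    have e1 : f (A w) = ∑ j, ∑ i, b.repr w j * (b.repr (A (b j)) i * f (b i)) := by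
      conv_lhs => rw [← b.sum_repr w]
      rw [map_sum, map_sum]
      refine Finset.sum_congr rfl fun j _ => ?_
      rw [map_smul, map_smul]
      conv_lhs => rw [← b.sum_repr (A (b j))]
      rw [map_sum, Finset.smul_sum]
      refine Finset.sum_congr rfl fun i _ => ?_
      rw [map_smul, smul_eq_mul, smul_eq_mul]
    rw [e1]
    have hpos : 0 ≤ A1 * A2 * ε := by positivity
    refine IsUltrametricDist.norm_sum_le_of_forall_le_of_nonneg hpos fun j _ =>
      IsUltrametricDist.norm_sum_le_of_forall_le_of_nonneg hpos fun i _ => ?_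
    rw [norm_mul, norm_mul]
    have e2 : ‖f (b i)‖ ≤ A1 := (hK1 ⟨i, rfl⟩).trans (le_max_left _ _)
    have e3 : ‖b.repr w j‖ ≤ A2 := (hK2 ⟨j, rfl⟩).trans (le_max_left _ _)
    have e4 := hA i j
    calc ‖b.repr w j‖ * (‖b.repr (A (b j)) i‖ * ‖f (b i)‖) ≤ A2 * (ε * A1) := by gcongr
      _ = A1 * A2 * ε := by ring
  rw [← norm_le_zero_iff]
  refine le_of_forall_pos_le_add fun ε hε => ?_
  rw [zero_add]
  set ε' := min (ε / (A1 * A2)) C with hε'
  have hε'0 : 0 < ε' := lt_min (by positivity) hC0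
  -- large level
  have htend : Filter.Tendsto (fun k : ℕ => ((p : ℝ) ^ k)⁻¹ * C) Filter.atTop (nhds 0) := by
    have h1 : Filter.Tendsto (fun j : ℕ => ((p : ℝ) ^ j)⁻¹) Filter.atTop (nhds 0) :=
      tendsto_inv_atTop_zero.comp (tendsto_pow_atTop_atTop_of_one_lt hpR)
    simpa using h1.mul_const C
  obtain ⟨N, hN⟩ := Filter.eventually_atTop.1 (htend.eventually_le_const hδ)
  obtain ⟨k, hk, g, hg, hgk⟩ := hy ε' hε'0 N
  have h1 : Sm b (((p : ℚ_[p]) ^ k)⁻¹ • (g - 1)) C := by
    have := (hgk.mono (min_le_right _ _)).add hyC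
    rwa [sub_add_cancel] at this
  have h2 : Sm b (g - 1) (((p : ℝ) ^ k)⁻¹ * C) := by
    have h2 := h1.smul ((p : ℚ_[p]) ^ k)
    rwa [smul_smul, mul_inv_cancel₀ (pow_ne_zero _ hp0), one_smul, norm_pow, Padic.norm_p,
      inv_pow] at h2
  have h3 : g ∈ near b G δ := ⟨hg, h2.mono (hN k hk)⟩
  have h4 : (((p : ℚ_[p]) ^ k)⁻¹ • (g - 1)) w ∈ W := by
    rw [LinearMap.smul_apply, LinearMap.sub_apply, Module.End.one_apply]
    exact W.smul_mem _ (W.sub_mem (hW g h3 w hw) hw)
  have h5 := hbound _ _ hε'0.le hgk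
  rw [LinearMap.sub_apply, map_sub, hf _ h4, zero_sub, norm_neg] at h5
  refine h5.trans ?_
  calc A1 * A2 * ε' ≤ A1 * A2 * (ε / (A1 * A2)) := by
        gcongr
        exact min_le_left _ _
    _ = ε := by field_simp

end H4S
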