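import Mathlib
import Pool.Agent.Lib.H4S.TB

/-!
# H4S, chunk TF: subspaces stable under the tangent space are stable under the group near 1
-/

set_option autoImplicit false

namespace H4S

open Module

/-- **TF** (M, uses `exists_lg`). If `W` is stable under `TS b G` then it is stable under the
elements of `G` close to the identity.

Proof. Choose a basis `c` of `V` adapted to `W`: `c` indexed by a sum type, the first part a basis of
`W`; let `e` be the corresponding projector onto `W` (`e (c i) = c i` or `0`), of size at most `1`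
with respect to `c`, and `f = 1 - e`, also of size at most `1`. `Sm.change` gives `C` with
`Sm b A s -> Sm c A (C s)`. Take `δ` with `C δ <= p^(-2)`. Let `g` be in `near b G δ`, `u = g - 1`, of
size at most `p^(-2)` with respect to `c`. For an endomorphism `a` put `o(a) = f a e` (zero iff `a`
maps `W` into `W`). Let `s` be the maximum of the norms of the `c`-entries of `o(u)`.
(1) `o(u^i)` has size at most `p^(-2(i-1)) s` for `i >= 1`: induction,
`f u^(i+1) e = (f u^i e) u e + (f u^i) (f u e)`.
(2) `o((1+u)^p) - p o(u) = sum_{i >= 2} binom(p,i) o(u^i)` has size at most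
`max(p^(-1) p^(-2), p^(-2(p-1))) s <= p^(-2) s < p^(-1) s` if `s > 0`. So the maximum of the norms of
the entries of `o(g^p)` is `p^(-1) s`. By induction (`g^p - 1` has size at most `p^(-2)` again) the
maximum for `o(g^(p^k))` is `p^(-k) s`, so `p^(-k) (g^(p^k) - 1)`, scaled by `p^(-k)` in `ℚ_p`, has
`o` of maximum `s` for every `k`.
(3) By `exists_lg` these converge to the logarithm `l` of `g`, which is in `TS b G` since the powers
of `g` are in `G` (`IsLg` gives exactly the condition of `TS`), so `o(l) = 0` by hypothesis;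
hence `s = 0`, and `g` maps `W` to itself. (`TS`, `IsLg` do not depend on the basis, by `Sm.change`.) -/
theorem near_stable {p : ℕ} [hp : Fact p.Prime] {V : Type*} [AddCommGroup V] [Module ℚ_[p] V]
    {ι : Type*} [Fintype ι] (b : Basis ι ℚ_[p] V) (G : Set (Module.End ℚ_[p] V)) (hG : MGrp G)
    (W : Submodule ℚ_[p] V) (hW : ∀ y ∈ TS b G, ∀ w ∈ W, y w ∈ W) :
    ∃ δ : ℝ, 0 < δ ∧ ∀ g ∈ near b G δ, ∀ w ∈ W, g w ∈ W := by
  classical
  have : Module.Finite ℚ_[p] V := Module.Finite.of_basis b
  obtain ⟨W', hWW⟩ := W.exists_isCompl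
  let c : Basis (Fin (finrank ℚ_[p] W) ⊕ Fin (finrank ℚ_[p] W')) ℚ_[p] V :=
    ((Module.finBasis ℚ_[p] W).prod (Module.finBasis ℚ_[p] W')).map
      (Submodule.prodEquivOfIsCompl W W' hWW)
  have hcl : ∀ i, c (Sum.inl i) = (Module.finBasis ℚ_[p] W i : V) := by
    intro i
    simp [c]
  have hcr : ∀ i, c (Sum.inr i) = (Module.finBasis ℚ_[p] W' i : V) := by
    intro i
    simp [c]
  let e : Module.End ℚ_[p] V := W.projection W' hWW
  have heW : ∀ v, e v ∈ W := fun v => Submodule.projection_apply_mem hWW v
  have hew : ∀ w ∈ W, e w = w := fun w hw => Submodule.projection_apply_of_mem_left hWW hw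
  have he1 : Sm c e 1 := by
    intro i j
    rcases j with j | j
    · have : e (c (Sum.inl j)) = c (Sum.inl j) := by
        rw [hcl]
        exact Submodule.projection_apply_left hWW _
      rw [this, c.repr_self, Finsupp.single_apply]
      split_ifs <;> simp
    · have : e (c (Sum.inr j)) = 0 := by
        rw [hcr]
        exact Submodule.projection_apply_right hWW _
      rw [this]
      simp
  have hf1 : Sm c (1 - e) 1 := (Sm.one c).sub he1
  have hee : e * e = e := by
    ext v
    exact hew _ (heW v)
  obtain ⟨C, hC0, hC⟩ := Sm.change b c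
  refine ⟨((p : ℝ) ^ 2)⁻¹ / C, ?_, ?_⟩
  · have hpR : (1 : ℝ) < p := by exact_mod_cast hp.out.one_lt
    positivity
  rintro g ⟨hgG, hg⟩
  have hg' : Sm c (g - 1) ((p : ℝ) ^ 2)⁻¹ := by
    refine (hC _ _ (by positivity) hg).mono (le_of_eq ?_)
    field_simp
  obtain ⟨l, hl, -, -⟩ := exists_lg c g _ (by positivity) le_rfl hg'
  have hlT : l ∈ TS b G := TB_mem b G hG g l hgG (TB_change c b g l hl)
  let o : Module.End ℚ_[p] V →ₗ[ℚ_[p]] Module.End ℚ_[p] V :=
    LinearMap.mulRight ℚ_[p] e ∘ₗ LinearMap.mulLeft ℚ_[p] (1 - e)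
  have ho : ∀ A, o A = (1 - e) * A * e := fun A => rfl
  have hP : ∀ (w : Module.End ℚ_[p] V) (ρ s : ℝ), 0 ≤ ρ → 0 ≤ s → Sm c w ρ → Sm c (o w) s →
      ∀ i : ℕ, Sm c (o (w ^ (i + 1))) (ρ ^ i * s) := by
    intro w ρ s hρ hs hw how i
    induction i with
    | zero => simpa using how
    | succ i ih =>
      have h1 : o (w ^ (i + 1 + 1)) = o (w ^ (i + 1)) * (w * e) +
          ((1 - e) * w ^ (i + 1)) * o w := by
        rw [ho, ho, ho, pow_succ w (i + 1)]
        noncomm_ring
      rw [h1]
      have h2 := ih.mul (by positivity) (by positivity) (hw.mul hρ zero_le_one he1)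
      have h3 := (hf1.mul zero_le_one (by positivity) (hw.pow hρ (i + 1))).mul (by positivity) hs how
      refine (h2.mono (le_of_eq (by ring))).add (h3.mono (le_of_eq (by ring)))
  have h0 : o l = 0 := by
    rw [ho]
    ext v
    have h1 : l (e v) ∈ W := hW l hlT _ (heW v)
    have h2 := hew _ h1
    simp only [Module.End.mul_apply, LinearMap.sub_apply, Module.End.one_apply,
      LinearMap.zero_apply]
    rw [h2, sub_self]
  have h := TB_gen c o hP g l hg' hl h0
  have h2 : o (1 : Module.End ℚ_[p] V) = 0 := by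
    rw [ho, mul_one, sub_mul, one_mul, hee, sub_self]
  rw [map_sub, h2, sub_zero, ho] at h
  intro w hw
  have h3 := congrArg (fun A : Module.End ℚ_[p] V => A w) h
  simp only [Module.End.mul_apply, LinearMap.sub_apply, Module.End.one_apply,
    LinearMap.zero_apply] at h3
  rw [hew w hw, sub_eq_zero] at h3
  rw [h3]
  exact heW _

end H4S
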