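import Mathlib
import Pool.Agent.Lib.H4S.TE
import Pool.Agent.Lib.H4S.TF

/-!
# H4S: semisimplicity over the tangent space (proved here)
-/

set_option autoImplicit false

namespace H4S

open Module

/-- If `V` is semisimple over the neighbourhoods of the identity in `G`, it is semisimple over
`TS b G`. -/
theorem ts_ss {p : ℕ} [hp : Fact p.Prime] {V : Type*} [AddCommGroup V] [Module ℚ_[p] V]
    {ι : Type*} [Fintype ι] (b : Basis ι ℚ_[p] V) (G : Set (Module.End ℚ_[p] V)) (hG : MGrp G)
    (hss : ∀ δ : ℝ, 0 < δ → SS (near b G δ)) : SS (TS b G) := by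
  intro U hU
  obtain ⟨δ, hδ, hδU⟩ := near_stable b G hG U hU
  obtain ⟨U', hU', hc⟩ := hss δ hδ U hδU
  exact ⟨U', ts_stable b G δ hδ U' hU', hc⟩

end H4S
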