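import Mathlib
import Pool.Agent.Lib.H4S.TB

/-!
# H4S, chunk TH: commuting with the tangent space
-/

set_option autoImplicit false

namespace H4S

open Module

/-- **TH** (M, uses `exists_lg`). An endomorphism `e` which commutes with `TS b G` commutes with all
`g` in `G` with `g - 1` of size at most `p^(-2)`.

Proof. Let `u = g - 1`, `s` the maximum of the norms of the entries of `[u, e] = u e - e u`. For
`i >= 1`, `[u^i, e] = sum_{a+c=i-1} u^a [u,e] u^c` has size at most `p^(-2(i-1)) s`. So
`[(1+u)^p, e] - p [u,e] = sum_{i >= 2} binom(p,i) [u^i, e]` has size at most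
`max(p^(-1) p^(-2), p^(-2(p-1))) s <= p^(-2) s`, which is less than `p^(-1) s` if `s > 0`; hence the maximum of the
norms of the entries of `[g^p, e]` is exactly `p^(-1) s`. As `g^p - 1` has size at most `p^(-2)`
again, by induction the maximum for `[g^(p^k), e]` is `p^(-k) s`, so `p^(-k) (g^(p^k) - 1)`
(scalar `p^(-k)` in `ℚ_p`) has commutator with `e` of maximum `s` for every `k`. These endomorphisms
converge to the logarithm `l` of `g` (`exists_lg`), which is in `TS b G` (the powers of `g` are in
`G`), so `[l, e] = 0` and `s = 0`. -/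
theorem commute_near {p : ℕ} [hp : Fact p.Prime] {V : Type*} [AddCommGroup V] [Module ℚ_[p] V]
    {ι : Type*} [Fintype ι] (b : Basis ι ℚ_[p] V) (G : Set (Module.End ℚ_[p] V)) (hG : MGrp G)
    (e : Module.End ℚ_[p] V) (he : ∀ y ∈ TS b G, Commute y e) :
    ∀ g ∈ near b G ((p : ℝ) ^ 2)⁻¹, Commute g e := by
  intro g hg
  obtain ⟨l, hl, -, -⟩ := exists_lg b g _ (by positivity) le_rfl hg.2
  let o : Module.End ℚ_[p] V →ₗ[ℚ_[p]] Module.End ℚ_[p] V :=
    LinearMap.mulRight ℚ_[p] e - LinearMap.mulLeft ℚ_[p] e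
  have ho : ∀ A, o A = A * e - e * A := fun A => rfl
  have hP : ∀ (w : Module.End ℚ_[p] V) (ρ s : ℝ), 0 ≤ ρ → 0 ≤ s → Sm b w ρ → Sm b (o w) s →
      ∀ i : ℕ, Sm b (o (w ^ (i + 1))) (ρ ^ i * s) := by
    intro w ρ s hρ hs hw how i
    induction i with
    | zero => simpa using how
    | succ i ih =>
      have h1 : o (w ^ (i + 1 + 1)) = w * o (w ^ (i + 1)) + o w * w ^ (i + 1) := by
        rw [ho, ho, ho, pow_succ' w (i + 1), mul_sub, sub_mul]
        simp only [mul_assoc]
        abel
      rw [h1]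
      have h2 := hw.mul hρ (by positivity) ih
      have h3 := how.mul hs (by positivity) (hw.pow hρ (i + 1))
      refine (h2.mono (le_of_eq (by ring))).add (h3.mono (le_of_eq (by ring)))
  have h0 : o l = 0 := by
    rw [ho, sub_eq_zero]
    exact he l (TB_mem b G hG g l hg.1 hl)
  have h := TB_gen b o hP g l hg.2 hl h0
  rw [map_sub, sub_eq_zero, ho, ho, one_mul, mul_one, sub_self, sub_eq_zero] at h
  exact h

end H4S
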