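import Mathlib
import Pool.Agent.Lib.H4S.TB

/-!
# H4S, chunk TI: traces of logarithms
-/

set_option autoImplicit false

namespace H4S

open Module

theorem TI_prod {p : ℕ} [hp : Fact p.Prime] {κ : Type*} (s : Finset κ) (x : κ → ℚ_[p]) (ε : ℝ)
    (h0 : 0 ≤ ε) (h1 : ε ≤ 1) (hx : ∀ i ∈ s, ‖x i‖ ≤ ε) :
    ‖∏ i ∈ s, (1 + x i) - 1 - ∑ i ∈ s, x i‖ ≤ ε ^ 2 ∧ ‖∏ i ∈ s, (1 + x i) - 1‖ ≤ ε := by
  classical
  induction s using Finset.induction_on with
  | empty => simp [h0]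
  | insert a s ha ih =>
    obtain ⟨i1, i2⟩ := ih fun i hi => hx i (Finset.mem_insert_of_mem hi)
    have hxa := hx a (Finset.mem_insert_self a s)
    rw [Finset.prod_insert ha, Finset.sum_insert ha]
    constructor
    · have e : (1 + x a) * ∏ i ∈ s, (1 + x i) - 1 - (x a + ∑ i ∈ s, x i) =
          (∏ i ∈ s, (1 + x i) - 1 - ∑ i ∈ s, x i) + x a * (∏ i ∈ s, (1 + x i) - 1) := by ring
      rw [e]
      refine (IsUltrametricDist.norm_add_le_max _ _).trans (max_le i1 ?_)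
      rw [norm_mul, sq]
      exact mul_le_mul hxa i2 (norm_nonneg _) h0
    · have e : (1 + x a) * ∏ i ∈ s, (1 + x i) - 1 =
          (∏ i ∈ s, (1 + x i) - 1) + (x a + x a * (∏ i ∈ s, (1 + x i) - 1)) := by ring
      rw [e]
      refine (IsUltrametricDist.norm_add_le_max _ _).trans (max_le i2 ?_)
      refine (IsUltrametricDist.norm_add_le_max _ _).trans (max_le hxa ?_)
      rw [norm_mul]
      calc ‖x a‖ * ‖∏ i ∈ s, (1 + x i) - 1‖ ≤ ε * 1 := by
            gcongr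
            exact i2.trans h1
        _ = ε := mul_one ε

theorem TI_det {p : ℕ} [hp : Fact p.Prime] {κ : Type*} [Fintype κ] [DecidableEq κ]
    (N : Matrix κ κ ℚ_[p]) (ε : ℝ) (h0 : 0 ≤ ε) (h1 : ε ≤ 1) (hN : ∀ i j, ‖N i j‖ ≤ ε) :
    ‖(1 + N).det - 1 - N.trace‖ ≤ ε ^ 2 := by
  rw [Matrix.det_apply, ← Finset.add_sum_erase _ _ (Finset.mem_univ (1 : Equiv.Perm κ))]
  have e1 : Equiv.Perm.sign (1 : Equiv.Perm κ) • ∏ i, (1 + N) ((1 : Equiv.Perm κ) i) i =
      ∏ i, (1 + N i i) := by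
    rw [Equiv.Perm.sign_one, one_smul]
    refine Finset.prod_congr rfl fun i _ => ?_
    rw [Equiv.Perm.one_apply, Matrix.add_apply, Matrix.one_apply_eq]
  rw [e1]
  have e2 : ∏ i, (1 + N i i) + (∑ σ ∈ Finset.univ.erase (1 : Equiv.Perm κ),
      Equiv.Perm.sign σ • ∏ i, (1 + N) (σ i) i) - 1 - N.trace =
      (∏ i, (1 + N i i) - 1 - ∑ i, N i i) + ∑ σ ∈ Finset.univ.erase (1 : Equiv.Perm κ),
      Equiv.Perm.sign σ • ∏ i, (1 + N) (σ i) i := by
    rw [Matrix.trace]
    simp only [Matrix.diag_apply]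
    ring
  rw [e2]
  refine (IsUltrametricDist.norm_add_le_max _ _).trans (max_le ?_ ?_)
  · exact (TI_prod Finset.univ (fun i => N i i) ε h0 h1 fun i _ => hN i i).1
  · refine IsUltrametricDist.norm_sum_le_of_forall_le_of_nonneg (by positivity) fun σ hσ => ?_
    have hσ1 : σ ≠ 1 := Finset.ne_of_mem_erase hσ
    obtain ⟨a, ha⟩ : ∃ a, σ a ≠ a := by
      by_contra hcon
      push Not at hcon
      exact hσ1 (Equiv.ext hcon)
    have hb : σ (σ a) ≠ σ a := fun h => ha (σ.injective h)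
    have hnorm : ‖Equiv.Perm.sign σ • ∏ i, (1 + N) (σ i) i‖ = ‖∏ i, (1 + N) (σ i) i‖ := by
      rcases Int.units_eq_one_or (Equiv.Perm.sign σ) with h | h
      · rw [h, one_smul]
      · rw [h, Units.neg_smul, one_smul, norm_neg]
    rw [hnorm, norm_prod]
    have hle : ∀ i ∈ Finset.univ, ‖(1 + N) (σ i) i‖ ≤
        (if i = a then ε else 1) * (if i = σ a then ε else 1) := by
      intro i _
      have hoff : σ i ≠ i → ‖(1 + N) (σ i) i‖ ≤ ε := by
        intro h
        rw [Matrix.add_apply, Matrix.one_apply_ne h, zero_add]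
        exact hN _ _
      by_cases hia : i = a
      · have : i ≠ σ a := by
          rw [hia]
          exact fun h => ha h.symm
        rw [if_pos hia, if_neg this, mul_one]
        exact hoff (by rw [hia]; exact ha)
      · rw [if_neg hia, one_mul]
        by_cases hib : i = σ a
        · rw [if_pos hib]
          exact hoff (by rw [hib]; exact hb)
        · rw [if_neg hib]
          rw [Matrix.add_apply]
          refine (IsUltrametricDist.norm_add_le_max _ _).trans (max_le ?_ ((hN _ _).trans h1))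
          rw [Matrix.one_apply]
          split_ifs <;> simp
    refine (Finset.prod_le_prod (fun i _ => norm_nonneg _) hle).trans (le_of_eq ?_)
    rw [Finset.prod_mul_distrib, Finset.prod_ite_eq', Finset.prod_ite_eq',
      if_pos (Finset.mem_univ _), if_pos (Finset.mem_univ _), sq]

/-- The derivative of the determinant along the powers of `h`. -/
theorem TI_lim {p : ℕ} [hp : Fact p.Prime] {U : Type*} [AddCommGroup U] [Module ℚ_[p] U]
    {κ : Type*} [Fintype κ] (c : Basis κ ℚ_[p] U) (h m : Module.End ℚ_[p] U) (hm : IsLg c h m) :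
    Filter.Tendsto (fun j : ℕ => ((p : ℚ_[p]) ^ j)⁻¹ * (LinearMap.det h ^ (p ^ j) - 1))
      Filter.atTop (nhds (LinearMap.trace ℚ_[p] U m)) := by
  classical
  have hp0 : (p : ℚ_[p]) ≠ 0 := by exact_mod_cast hp.out.ne_zero
  have hpR : (1 : ℝ) < p := by exact_mod_cast hp.out.one_lt
  obtain ⟨C0, hC0, hmC0⟩ := Sm.exists c m
  set C := max C0 1 with hC
  have hC1 : 1 ≤ C := le_max_right _ _
  have hmC : Sm c m C := hmC0.mono (le_max_left _ _)
  have htend : ∀ B : ℝ, Filter.Tendsto (fun k : ℕ => B * ((p : ℝ) ^ k)⁻¹) Filter.atTop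
      (nhds 0) := by
    intro B
    have h1 : Filter.Tendsto (fun j : ℕ => ((p : ℝ) ^ j)⁻¹) Filter.atTop (nhds 0) :=
      tendsto_inv_atTop_zero.comp (tendsto_pow_atTop_atTop_of_one_lt hpR)
    simpa using h1.const_mul B
  rw [Metric.tendsto_atTop]
  intro ε hε
  obtain ⟨J1, hJ1⟩ := hm (min (ε / 2) 1) (lt_min (by positivity) one_pos)
  obtain ⟨J2, hJ2⟩ := Filter.eventually_atTop.1 ((htend C).eventually_le_const one_pos)
  obtain ⟨J3, hJ3⟩ := Filter.eventually_atTop.1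
    ((htend (C ^ 2)).eventually_le_const (half_pos hε))
  refine ⟨max J1 (max J2 J3), fun j hj => ?_⟩
  have j1 : J1 ≤ j := (le_max_left _ _).trans hj
  have j2 : J2 ≤ j := ((le_max_left _ _).trans (le_max_right _ _)).trans hj
  have j3 : J3 ≤ j := ((le_max_right _ _).trans (le_max_right _ _)).trans hj
  set M := ((p : ℚ_[p]) ^ j)⁻¹ • (h ^ (p ^ j) - 1) with hM
  have hMm : Sm c (M - m) (min (ε / 2) 1) := hJ1 j j1
  have hMC : Sm c M C := by
    have := (hMm.mono ((min_le_right _ _).trans hC1)).add hmC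
    rwa [sub_add_cancel] at this
  set N := (p : ℚ_[p]) ^ j • LinearMap.toMatrix c c M with hN
  have hentry : ∀ (A : Module.End ℚ_[p] U) (i k : κ), LinearMap.toMatrix c c A i k =
      c.repr (A (c k)) i := fun A i k => LinearMap.toMatrix_apply c c A i k
  have hNe : ∀ i k, ‖N i k‖ ≤ C * ((p : ℝ) ^ j)⁻¹ := by
    intro i k
    rw [hN, Matrix.smul_apply, smul_eq_mul, norm_mul, norm_pow, Padic.norm_p, inv_pow, mul_comm,
      hentry]
    have := hMC i k
    gcongr
  have hdet : LinearMap.det h ^ (p ^ j) = (1 + N).det := by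
    rw [← map_pow, ← LinearMap.det_toMatrix c]
    congr 1
    rw [hN, hM, map_smul, smul_smul, mul_inv_cancel₀ (pow_ne_zero _ hp0), one_smul, map_sub,
      LinearMap.toMatrix_one, add_sub_cancel]
  have hd := TI_det N (C * ((p : ℝ) ^ j)⁻¹) (by positivity) (hJ2 j j2) hNe
  rw [← hdet] at hd
  have htr : N.trace = (p : ℚ_[p]) ^ j * LinearMap.trace ℚ_[p] U M := by
    rw [hN, Matrix.trace_smul, smul_eq_mul, LinearMap.trace_eq_matrix_trace ℚ_[p] c]
  rw [dist_eq_norm]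
  have e : ((p : ℚ_[p]) ^ j)⁻¹ * (LinearMap.det h ^ (p ^ j) - 1) - LinearMap.trace ℚ_[p] U m =
      ((p : ℚ_[p]) ^ j)⁻¹ * (LinearMap.det h ^ (p ^ j) - 1 - N.trace) +
        LinearMap.trace ℚ_[p] U (M - m) := by
    rw [htr, map_sub]
    have : ((p : ℚ_[p]) ^ j) ≠ 0 := pow_ne_zero _ hp0
    field_simp
    ring
  rw [e]
  refine lt_of_le_of_lt ((IsUltrametricDist.norm_add_le_max _ _).trans
    (max_le (c := ε / 2) ?_ ?_)) (half_lt_self hε)
  · rw [norm_mul, norm_inv, norm_pow, Padic.norm_p, inv_pow, inv_inv]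
    calc (p : ℝ) ^ j * ‖LinearMap.det h ^ (p ^ j) - 1 - N.trace‖
        ≤ (p : ℝ) ^ j * (C * ((p : ℝ) ^ j)⁻¹) ^ 2 := by gcongr
      _ = C ^ 2 * ((p : ℝ) ^ j)⁻¹ := by field_simp
      _ ≤ ε / 2 := hJ3 j j3
  · rw [LinearMap.trace_eq_matrix_trace ℚ_[p] c, Matrix.trace]
    refine IsUltrametricDist.norm_sum_le_of_forall_le_of_nonneg (by positivity) fun i _ => ?_
    rw [Matrix.diag_apply, hentry]
    exact (hMm i i).trans (min_le_left _ _)

/-- If the limits are `α` and `γ` and `a^n = c^r` then `n α = r γ`. -/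
theorem TI_cmp {p : ℕ} [hp : Fact p.Prime] (a c α γ : ℚ_[p]) (n r : ℕ) (h : a ^ n = c ^ r)
    (ha : Filter.Tendsto (fun j : ℕ => ((p : ℚ_[p]) ^ j)⁻¹ * (a ^ (p ^ j) - 1))
      Filter.atTop (nhds α))
    (hc : Filter.Tendsto (fun j : ℕ => ((p : ℚ_[p]) ^ j)⁻¹ * (c ^ (p ^ j) - 1))
      Filter.atTop (nhds γ)) : (n : ℚ_[p]) * α = r * γ := by
  have hp0 : (p : ℚ_[p]) ≠ 0 := by exact_mod_cast hp.out.ne_zero
  have hpR : (1 : ℝ) < p := by exact_mod_cast hp.out.one_lt
  have hpj : Filter.Tendsto (fun j : ℕ => ((p : ℝ) ^ j)⁻¹) Filter.atTop (nhds 0) :=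
    tendsto_inv_atTop_zero.comp (tendsto_pow_atTop_atTop_of_one_lt hpR)
  -- for a single number
  have key : ∀ (a α : ℚ_[p]) (n : ℕ),
      Filter.Tendsto (fun j : ℕ => ((p : ℚ_[p]) ^ j)⁻¹ * (a ^ (p ^ j) - 1)) Filter.atTop (nhds α) →
      Filter.Tendsto (fun j : ℕ => ((p : ℚ_[p]) ^ j)⁻¹ * ((a ^ n) ^ (p ^ j) - 1)) Filter.atTop
        (nhds (n * α)) := by
    intro a α n ha
    have h1 : Filter.Tendsto (fun j : ℕ => (n : ℚ_[p]) * (((p : ℚ_[p]) ^ j)⁻¹ *
        (a ^ (p ^ j) - 1))) Filter.atTop (nhds (n * α)) := ha.const_mul _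
    have h2 : Filter.Tendsto (fun j : ℕ => ((p : ℚ_[p]) ^ j)⁻¹ * ((a ^ n) ^ (p ^ j) - 1) -
        (n : ℚ_[p]) * (((p : ℚ_[p]) ^ j)⁻¹ * (a ^ (p ^ j) - 1))) Filter.atTop (nhds 0) := by
      rw [tendsto_zero_iff_norm_tendsto_zero]
      have hn : Filter.Tendsto (fun j : ℕ => ‖((p : ℚ_[p]) ^ j)⁻¹ * (a ^ (p ^ j) - 1)‖ ^ 2 *
          ((p : ℝ) ^ j)⁻¹) Filter.atTop (nhds 0) := by
        have := (ha.norm.pow 2).mul hpj
        simpa using this
      have hsmall : Filter.Tendsto (fun j : ℕ => ‖((p : ℚ_[p]) ^ j)⁻¹ * (a ^ (p ^ j) - 1)‖ *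
          ((p : ℝ) ^ j)⁻¹) Filter.atTop (nhds 0) := by
        have := ha.norm.mul hpj
        simpa using this
      refine squeeze_zero' (Filter.Eventually.of_forall fun j => norm_nonneg _) ?_ hn
      filter_upwards [hsmall.eventually_le_const one_pos] with j hj
      set y := ((p : ℚ_[p]) ^ j)⁻¹ * (a ^ (p ^ j) - 1) with hy
      have hx : a ^ (p ^ j) = 1 + (p : ℚ_[p]) ^ j * y := by
        rw [hy, ← mul_assoc, mul_inv_cancel₀ (pow_ne_zero _ hp0), one_mul]
        ring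
      have hnx : ‖(p : ℚ_[p]) ^ j * y‖ = ‖y‖ * ((p : ℝ) ^ j)⁻¹ := by
        rw [norm_mul, norm_pow, Padic.norm_p, inv_pow, mul_comm]
      have h3 := (TI_prod (Finset.range n) (fun _ => (p : ℚ_[p]) ^ j * y)
        (‖y‖ * ((p : ℝ) ^ j)⁻¹) (by positivity) hj (fun i _ => hnx.le)).1
      rw [Finset.prod_const, Finset.card_range, Finset.sum_const, Finset.card_range,
        nsmul_eq_mul] at h3
      have e : ((p : ℚ_[p]) ^ j)⁻¹ * ((a ^ n) ^ (p ^ j) - 1) - (n : ℚ_[p]) * y =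
          ((p : ℚ_[p]) ^ j)⁻¹ * ((1 + (p : ℚ_[p]) ^ j * y) ^ n - 1 - n * ((p : ℚ_[p]) ^ j * y)) := by
        rw [← pow_mul, mul_comm n, pow_mul, hx]
        have : ((p : ℚ_[p]) ^ j) ≠ 0 := pow_ne_zero _ hp0
        field_simp
      rw [e, norm_mul, norm_inv, norm_pow, Padic.norm_p, inv_pow, inv_inv]
      calc (p : ℝ) ^ j * ‖(1 + (p : ℚ_[p]) ^ j * y) ^ n - 1 - n * ((p : ℚ_[p]) ^ j * y)‖
          ≤ (p : ℝ) ^ j * (‖y‖ * ((p : ℝ) ^ j)⁻¹) ^ 2 := by gcongr
        _ = ‖y‖ ^ 2 * ((p : ℝ) ^ j)⁻¹ := by field_simp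
    have h3 := h2.add h1
    simpa using h3
  have h1 := key a α n ha
  have h2 := key c γ r hc
  rw [h] at h1
  exact tendsto_nhds_unique h1 h2

/-- **TI** (M). Let `l` be the logarithm of `g`, `W` stable under `g` and `l`,
`det(g|W)^n = det(g)^r`. Then `n tr(l|W) = r tr(l)`.

Proof. (1) Let `U` be a finite-dimensional space, `h` an endomorphism, `m_j` endomorphisms converging
(entrywise) to `m` with `h^(p^j) = 1 + p^j m_j`. Then `p^(-j) (det(h)^(p^j) - 1)` tends to `tr m`: in a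
basis, `det(1 + p^j m_j) = 1 + p^j tr(m_j) + p^(2j) E_j` with `E_j` bounded (the
coefficients of the polynomial `det(1 + T M)` are `1`, `tr M`, ... polynomials in the entries;
`Matrix.det_one_add_smul` or `charpolyRev`). Apply this to `V`, `h = g`, `m = l` (this is `IsLg`), and
to `U = W`, `h = g|W`, `m = l|W` (convergence of the restrictions: coordinates in any basis of `W` are
linear functions of coordinates in `b`).
(2) Put `a = det(g|W)`, `c = det(g)`, `α_j = p^(-j)(a^(p^j) - 1)`, `γ_j = p^(-j)(c^(p^j) - 1)`, with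
limits `α = tr(l|W)`, `γ = tr l`. From `a^n = c^r`: `(1 + p^j α_j)^n = (1 + p^j γ_j)^r`, so
`n α_j - r γ_j` is `p^j` times a bounded sequence, and `n α = r γ`. -/
theorem trace_lg {p : ℕ} [hp : Fact p.Prime] {V : Type*} [AddCommGroup V] [Module ℚ_[p] V]
    [FiniteDimensional ℚ_[p] V] {ι : Type*} [Fintype ι] (b : Basis ι ℚ_[p] V)
    (g l : Module.End ℚ_[p] V) (hl : IsLg b g l)
    (W : Submodule ℚ_[p] V) (hW : ∀ w ∈ W, g w ∈ W) (hlW : ∀ w ∈ W, l w ∈ W) (n r : ℕ)
    (hdet : LinearMap.det (g.restrict hW) ^ n = LinearMap.det g ^ r) :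
    (n : ℚ_[p]) * LinearMap.trace ℚ_[p] W (l.restrict hlW) =
      (r : ℚ_[p]) * LinearMap.trace ℚ_[p] V l := by
  classical
  obtain ⟨W', hWW⟩ := W.exists_isCompl
  let bW := Module.finBasis ℚ_[p] W
  let c : Basis (Fin (finrank ℚ_[p] W) ⊕ Fin (finrank ℚ_[p] W')) ℚ_[p] V :=
    (bW.prod (Module.finBasis ℚ_[p] W')).map (Submodule.prodEquivOfIsCompl W W' hWW)
  have hcl : ∀ i, c (Sum.inl i) = (bW i : V) := by
    intro i
    simp [c]
  have hrepr : ∀ (w : W) i, c.repr (w : V) (Sum.inl i) = bW.repr w i := by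
    intro w i
    simp only [c, Basis.map_repr, LinearEquiv.trans_apply]
    rw [Submodule.prodEquivOfIsCompl_symm_apply_left, Basis.prod_repr_inl]
  have hlc : IsLg c g l := TB_change b c g l hl
  have hlW : IsLg bW (g.restrict hW) (l.restrict hlW) := by
    intro ε hε
    obtain ⟨J, hJ⟩ := hlc ε hε
    refine ⟨J, fun j hj i k => ?_⟩
    have h1 := hJ j hj (Sum.inl i) (Sum.inl k)
    rw [hcl] at h1
    have h2 : (((((p : ℚ_[p]) ^ j)⁻¹ • ((g.restrict hW) ^ (p ^ j) - 1) - l.restrict hlW) (bW k) :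
        W) : V) = (((p : ℚ_[p]) ^ j)⁻¹ • (g ^ (p ^ j) - 1) - l) (bW k : V) := by
      have hpow : ∀ (n : ℕ) (w : W), ((((g.restrict hW) ^ n) w : W) : V) = (g ^ n) (w : V) := by
        intro n
        induction n with
        | zero => intro w; simp
        | succ n ih =>
          intro w
          rw [pow_succ, pow_succ, Module.End.mul_apply, Module.End.mul_apply, ih]
          rfl
      simp only [LinearMap.sub_apply, LinearMap.smul_apply, Module.End.one_apply,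
        Submodule.coe_sub, Submodule.coe_smul, hpow]
      rfl
    rw [← hrepr, h2]
    exact h1
  exact TI_cmp _ _ _ _ n r hdet (TI_lim bW _ _ hlW) (TI_lim b g l hl)

end H4S
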