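import Mathlib
import Pool.Agent.Lib.H4S.TK
import Pool.Agent.Lib.H43.GS.Closed
import Pool.Agent.Lib.H4S.TL

/-!
# H4S, chunk TJ: relations on the tangent space
-/

set_option autoImplicit false

namespace H4S

open Module Polynomial Filter Topology

section

variable {p : ℕ} [hp : Fact p.Prime]

theorem TJ_zpow (ρ : ℝ) (hρ0 : 0 ≤ ρ) (hρ : ρ < 1) (s : PadicAlgCl p) (hs : ‖s - 1‖ ≤ ρ)
    (a : ℤ) : ‖s ^ a - 1 - a * (s - 1)‖ ≤ ρ ^ 2 := by
  have hnat : ∀ n : ℕ, ‖s ^ n - 1 - n * (s - 1)‖ ≤ ρ ^ 2 := by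
    intro n
    have h := (TK_pow (s - 1) (hs.trans hρ.le) n).1
    rw [add_sub_cancel] at h
    exact h.trans (by gcongr)
  obtain ⟨n, rfl | rfl⟩ := a.eq_nat_or_neg
  · rw [zpow_natCast, Int.cast_natCast]
    exact hnat n
  · rw [zpow_neg, zpow_natCast, Int.cast_neg, Int.cast_natCast]
    have ht : ‖s ^ n - 1‖ ≤ ρ := by
      have := TL_near_zpow ρ hρ0 hρ s hs n
      rwa [zpow_natCast] at this
    have ht1 : ‖s ^ n‖ = 1 := TL_near_norm ρ hρ _ ht
    have ht0 : s ^ n ≠ 0 := by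
      intro h
      rw [h, norm_zero] at ht1
      exact zero_ne_one ht1
    have e : (s ^ n)⁻¹ - 1 - -(n : PadicAlgCl p) * (s - 1) =
        -(s ^ n - 1 - n * (s - 1)) + (s ^ n - 1) * (s ^ n - 1) * (s ^ n)⁻¹ := by
      field_simp
      ring
    rw [e]
    refine (IsUltrametricDist.norm_add_le_max _ _).trans (max_le ?_ ?_)
    · rw [norm_neg]
      exact hnat n
    · rw [norm_mul, norm_mul, norm_inv, ht1, inv_one, mul_one, sq]
      gcongr

theorem TJ_prod (ρ : ℝ) (hρ0 : 0 ≤ ρ) (hρ : ρ < 1) {κ : Type*} (S : Finset κ)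
    (s c : κ → PadicAlgCl p) (hs : ∀ i ∈ S, ‖s i - 1‖ ≤ ρ)
    (hc : ∀ i ∈ S, ‖s i - 1 - c i‖ ≤ ρ ^ 2) : ‖∏ i ∈ S, s i - 1 - ∑ i ∈ S, c i‖ ≤ ρ ^ 2 := by
  classical
  induction S using Finset.induction_on with
  | empty => simpa using sq_nonneg ρ
  | insert a S ha ih =>
    have h1 := ih (fun i hi => hs i (Finset.mem_insert_of_mem hi))
      (fun i hi => hc i (Finset.mem_insert_of_mem hi))
    have h2 : ‖∏ i ∈ S, s i - 1‖ ≤ ρ :=
      TL_near_prod ρ hρ0 hρ S s fun i hi => hs i (Finset.mem_insert_of_mem hi)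
    have h3 := hs a (Finset.mem_insert_self a S)
    have h4 := hc a (Finset.mem_insert_self a S)
    rw [Finset.prod_insert ha, Finset.sum_insert ha]
    have e : s a * ∏ i ∈ S, s i - 1 - (c a + ∑ i ∈ S, c i) =
        (∏ i ∈ S, s i - 1 - ∑ i ∈ S, c i) + ((s a - 1 - c a) + (s a - 1) * (∏ i ∈ S, s i - 1)) := by
      ring
    rw [e]
    refine (IsUltrametricDist.norm_add_le_max _ _).trans (max_le h1 ?_)
    refine (IsUltrametricDist.norm_add_le_max _ _).trans (max_le h4 ?_)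
    rw [norm_mul, sq]
    gcongr

end

/-- **TJ** (M/L). Suppose every `g` in `G` with `g - 1` of size at most `p^(-2)` satisfies all
multiplicative relations of one of the finitely many spaces `M` in `S`. Then every `y` in the tangent
space satisfies all additive relations of some `M` in `S`.

Proof. Let `y` be in `TS b G`, `C >= 1` a bound for its size; for every `j` choose `k_j >= j` and
`g_j` in `G` with `y_j = p^(-k_j) (g_j - 1)` at distance at most `1/(j+1)` from `y`. For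
large `j` `g_j - 1` has size at most `C p^(-k_j) <= p^(-2)`; choose `M_j` in `S` and `z_j` with
`EigL g_j z_j`. Let `u` be an ultrafilter on `ℕ` below `atTop`; as `S` is finite, `M_j = M`
for `u`-almost all `j`. `x_(j,i) = p^(-k_j) (z_(j,i) - 1)` is the list of eigenvalues of `y_j`, so
`‖x_(j,i)‖ <= C` (`norm_eig_le`). By `Pool.Agent.H43GS.exists_root_limit`, `x_(j,i) -> x_i` along
`u`, and `EigL y x` (limit of `charpoly y_j = ∏ (X - x_(j,i))`).
Let `m` be in `M`, `N0 > 0` with `a = N0 m` integral, `w_j = ∏ z_(j,i)^(a_i)`. From `MRel z_j m`: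
`w_j^(N') = 1` for some `N' > 0` (as in chunk TL), and `‖w_j - 1‖ <= p^(-2)`, so
`w_j = 1` by `norm_pow_sub_one`. With `ε_i = z_(j,i) - 1 = p^(k_j) x_(j,i)`, `‖ε_i‖ <= C p^(-k_j) < 1`:
`∏ (1 + ε_i)^(a_i) = 1 + sum a_i ε_i + R`, `‖R‖ <= max ‖ε_i‖^2` (integer exponents, also
negative: `(1+ε)^a = 1 + a ε + R` with `‖R‖ <= ‖ε‖^2`). So `‖sum a_i ε_i‖ <= C^2 p^(-2 k_j)` and
`‖sum a_i x_(j,i)‖ <= C^2 p^(-k_j)`, which tends to `0`: `sum a_i x_i = 0`, so `ARel x m`. -/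
theorem ts_rel {p : ℕ} [hp : Fact p.Prime] {V : Type*} [AddCommGroup V] [Module ℚ_[p] V]
    [FiniteDimensional ℚ_[p] V] {ι : Type*} [Fintype ι] (b : Basis ι ℚ_[p] V)
    (G : Set (Module.End ℚ_[p] V)) {n : ℕ} (S : Set (Submodule ℚ (Fin n → ℚ))) (hS : S.Finite)
    (h : ∀ g ∈ near b G ((p : ℝ) ^ 2)⁻¹, ∃ M ∈ S, ∃ z : Fin n → PadicAlgCl p, EigL g z ∧
      ∀ m ∈ M, MRel z m) :
    ∀ y ∈ TS b G, ∃ M ∈ S, ∃ z : Fin n → PadicAlgCl p, EigL y z ∧ ∀ m ∈ M, ARel z m := by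
  classical
  intro y hy
  have hpR : (1 : ℝ) < p := by exact_mod_cast hp.out.one_lt
  have hp0 : (p : ℚ_[p]) ≠ 0 := by exact_mod_cast hp.out.ne_zero
  have hρ0 : (0 : ℝ) ≤ ((p : ℝ) ^ 2)⁻¹ := by positivity
  obtain ⟨C0, hC0, hyC0⟩ := Sm.exists b y
  set C := max C0 1 with hC
  have hC1 : 1 ≤ C := le_max_right _ _
  have hC00 : 0 < C := lt_of_lt_of_le one_pos hC1
  have hyC : Sm b y C := hyC0.mono (le_max_left _ _)
  have htend : ∀ B : ℝ, Tendsto (fun k : ℕ => B * ((p : ℝ) ^ k)⁻¹) atTop (𝓝 0) := by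
    intro B
    have h1 : Tendsto (fun j : ℕ => ((p : ℝ) ^ j)⁻¹) atTop (𝓝 0) :=
      tendsto_inv_atTop_zero.comp (tendsto_pow_atTop_atTop_of_one_lt hpR)
    simpa using h1.const_mul B
  obtain ⟨K, hK⟩ := eventually_atTop.1 ((htend C).eventually_le_const
    (show (0 : ℝ) < ((p : ℝ) ^ 2)⁻¹ by positivity))
  -- the approximations
  have hex : ∀ j : ℕ, ∃ (k : ℕ) (g : Module.End ℚ_[p] V) (M : Submodule ℚ (Fin n → ℚ))
      (z : Fin n → PadicAlgCl p), j ≤ k ∧ K ≤ k ∧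
      Sm b (((p : ℚ_[p]) ^ k)⁻¹ • (g - 1) - y) (1 / ((j : ℝ) + 1)) ∧
      Sm b (((p : ℚ_[p]) ^ k)⁻¹ • (g - 1)) C ∧ M ∈ S ∧ EigL g z ∧ ∀ m ∈ M, MRel z m := by
    intro j
    obtain ⟨k, hk, g, hg, hgk⟩ := hy (1 / ((j : ℝ) + 1)) (by positivity) (max j K)
    have hj1 : 1 / ((j : ℝ) + 1) ≤ C := by
      refine le_trans ?_ hC1
      rw [div_le_one (by positivity)]
      have : (0 : ℝ) ≤ j := Nat.cast_nonneg j
      linarith
    have h1 : Sm b (((p : ℚ_[p]) ^ k)⁻¹ • (g - 1)) C := by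
      have := (hgk.mono hj1).add hyC
      rwa [sub_add_cancel] at this
    have h2 : Sm b (g - 1) (((p : ℝ) ^ k)⁻¹ * C) := by
      have h2 := h1.smul ((p : ℚ_[p]) ^ k)
      rwa [smul_smul, mul_inv_cancel₀ (pow_ne_zero _ hp0), one_smul, norm_pow, Padic.norm_p,
        inv_pow] at h2
    have h3 : g ∈ near b G ((p : ℝ) ^ 2)⁻¹ := by
      refine ⟨hg, h2.mono ?_⟩
      rw [mul_comm]
      exact hK k ((le_max_right _ _).trans hk)
    obtain ⟨M, hM, z, hz, hzM⟩ := h g h3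
    exact ⟨k, g, M, z, (le_max_left _ _).trans hk, (le_max_right _ _).trans hk, hgk, h1, hM, hz,
      hzM⟩
  choose k g M z hjk hKk hgy hgC hMS hz hzM using hex
  set u : Ultrafilter ℕ := Ultrafilter.of atTop with hu
  have hule : (u : Filter ℕ) ≤ atTop := Ultrafilter.of_le _
  -- a constant space of relations
  obtain ⟨M0, hM0, hMu⟩ : ∃ M0 ∈ S, ∀ᶠ j in (u : Filter ℕ), M j = M0 := by
    have h1 : S ∈ u.map M := by
      rw [Ultrafilter.mem_map]
      exact Filter.univ_mem' fun j => hMS j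
    obtain ⟨M0, hM0, h2⟩ := Ultrafilter.eq_pure_of_finite_mem hS h1
    refine ⟨M0, hM0, ?_⟩
    have h3 : ({M0} : Set (Submodule ℚ (Fin n → ℚ))) ∈ u.map M := by
      rw [h2]
      exact rfl
    exact h3
  -- eigenvalues of the approximations
  have hE : ∀ j : ℕ, EigL (((p : ℚ_[p]) ^ (k j))⁻¹ • (g j - 1))
      (fun i => ((p : PadicAlgCl p) ^ (k j))⁻¹ * (z j i - 1)) := by
    intro j
    have h1 := TKU_aeval (g j) (z j) (hz j) (Polynomial.C ((p : ℚ_[p]) ^ (k j))⁻¹ * (X - 1))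
    have h2 : aeval (g j) (Polynomial.C ((p : ℚ_[p]) ^ (k j))⁻¹ * (X - 1) : ℚ_[p][X]) =
        ((p : ℚ_[p]) ^ (k j))⁻¹ • (g j - 1) := by
      rw [map_mul, aeval_C, map_sub, aeval_X, map_one, Algebra.smul_def]
    have h3 : ∀ i, aeval (z j i) (Polynomial.C ((p : ℚ_[p]) ^ (k j))⁻¹ * (X - 1) : ℚ_[p][X]) =
        ((p : PadicAlgCl p) ^ (k j))⁻¹ * (z j i - 1) := by
      intro i
      rw [map_mul, aeval_C, map_sub, aeval_X, map_one, map_inv₀, map_pow, map_natCast]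
    rw [h2] at h1
    simp only [h3] at h1
    exact h1
  have hxC : ∀ j i, ‖((p : PadicAlgCl p) ^ (k j))⁻¹ * (z j i - 1)‖ ≤ C := fun j i =>
    norm_eig_le b _ C (hgC j) _ (hE j) i
  have hz1 : ∀ j i, ‖z j i - 1‖ ≤ ((p : ℝ) ^ (k j))⁻¹ * C := by
    intro j i
    have h1 := hxC j i
    rw [norm_mul, norm_inv, norm_pow, TK_cast, Padic.norm_p, inv_pow, inv_inv] at h1
    rw [inv_mul_eq_div, le_div_iff₀ (by positivity), mul_comm]
    exact h1
  have hsmall : ∀ j, ((p : ℝ) ^ (k j))⁻¹ * C ≤ ((p : ℝ) ^ 2)⁻¹ := by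
    intro j
    rw [mul_comm]
    exact hK _ (hKk j)
  obtain ⟨lam, hlam, hlim⟩ := TKU_lim b u (fun j => ((p : ℚ_[p]) ^ (k j))⁻¹ • (g j - 1)) y
    (by
      intro i c
      refine Tendsto.mono_left ?_ hule
      rw [Metric.tendsto_atTop]
      intro ε hε
      obtain ⟨J, hJ⟩ := exists_nat_gt (1 / ε)
      refine ⟨J, fun j hj => ?_⟩
      have h1 := hgy j i c
      rw [LinearMap.sub_apply, map_sub, Finsupp.sub_apply] at h1
      rw [dist_eq_norm]
      refine lt_of_le_of_lt h1 ?_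
      have hjJ : (J : ℝ) ≤ j := by exact_mod_cast hj
      have h2 : 1 / ε < (j : ℝ) + 1 := by linarith
      rw [div_lt_iff₀ hε] at h2
      rw [div_lt_iff₀ (by positivity)]
      linarith)
    (fun j i => ((p : PadicAlgCl p) ^ (k j))⁻¹ * (z j i - 1)) (Eventually.of_forall hE)
  refine ⟨M0, hM0, lam, hlam, fun m hm => ?_⟩
  obtain ⟨N, hN, a, ha⟩ := TL_denom m
  rw [TL_arel lam m N hN a ha]
  have h1 : Tendsto (fun j => ∑ i, (a i : PadicAlgCl p) *
      (((p : PadicAlgCl p) ^ (k j))⁻¹ * (z j i - 1))) u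
      (𝓝 (∑ i, (a i : PadicAlgCl p) * lam i)) :=
    tendsto_finsetSum _ fun i _ => (hlim i).const_mul _
  have h2 : Tendsto (fun j => ∑ i, (a i : PadicAlgCl p) *
      (((p : PadicAlgCl p) ^ (k j))⁻¹ * (z j i - 1))) u (𝓝 0) := by
    rw [tendsto_zero_iff_norm_tendsto_zero]
    refine squeeze_zero' (Eventually.of_forall fun j => norm_nonneg _) ?_
      ((htend (C ^ 2)).mono_left hule)
    filter_upwards [hMu] with j hj
    set ρ := ((p : ℝ) ^ (k j))⁻¹ * C with hρ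
    have hρ00 : 0 ≤ ρ := by positivity
    have hρ1 : ρ < 1 := lt_of_le_of_lt (hsmall j) TL_rho
    have hmj : MRel (z j) m := hzM j m (by rw [hj]; exact hm)
    have hprod : ∏ i, z j i ^ a i = 1 :=
      (TL_mrel (z j) (fun i => (hz1 j i).trans (hsmall j)) m N hN a ha).1 hmj
    have h3 := TJ_prod ρ hρ00 hρ1 Finset.univ (fun i => z j i ^ a i)
      (fun i => (a i : PadicAlgCl p) * (z j i - 1))
      (fun i _ => TL_near_zpow ρ hρ00 hρ1 _ (hz1 j i) _)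
      (fun i _ => TJ_zpow ρ hρ00 hρ1 _ (hz1 j i) _)
    rw [hprod, sub_self, zero_sub, norm_neg] at h3
    have h4 : ∑ i, (a i : PadicAlgCl p) * (((p : PadicAlgCl p) ^ (k j))⁻¹ * (z j i - 1)) =
        ((p : PadicAlgCl p) ^ (k j))⁻¹ * ∑ i, (a i : PadicAlgCl p) * (z j i - 1) := by
      rw [Finset.mul_sum]
      refine Finset.sum_congr rfl fun i _ => ?_
      ring
    rw [h4, norm_mul, norm_inv, norm_pow, TK_cast, Padic.norm_p, inv_pow, inv_inv]
    have hkj : ((p : ℝ) ^ (k j))⁻¹ ≤ ((p : ℝ) ^ j)⁻¹ := by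
      rw [inv_le_inv₀ (by positivity) (by positivity)]
      exact pow_le_pow_right₀ hpR.le (hjk j)
    calc (p : ℝ) ^ (k j) * ‖∑ i, (a i : PadicAlgCl p) * (z j i - 1)‖
        ≤ (p : ℝ) ^ (k j) * ρ ^ 2 := by gcongr
      _ = C ^ 2 * ((p : ℝ) ^ (k j))⁻¹ := by
          rw [hρ]
          field_simp
      _ ≤ C ^ 2 * ((p : ℝ) ^ j)⁻¹ := by gcongr
  exact tendsto_nhds_unique h1 h2

end H4S
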