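import Mathlib
import Pool.Agent.Lib.H4S.DD
import Pool.Agent.Lib.H4S.TD
import Pool.Agent.Lib.H4S.TG
import Pool.Agent.Lib.H4S.TH
import Pool.Agent.Lib.H4S.TI
import Pool.Agent.Lib.H4S.TL
import Pool.Agent.Lib.H4S.TJ
import Pool.Agent.Lib.H4S.TM

/-!
# H4S, chunk TN: the criterion at `p`
-/

set_option autoImplicit false

namespace H4S

open Module Polynomial

theorem TN_perm {α : Type*} {n : ℕ} (f g : Fin n → α)
    (h : Multiset.map f Finset.univ.val = Multiset.map g Finset.univ.val) :
    ∃ σ : Equiv.Perm (Fin n), ∀ i, g (σ i) = f i := by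
  classical
  have hc : ∀ c : α, Nonempty ({i // f i = c} ≃ {i // g i = c}) := by
    intro c
    refine ⟨Fintype.equivOfCardEq ?_⟩
    have h1 := congrArg (Multiset.count c) h
    rw [Multiset.count_map, Multiset.count_map] at h1
    rw [Fintype.card_subtype, Fintype.card_subtype]
    have e : ∀ k : Fin n → α, (Finset.univ.filter fun i => k i = c).card =
        Multiset.card (Multiset.filter (fun i => c = k i) Finset.univ.val) := by
      intro k
      rw [Finset.card_def, Finset.filter_val]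
      congr 1
      exact Multiset.filter_congr fun i _ => eq_comm
    rw [e, e]
    exact h1
  let E : ∀ c : α, {i // f i = c} ≃ {i // g i = c} := fun c => (hc c).some
  refine ⟨(Equiv.sigmaFiberEquiv f).symm.trans
    ((Equiv.sigmaCongrRight E).trans (Equiv.sigmaFiberEquiv g)), fun i => ?_⟩
  simp only [Equiv.trans_apply]
  exact (E (f i) ⟨i, rfl⟩).2

theorem TN_roots {K : Type*} [Field K] {n : ℕ} (z : Fin n → K) :
    (∏ i, (X - C (z i))).roots = Multiset.map z Finset.univ.val := by
  have h3 := roots_multiset_prod_X_sub_C (Multiset.map z Finset.univ.val)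
  rw [Multiset.map_map] at h3
  exact h3

/-- Two lists of eigenvalues differ by a permutation. -/
theorem TN_eig_perm {k K V : Type*} [Field k] [Field K] [Algebra k K] [AddCommGroup V] [Module k V]
    [FiniteDimensional k V] (A : Module.End k V) {n : ℕ} (z z' : Fin n → K) (hz : EigL A z)
    (hz' : EigL A z') : ∃ σ : Equiv.Perm (Fin n), ∀ i, z' (σ i) = z i := by
  apply TN_perm
  rw [← TN_roots, ← TN_roots, ← hz, ← hz']

theorem TN_exists {k K V : Type*} [Field k] [Field K] [IsAlgClosed K] [Algebra k K]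
    [AddCommGroup V] [Module k V] [FiniteDimensional k V] (A : Module.End k V) {n : ℕ}
    (hn : n = finrank k V) : ∃ z : Fin n → K, EigL A z := by
  classical
  subst hn
  let b := Module.finBasis k V
  obtain ⟨z, hz⟩ := Pool.Agent.Ord.exists_eigenvalues
    ((LinearMap.toMatrix b b A).map (algebraMap k K))
  refine ⟨z, ?_⟩
  rw [Matrix.charpoly_map, LinearMap.charpoly_toMatrix] at hz
  exact hz

/-- **TN** (M, assembly). `G' ⊆ G` groups of automorphisms of `V`, `V` semisimple over the
neighbourhoods of `1` in `G`; every `g` in `G` near `1` satisfies the multiplicative relations of one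
of finitely many spaces of dimension at least `d`; `f` in `G'` near `1` has a space of
relations of dimension at most `d`. If `W` is stable under `G'` and `det(f|W)^n = det(f)^r`,
`n = dim V`, `r = dim W`, then there is a projector onto `W` commuting with the elements of `G'` near
`1`.

Proof. `L = TS b G` (`ts_submodule`), `IsLie L` (`ts_lie`), `SS L` (`ts_ss`). Let `x` be the
logarithm of `f` (`exists_lg`); it is in `TS b G'` (definition; the powers of `f` are in `G'`), which
is contained in `TS b G = L`. `x` is generic: `generic` with `ts_rel` and `eig_lg` (for a list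
`nu` of eigenvalues of `x`: `EigL f z` for some `z` (`PadicAlgCl p` is algebraically
closed, dimension `n`), `eig_lg` gives a list `lam` with the same relations as `z`; `nu` is a
permutation of `lam` since both have the same product `∏ (X - ·)`; permute `M`). `W` is stable
under `TS b G'` (`ts_stable`, `δ = 1`), so under `x`. Trace relation: `trace_lg`. `coreF` gives `e`;
it commutes with all `y` in `TS b G'`, so with `near b G' (p^(-2))` by `commute_near`. -/
theorem criterion {p : ℕ} [hp : Fact p.Prime] {V : Type*} [AddCommGroup V] [Module ℚ_[p] V]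
    [FiniteDimensional ℚ_[p] V] {ι : Type*} [Fintype ι] (b : Basis ι ℚ_[p] V)
    (G G' : Set (Module.End ℚ_[p] V)) (hG : MGrp G) (hG' : MGrp G') (hsub : G' ⊆ G)
    (hss : ∀ δ : ℝ, 0 < δ → SS (near b G δ)) {n : ℕ} (hn : n = finrank ℚ_[p] V)
    (S : Set (Submodule ℚ (Fin n → ℚ))) (hS : S.Finite) (d : ℕ) (hd : ∀ M ∈ S, d ≤ finrank ℚ M)
    (hrel : ∀ g ∈ near b G ((p : ℝ) ^ 2)⁻¹, ∃ M ∈ S, ∃ z : Fin n → PadicAlgCl p, EigL g z ∧
      ∀ m ∈ M, MRel z m)
    (f : Module.End ℚ_[p] V) (hf : f ∈ near b G' ((p : ℝ) ^ 2)⁻¹)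
    (hfd : ∀ z : Fin n → PadicAlgCl p, EigL f z → ∀ M : Submodule ℚ (Fin n → ℚ),
      (∀ m ∈ M, MRel z m) → finrank ℚ M ≤ d)
    (W : Submodule ℚ_[p] V) (hW : ∀ g ∈ G', ∀ w ∈ W, g w ∈ W)
    (hdet : LinearMap.det (f.restrict (hW f hf.1)) ^ n = LinearMap.det f ^ finrank ℚ_[p] W) :
    ∃ e : Module.End ℚ_[p] V, (∀ v, e v ∈ W) ∧ (∀ w ∈ W, e w = w) ∧
      ∀ g ∈ near b G' ((p : ℝ) ^ 2)⁻¹, Commute g e := by
  classical
  obtain ⟨L, hLT⟩ := ts_submodule b G hG
  have hmem : ∀ y, y ∈ L ↔ y ∈ TS b G := by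
    intro y
    rw [← hLT]
    exact Iff.rfl
  have hmono : ∀ y ∈ TS b G', y ∈ TS b G := by
    intro y hy ε hε N
    obtain ⟨k, hk, g, hg, h⟩ := hy ε hε N
    exact ⟨k, hk, g, hsub hg, h⟩
  have hLie : IsLie L := by
    intro a ha c hc
    rw [hmem] at ha hc ⊢
    exact ts_lie b G hG a c ha hc
  have hSS : SS (L : Set (Module.End ℚ_[p] V)) := by
    rw [hLT]
    exact ts_ss b G hG hss
  obtain ⟨x, hx, -, -⟩ := exists_lg b f _ (by positivity) le_rfl hf.2
  have hxT' : x ∈ TS b G' := TB_mem b G' hG' f x hf.1 hx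
  have hxL : x ∈ L := (hmem x).2 (hmono x hxT')
  obtain ⟨z, hz⟩ := TN_exists (K := PadicAlgCl p) f hn
  obtain ⟨lam, hlam, hlz⟩ := eig_lg b f x hf.2 hx z hz
  have hgen : GenPropF (PadicAlgCl p) L x := by
    refine generic L x hxL S hS d hd ?_ ?_
    · intro y hy
      exact ts_rel b G S hS hrel y ((hmem y).1 hy)
    · intro nu hnu M hM
      obtain ⟨σ, hσ⟩ := TN_eig_perm x nu lam hnu hlam
      let φ : (Fin n → ℚ) ≃ₗ[ℚ] (Fin n → ℚ) := LinearEquiv.funCongrLeft ℚ ℚ σ.symm
      have hφ : ∀ (m : Fin n → ℚ) i, φ m i = m (σ.symm i) := fun m i => rfl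
      have h1 := hfd z hz (M.map φ.toLinearMap) (by
        rintro m' ⟨m, hm, rfl⟩
        rw [← hlz]
        have h2 : ∑ i, (m i : PadicAlgCl p) * nu i = 0 := hM m hm
        show ∑ i, ((φ m i : ℚ) : PadicAlgCl p) * lam i = 0
        rw [← h2, ← Equiv.sum_comp σ]
        refine Finset.sum_congr rfl fun i _ => ?_
        rw [hφ, Equiv.symm_apply_apply, hσ])
      have h3 : finrank ℚ (M.map φ.toLinearMap) = finrank ℚ M :=
        LinearEquiv.finrank_map_eq φ M
      rwa [h3] at h1
  have hstab : ∀ y ∈ TS b G', ∀ w ∈ W, y w ∈ W :=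
    ts_stable b G' 1 one_pos W fun g hg w hw => hW g hg.1 w hw
  have htr := trace_lg b f x hx W (hW f hf.1) (hstab x hxT') n (finrank ℚ_[p] W) hdet
  rw [hn] at htr
  obtain ⟨e, he1, he2, he3⟩ := coreF (PadicAlgCl p) L hLie hSS x hxL hgen W (hstab x hxT') htr
  refine ⟨e, he1, he2, commute_near b G' hG' e fun y hy => ?_⟩
  exact he3 y ((hmem y).2 (hmono y hy)) (hstab y hy)

end H4S
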