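import Mathlib
import Pool.Agent.Lib.H4S.TN
import Pool.Agent.Lib.H4S.FN
import Pool.Agent.Lib.H4S.FA3
import Pool.Agent.Lib.Helper90.GSem.Weights2
import Pool.Agent.Lib.H43.GS.Main

/-!
# H4S, chunk FQ: the criterion for Galois representations
-/

set_option autoImplicit false

namespace H4S

open Module Polynomial Pool.Agent.GSem

section fqaux

theorem fq_perm_list {K : Type*} [Field K] {n : ℕ} (z : Fin n → K) (k : ℕ) (K' : Type*) [Field K']
    (ι : K →+* K') : (∏ i, (X - C (z i ^ k))).map ι = ∏ i, (X - C (ι (z i) ^ k)) := by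
  rw [Polynomial.map_prod]
  refine Finset.prod_congr rfl fun i _ => ?_
  rw [Polynomial.map_sub, Polynomial.map_X, Polynomial.map_C, map_pow]

/-- Over an algebraically closed field every endomorphism has a list of eigenvalues. -/
theorem fq_exists_list {k K V : Type*} [Field k] [Field K] [IsAlgClosed K] [Algebra k K]
    [AddCommGroup V] [Module k V] [FiniteDimensional k V] (A : Module.End k V) {n : ℕ}
    (hn : n = finrank k V) : ∃ z : Fin n → K, EigL A z := by
  classical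
  have hmon : ((LinearMap.charpoly A).map (algebraMap k K)).Monic := (LinearMap.charpoly_monic A).map _
  have hsp := IsAlgClosed.splits ((LinearMap.charpoly A).map (algebraMap k K))
  have hcard : Multiset.card ((LinearMap.charpoly A).map (algebraMap k K)).roots = n := by
    rw [splits_iff_card_roots.1 hsp, Polynomial.natDegree_map, LinearMap.charpoly_natDegree, hn]
  obtain ⟨l, hl⟩ := Quot.exists_rep ((LinearMap.charpoly A).map (algebraMap k K)).roots
  have hlen : l.length = n := by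
    rw [← hcard, ← hl]; rfl
  subst hlen
  refine ⟨fun i => l.get i, ?_⟩
  unfold EigL
  rw [hsp.eq_prod_roots_of_monic hmon, ← hl]
  have h1 : (Multiset.map (fun a => X - C a) (Quot.mk _ l : Multiset K)).prod =
      (l.map (fun a => X - C a)).prod := by
    change (Multiset.map (fun a => X - C a) (l : Multiset K)).prod = _
    rw [Multiset.map_coe, Multiset.prod_coe]
  rw [h1, ← List.prod_ofFn]
  congr 1
  have h2 : List.ofFn (fun i => X - C (l.get i)) = (List.ofFn l.get).map (fun a => X - C a) := by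
    rw [List.map_ofFn]; rfl
  rw [h2, List.ofFn_get]

/-- A permuted relation. -/
theorem fq_mrel_perm {K : Type*} [Field K] {n : ℕ} (z : Fin n → K) (π : Equiv.Perm (Fin n))
    (m : Fin n → ℚ) (h : MRel (fun i => z (π i)) m) : MRel z (fun i => m (π.symm i)) := by
  obtain ⟨N, hN, a, ha, hprod⟩ := h
  refine ⟨N, hN, fun i => a (π.symm i), fun i => ha _, ?_⟩
  rw [← hprod, ← Equiv.prod_comp π]
  refine Finset.prod_congr rfl fun i _ => ?_
  simp

theorem fq_finrank_perm {n : ℕ} (π : Equiv.Perm (Fin n)) (M : Submodule ℚ (Fin n → ℚ)) :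
    ∃ M' : Submodule ℚ (Fin n → ℚ), finrank ℚ M' = finrank ℚ M ∧
      ∀ m ∈ M', ∃ m0 ∈ M, m = fun i => m0 (π.symm i) := by
  let F : (Fin n → ℚ) ≃ₗ[ℚ] (Fin n → ℚ) := LinearEquiv.funCongrLeft ℚ ℚ π.symm
  refine ⟨M.map F.toLinearMap, LinearEquiv.finrank_map_eq F M, ?_⟩
  rintro _ ⟨m0, hm0, rfl⟩
  exact ⟨m0, hm0, rfl⟩

theorem fq_mgrp {p : ℕ} [hp : Fact p.Prime] {G V : Type*} [Group G] [AddCommGroup V]
    [Module ℚ_[p] V] (ρ : Representation ℚ_[p] G V) : MGrp (Set.range ρ) where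
  one := ⟨1, map_one ρ⟩
  mul := by
    rintro _ ⟨a, rfl⟩ _ ⟨c, rfl⟩
    exact ⟨a * c, map_mul ρ a c⟩
  inv := by
    rintro _ ⟨a, rfl⟩
    refine ⟨ρ a⁻¹, ⟨a⁻¹, rfl⟩, ?_, ?_⟩
    · rw [← map_mul, mul_inv_cancel, map_one]
    · rw [← map_mul, inv_mul_cancel, map_one]

end fqaux

/-- **FQ1** (S/M). Eigenvalues of powers: if `z` lists the eigenvalues of `A`, then `z^k` lists those of
`A^k` (`Pool.Agent.H43GS.roots_charpoly_pow`, `charpoly_pow_eq` in Lib/Helper95/Ord), and for `k > 0`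
`z^k` and `z` satisfy the same relations. -/
theorem eigL_pow {k K V : Type*} [Field k] [Field K] [Algebra k K] [AddCommGroup V] [Module k V]
    [FiniteDimensional k V] (A : Module.End k V) {n : ℕ} (z : Fin n → K) (hz : EigL A z) (j : ℕ) :
    EigL (A ^ j) (fun i => z i ^ j) := by
  classical
  let K' := AlgebraicClosure K
  have hinj : Function.Injective (algebraMap K K') := (algebraMap K K').injective
  unfold EigL
  apply Polynomial.map_injective _ hinj
  rw [fq_perm_list z j K' (algebraMap K K'), Polynomial.map_map, ← IsScalarTower.algebraMap_eq k K K']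
  have hmon : ((LinearMap.charpoly (A ^ j)).map (algebraMap k K')).Monic :=
    (LinearMap.charpoly_monic _).map _
  have hsp := IsAlgClosed.splits ((LinearMap.charpoly (A ^ j)).map (algebraMap k K'))
  rw [hsp.eq_prod_roots_of_monic hmon, Pool.Agent.H43GS.roots_charpoly_pow A j]
  have h1 : ((LinearMap.charpoly A).map (algebraMap k K')).roots =
      Finset.univ.val.map (fun i => algebraMap K K' (z i)) := by
    have h2 : (LinearMap.charpoly A).map (algebraMap k K') =
        ∏ i, (X - C (algebraMap K K' (z i))) := by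
      rw [IsScalarTower.algebraMap_eq k K K', ← Polynomial.map_map]
      have h3 : (LinearMap.charpoly A).map (algebraMap k K) = ∏ i, (X - C (z i)) := hz
      rw [h3, Polynomial.map_prod]
      refine Finset.prod_congr rfl fun i _ => ?_
      rw [Polynomial.map_sub, Polynomial.map_X, Polynomial.map_C]
    rw [h2]
    exact Polynomial.roots_multiset_prod_X_sub_C (Finset.univ.val.map
      (fun i => algebraMap K K' (z i))) ▸ by
        rw [Multiset.map_map]; rfl
  rw [h1, Multiset.map_map, Multiset.map_map]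
  rfl

theorem mrel_pow {K : Type*} [Field K] {n : ℕ} (z : Fin n → K) (j : ℕ) (hj : 0 < j)
    (m : Fin n → ℚ) : MRel (fun i => z i ^ j) m ↔ MRel z m := by
  constructor
  · rintro ⟨N, hN, a, ha, hprod⟩
    refine ⟨j * N, Nat.mul_pos hj hN, fun i => j * a i, fun i => ?_, ?_⟩
    · push_cast
      rw [ha i]; ring
    · rw [← hprod]
      refine Finset.prod_congr rfl fun i _ => ?_
      rw [zpow_mul, zpow_natCast]
  · rintro ⟨N, hN, a, ha, hprod⟩
    refine ⟨N, hN, a, ha, ?_⟩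
    have h1 : ∏ i, (z i ^ j) ^ a i = (∏ i, z i ^ a i) ^ j := by
      rw [← Finset.prod_pow]
      refine Finset.prod_congr rfl fun i _ => ?_
      rw [← zpow_natCast, ← zpow_natCast, ← zpow_mul, ← zpow_mul, mul_comm]
    rw [h1, hprod, one_pow]

/-- **FQ2** (M/L, assembly). Let `G` be compact, `V` semisimple over `G`, the elements of `ρ(G)` near `1`
satisfy one of finitely many spaces of multiplicative relations, all of dimension at least `d`, and
let `φ` be a Frobenius element at `q <> p`, pure, whose eigenvalues satisfy a space of relations of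
dimension at most `d`. Then the Hodge-Tate representation `ρ ∘ s` is semisimple.

Proof. Let `W` be stable under `ρ(s g)`, `g` in `Gal`. `exists_det_weight` for `W` and for `⊤` gives
`H, N, H', N'` with `det(ρ(s g)|W)^N = χ(g)^(-HN)`, `2H = w r`, `det(ρ(s g))^(N') = χ(g)^(-H'N')`,
`2H' = w n` (`detOn ρ U hU g` is the determinant of the restriction; for `U = ⊤` it
is the determinant). Let `N0` be as in `exists_normal_near` for `G`, `δ = p^(-2)`; choose `k0 > 0` with
`(s φ)^(k0)` in `N0`, and `k = 2 N N' k0`, `f = ρ(s φ)^k = ρ(s (φ^k))`, near `1`. Then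
`det(f|W)^n = (det(ρ(s φ)|W)^N)^(2 N' k0 n) = χ(φ)^(-2 H N N' k0 n) = χ(φ)^(- w r n N N' k0)` and
`det(f)^r = (det(ρ(s φ))^(N'))^(2 N k0 r) = χ(φ)^(-2 H' N N' k0 r) = χ(φ)^(- w n r N N' k0)`: equal.
Apply `criterion` with `G = range ρ`, `G' = range (ρ ∘ s)`, (`MGrp` for ranges of representations is
easy), `ss_near`, `hrel`, and `f`: a list of eigenvalues of `f` is, up to a permutation, the list of
`k`-th powers of a list for `ρ(s φ)` (`eigL_pow`, `exists_perm_of_prod`, existence of a list as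
`PadicAlgCl p` is algebraically closed), so `hfd` holds by `mrel_pow` (permute `M`). The
projector `e` gives a complement by `complement_of_near` for `ρ ∘ s` (`Gal` is compact; `ρ ∘ s` is
continuous). -/
theorem crit_gal {p : ℕ} [hp : Fact p.Prime] {Ω : Type*} [Field Ω] [CharZero Ω]
    [IsAlgClosure ℚ Ω] {G : Type*} [Group G] [TopologicalSpace G] [IsTopologicalGroup G]
    [CompactSpace G] (s : Gal(Ω/ℚ) →* G) (hs : Continuous s)
    {V : Type*} [AddCommGroup V] [Module ℚ_[p] V] [FiniteDimensional ℚ_[p] V]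
    (ρ : Representation ℚ_[p] G V) (hρ : IsContR ρ) (hss : SSOn ρ Set.univ)
    {N : ℕ} (h : Fin N → ℤ) (hHT : IsHodgeTate (MonoidHom.comp ρ s) h)
    (w : ℤ) (q : ℕ) (hq : q.Prime) (hqp : q ≠ p) (φ : Gal(Ω/ℚ)) (hφ : IsFrobAt q φ)
    (hpure : IsPureOp q w (ρ (s φ))) {n : ℕ} (hn : n = finrank ℚ_[p] V)
    {ι : Type*} [Fintype ι] (b : Basis ι ℚ_[p] V)
    (S : Set (Submodule ℚ (Fin n → ℚ))) (hS : S.Finite) (d : ℕ) (hd : ∀ M ∈ S, d ≤ finrank ℚ M)
    (hrel : ∀ g ∈ near b (Set.range ρ) ((p : ℝ) ^ 2)⁻¹, ∃ M ∈ S, ∃ z : Fin n → PadicAlgCl p,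
      EigL g z ∧ ∀ m ∈ M, MRel z m)
    (hfd : ∀ z : Fin n → PadicAlgCl p, EigL (ρ (s φ)) z → ∀ M : Submodule ℚ (Fin n → ℚ),
      (∀ m ∈ M, MRel z m) → finrank ℚ M ≤ d) :
    HasStableComplements (MonoidHom.comp ρ s) := by
  classical
  intro W hW
  have hGal : IsGalois ℚ Ω := IsAlgClosure.isGalois ℚ Ω
  have hAC : IsAlgClosed Ω := IsAlgClosure.isAlgClosed ℚ
  have hcomp : CompactSpace Gal(Ω/ℚ) := inferInstance
  let σ : Representation ℚ_[p] Gal(Ω/ℚ) V := MonoidHom.comp ρ s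
  have hσs : ∀ g, σ g = ρ (s g) := fun g => rfl
  have hσ : IsContinuousRep σ := fun v f => (hρ v f).comp hs
  have hσ' : IsContR σ := hσ
  obtain ⟨ι', e, he⟩ := hHT
  obtain ⟨H1, N1, hN1, hH1, hdet1⟩ := exists_det_weight ι' σ hσ h e he w hq hqp hφ hpure W hW
  obtain ⟨H2, N2, hN2, hH2, hdet2⟩ := exists_det_weight ι' σ hσ h e he w hq hqp hφ hpure ⊤
    (fun _ _ _ => trivial)
  have hdtop : ∀ g, detOn σ ⊤ (fun _ _ _ => trivial) g = LinearMap.det (σ g) := by
    intro g
    change LinearMap.det ((σ g).restrict _) = _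
    rw [← LinearMap.det_conj ((σ g).restrict (p := ⊤) (q := ⊤) (fun _ _ => trivial))
      (Submodule.topEquiv : (⊤ : Submodule ℚ_[p] V) ≃ₗ[ℚ_[p]] V)]
    rfl
  have hδ : (0 : ℝ) < ((p : ℝ) ^ 2)⁻¹ := by
    have := hp.out.pos
    positivity
  obtain ⟨N0, hN0n, hN0f, hN0o, hN0⟩ := exists_normal_near ρ hρ b _ hδ
  set k0 := N0.index with hk0
  have hk0pos : 0 < k0 := Nat.pos_of_ne_zero hN0f.index_ne_zero
  have hk0mem : s φ ^ k0 ∈ N0 := Subgroup.pow_index_mem N0 (s φ)
  set k := 2 * N1 * N2 * k0 with hk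
  have hkpos : 0 < k := by positivity
  have hkmem : s (φ ^ k) ∈ N0 := by
    rw [map_pow, hk, mul_comm, pow_mul]
    exact N0.pow_mem hk0mem _
  set f := σ (φ ^ k) with hf
  have hfρ : f = ρ (s φ) ^ k := by rw [hf, hσs, map_pow, map_pow]
  have hfnear : f ∈ near b (Set.range σ) ((p : ℝ) ^ 2)⁻¹ := ⟨⟨_, rfl⟩, (hN0 _ hkmem).2⟩
  have hWr : ∀ g ∈ Set.range σ, ∀ w ∈ W, g w ∈ W := by
    rintro _ ⟨g, rfl⟩ v hv
    exact hW g v hv
  -- the determinants
  have hχ : toQ (cyc p Ω φ) ≠ (0 : ℚ_[p]) := by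
    intro h0
    have h1 : toQ (cyc p Ω φ) * toQ (cyc p Ω φ)⁻¹ = (1 : ℚ_[p]) := by
      rw [← map_mul, mul_inv_cancel, map_one]
    rw [h0, zero_mul] at h1
    exact zero_ne_one h1
  have hD1 : LinearMap.det (f.restrict (hWr f hfnear.1)) = detOn σ W hW φ ^ k := by
    have h1 : LinearMap.det (f.restrict (hWr f hfnear.1)) = detOn σ W hW (φ ^ k) := rfl
    rw [h1, map_pow]
  have hD2 : LinearMap.det f = LinearMap.det (σ φ) ^ k := by
    rw [hf, map_pow, map_pow]
  have hdet : LinearMap.det (f.restrict (hWr f hfnear.1)) ^ n =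
      LinearMap.det f ^ finrank ℚ_[p] W := by
    have e1 : detOn σ W hW φ ^ N1 = toQ (cyc p Ω φ) ^ (-(H1 * N1)) := hdet1 φ
    have e2 : LinearMap.det (σ φ) ^ N2 = toQ (cyc p Ω φ) ^ (-(H2 * N2)) := by
      rw [← hdtop]; exact hdet2 φ
    rw [hD1, hD2, ← pow_mul, ← pow_mul]
    have i1 : k * n = N1 * (2 * N2 * k0 * n) := by rw [hk]; ring
    have i2 : k * finrank ℚ_[p] W = N2 * (2 * N1 * k0 * finrank ℚ_[p] W) := by rw [hk]; ring
    rw [i1, i2, pow_mul, pow_mul _ N2, e1, e2, ← zpow_natCast, ← zpow_natCast, ← zpow_mul,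
      ← zpow_mul]
    congr 1
    push_cast
    rw [finrank_top, ← hn] at hH2
    have j1 : -(H1 * (N1 : ℤ)) * (2 * N2 * k0 * n) = -(2 * H1) * (N1 * N2 * k0 * n) := by ring
    have j2 : -(H2 * (N2 : ℤ)) * (2 * N1 * k0 * (finrank ℚ_[p] W : ℤ)) =
        -(2 * H2) * (N1 * N2 * k0 * (finrank ℚ_[p] W : ℤ)) := by ring
    rw [j1, j2, hH1, hH2]
    ring
  -- few relations
  have hfd' : ∀ z : Fin n → PadicAlgCl p, EigL f z → ∀ M : Submodule ℚ (Fin n → ℚ),
      (∀ m ∈ M, MRel z m) → finrank ℚ M ≤ d := by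
    intro z hz M hM
    obtain ⟨z0, hz0⟩ := fq_exists_list (K := PadicAlgCl p) (ρ (s φ)) hn
    have hz1 : EigL f (fun i => z0 i ^ k) := by
      rw [hfρ]; exact eigL_pow _ z0 hz0 k
    obtain ⟨π, hπ⟩ := exists_perm_of_prod (fun i => z0 i ^ k) z (hz1.symm.trans hz)
    obtain ⟨M', hM', hM'2⟩ := fq_finrank_perm π M
    rw [← hM']
    refine hfd z0 hz0 M' ?_
    intro m hm
    obtain ⟨m0, hm0, rfl⟩ := hM'2 m hm
    rw [← mrel_pow z0 k hkpos]
    apply fq_mrel_perm (fun i => z0 i ^ k) π m0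
    have h1 : (fun i => (fun i => z0 i ^ k) (π i)) = z := by
      funext i
      exact (hπ i).symm
    rw [h1]
    exact hM m0 hm0
  obtain ⟨e', q1, q2, q3⟩ := criterion b (Set.range ρ) (Set.range σ) (fq_mgrp ρ) (fq_mgrp σ)
    (by rintro _ ⟨g, rfl⟩; exact ⟨s g, rfl⟩) (fun δ hδ => ss_near ρ hρ hss b δ hδ) hn S hS d hd hrel
    f hfnear hfd' W hWr hdet
  obtain ⟨W', hW', hc⟩ := complement_of_near σ hσ' b _ hδ W hW e' q1 q2 q3
  exact ⟨W', hW', hc⟩

end H4S
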