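import Mathlib
import Pool.Agent.Lib.H4S.FQ
import Pool.Agent.Lib.H4S.FB
import Pool.Agent.Lib.H43.GS.Main

/-!
# H4S, chunk FS: Frobenius elements at `s` with few relations
-/

set_option autoImplicit false

namespace H4S

open Module Polynomial Pool.Agent.GSem

/-- **FS** (M/L). Suppose the image of `Gal(Ω/ℚ)` in `θ(G)` contains `θ(N)`, `N` an open subgroup, and
for large primes `q` the relations of `θ(s f)`, `f` a Frobenius element at `q`, are one of the
finitely many spaces in `S`. For every `g0` in `G` and every bound `c` there is a Frobenius element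
`f` at a prime `q > c` whose space of relations has dimension at most that of `θ g0`.

Proof. Suppose all Frobenius elements `f` at primes `q > c' = max(b,c)` have relation spaces `M_f` in
`S` of dimension larger than `dim M0`, and let `S'` be the set of all `M` in `S` with
`dim M > dim M0`. Let `N1` be as in `exists_normal_near` for `θ`, `δ = l^(-2)`, open; choose `k > 0`
with `g0^k` in `N` and in `N1` (finite index). `θ(g0^k) = θ(s σ)`, `σ` in `Gal`. Let
`A` be the set of all `f^j` (`f` a Frobenius element at some `q > c'`, `j` a natural number) such that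
`θ(s f^j) - 1` has size at most `l^(-2)`. By `Pool.Agent.H43GS.mem_closure_frob_powers`
`σ` is in the closure of the set of all `f^j`, and the condition
`θ(s x) - 1` of size at most `l^(-2)` is open in `x` (the norm of `ℚ_l` takes
discrete values; or use the smaller condition that `s x` is in `g0^k N1`), so
`σ` is in the closure of `A`. For `x = f^j` in `A`: with `z` for `θ(s f)`, the list `z^j` is an
eigenvalue list (`eigL_pow`) which satisfies all relations in `M_f` (`mrel_pow`, or `j = 0` and all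
entries are `1`). By `closure_rel` (for `θ ∘ s`) `θ(s σ) = θ(g0)^k` satisfies, for a list `z'`, all
relations of some `M` in `S'`. `z'` is a permutation of `z0^k`, so by `mrel_pow` the space of relations
of `z0` contains a permuted copy of `M`: `dim M <= dim M0`, a contradiction. -/
theorem frob_at_s {l : ℕ} [hl : Fact l.Prime] {Ω : Type*} [Field Ω] [CharZero Ω]
    [IsAlgClosure ℚ Ω] {G : Type*} [Group G] [TopologicalSpace G] [IsTopologicalGroup G]
    [CompactSpace G] (s : Gal(Ω/ℚ) →* G) (hs : Continuous s)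
    {U : Type*} [AddCommGroup U] [Module ℚ_[l] U] [FiniteDimensional ℚ_[l] U]
    (θ : Representation ℚ_[l] G U) (hθ : IsContR θ)
    (hopen : ∃ N : Subgroup G, IsOpen (N : Set G) ∧ ∀ g ∈ N, ∃ σ, θ g = θ (s σ))
    {n : ℕ} (S : Set (Submodule ℚ (Fin n → ℚ))) (hS : S.Finite) (b : ℕ)
    (hrel : ∀ q : ℕ, b < q → q.Prime → ∀ f : Gal(Ω/ℚ), IsFrobAt q f →
      ∃ z : Fin n → PadicAlgCl l, EigL (θ (s f)) z ∧ ∃ M ∈ S, ∀ m, m ∈ M ↔ MRel z m)
    (g0 : G) (z0 : Fin n → PadicAlgCl l) (hz0 : EigL (θ g0) z0)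
    (M0 : Submodule ℚ (Fin n → ℚ)) (hM0 : ∀ m, m ∈ M0 ↔ MRel z0 m) (c : ℕ) :
    ∃ q : ℕ, c < q ∧ q.Prime ∧ ∃ f : Gal(Ω/ℚ), IsFrobAt q f ∧
      ∃ z : Fin n → PadicAlgCl l, EigL (θ (s f)) z ∧ ∃ M ∈ S, (∀ m, m ∈ M ↔ MRel z m) ∧
        finrank ℚ M ≤ finrank ℚ M0 := by
  classical
  by_contra hcon
  push Not at hcon
  have hGal : IsGalois ℚ Ω := IsAlgClosure.isGalois ℚ Ω
  set c' := max b c with hc'
  let bU := Module.finBasis ℚ_[l] U
  have hδ : (0 : ℝ) < ((l : ℝ) ^ 2)⁻¹ := by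
    have := hl.out.pos
    positivity
  obtain ⟨N, hNo, hN⟩ := hopen
  have hNq : Finite (G ⧸ N) := Subgroup.quotient_finite_of_isOpen N hNo
  have hNf : N.FiniteIndex := Subgroup.finiteIndex_of_finite_quotient
  obtain ⟨N1, hN1n, hN1f, hN1o, hN1⟩ := exists_normal_near θ hθ bU _ hδ
  have hfi : (N ⊓ N1).FiniteIndex := inferInstance
  obtain ⟨k, hk, -, hkm⟩ := Subgroup.exists_pow_mem_of_index_ne_zero hfi.index_ne_zero g0
  obtain ⟨σ, hσ⟩ := hN _ hkm.1
  -- the powers of Frobenius elements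
  let Pw : Set Gal(Ω/ℚ) := {x | ∃ q : ℕ, c' < q ∧ q.Prime ∧ ∃ f : Gal(Ω/ℚ), IsFrobAt q f ∧
    ∃ j : ℕ, x = f ^ j}
  have hPw : Dense Pw := by
    intro g
    refine Pool.Agent.H43GS.mem_closure_frob_powers c' g Pw ?_
    intro q hq hqp f hf m
    exact ⟨q, hq, hqp, f, hf, m, rfl⟩
  let τ : Representation ℚ_[l] Gal(Ω/ℚ) U := MonoidHom.comp θ s
  have hτs : ∀ x, τ x = θ (s x) := fun x => rfl
  have hτ : IsContR τ := fun v f => (hθ v f).comp hs
  have hO : IsOpen {x : Gal(Ω/ℚ) | Sm bU (τ x - 1) ((l : ℝ) ^ 2)⁻¹} := fn_open τ hτ bU _ hδ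
  have hσO : σ ∈ {x : Gal(Ω/ℚ) | Sm bU (τ x - 1) ((l : ℝ) ^ 2)⁻¹} := by
    change Sm bU (τ σ - 1) ((l : ℝ) ^ 2)⁻¹
    rw [hτs, ← hσ]
    exact (hN1 _ hkm.2).2
  have hσc := hPw.open_subset_closure_inter hO hσO
  have hcl := closure_rel bU (fun x => τ x) (fun i j => hτ (bU j) (bU.coord i))
    {M ∈ S | finrank ℚ M0 < finrank ℚ M} (hS.subset fun M h => h.1)
    ({x : Gal(Ω/ℚ) | Sm bU (τ x - 1) ((l : ℝ) ^ 2)⁻¹} ∩ Pw) ?_ σ hσc
  · obtain ⟨-, M, ⟨hMS, hMlt⟩, z', hz', hMz'⟩ := hcl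
    have hz0k : EigL (τ σ) (fun i => z0 i ^ k) := by
      have h1 : τ σ = θ g0 ^ k := by rw [hτs, ← hσ, map_pow]
      rw [h1]
      exact eigL_pow _ z0 hz0 k
    obtain ⟨π, hπ⟩ := exists_perm_of_prod (fun i => z0 i ^ k) z' (hz0k.symm.trans hz')
    obtain ⟨M1, h1, h2⟩ := fq_finrank_perm π M
    have h3 : M1 ≤ M0 := by
      intro m hm
      obtain ⟨m0, hm0, rfl⟩ := h2 m hm
      rw [hM0, ← mrel_pow z0 k hk]
      apply fq_mrel_perm (fun i => z0 i ^ k) π m0
      have h4 : (fun i => (fun i => z0 i ^ k) (π i)) = z' := by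
        funext i
        exact (hπ i).symm
      rw [h4]
      exact hMz' m0 hm0
    have h5 := Submodule.finrank_mono h3
    rw [h1] at h5
    exact absurd hMlt (not_lt.2 h5)
  · rintro x ⟨hx, q, hq, hqp, f, hf, j, rfl⟩
    refine ⟨hx, ?_⟩
    have hqb : b < q := lt_of_le_of_lt (le_max_left _ _) hq
    have hqc : c < q := lt_of_le_of_lt (le_max_right _ _) hq
    obtain ⟨z, hz, M, hM, hMr⟩ := hrel q hqb hqp f hf
    have hlt := hcon q hqc hqp f hf z hz M hM hMr
    refine ⟨M, ⟨hM, hlt⟩, fun i => z i ^ j, ?_, ?_⟩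
    · have h1 : τ (f ^ j) = θ (s f) ^ j := by rw [hτs, map_pow, map_pow]
      rw [h1]
      exact eigL_pow _ z hz j
    · intro m hm
      rcases Nat.eq_zero_or_pos j with hj | hj
      · obtain ⟨N', hN', a, ha⟩ := TL_denom m
        refine ⟨N', hN', a, ha, ?_⟩
        rw [hj]
        simp
      · rw [mrel_pow z j hj]
        exact (hMr m).1 hm

end H4S
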