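import Mathlib
import Pool.Agent.Lib.H4S.FS
import Pool.Agent.Lib.H4S.FA

/-!
# H4S, chunk FG: semisimplicity in families
-/

set_option autoImplicit false

namespace H4S

open Module Polynomial Pool.Agent.GSem

section fgaux

theorem fg_reverse {k V : Type*} [Field k] [AddCommGroup V] [Module k V] [FiniteDimensional k V]
    (A A' : Module.End k V) (h : A * A' = 1) :
    ∃ c : k, c ≠ 0 ∧ (LinearMap.charpoly A').reverse = C c * LinearMap.charpoly A := by
  classical
  let b := Module.finBasis k V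
  set M := LinearMap.toMatrix b b A with hM
  set M' := LinearMap.toMatrix b b A' with hM'
  have h1 : M * M' = 1 := by
    rw [hM, hM', ← LinearMap.toMatrix_mul, h, LinearMap.toMatrix_one]
  have hinv : M'⁻¹ = M := Matrix.inv_eq_left_inv h1
  have hdet : M.det * M'.det = 1 := by rw [← Matrix.det_mul, h1, Matrix.det_one]
  have hdet0 : M'.det ≠ 0 := right_ne_zero_of_mul_eq_one hdet
  have hunit : IsUnit M' := by
    rw [Matrix.isUnit_iff_isUnit_det]
    exact hdet0.isUnit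
  have h2 := Matrix.charpoly_inv M' hunit
  rw [hinv, Ring.inverse_eq_inv', ← Matrix.reverse_charpoly, hM, hM', LinearMap.charpoly_toMatrix,
    LinearMap.charpoly_toMatrix] at h2
  rw [← hM'] at h2
  refine ⟨(-1) ^ Fintype.card (Fin (finrank k V)) * M'.det, ?_, ?_⟩
  · exact mul_ne_zero (pow_ne_zero _ (neg_ne_zero.2 one_ne_zero)) hdet0
  · rw [h2]
    have h3 : (C ((-1) ^ Fintype.card (Fin (finrank k V)) * M'.det) : k[X]) *
        ((-1) ^ Fintype.card (Fin (finrank k V)) * C M'.det⁻¹ * (LinearMap.charpoly A').reverse) =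
        (((-1) ^ Fintype.card (Fin (finrank k V))) ^ 2 * (C M'.det * C M'.det⁻¹)) *
          (LinearMap.charpoly A').reverse := by
      rw [C_mul, C_pow, C_neg, C_1]; ring
    rw [h3, ← pow_mul, mul_comm _ 2, pow_mul, neg_one_sq, one_pow, one_mul, ← C_mul,
      mul_inv_cancel₀ hdet0, C_1, one_mul]

theorem fg_reverse_lin {K : Type*} [Field K] (a : K) : (X - C a).reverse = 1 - C a * X := by
  have h1 : (X - C a : K[X]).natDegree = 1 := natDegree_X_sub_C a
  ext i
  rw [coeff_reverse, h1]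
  rcases i with _ | _ | i
  · rw [revAt_le (Nat.zero_le 1)]
    simp [coeff_one]
  · rw [revAt_le (le_refl 1)]
    simp [coeff_one]
  · rw [revAt_eq_self_of_lt (by omega)]
    simp [coeff_X, coeff_one]

theorem fg_reverse_prod {K : Type*} [Field K] {n : ℕ} (y : Fin n → K) (hy : ∀ i, y i ≠ 0) :
    (∏ i, (X - C (y i))).reverse = C (∏ i, -(y i)) * ∏ i, (X - C (y i)⁻¹) := by
  classical
  have h1 : ∀ s : Finset (Fin n), (∏ i ∈ s, (X - C (y i))).reverse =
      C (∏ i ∈ s, -(y i)) * ∏ i ∈ s, (X - C (y i)⁻¹) := by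
    intro s
    induction s using Finset.induction_on with
    | empty =>
      rw [Finset.prod_empty, Finset.prod_empty, Finset.prod_empty, C_1, one_mul, ← C_1, reverse_C]
    | insert i s hi ih =>
      rw [Finset.prod_insert hi, Finset.prod_insert hi, Finset.prod_insert hi,
        reverse_mul_of_domain, ih, fg_reverse_lin, C_mul]
      have h2 : (1 - C (y i) * X : K[X]) = C (-(y i)) * (X - C (y i)⁻¹) := by
        rw [mul_sub, ← C_mul, neg_mul, mul_inv_cancel₀ (hy i), C_neg, C_neg, C_1]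
        ring
      rw [h2]; ring
  exact h1 Finset.univ

theorem fg_reverse_map {R S : Type*} [Semiring R] [Semiring S] (f : R →+* S)
    (hf : Function.Injective f) (P : R[X]) : (P.map f).reverse = P.reverse.map f := by
  unfold reverse
  rw [natDegree_map_eq_of_injective hf, reflect_map]

/-- The list of the inverses is a list of eigenvalues of the inverse. -/
theorem fg_eig_inv {k K V : Type*} [Field k] [Field K] [Algebra k K] [AddCommGroup V] [Module k V]
    [FiniteDimensional k V] (A A' : Module.End k V) (h : A * A' = 1) {n : ℕ} (y : Fin n → K)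
    (hy0 : ∀ i, y i ≠ 0) (hy : EigL A' y) : EigL A (fun i => (y i)⁻¹) := by
  obtain ⟨c, hc, hrev⟩ := fg_reverse A A' h
  have h1 := congrArg (Polynomial.map (algebraMap k K)) hrev
  have h0 : (LinearMap.charpoly A').map (algebraMap k K) = ∏ i, (X - C (y i)) := hy
  rw [← fg_reverse_map _ (algebraMap k K).injective, h0, fg_reverse_prod y hy0, Polynomial.map_mul,
    Polynomial.map_C] at h1
  have hm1 : (∏ i, (X - C (y i)⁻¹)).Monic := monic_prod_of_monic _ _ fun i _ => monic_X_sub_C _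
  have hm2 : ((LinearMap.charpoly A).map (algebraMap k K)).Monic := (LinearMap.charpoly_monic A).map _
  have h2 := congrArg leadingCoeff h1
  rw [leadingCoeff_mul, leadingCoeff_mul, leadingCoeff_C, leadingCoeff_C, hm1.leadingCoeff,
    hm2.leadingCoeff, mul_one, mul_one] at h2
  rw [h2] at h1
  have h3 : (C (algebraMap k K c) : K[X]) ≠ 0 := by
    rw [Ne, C_eq_zero]
    exact (map_ne_zero (algebraMap k K)).2 hc
  exact (mul_left_cancel₀ h3 h1).symm

theorem fg_mrel_inv {K : Type*} [Field K] {n : ℕ} (y : Fin n → K) (m : Fin n → ℚ) :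
    MRel (fun i => (y i)⁻¹) m ↔ MRel y m := by
  have h1 : ∀ (a : Fin n → ℤ), ∏ i, (y i)⁻¹ ^ a i = (∏ i, y i ^ a i)⁻¹ := by
    intro a
    rw [← Finset.prod_inv_distrib]
    exact Finset.prod_congr rfl fun i _ => inv_zpow _ _
  constructor
  · rintro ⟨N, hN, a, ha, hp⟩
    refine ⟨N, hN, a, ha, ?_⟩
    rw [h1] at hp
    exact inv_eq_one.1 hp
  · rintro ⟨N, hN, a, ha, hp⟩
    refine ⟨N, hN, a, ha, ?_⟩
    rw [h1, hp, inv_one]

/-- Comparison of dimensions. -/
theorem fg_le {K : Type*} [Field K] {n : ℕ} (z z' : Fin n → K)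
    (h : ∏ i, (X - C (z i)) = ∏ i, (X - C (z' i))) (M M' : Submodule ℚ (Fin n → ℚ))
    (hM : ∀ m, MRel z m → m ∈ M) (hM' : ∀ m ∈ M', MRel z' m) : finrank ℚ M' ≤ finrank ℚ M := by
  obtain ⟨π, hπ⟩ := exists_perm_of_prod z z' h
  obtain ⟨M1, h1, h2⟩ := fq_finrank_perm π M'
  rw [← h1]
  refine Submodule.finrank_mono ?_
  intro m hm
  obtain ⟨m0, hm0, rfl⟩ := h2 m hm
  apply hM
  apply fq_mrel_perm z π m0
  have h3 : (fun i => z (π i)) = z' := funext fun i => (hπ i).symm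
  rw [h3]
  exact hM' m0 hm0

theorem fg_transfer (P : ℤ[X]) {K K' : Type} [Field K] [CharZero K] [Field K'] [CharZero K']
    {n : ℕ} (z : Fin n → K) (hz : RootL P z) (z' : Fin n → K') (hz' : RootL P z')
    (M M' : Submodule ℚ (Fin n → ℚ)) (hM : ∀ m, MRel z m → m ∈ M) (hM' : ∀ m ∈ M', MRel z' m) :
    finrank ℚ M' ≤ finrank ℚ M := by
  obtain ⟨π, hπ⟩ := mrel_transfer P z hz z' hz'
  let F : (Fin n → ℚ) ≃ₗ[ℚ] (Fin n → ℚ) := LinearEquiv.funCongrLeft ℚ ℚ π
  rw [← LinearEquiv.finrank_map_eq F M']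
  refine Submodule.finrank_mono ?_
  rintro _ ⟨m0, hm0, rfl⟩
  apply hM
  have h1 := (hπ m0).1 (hM' m0 hm0)
  exact h1

end fgaux

/-- **FG1** (S/M). For a Frobenius element of `G`, with characteristic polynomial of its inverse in
`ℤ[X]`, pure: the eigenvalues of `A = ρ φ` are the inverses of the roots of `P`, and a list of
them and its list of inverses satisfy the same relations. -/
theorem frob_rel {p : ℕ} [hp : Fact p.Prime] {V : Type*} [AddCommGroup V] [Module ℚ_[p] V]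
    [FiniteDimensional ℚ_[p] V] {n w : ℕ} (hn : n = finrank ℚ_[p] V)
    (S : Set (Submodule ℚ (Fin n → ℚ))) (hS : RelList n w S) (q : ℕ) (hq : q.Prime)
    (A A' : Module.End ℚ_[p] V) (hA : A * A' = 1) (P : ℤ[X])
    (hP : ∀ z : ℂ, aeval z P = 0 → ‖z‖ ^ 2 = (q : ℝ) ^ w)
    (hA' : LinearMap.charpoly A' = P.map (algebraMap ℤ ℚ_[p])) :
    ∃ y : Fin n → PadicAlgCl p, RootL P y ∧ EigL A (fun i => (y i)⁻¹) ∧
      ∃ M ∈ S, (∀ m, m ∈ M ↔ MRel y m) ∧ ∀ m, m ∈ M ↔ MRel (fun i => (y i)⁻¹) m := by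
  classical
  obtain ⟨y, hy⟩ := fq_exists_list (K := PadicAlgCl p) A' hn
  have hroot : RootL P y := by
    unfold RootL
    have h1 : (LinearMap.charpoly A').map (algebraMap ℚ_[p] (PadicAlgCl p)) =
      ∏ i, (X - C (y i)) := hy
    rw [hA', Polynomial.map_map] at h1
    rw [← h1]
    congr 1
  obtain ⟨M, hM, hMrel⟩ := hS q hq P hP (PadicAlgCl p) y hroot
  have hy0 : ∀ i, y i ≠ 0 := by
    intro i h0
    have h1 : (LinearMap.charpoly A').map (algebraMap ℚ_[p] (PadicAlgCl p)) =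
      ∏ i, (X - C (y i)) := hy
    have h2 : ((LinearMap.charpoly A').map (algebraMap ℚ_[p] (PadicAlgCl p))).eval 0 = 0 := by
      rw [h1, eval_prod]
      exact Finset.prod_eq_zero (Finset.mem_univ i) (by simp [h0])
    rw [← map_zero (algebraMap ℚ_[p] (PadicAlgCl p)), eval_map_algebraMap, aeval_algebraMap_apply,
      coe_aeval_eq_eval] at h2
    have h2' := (algebraMap ℚ_[p] (PadicAlgCl p)).injective h2
    have h3 : LinearMap.det A' = 0 := by
      rw [LinearMap.det_eq_sign_charpoly_coeff, coeff_zero_eq_eval_zero, h2', mul_zero]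
    have h4 : LinearMap.det A * LinearMap.det A' = 1 := by
      rw [← LinearMap.det.map_mul, hA, LinearMap.det.map_one]
    rw [h3, mul_zero] at h4
    exact zero_ne_one h4
  refine ⟨y, hroot, fg_eig_inv A A' hA y hy0 hy, M, hM, hMrel, ?_⟩
  intro m
  rw [fg_mrel_inv]
  exact hMrel m

/-- **FG2** (M/L, assembly). THE FAMILY THEOREM. `G` compact with a dense set of Frobenius elements,
`θ` over `ℚ_l` and `ρ` over `ℚ_p` with the same integral, pure characteristic polynomials of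
(inverses of) Frobenius elements at large primes, `s : Gal(Ω/ℚ) -> G` a section mapping Frobenius
elements to Frobenius elements, with open image in `θ(G)`, `V` semisimple over `G`. Then
`ρ ∘ s` is semisimple.

Proof. `n = dim V = dim U` (degree of `P` for one Frobenius element). Let `S` be a finite list
(`finite_relList n w`). For a Frobenius element `φ` of `G` at `q > b` (so `frob_rel` for `θ` and for
`ρ`, with the same `P`) the spaces of relations of `θ φ` and `ρ φ` are in `S` and have the same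
dimension `d(φ)` (`mrel_transfer`). Let `d` be the minimum of `d(s f)` over all Frobenius elements `f`
of `Gal` at primes `q > b` (they exist: `Pool.Agent.Ord.exists_frob_gen`, or
`mem_closure_frob_powers` with the empty set), attained at `f0`. By `frob_at_s` with `g0 = s f0`,
`c = max b p`, there is a Frobenius element `f` at a prime `q > max b p` with `d(s f) <= d`, so `= d`;
`q <> p`. For any Frobenius element `φ` of `G` at `q > b` `frob_at_s` with `g0 = φ` gives some `f'`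
with `d <= d(s f') <= d(φ)`. Let `S_d` be the set of all `M` in `S` with `d <= dim M`.
Every `g` in `near b (range ρ) p^(-2)` satisfies some `M` in `S_d`: `g = ρ x`; `x` is in the
closure of the set of Frobenius elements `φ` at primes `> b` with `ρ φ - 1` of size at most
`p^(-2)` (an open condition on `φ`, as the norm of `ℚ_p` takes discrete values; the Frobenius
elements are dense), each of these satisfies the relations of its own space in `S_d`;
`closure_rel` with `c = ρ`. Now apply `crit_gal` with `S_d`, `d`, `f`; purity `IsPureOp q (w : ℤ)` of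
`ρ (s f)` (arithmetic normalisation: `‖z‖^2 = q^(-w)`): take the reverse of `P` over `ℚ` (the
polynomial with roots the inverses of the roots of `P`), or the characteristic polynomial of
`ρ (s f)`, which is `P(0)^(-1)` times the reversed polynomial. -/
theorem family {l p : ℕ} [hl : Fact l.Prime] [hp : Fact p.Prime] {Ω : Type*} [Field Ω]
    [CharZero Ω] [IsAlgClosure ℚ Ω] {G : Type*} [Group G] [TopologicalSpace G]
    [IsTopologicalGroup G] [CompactSpace G]
    (Fr : ℕ → Set G) (hdense : ∀ c : ℕ, Dense {φ : G | ∃ q, c < q ∧ q.Prime ∧ φ ∈ Fr q})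
    (s : Gal(Ω/ℚ) →* G) (hs : Continuous s) (b : ℕ)
    (hsF : ∀ q, b < q → q.Prime → ∀ f, IsFrobAt q f → s f ∈ Fr q)
    {U : Type*} [AddCommGroup U] [Module ℚ_[l] U] [FiniteDimensional ℚ_[l] U]
    (θ : Representation ℚ_[l] G U) (hθ : IsContR θ)
    {V : Type*} [AddCommGroup V] [Module ℚ_[p] V] [FiniteDimensional ℚ_[p] V]
    (ρ : Representation ℚ_[p] G V) (hρ : IsContR ρ) (w : ℕ)
    (hcompat : ∀ q, b < q → q.Prime → ∀ φ ∈ Fr q, ∃ P : ℤ[X],
      (∀ z : ℂ, aeval z P = 0 → ‖z‖ ^ 2 = (q : ℝ) ^ w) ∧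
      LinearMap.charpoly (θ φ⁻¹) = P.map (algebraMap ℤ ℚ_[l]) ∧
      LinearMap.charpoly (ρ φ⁻¹) = P.map (algebraMap ℤ ℚ_[p]))
    (hopen : ∃ N : Subgroup G, IsOpen (N : Set G) ∧ ∀ g ∈ N, ∃ σ, θ g = θ (s σ))
    (hss : SSOn ρ Set.univ)
    {N : ℕ} (h : Fin N → ℤ) (hHT : IsHodgeTate (MonoidHom.comp ρ s) h) :
    HasStableComplements (MonoidHom.comp ρ s) := by
  classical
  set n := finrank ℚ_[p] V with hn
  obtain ⟨S, hSfin, hS⟩ := finite_relList n w
  -- dimensions
  have hUn : n = finrank ℚ_[l] U := by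
    obtain ⟨φ, q, hq, hqp, hφ⟩ := (hdense b).nonempty
    obtain ⟨P, hP, h1, h2⟩ := hcompat q hq hqp φ hφ
    have e1 := LinearMap.charpoly_natDegree (θ φ⁻¹)
    have e2 := LinearMap.charpoly_natDegree (ρ φ⁻¹)
    rw [h1, natDegree_map_eq_of_injective (algebraMap ℤ ℚ_[l]).injective_int] at e1
    rw [h2, natDegree_map_eq_of_injective (algebraMap ℤ ℚ_[p]).injective_int] at e2
    rw [hn, ← e2, e1]
  have hinvθ : ∀ φ, θ φ * θ φ⁻¹ = 1 := fun φ => by rw [← map_mul, mul_inv_cancel, map_one]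
  have hinvρ : ∀ φ, ρ φ * ρ φ⁻¹ = 1 := fun φ => by rw [← map_mul, mul_inv_cancel, map_one]
  -- the relation spaces of a Frobenius element at `l` and at `p`
  have hrelθ : ∀ q, b < q → q.Prime → ∀ φ ∈ Fr q, ∃ z : Fin n → PadicAlgCl l, EigL (θ φ) z ∧
      ∃ M ∈ S, ∀ m, m ∈ M ↔ MRel z m := by
    intro q hq hqp φ hφ
    obtain ⟨P, hP, h1, h2⟩ := hcompat q hq hqp φ hφ
    obtain ⟨y, hy1, hy2, M, hM, hM1, hM2⟩ := frob_rel hUn S hS q hqp (θ φ) (θ φ⁻¹) (hinvθ φ) P hP h1
    exact ⟨_, hy2, M, hM, hM2⟩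
  have hcmp : ∀ q, b < q → q.Prime → ∀ φ ∈ Fr q, ∃ z : Fin n → PadicAlgCl p, EigL (ρ φ) z ∧
      ∃ M ∈ S, (∀ m, m ∈ M ↔ MRel z m) ∧ ∀ z' : Fin n → PadicAlgCl l, EigL (θ φ) z' →
        ∀ M' : Submodule ℚ (Fin n → ℚ), (∀ m, m ∈ M' ↔ MRel z' m) →
          finrank ℚ M' = finrank ℚ M := by
    intro q hq hqp φ hφ
    obtain ⟨P, hP, h1, h2⟩ := hcompat q hq hqp φ hφ
    obtain ⟨y, hy1, hy2, M, hM, hM1, hM2⟩ := frob_rel hn S hS q hqp (ρ φ) (ρ φ⁻¹) (hinvρ φ) P hP h2
    obtain ⟨y', hy1', hy2', M1, hM', hM1', hM2'⟩ :=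
      frob_rel hUn S hS q hqp (θ φ) (θ φ⁻¹) (hinvθ φ) P hP h1
    refine ⟨_, hy2, M, hM, hM2, ?_⟩
    intro z' hz' M' hM'z
    have e1 : finrank ℚ M' = finrank ℚ M1 := by
      apply le_antisymm
      · exact fg_le (fun i => (y' i)⁻¹) z' (hy2'.symm.trans hz') M1 M'
          (fun m h => (hM2' m).2 h) (fun m h => (hM'z m).1 h)
      · exact fg_le z' (fun i => (y' i)⁻¹) (hz'.symm.trans hy2') M' M1
          (fun m h => (hM'z m).2 h) (fun m h => (hM2' m).1 h)
    rw [e1]
    apply le_antisymm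
    · exact fg_transfer P y hy1 y' hy1' M M1 (fun m h => (hM1 m).2 h) (fun m h => (hM1' m).1 h)
    · exact fg_transfer P y' hy1' y hy1 M1 M (fun m h => (hM1' m).2 h) (fun m h => (hM1 m).1 h)
  have hrels : ∀ q : ℕ, b < q → q.Prime → ∀ f : Gal(Ω/ℚ), IsFrobAt q f →
      ∃ z : Fin n → PadicAlgCl l, EigL (θ (s f)) z ∧ ∃ M ∈ S, ∀ m, m ∈ M ↔ MRel z m :=
    fun q hq hqp f hf => hrelθ q hq hqp (s f) (hsF q hq hqp f hf)
  -- the minimal dimension
  let D : Set ℕ := {d | ∃ q : ℕ, b < q ∧ q.Prime ∧ ∃ f : Gal(Ω/ℚ), IsFrobAt q f ∧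
    ∃ z : Fin n → PadicAlgCl l, EigL (θ (s f)) z ∧ ∃ M ∈ S, (∀ m, m ∈ M ↔ MRel z m) ∧
      finrank ℚ M = d}
  have hDne : D.Nonempty := by
    by_contra hne
    have h1 := Pool.Agent.H43GS.mem_closure_frob_powers b (1 : Gal(Ω/ℚ)) ∅ (by
      intro q hq hqp f hf m
      obtain ⟨z, hz, M, hM, hMr⟩ := hrels q hq hqp f hf
      exact (hne ⟨_, q, hq, hqp, f, hf, z, hz, M, hM, hMr, rfl⟩).elim)
    rw [closure_empty] at h1
    exact h1
  set d := sInf D with hd
  obtain ⟨q0, hq0, hq0p, f0, hf0, z0, hz0, M0, hM0, hM0r, hM0d⟩ := Nat.sInf_mem hDne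
  obtain ⟨q, hqb, hqp, f, hf, z, hz, M, hM, hMr, hMd⟩ :=
    frob_at_s s hs θ hθ hopen S hSfin b hrels (s f0) z0 hz0 M0 hM0r (max b p)
  have hqb' : b < q := lt_of_le_of_lt (le_max_left _ _) hqb
  have hqp' : q ≠ p := (lt_of_le_of_lt (le_max_right _ _) hqb).ne'
  have hMd' : finrank ℚ M ≤ d := by rw [hd, ← hM0d]; exact hMd
  -- the lower bound
  have hlow : ∀ q, b < q → q.Prime → ∀ φ ∈ Fr q, ∃ z : Fin n → PadicAlgCl p, EigL (ρ φ) z ∧
      ∃ M ∈ S, d ≤ finrank ℚ M ∧ ∀ m, m ∈ M ↔ MRel z m := by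
    intro q hq hqp φ hφ
    obtain ⟨z, hz, M, hM, hMr, hcmpz⟩ := hcmp q hq hqp φ hφ
    obtain ⟨z', hz', M', hM', hMr'⟩ := hrelθ q hq hqp φ hφ
    obtain ⟨q1, hq1, hq1p, f1, hf1, z1, hz1, M1, hM1, hM1r, hM1d⟩ :=
      frob_at_s s hs θ hθ hopen S hSfin b hrels φ z' hz' M' hMr' b
    refine ⟨z, hz, M, hM, ?_, hMr⟩
    rw [← hcmpz z' hz' M' hMr']
    have h9 : finrank ℚ M1 ∈ D := ⟨q1, hq1, hq1p, f1, hf1, z1, hz1, M1, hM1, hM1r, rfl⟩
    exact (Nat.sInf_le h9).trans hM1d
  let b' := Module.finBasis ℚ_[p] V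
  have hr0 : ((p : ℝ) ^ 2)⁻¹ ≠ 0 := by
    have := hp.out.pos
    positivity
  have hcoef : ∀ i j, Continuous fun y => b'.repr (ρ y (b' j)) i := fun i j =>
    hρ (b' j) (b'.coord i)
  -- the elements near 1
  have hrel : ∀ g ∈ near b' (Set.range ρ) ((p : ℝ) ^ 2)⁻¹, ∃ M ∈ {M ∈ S | d ≤ finrank ℚ M},
      ∃ z : Fin n → PadicAlgCl p, EigL g z ∧ ∀ m ∈ M, MRel z m := by
    rintro _ ⟨⟨x, rfl⟩, hx⟩
    let A : Set G := {a | Sm b' (ρ a - 1) ((p : ℝ) ^ 2)⁻¹} ∩ {φ : G | ∃ q, b < q ∧ q.Prime ∧ φ ∈ Fr q}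
    have hO : IsOpen {a : G | Sm b' (ρ a - 1) ((p : ℝ) ^ 2)⁻¹} := by
      have h1 : {a : G | Sm b' (ρ a - 1) ((p : ℝ) ^ 2)⁻¹} = ⋂ i, ⋂ j,
          (fun a => b'.repr ((ρ a - 1) (b' j)) i) ⁻¹' Metric.closedBall 0 ((p : ℝ) ^ 2)⁻¹ := by
        ext a
        simp only [Set.mem_ofPred_eq, Set.mem_iInter, Set.mem_preimage, Metric.mem_closedBall,
          dist_zero_right]
        rfl
      rw [h1]
      refine isOpen_iInter_of_finite fun i => isOpen_iInter_of_finite fun j => ?_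
      refine (IsUltrametricDist.isOpen_closedBall 0 hr0).preimage ?_
      have h2 : (fun a => b'.repr ((ρ a - 1) (b' j)) i) =
          fun a => b'.repr (ρ a (b' j)) i - b'.repr (b' j) i := by
        funext a
        simp
      rw [h2]
      exact (hcoef i j).sub continuous_const
    have hxA : x ∈ closure A := (hdense b).open_subset_closure_inter hO hx
    have h3 := closure_rel b' (fun y => ρ y) hcoef {M ∈ S | d ≤ finrank ℚ M}
      (hSfin.subset fun M h => h.1) A ?_ x hxA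
    · exact h3.2
    · rintro a ⟨ha, q, hq, hqp, haq⟩
      obtain ⟨z, hz, M, hM, hMd, hMr⟩ := hlow q hq hqp a haq
      exact ⟨ha, M, ⟨hM, hMd⟩, z, hz, fun m hm => (hMr m).1 hm⟩
  -- purity
  have hpure : IsPureOp q (w : ℤ) (ρ (s f)) := by
    obtain ⟨P, hP, h1, h2⟩ := hcompat q hqb' hqp (s f) (hsF q hqb' hqp f hf)
    obtain ⟨c, hc, hrev⟩ := fg_reverse (ρ (s f)) (ρ (s f)⁻¹) (hinvρ _)
    have hP0 : P ≠ 0 := by
      rintro rfl
      rw [Polynomial.map_zero] at h2
      exact (LinearMap.charpoly_monic (ρ (s f)⁻¹)).ne_zero h2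
    refine ⟨(P.map (algebraMap ℤ ℚ)).reverse, ?_, ?_, ?_⟩
    · rw [Ne, reverse_eq_zero, Polynomial.map_eq_zero_iff (algebraMap ℤ ℚ).injective_int]
      exact hP0
    · intro z hz
      have hz0 : z ≠ 0 := by
        rintro rfl
        have h3 : (P.map (algebraMap ℤ ℚ)).leadingCoeff = 0 := by
          rw [← coeff_zero_reverse, coeff_zero_eq_eval_zero]
          rw [← map_zero (algebraMap ℚ ℂ), aeval_algebraMap_apply, coe_aeval_eq_eval] at hz
          exact (algebraMap ℚ ℂ).injective hz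
        rw [leadingCoeff_eq_zero, Polynomial.map_eq_zero_iff (algebraMap ℤ ℚ).injective_int] at h3
        exact hP0 h3
      have hinv : Invertible (z⁻¹) := invertibleOfNonzero (inv_ne_zero hz0)
      have h4 := eval₂_reverse_eq_zero_iff (algebraMap ℚ ℂ) z⁻¹ (P.map (algebraMap ℤ ℚ))
      rw [invOf_eq_inv, inv_inv, ← aeval_def] at h4
      have h5 := h4.1 hz
      rw [eval₂_map] at h5
      have h6 : aeval z⁻¹ P = 0 := by
        rw [aeval_def, ← h5]
        congr 1
      have h7 := hP z⁻¹ h6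
      rw [norm_inv, inv_pow] at h7
      rw [zpow_neg, zpow_natCast, ← h7, inv_inv]
    · have h8 : ((P.map (algebraMap ℤ ℚ)).reverse).map (algebraMap ℚ ℚ_[p]) =
          C c * LinearMap.charpoly (ρ (s f)) := by
        rw [← fg_reverse_map _ (algebraMap ℚ ℚ_[p]).injective, Polynomial.map_map, ← hrev, h2]
        congr 2
      rw [h8, map_mul, LinearMap.aeval_self_charpoly, mul_zero]
  -- few relations
  have hfd : ∀ z' : Fin n → PadicAlgCl p, EigL (ρ (s f)) z' → ∀ M' : Submodule ℚ (Fin n → ℚ),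
      (∀ m ∈ M', MRel z' m) → finrank ℚ M' ≤ d := by
    intro z' hz' M' hM'
    obtain ⟨z2, hz2, M2, hM2, hM2r, hcmpz⟩ := hcmp q hqb' hqp (s f) (hsF q hqb' hqp f hf)
    have e1 : finrank ℚ M = finrank ℚ M2 := hcmpz z hz M hMr
    have e2 : finrank ℚ M' ≤ finrank ℚ M2 :=
      fg_le z2 z' (hz2.symm.trans hz') M2 M' (fun m h => (hM2r m).2 h) hM'
    rw [← e1] at e2
    exact e2.trans hMd'
  exact crit_gal s hs ρ hρ hss h hHT (w : ℤ) q hqp hqp' f hf hpure hn b' {M ∈ S | d ≤ finrank ℚ M}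
    (hSfin.subset fun M h => h.1) d (fun M h => h.2) hrel hfd

end H4S
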